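import Mathlib
import Pool.Agent.Lib.P4a7640.Defs

/-!
# Entropy of blocks of multiplicative sign functions: definitions
-/

open Finset Filter Topology MeasureTheory
open Pool.Agent.Lib.P4a7640

namespace Pool.Agent.Lib.P4a7640E

open Classical in
/-- the probability of the event `P n` when `n ≤ N` is chosen with probability proportional
to `1/n` -/
noncomputable def pr (N : ℕ) (P : ℕ → Prop) : ℝ :=
  (∑ n ∈ (Icc 1 N).filter (fun n => P n), (1:ℝ) / n) / ∑ n ∈ Icc 1 N, (1:ℝ) / n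

/-- Shannon entropy (in nats) of the random variable `X n`, `n ≤ N` chosen with probability
proportional to `1/n` -/
noncomputable def Ent {α : Type} [Fintype α] (N : ℕ) (X : ℕ → α) : ℝ :=
  ∑ a, Real.negMulLog (pr N fun n => X n = a)

/-- the block `(f(n), ..., f(n+L-1))` -/
def blk (f : ℕ → ℤˣ) (L n : ℕ) : Fin L → ℤˣ := fun j => f (n + j)

open Classical in
/-- the sum of `1/p` over the primes `N^(1/c) < p ≤ N` with `u(p) ≠ χ(p)` -/
noncomputable def topMass (c : ℕ) (u : ℕ → ℤˣ) {q : ℕ} (χ : DirichletCharacter ℤ q) (N : ℕ) : ℝ :=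
  ∑ p ∈ (Icc 1 N).filter
    (fun p => p.Prime ∧ N < p ^ c ∧ ((u p : ℤˣ) : ℤ) ≠ χ (p : ZMod q)), (1:ℝ) / p

/-- `{-1,0,1}^ℤ` -/
abbrev XX : Type := ℤ → SignType

instance : MeasurableSpace XX := borel XX

instance : BorelSpace XX := ⟨rfl⟩

/-- the probability measure `μ` is the weak-* limit of `μ_N` along the filter `l` -/
def FurstAlong (f : ℕ → ℤˣ) (l : Filter ℕ) (μ : Measure XX) : Prop :=
  IsProbabilityMeasure μ ∧
    ∀ F : XX → ℝ, Continuous F → Tendsto (fun N => muInt f N F) l (𝓝 (∫ x, F x ∂μ))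

/-- the entropy (in nats) of the coordinates `0, ..., L-1` -/
noncomputable def HM (μ : Measure XX) (L : ℕ) : ℝ :=
  ∑ x : Fin L → SignType, Real.negMulLog (μ.real {y | ∀ j : Fin L, y (j : ℕ) = x j})

/-- the entropy of the shift-invariant measure `μ` (Kolmogorov-Sinai entropy of the shift, in
nats) -/
noncomputable def hKS (μ : Measure XX) : ℝ := ⨅ L : ℕ, HM μ (L + 1) / ((L : ℝ) + 1)

open Classical in
/-- the patterns `x ∈ {-1,1}^L` such that `(f(n), ..., f(n+L-1)) = x` for a set of `n` of positive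
upper logarithmic density along `l` -/
noncomputable def pats (f : ℕ → ℤˣ) (l : Filter ℕ) (L : ℕ) : Finset (Fin L → ℤˣ) :=
  univ.filter fun x => ¬ Tendsto (fun N => pr N fun n => blk f L n = x) l (𝓝 0)

/-- the number of `p ∈ D` that divide one of the `n + h`, `h ∈ Hp p` -/
def KP (Hp : ℕ → Finset ℕ) (D : Finset ℕ) (n : ℕ) : ℕ :=
  (D.filter fun p => ∃ h ∈ Hp p, p ∣ n + h).card

/-- the sign `(-1)^#{p ∈ D : p ∣ n + h for some h ∈ Hp p}` -/
def uP (Hp : ℕ → Finset ℕ) (D : Finset ℕ) (n : ℕ) : ℝ := (-1) ^ KP Hp D n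

end Pool.Agent.Lib.P4a7640E
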