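import Mathlib
import Pool.Agent.Lib.P4a7640E.Base
import Pool.Agent.Lib.P4a7640T.NearChar

/-!
# Functions corrected at the top primes
-/

open Finset Filter Topology
open Pool.Agent.Lib.P4a7640 Pool.Agent.Lib.P4a7640D Pool.Agent.Lib.P4a7640T

namespace Pool.Agent.Lib.P4a7640E

open Classical in
/-- the primes `N^(1/2^c) < p ≤ N` with `u p ≠ g p` -/
noncomputable def TT (c : ℕ) (u g : ℕ → ℤˣ) (N : ℕ) : Finset ℕ :=
  (Icc 1 N).filter (fun p => p.Prime ∧ N < p ^ (2 ^ c) ∧ u p ≠ g p)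

/-- `u` corrected at the primes of `TT c u g N` -/
noncomputable def vv (c : ℕ) (u g : ℕ → ℤˣ) (N n : ℕ) : ℤˣ := u n * dsg (TT c u g N) n

end Pool.Agent.Lib.P4a7640E
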