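import Mathlib
import Pool.Agent.Lib.P4a7640E.Defs

/-!
# Families of functions close to characters

Module P4a7640E.DiffF (1 h).

* `prod_PP_fam_close`: adapt `prod_PP_close` (file P4a7640/Stable.lean): if no `n + j`, `j ∈ H`, is
  `Bad` for `B j = (sgC (h j p) ≠ χ j p)` then the products agree (`PP_eq_of_not_bad`); otherwise the
  left side is `≤ 2 = 2 * BI (B j) y m (n+j)` for a bad `j`.
* `LA_diff_fam`: adapt `LA_diff_le`: `sg (F j (n+j)) = sg (h j (n+j)) * sg (G j (n+j))` with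
  `h j = F j * G j` (`sg_mul`, `sg_mul_self`), so the difference of the integrands is
  `(∏ sg (h j (n+j)) - ∏ PP ..) * ∏ sg (G j (n+j))`. Then `LA_mono`, `LA_sum`, `LA_shift`,
  `LA_BI_le` as there.
* `prod_dsg_fam`: adapt `prodSeq_dsg` (file P4a7640T/NearChar.lean):
  `{p ∈ D : ∃ h ∈ H, p ∈ Dj h ∧ p ∣ n + h}` is the disjoint union over `h ∈ H` of
  `{p ∈ Dj h : p ∣ n + h}` (disjoint since `p ∣ n + h`, `p ∣ n + h'`, `h ≠ h' < p` is impossible).
* `prod_PP_fam_periodic`, `abs_prod_PP_fam`: as `prod_PP_periodic`, `abs_prod_PP`.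
-/

open Finset Filter Topology
open Pool.Agent.Lib.P4a7640 Pool.Agent.Lib.P4a7640D Pool.Agent.Lib.P4a7640T

namespace Pool.Agent.Lib.P4a7640E

lemma abs_prod_sg_fam (G : ℕ → ℕ → ℤˣ) (H : Finset ℕ) (n : ℕ) :
    |∏ j ∈ H, sg (G j (n + j))| = 1 := by
  rw [Finset.abs_prod]
  exact Finset.prod_eq_one fun j _ => abs_sg _

theorem prod_PP_fam_periodic (h : ℕ → ℕ → ℤˣ) {q : ℕ} (χ : ℕ → DirichletCharacter ℂ q)
    (y m : ℕ) (H : Finset ℕ) (n : ℕ) :
    ∏ j ∈ H, PP (h j) (χ j) y m (n + q * QQ y m + j) = ∏ j ∈ H, PP (h j) (χ j) y m (n + j) := by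
  refine Finset.prod_congr rfl fun j _ => ?_
  rw [show n + q * QQ y m + j = n + j + q * QQ y m by ring, PP_periodic]

theorem abs_prod_PP_fam (h : ℕ → ℕ → ℤˣ) {q : ℕ} (χ : ℕ → DirichletCharacter ℂ q)
    (y m : ℕ) (H : Finset ℕ) (n : ℕ) : |∏ j ∈ H, PP (h j) (χ j) y m (n + j)| ≤ 1 := by
  rw [Finset.abs_prod]
  exact Finset.prod_le_one (fun _ _ => abs_nonneg _) (fun i _ => abs_PP _ _ _ _ _)

theorem prod_PP_fam_close {h : ℕ → ℕ → ℤˣ} {q : ℕ} (χ : ℕ → DirichletCharacter ℂ q)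
    (y m : ℕ) (H : Finset ℕ) (hh : ∀ j ∈ H, MultS (h j)) (n : ℕ) :
    |∏ j ∈ H, sg (h j (n + j)) - ∏ j ∈ H, PP (h j) (χ j) y m (n + j)| ≤
      ∑ j ∈ H, 2 * BI (fun p => sgC (h j p) ≠ χ j (p : ZMod q)) y m (n + j) := by
  classical
  by_cases hall : ∀ j ∈ H, ¬ Bad (fun p => sgC (h j p) ≠ χ j (p : ZMod q)) y m (n + j)
  · have h1 : ∏ j ∈ H, sg (h j (n + j)) = ∏ j ∈ H, PP (h j) (χ j) y m (n + j) := by
      refine Finset.prod_congr rfl fun j hj => ?_
      rw [PP_eq_of_not_bad (hh j hj) (χ j) _ (hall j hj)]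
      rcases Nat.eq_zero_or_pos (n + j) with h0 | h0
      · exact absurd (h0 ▸ bad_zero (fun p => sgC (h j p) ≠ χ j (p : ZMod q)) y m) (hall j hj)
      · exact h0
    rw [h1, sub_self, abs_zero]
    exact Finset.sum_nonneg fun j _ => mul_nonneg (by norm_num) (BI_nonneg _ _ _ _)
  · push Not at hall
    obtain ⟨j, hj, hbad⟩ := hall
    have h1 : BI (fun p => sgC (h j p) ≠ χ j (p : ZMod q)) y m (n + j) = 1 := by
      unfold BI
      rw [if_pos hbad]
    calc |∏ j ∈ H, sg (h j (n + j)) - ∏ j ∈ H, PP (h j) (χ j) y m (n + j)|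
        ≤ |∏ j ∈ H, sg (h j (n + j))| + |∏ j ∈ H, PP (h j) (χ j) y m (n + j)| := abs_sub _ _
      _ ≤ 1 + 1 := add_le_add (abs_prod_sg_fam h H n).le (abs_prod_PP_fam h χ y m H n)
      _ = 2 * BI (fun p => sgC (h j p) ≠ χ j (p : ZMod q)) y m (n + j) := by rw [h1]; norm_num
      _ ≤ _ := Finset.single_le_sum
          (f := fun j => 2 * BI (fun p => sgC (h j p) ≠ χ j (p : ZMod q)) y m (n + j))
          (fun i _ => mul_nonneg (by norm_num) (BI_nonneg _ _ _ _)) hj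

theorem LA_diff_fam {F G : ℕ → ℕ → ℤˣ} {q : ℕ} (χ : ℕ → DirichletCharacter ℂ q) (y m : ℕ)
    (H : Finset ℕ) (hh : ∀ j ∈ H, MultS fun n => F j n * G j n) {N : ℕ} (hN : 2 ≤ N) :
    |LA (fun n => ∏ j ∈ H, sg (F j (n + j))) N -
      LA (fun n => (∏ j ∈ H, PP (fun n => F j n * G j n) (χ j) y m (n + j)) *
        ∏ j ∈ H, sg (G j (n + j))) N| ≤
      ∑ j ∈ H, 2 * ((1 + 3 / Real.log N) *
        EB (fun p => sgC (F j p * G j p) ≠ χ j (p : ZMod q)) y m N + 3 * j / Real.log N) := by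
  set h : ℕ → ℕ → ℤˣ := fun j n => F j n * G j n with hhd
  have h1 : LA (fun n => ∏ j ∈ H, sg (F j (n + j))) N -
      LA (fun n => (∏ j ∈ H, PP (h j) (χ j) y m (n + j)) * ∏ j ∈ H, sg (G j (n + j))) N =
      LA (fun n => ∏ j ∈ H, sg (F j (n + j)) - (∏ j ∈ H, PP (h j) (χ j) y m (n + j)) *
        ∏ j ∈ H, sg (G j (n + j))) N := by
    have := LA_add (fun n => ∏ j ∈ H, sg (F j (n + j)) -
      (∏ j ∈ H, PP (h j) (χ j) y m (n + j)) * ∏ j ∈ H, sg (G j (n + j)))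
      (fun n => (∏ j ∈ H, PP (h j) (χ j) y m (n + j)) * ∏ j ∈ H, sg (G j (n + j))) N
    simp only [sub_add_cancel] at this
    linarith
  have h0 : LA (fun n => (∏ j ∈ H, PP (fun n => F j n * G j n) (χ j) y m (n + j)) *
        ∏ j ∈ H, sg (G j (n + j))) N =
      LA (fun n => (∏ j ∈ H, PP (h j) (χ j) y m (n + j)) * ∏ j ∈ H, sg (G j (n + j))) N := rfl
  rw [h0, h1]
  refine (abs_LA_le _ N).trans ?_
  have h2 : ∀ n, |∏ j ∈ H, sg (F j (n + j)) - (∏ j ∈ H, PP (h j) (χ j) y m (n + j)) *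
      ∏ j ∈ H, sg (G j (n + j))| ≤
      ∑ j ∈ H, 2 * BI (fun p => sgC (h j p) ≠ χ j (p : ZMod q)) y m (n + j) := by
    intro n
    refine le_trans (le_of_eq ?_) (prod_PP_fam_close χ y m H hh n)
    have h3 : ∏ j ∈ H, sg (F j (n + j)) =
        (∏ j ∈ H, sg (h j (n + j))) * ∏ j ∈ H, sg (G j (n + j)) := by
      rw [← Finset.prod_mul_distrib]
      refine Finset.prod_congr rfl fun j _ => ?_
      show sg (F j (n + j)) = sg (F j (n + j) * G j (n + j)) * sg (G j (n + j))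
      rw [sg_mul, mul_assoc, sg_mul_self, mul_one]
    rw [h3, ← sub_mul, abs_mul, abs_prod_sg_fam, mul_one]
  refine (LA_mono h2 N).trans ?_
  rw [LA_sum]
  refine Finset.sum_le_sum fun j _ => ?_
  set B : ℕ → Prop := fun p => sgC (h j p) ≠ χ j (p : ZMod q) with hB
  have h4 : LA (fun n => 2 * BI B y m (n + j)) N = 2 * LA (fun n => BI B y m (n + j)) N :=
    LA_const_mul _ _ _
  rw [h4]
  apply mul_le_mul_of_nonneg_left _ (by norm_num)
  have h5 := LA_shift (u := BI B y m) (fun n => by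
    rw [abs_of_nonneg (BI_nonneg _ _ _ _)]
    exact BI_le_one _ _ _ _) j N
  have h6 := (abs_le.mp h5).2
  have h7 := LA_BI_le B y m hN
  have h8 : EB (fun p => sgC (F j p * G j p) ≠ χ j (p : ZMod q)) y m N = EB B y m N := rfl
  rw [h8]
  linarith

open Classical in
theorem prod_dsg_fam (H : Finset ℕ) (Dj : ℕ → Finset ℕ) (D : Finset ℕ)
    (hD : ∀ j ∈ H, Dj j ⊆ D) (hlt : ∀ p ∈ D, ∀ h ∈ H, h < p) (n : ℕ) :
    ∏ j ∈ H, sg (dsg (Dj j) (n + j)) = uP (fun p => H.filter fun j => p ∈ Dj j) D n := by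
  unfold uP KP dsg
  have h1 : (D.filter fun p => ∃ h ∈ H.filter (fun j => p ∈ Dj j), p ∣ n + h) =
      H.biUnion (fun h => (Dj h).filter fun p => p ∣ n + h) := by
    ext p
    simp only [Finset.mem_filter, Finset.mem_biUnion]
    constructor
    · rintro ⟨_, h, ⟨hh, hm⟩, hd⟩
      exact ⟨h, hh, hm, hd⟩
    · rintro ⟨h, hh, hm, hd⟩
      exact ⟨hD h hh hm, h, ⟨hh, hm⟩, hd⟩
  have h2 : (H.biUnion (fun h => (Dj h).filter fun p => p ∣ n + h)).card =
      ∑ h ∈ H, ((Dj h).filter fun p => p ∣ n + h).card := by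
    apply Finset.card_biUnion
    intro h hh h' hh' hne
    show Disjoint ((Dj h).filter fun p => p ∣ n + h) ((Dj h').filter fun p => p ∣ n + h')
    rw [Finset.disjoint_left]
    intro p hp hp'
    rw [Finset.mem_filter] at hp hp'
    have hz := hlt p (hD h hh hp.1) h hh
    have hz' := hlt p (hD h hh hp.1) h' hh'
    rcases lt_or_gt_of_ne hne with hlt | hlt
    · have h3 : p ∣ (n + h') - (n + h) := Nat.dvd_sub hp'.2 hp.2
      have h4 : (n + h') - (n + h) = h' - h := by omega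
      rw [h4] at h3
      have h5 := Nat.le_of_dvd (by omega) h3
      omega
    · have h3 : p ∣ (n + h) - (n + h') := Nat.dvd_sub hp.2 hp'.2
      have h4 : (n + h) - (n + h') = h - h' := by omega
      rw [h4] at h3
      have h5 := Nat.le_of_dvd (by omega) h3
      omega
  rw [h1, h2, ← Finset.prod_pow_eq_pow_sum]
  refine Finset.prod_congr rfl fun h _ => ?_
  simp [sg]

end Pool.Agent.Lib.P4a7640E
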