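import Mathlib
import Pool.Agent.Lib.P4a7640T.ApBlocks
import Pool.Agent.Lib.P4a7640E.Base

/-!
# Mean values of block polynomials, shifts depending on the prime

Module P4a7640E.BlocksP (1 h).

Adapt `gen_count` and `mean_blocks_ap` of the file P4a7640T/ApBlocks.lean (`base_count`, `crt_two`,
`ind_eq_sum` and all lemmas about `esy`, `prod_blocks`, `esy_ind`, `level` can be cited): the set `H`
is replaced by `Hp p` and `H.card` by `(Hp p).card ≤ m`.
* `gen_countP`: in the induction step the error is `∑ h ∈ Hp p, ∏ r ∈ T, (Hp r).card =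
  (Hp p).card * ∏ r ∈ T, (Hp r).card`, and the main term is `x/q * ((Hp p).card/p) * ∏ ...`.
* `mean_blocksP`: `KP Hp D n` in the place of `KK H D n` (the same definition with `Hp p`), the error
  is `∑ T, |c T| * ∏ p ∈ T, (Hp p).card ≤ ∑ T, |c T| * m ^ T.card`, and `level m D J R x` ends the
  proof as in `mean_blocks_ap`. For `e2` use `esy_ind` (see file P4a7640D/Expand.lean) for the
  indicator of `∃ h ∈ Hp p, p ∣ n + h`.
-/

open Finset

namespace Pool.Agent.Lib.P4a7640E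

open Pool.Agent.Lib.P4a7640 Pool.Agent.Lib.P4a7640D Pool.Agent.Lib.P4a7640T

theorem gen_countP (Hp : ℕ → Finset ℕ) (x : ℕ) (T : Finset ℕ) :
    (∀ p ∈ T, p.Prime) → (∀ p ∈ T, ∀ h ∈ Hp p, h < p) → ∀ q c : ℕ, 0 < q →
    (∀ p ∈ T, Nat.Coprime q p) →
    |∑ n ∈ Icc 1 x, (if n ≡ c [MOD q] then (1:ℝ) else 0) *
        ∏ p ∈ T, (if ∃ h ∈ Hp p, p ∣ n + h then (1:ℝ) else 0) -
      x / q * ∏ p ∈ T, (((Hp p).card : ℝ) / p)| ≤ ∏ p ∈ T, ((Hp p).card : ℝ) := by
  induction T using Finset.induction_on with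
  | empty =>
    intro _ _ q c hq _
    simpa using base_count x q c hq
  | @insert p T hpT ih =>
    intro hT hHT q c hq hco
    have hp : p.Prime := hT p (mem_insert_self _ _)
    have hp0 : (p:ℝ) ≠ 0 := by exact_mod_cast hp.ne_zero
    have hq0 : (q:ℝ) ≠ 0 := by exact_mod_cast hq.ne'
    have hcop : Nat.Coprime q p := hco p (mem_insert_self _ _)
    choose c' hc' using fun h => crt_two hcop hp.pos c h
    have hih : ∀ h ∈ Hp p, |∑ n ∈ Icc 1 x, (if n ≡ c' h [MOD q * p] then (1:ℝ) else 0) *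
        ∏ p ∈ T, (if ∃ h ∈ Hp p, p ∣ n + h then (1:ℝ) else 0) -
      x / ((q * p : ℕ) : ℝ) * ∏ p ∈ T, (((Hp p).card : ℝ) / p)| ≤ ∏ p ∈ T, ((Hp p).card : ℝ) := by
      intro h _
      refine ih (fun r hr => hT r (mem_insert_of_mem hr)) (fun r hr => hHT r (mem_insert_of_mem hr))
        (q * p) (c' h) (Nat.mul_pos hq hp.pos) ?_
      intro r hr
      refine Nat.Coprime.mul_left (hco r (mem_insert_of_mem hr)) ?_
      refine (Nat.coprime_primes hp (hT r (mem_insert_of_mem hr))).2 ?_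
      rintro rfl
      exact hpT hr
    have hsplit : ∑ n ∈ Icc 1 x, (if n ≡ c [MOD q] then (1:ℝ) else 0) *
        ∏ p ∈ insert p T, (if ∃ h ∈ Hp p, p ∣ n + h then (1:ℝ) else 0) =
        ∑ h ∈ Hp p, ∑ n ∈ Icc 1 x, (if n ≡ c' h [MOD q * p] then (1:ℝ) else 0) *
          ∏ p ∈ T, (if ∃ h ∈ Hp p, p ∣ n + h then (1:ℝ) else 0) := by
      rw [sum_comm]
      refine sum_congr rfl fun n _ => ?_
      rw [prod_insert hpT, ind_eq_sum (Hp p) (hHT p (mem_insert_self _ _)) n, ← mul_assoc, mul_sum,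
        sum_mul]
      refine sum_congr rfl fun h _ => ?_
      congr 1
      have h5 := hc' h n
      by_cases h6 : n ≡ c [MOD q]
      · by_cases h7 : p ∣ n + h
        · rw [if_pos h6, if_pos h7, if_pos (h5.1 ⟨h6, h7⟩), one_mul]
        · rw [if_neg h7, if_neg (fun h8 => h7 (h5.2 h8).2), mul_zero]
      · rw [if_neg h6, if_neg (fun h8 => h6 (h5.2 h8).1), zero_mul]
    have hmain : (x:ℝ) / q * ∏ p ∈ insert p T, (((Hp p).card : ℝ) / p) =
        ∑ h ∈ Hp p, x / ((q * p : ℕ) : ℝ) * ∏ p ∈ T, (((Hp p).card : ℝ) / p) := by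
      rw [prod_insert hpT, sum_const, nsmul_eq_mul]
      push_cast
      field_simp
    rw [hsplit, hmain, ← sum_sub_distrib, prod_insert hpT]
    calc |∑ h ∈ Hp p, (∑ n ∈ Icc 1 x, (if n ≡ c' h [MOD q * p] then (1:ℝ) else 0) *
          ∏ p ∈ T, (if ∃ h ∈ Hp p, p ∣ n + h then (1:ℝ) else 0) -
          x / ((q * p : ℕ) : ℝ) * ∏ p ∈ T, (((Hp p).card : ℝ) / p))|
        ≤ ∑ h ∈ Hp p, |∑ n ∈ Icc 1 x, (if n ≡ c' h [MOD q * p] then (1:ℝ) else 0) *
          ∏ p ∈ T, (if ∃ h ∈ Hp p, p ∣ n + h then (1:ℝ) else 0) -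
          x / ((q * p : ℕ) : ℝ) * ∏ p ∈ T, (((Hp p).card : ℝ) / p)| := abs_sum_le_sum_abs _ _
      _ ≤ ∑ _h ∈ Hp p, ∏ p ∈ T, ((Hp p).card : ℝ) := sum_le_sum hih
      _ = ((Hp p).card : ℝ) * ∏ p ∈ T, ((Hp p).card : ℝ) := by
          rw [sum_const, nsmul_eq_mul]

theorem mean_blocksP (Hp : ℕ → Finset ℕ) (m : ℕ) (D : Finset ℕ) (J R x q a : ℕ) (hq : 0 < q)
    (hD : ∀ p ∈ D, p.Prime ∧ (∀ h ∈ Hp p, h < p) ∧ (Hp p).card ≤ m ∧ (2 * m) ^ 2 ≤ p ∧ be p < J)
    (hco : ∀ p ∈ D, Nat.Coprime q p)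
    (hx : 2 ^ (2 ^ (J + 2) * (R + 2)) ≤ x) (φ : ℕ → ℕ → ℝ) (hφ : ∀ j r, |φ j r| ≤ 2 ^ r) :
    |∑ n ∈ Icc 1 x, (if n ≡ a [MOD q] then (1:ℝ) else 0) *
        ∏ j ∈ range J, (∑ r ∈ range (R + (J - 1 - j) + 2),
        φ j r * ((KP Hp (D.filter fun p => be p = j) n).choose r : ℝ)) -
      x / q * ∏ j ∈ range J, (∑ r ∈ range (R + (J - 1 - j) + 2),
        φ j r * esy (fun p => ((Hp p).card : ℝ) / p) (D.filter fun p => be p = j) r)| ≤
      (x : ℝ) ^ ((3:ℝ) / 4) := by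
  classical
  set Rj : ℕ → ℕ := fun j => R + (J - 1 - j) + 1 with hRj
  set φ' : ℕ → ℕ → ℝ := fun j r => if r ≤ Rj j then φ j r else 0 with hφ'def
  have hφ' : ∀ j r, Rj j < r → φ' j r = 0 := by
    intro j r hr
    show (if r ≤ Rj j then φ j r else 0) = 0
    rw [if_neg (by omega)]
  set c : Finset ℕ → ℝ := fun T => ∏ j ∈ range J, φ' j (T.filter fun p => be p = j).card with hc
  have e1 : ∀ w : ℕ → ℝ, ∏ j ∈ range J, (∑ r ∈ range (R + (J - 1 - j) + 2),
      φ j r * esy w (D.filter fun p => be p = j) r) =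
      ∑ T ∈ D.powerset, c T * ∏ p ∈ T, w p := by
    intro w
    rw [← prod_blocks w be D J (fun p hp => (hD p hp).2.2.2.2) Rj φ' hφ']
    refine prod_congr rfl fun j _ => ?_
    have h1 : R + (J - 1 - j) + 2 = Rj j + 1 := rfl
    rw [h1]
    refine sum_congr rfl fun r hr => ?_
    have h2 : r ≤ Rj j := by
      have := mem_range.1 hr
      omega
    show φ j r * _ = (if r ≤ Rj j then φ j r else 0) * _
    rw [if_pos h2]
  have e2 : ∀ n : ℕ, ∏ j ∈ range J, (∑ r ∈ range (R + (J - 1 - j) + 2),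
      φ j r * ((KP Hp (D.filter fun p => be p = j) n).choose r : ℝ)) =
      ∑ T ∈ D.powerset, c T * ∏ p ∈ T, (if ∃ h ∈ Hp p, p ∣ n + h then (1:ℝ) else 0) := by
    intro n
    rw [← e1]
    refine prod_congr rfl fun j _ => sum_congr rfl fun r _ => ?_
    rw [esy_ind]
    rfl
  have e3 : ∑ n ∈ Icc 1 x, (if n ≡ a [MOD q] then (1:ℝ) else 0) *
        ∏ j ∈ range J, (∑ r ∈ range (R + (J - 1 - j) + 2),
        φ j r * ((KP Hp (D.filter fun p => be p = j) n).choose r : ℝ)) -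
      x / q * ∏ j ∈ range J, (∑ r ∈ range (R + (J - 1 - j) + 2),
        φ j r * esy (fun p => ((Hp p).card : ℝ) / p) (D.filter fun p => be p = j) r) =
      ∑ T ∈ D.powerset, c T * (∑ n ∈ Icc 1 x, (if n ≡ a [MOD q] then (1:ℝ) else 0) *
        ∏ p ∈ T, (if ∃ h ∈ Hp p, p ∣ n + h then (1:ℝ) else 0) -
          x / q * ∏ p ∈ T, (((Hp p).card : ℝ) / p)) := by
    rw [e1, sum_congr rfl fun n _ => by rw [e2 n, mul_sum], sum_comm, mul_sum, ← sum_sub_distrib]
    refine sum_congr rfl fun T _ => ?_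
    have h9 : ∑ n ∈ Icc 1 x, (if n ≡ a [MOD q] then (1:ℝ) else 0) *
        (c T * ∏ p ∈ T, (if ∃ h ∈ Hp p, p ∣ n + h then (1:ℝ) else 0)) =
        c T * ∑ n ∈ Icc 1 x, (if n ≡ a [MOD q] then (1:ℝ) else 0) *
        ∏ p ∈ T, (if ∃ h ∈ Hp p, p ∣ n + h then (1:ℝ) else 0) := by
      rw [mul_sum]
      refine sum_congr rfl fun n _ => ?_
      ring
    rw [h9]
    ring
  rw [e3]
  have hb : ∀ T ∈ D.powerset, |c T * (∑ n ∈ Icc 1 x, (if n ≡ a [MOD q] then (1:ℝ) else 0) *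
        ∏ p ∈ T, (if ∃ h ∈ Hp p, p ∣ n + h then (1:ℝ) else 0) -
          x / q * ∏ p ∈ T, (((Hp p).card : ℝ) / p))| ≤
      |c T| * (m : ℝ) ^ T.card := by
    intro T hT
    rw [mem_powerset] at hT
    rw [abs_mul]
    refine mul_le_mul_of_nonneg_left ?_ (abs_nonneg _)
    refine (gen_countP Hp x T (fun p hp => (hD p (hT hp)).1) (fun p hp => (hD p (hT hp)).2.1) q a hq
      (fun p hp => hco p (hT hp))).trans ?_
    rw [← prod_const]
    refine prod_le_prod (fun p _ => Nat.cast_nonneg _) fun p hp => ?_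
    exact_mod_cast (hD p (hT hp)).2.2.1
  refine (abs_sum_le_sum_abs _ _).trans ((sum_le_sum hb).trans ?_)
  have hlev := level m D J R x (fun p hp => (hD p hp).1) (fun p hp => (hD p hp).2.2.2.1)
    (fun p hp => (hD p hp).2.2.2.2) hx
  refine le_trans ?_ hlev
  rw [sum_filter]
  refine sum_le_sum fun T hT => ?_
  rw [mem_powerset] at hT
  by_cases hc' : ∀ j < J, (T.filter fun p => be p = j).card ≤ R + (J - 1 - j) + 1
  · rw [if_pos hc', mul_pow]
    refine mul_le_mul_of_nonneg_right ?_ (by positivity)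
    have h1 : |c T| ≤ ∏ j ∈ range J, (2:ℝ) ^ (T.filter fun p => be p = j).card := by
      show |∏ j ∈ range J, φ' j (T.filter fun p => be p = j).card| ≤ _
      rw [abs_prod]
      refine prod_le_prod (fun j _ => abs_nonneg _) fun j _ => ?_
      show |(if (T.filter fun p => be p = j).card ≤ Rj j then
        φ j (T.filter fun p => be p = j).card else 0)| ≤ _
      split_ifs
      · exact hφ _ _
      · rw [abs_zero]
        positivity
    refine h1.trans (le_of_eq ?_)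
    rw [prod_pow_eq_pow_sum]
    congr 1
    symm
    exact card_eq_sum_card_fiberwise fun p hp => by
      have := (hD p (hT hp)).2.2.2.2
      simpa using this
  · rw [if_neg hc']
    push Not at hc'
    obtain ⟨j, hj, hj2⟩ := hc'
    have h0 : c T = 0 := by
      show ∏ j ∈ range J, φ' j (T.filter fun p => be p = j).card = 0
      exact prod_eq_zero (mem_range.2 hj) (hφ' j _ hj2)
    rw [h0, abs_zero, zero_mul]

end Pool.Agent.Lib.P4a7640E
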