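import Mathlib
import Pool.Agent.Lib.P4a7640E.Defs

/-!
# Facts on the corrected functions
-/

open Finset Filter Topology
open Pool.Agent.Lib.P4a7640 Pool.Agent.Lib.P4a7640D Pool.Agent.Lib.P4a7640T

namespace Pool.Agent.Lib.P4a7640E

/-- the products over `A` of `u` and `g` differ at few primes -/
def KK0 {m : ℕ} (u g : Fin m → ℕ → ℤˣ) (A : Finset (Fin m)) : Prop :=
  ¬ Tendsto (fun N => PS (fun p => ∏ i ∈ A, u i p ≠ ∏ i ∈ A, g i p) 0 N) atTop atTop

namespace Corr0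

lemma sgC_prod {ι : Type*} (s : Finset ι) (f : ι → ℤˣ) :
    sgC (∏ i ∈ s, f i) = ∏ i ∈ s, sgC (f i) := by
  classical
  induction s using Finset.induction_on with
  | empty => simp [sgC]
  | insert a s ha ih => rw [Finset.prod_insert ha, Finset.prod_insert ha, sgC_mul, ih]

lemma prod_char {ι : Type*} {Q : ℕ} (s : Finset ι) (ψ : ι → DirichletCharacter ℂ Q)
    {a : ZMod Q} (ha : IsUnit a) : (∏ i ∈ s, ψ i) a = ∏ i ∈ s, ψ i a := by
  classical
  induction s using Finset.induction_on with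
  | empty =>
    rw [Finset.prod_empty, Finset.prod_empty]
    exact MulChar.one_apply ha
  | insert b s hb ih =>
    rw [Finset.prod_insert hb, Finset.prod_insert hb, MulChar.mul_apply, ih]

lemma multS_prod {ι : Type*} (s : Finset ι) (f : ι → ℕ → ℤˣ) (hf : ∀ i ∈ s, MultS (f i)) :
    MultS fun n => ∏ i ∈ s, f i n := by
  intro a b ha hb hab
  show ∏ i ∈ s, f i (a * b) = (∏ i ∈ s, f i a) * ∏ i ∈ s, f i b
  rw [← Finset.prod_mul_distrib]
  exact Finset.prod_congr rfl fun i hi => hf i hi a b ha hb hab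

lemma TT_prime {c : ℕ} {u g : ℕ → ℤˣ} {N : ℕ} : ∀ p ∈ TT c u g N, p.Prime := by
  intro p hp
  unfold TT at hp
  rw [mem_filter] at hp
  exact hp.2.1

lemma vv_mult {c : ℕ} {u g : ℕ → ℤˣ} {N : ℕ} (hu : MultS u) : MultS (vv c u g N) := by
  intro a b ha hb hab
  unfold vv
  rw [hu a b ha hb hab, dsg_mult TT_prime a b ha hb hab]
  exact mul_mul_mul_comm _ _ _ _

lemma vv_top {c : ℕ} {u g : ℕ → ℤˣ} {N p : ℕ} (hp : p.Prime) (hpN : p ≤ N)
    (hlt : N < p ^ (2 ^ c)) : vv c u g N p = g p := by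
  classical
  unfold vv
  rw [dsg_prime TT_prime hp]
  by_cases k3 : u p = g p
  · have k4 : p ∉ TT c u g N := by
      intro k
      unfold TT at k
      rw [mem_filter] at k
      exact k.2.2.2 k3
    rw [if_neg k4, mul_one, k3]
  · have k4 : p ∈ TT c u g N := by
      unfold TT
      rw [mem_filter, mem_Icc]
      exact ⟨⟨hp.one_le, hpN⟩, hp, hlt, k3⟩
    rw [if_pos k4]
    rcases Int.units_eq_one_or (u p) with k6 | k6 <;>
      rcases Int.units_eq_one_or (g p) with k7 | k7 <;> rw [k6, k7] at k3 ⊢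
    · exact absurd rfl k3
    · simp
    · simp
    · exact absurd rfl k3

lemma vv_low {c : ℕ} {u g : ℕ → ℤˣ} {N p : ℕ} (hp : p.Prime)
    (hle : p ^ (2 ^ c) ≤ N) : vv c u g N p = u p := by
  classical
  unfold vv
  rw [dsg_prime TT_prime hp]
  have k4 : p ∉ TT c u g N := by
    intro k
    unfold TT at k
    rw [mem_filter] at k
    exact absurd k.2.2.1 (not_lt.2 hle)
  rw [if_neg k4, mul_one]

/-- the product of the characters -/
lemma exists_prod_char {m : ℕ} {g : Fin m → ℕ → ℤˣ} {q : Fin m → ℕ}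
    (χ : ∀ i, DirichletCharacter ℂ (q i))
    (hg : ∀ i, ∀ p : ℕ, p.Prime → ¬ p ∣ q i → sgC (g i p) = χ i (p : ZMod (q i)))
    (A : Finset (Fin m)) : ∃ ψ : DirichletCharacter ℂ (∏ i, q i), ∀ p : ℕ, p.Prime →
      ¬ p ∣ ∏ i, q i → sgC (∏ i ∈ A, g i p) = ψ (p : ZMod (∏ i, q i)) := by
  classical
  have hdvd : ∀ i, q i ∣ ∏ i, q i := fun i => Finset.dvd_prod_of_mem q (mem_univ i)
  refine ⟨∏ i ∈ A, DirichletCharacter.changeLevel (hdvd i) (χ i), fun p hp hpQ => ?_⟩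
  have hu1 : IsUnit ((p : ℕ) : ZMod (∏ i, q i)) :=
    (ZMod.isUnit_iff_coprime p _).2 ((Nat.Prime.coprime_iff_not_dvd hp).2 hpQ)
  rw [sgC_prod, prod_char _ _ hu1]
  refine Finset.prod_congr rfl fun i _ => ?_
  have h1 : ¬ p ∣ q i := fun h => hpQ (h.trans (hdvd i))
  rw [hg i p hp h1]
  have h2 : IsCoprime (p : ℤ) ((∏ i, q i : ℕ) : ℤ) :=
    Nat.isCoprime_iff_coprime.mpr ((Nat.Prime.coprime_iff_not_dvd hp).2 hpQ)
  have h3 := DirichletCharacter.changeLevel_eq_cast_of_dvd' (χ i) (hdvd i) h2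
  simp only [Int.cast_natCast] at h3
  exact h3.symm

end Corr0

end Pool.Agent.Lib.P4a7640E
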