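import Mathlib
import Pool.Agent.Lib.P4a7640T.ApSieve
import Pool.Agent.Lib.P4a7640E.MainW
import Pool.Agent.Lib.P4a7640E.BlocksP

/-!
# The sieve with shifts depending on the prime

Module P4a7640E.SieveP (1 h). Imports are black boxes.

Adapt `sieve_ap` of the file P4a7640T/ApSieve.lean. `m = H.card` (if `H = ∅`: take `m = H.card + 1`
throughout), `Hp p ⊆ H` so `(Hp p).card ≤ m`, weights `w p = (Hp p).card / p ≤ m / p`, `main_termW`
instead of `main_term` (the mass of a block: `2 * ∑ w p ≤ 2 m C₁` by `block_mass`), `mean_blocksP`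
instead of `mean_blocks_ap`, `uP`, `KP` instead of `uu`, `KK` (splitting of `uP` over the values of
`be`: as `uu_split` in `SieveAux`, file P4a7640D/Sieve.lean: `KP Hp D n = ∑ j < J, KP Hp (D.filter (be · = j)) n`).
-/

open Finset

namespace Pool.Agent.Lib.P4a7640E

open Pool.Agent.Lib.P4a7640 Pool.Agent.Lib.P4a7640D Pool.Agent.Lib.P4a7640T

theorem abs_uP (Hp : ℕ → Finset ℕ) (D : Finset ℕ) (n : ℕ) : |uP Hp D n| = 1 := by
  unfold uP
  rw [abs_pow, abs_neg, abs_one, one_pow]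

private lemma uP_split (Hp : ℕ → Finset ℕ) (D : Finset ℕ) (J n : ℕ) (hD : ∀ p ∈ D, be p < J) :
    uP Hp D n = ∏ j ∈ range J, (-1:ℝ) ^ KP Hp (D.filter fun p => be p = j) n := by
  have h : KP Hp D n = ∑ j ∈ range J, KP Hp (D.filter fun p => be p = j) n := by
    unfold KP
    rw [card_eq_sum_card_fiberwise (f := be) (t := range J)
      (fun p hp => by
        have := hD p (mem_filter.1 hp).1
        simpa using this)]
    refine sum_congr rfl fun j _ => ?_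
    rw [filter_comm]
  unfold uP
  rw [h, prod_pow_eq_pow_sum]

open SieveAux in
theorem sieveP (H : Finset ℕ) (η : ℝ) (hη : 0 < η) :
    ∃ z R : ℕ, ∀ (q : ℕ), 0 < q → ∃ x₀ : ℕ, ∀ (Hp : ℕ → Finset ℕ) (D : Finset ℕ) (J x a : ℕ),
      (∀ p ∈ D, p.Prime ∧ z ≤ p ∧ be p < J ∧ Nat.Coprime q p ∧ Hp p ⊆ H) →
      2 ^ (2 ^ (J + 2) * (R + 2)) ≤ x → x₀ ≤ x →
      |∑ n ∈ Icc 1 x, (if n ≡ a [MOD q] then (1:ℝ) else 0) * uP Hp D n| ≤
        x / q * (Real.exp (-(2 * ∑ p ∈ D, ((Hp p).card : ℝ) / p)) + η) := by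
  classical
  obtain ⟨C₁, hC₁, hmass⟩ := block_mass
  set m := H.card + 1 with hm
  have hm1 : 1 ≤ m := by omega
  have hmR : (1:ℝ) ≤ m := by exact_mod_cast hm1
  obtain ⟨R, hR⟩ := main_termW (2 * m * C₁) (η / 4) (by positivity) (by positivity)
  refine ⟨H.sup id + 1 + (2 * m) ^ 2, R, fun q hq =>
    ⟨⌈(8 / (η / (2 * q))) ^ 4⌉₊, fun Hp D J x a hD hx hx₀ => ?_⟩⟩
  have hq0 : (0:ℝ) < q := by exact_mod_cast hq
  have hcm : ∀ p ∈ D, (Hp p).card ≤ m := by
    intro p hp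
    have := card_le_card (hD p hp).2.2.2.2
    omega
  have hcmR : ∀ p ∈ D, ((Hp p).card : ℝ) ≤ m := fun p hp => by exact_mod_cast hcm p hp
  have hbe : ∀ p ∈ D, be p < J := fun p hp => (hD p hp).2.2.1
  have hx4 : (8 / (η / (2 * q))) ^ 4 ≤ (x:ℝ) := by
    refine (Nat.le_ceil _).trans ?_
    exact_mod_cast hx₀
  have hsmall := rpow_small (show 0 < η / (2 * q) by positivity) hx4
  have hDm : ∀ p ∈ D, p.Prime ∧ (∀ h ∈ Hp p, h < p) ∧ (Hp p).card ≤ m ∧ (2 * m) ^ 2 ≤ p ∧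
      be p < J := by
    intro p hp
    obtain ⟨hp1, hp2, hp3, _, hp5⟩ := hD p hp
    refine ⟨hp1, fun h hh => ?_, hcm p hp, ?_, hp3⟩
    · have h1 : h ≤ H.sup id := Finset.le_sup (f := id) (hp5 hh)
      omega
    · omega
  have hmain := hR (fun p => ((Hp p).card : ℝ) / p) D be J (fun p hp => by
      obtain ⟨hp1, _, hp2, hp3, _⟩ := hDm p hp
      refine ⟨by positivity, ?_⟩
      have hp0 : (0:ℝ) < p := by exact_mod_cast hp1.pos
      have h4 : 2 * (Hp p).card ≤ p := by nlinarith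
      have h5 : (2:ℝ) * (Hp p).card ≤ p := by exact_mod_cast h4
      rw [← mul_div_assoc, div_le_one hp0]
      exact h5) hbe (fun j _ => by
      have h1 := hmass j (D.filter fun p => be p = j) (fun p hp => by
        rw [mem_filter] at hp
        exact ⟨(hD p hp.1).1, hp.2⟩)
      have h2 : ∑ p ∈ D.filter (fun p => be p = j), ((Hp p).card:ℝ) / p ≤
          m * ∑ p ∈ D.filter (fun p => be p = j), (1:ℝ) / p := by
        rw [mul_sum]
        refine sum_le_sum fun p hp => ?_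
        rw [mul_one_div]
        exact div_le_div_of_nonneg_right (hcmR p (mem_filter.1 hp).1) (Nat.cast_nonneg _)
      calc 2 * ∑ p ∈ D.filter (fun p => be p = j), ((Hp p).card:ℝ) / p
          ≤ 2 * ((m:ℝ) * ∑ p ∈ D.filter (fun p => be p = j), (1:ℝ) / p) := by linarith
        _ ≤ 2 * (m * C₁) := by gcongr
        _ = 2 * m * C₁ := by ring)
  obtain ⟨hm1', hm2'⟩ := hmain
  -- the two applications of `mean_blocks`
  have hA := mean_blocksP Hp m D J R x q a hq hDm (fun p hp => (hD p hp).2.2.2.1) hx (fun j r => ph (R + (J - 1 - j)) r)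
    (fun j r => abs_ph _ r)
  have hB := mean_blocksP Hp m D J R x q a hq hDm (fun p hp => (hD p hp).2.2.2.1) hx (fun j r => ps (R + (J - 1 - j)) r)
    (fun j r => abs_ps _ r)
  simp only [sum_ph, sum_ps, Nat.choose_zero_right, Nat.cast_one, esy_zero] at hA hB
  set K : ℕ → ℕ → ℕ := fun j n => KP Hp (D.filter fun p => be p = j) n with hK
  have hA' : |∑ n ∈ Icc 1 x, (if n ≡ a [MOD q] then (1:ℝ) else 0) *
        ∏ j ∈ range J, tr (R + (J - 1 - j)) (K j n) -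
      x / q * ∏ j ∈ range J, (∑ r ∈ range (R + (J - 1 - j) + 1),
        (-2:ℝ) ^ r * esy (fun p => ((Hp p).card : ℝ) / p) (D.filter fun p => be p = j) r)| ≤
      (x:ℝ) ^ ((3:ℝ) / 4) := hA
  have hB' : |∑ n ∈ Icc 1 x, (if n ≡ a [MOD q] then (1:ℝ) else 0) *
        ∏ j ∈ range J, (1 + er (R + (J - 1 - j)) (K j n)) -
      x / q * ∏ j ∈ range J, (1 + 2 ^ (R + (J - 1 - j) + 1) *
        esy (fun p => ((Hp p).card : ℝ) / p) (D.filter fun p => be p = j) (R + (J - 1 - j) + 1))| ≤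
      (x:ℝ) ^ ((3:ℝ) / 4) := hB
  set T1 := ∏ j ∈ range J, (∑ r ∈ range (R + (J - 1 - j) + 1),
        (-2:ℝ) ^ r * esy (fun p => ((Hp p).card : ℝ) / p) (D.filter fun p => be p = j) r) with hT1
  set T2 := ∏ j ∈ range J, (1 + 2 ^ (R + (J - 1 - j) + 1) *
        esy (fun p => ((Hp p).card : ℝ) / p) (D.filter fun p => be p = j) (R + (J - 1 - j) + 1)) with hT2
  set I : ℕ → ℝ := fun n => if n ≡ a [MOD q] then (1:ℝ) else 0 with hI
  have hI0 : ∀ n, 0 ≤ I n := fun n => by simp only [hI]; split_ifs <;> norm_num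
  have hcount : (x:ℝ) / q - 1 ≤ ∑ n ∈ Icc 1 x, I n := by
    have h1 := (abs_le.1 (base_count x q a hq)).1
    linarith
  have htel : |∑ n ∈ Icc 1 x, I n * uP Hp D n -
      ∑ n ∈ Icc 1 x, I n * ∏ j ∈ range J, tr (R + (J - 1 - j)) (K j n)| ≤
      ∑ n ∈ Icc 1 x, I n * ∏ j ∈ range J, (1 + er (R + (J - 1 - j)) (K j n)) -
        ∑ n ∈ Icc 1 x, I n := by
    rw [← sum_sub_distrib, ← sum_sub_distrib]
    refine (abs_sum_le_sum_abs _ _).trans ?_
    refine sum_le_sum fun n _ => ?_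
    rw [← mul_sub, abs_mul, abs_of_nonneg (hI0 n), uP_split Hp D J n hbe]
    have h1 := prod_telescope (range J) (fun j => (-1:ℝ) ^ K j n)
      (fun j => tr (R + (J - 1 - j)) (K j n)) (fun j => er (R + (J - 1 - j)) (K j n))
      (fun j _ => by rw [abs_pow, abs_neg, abs_one, one_pow])
      (fun j _ => trunc _ _)
    have h2 := mul_le_mul_of_nonneg_left h1 (hI0 n)
    refine h2.trans (le_of_eq ?_)
    ring
  have hxR : (0:ℝ) ≤ x / q := by positivity
  have hx1 : (1:ℝ) ≤ x := by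
    have h1 : 1 ≤ x := le_trans Nat.one_le_two_pow hx
    exact_mod_cast h1
  have hx34 : (1:ℝ) ≤ (x:ℝ) ^ ((3:ℝ) / 4) := Real.one_le_rpow hx1 (by norm_num)
  have k1 : |∑ n ∈ Icc 1 x, I n * ∏ j ∈ range J, tr (R + (J - 1 - j)) (K j n)| ≤
      x / q * |T1| + (x:ℝ) ^ ((3:ℝ) / 4) := by
    have h1 := abs_sub_abs_le_abs_sub (∑ n ∈ Icc 1 x, I n * ∏ j ∈ range J,
      tr (R + (J - 1 - j)) (K j n)) (x / q * T1)
    rw [abs_mul, abs_of_nonneg hxR] at h1
    linarith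
  have k2 : ∑ n ∈ Icc 1 x, I n * ∏ j ∈ range J, (1 + er (R + (J - 1 - j)) (K j n)) ≤
      x / q * T2 + (x:ℝ) ^ ((3:ℝ) / 4) := by
    have h1 := (abs_le.1 hB').2
    linarith
  have k3 : x / q * |T1| ≤ x / q * (Real.exp (-(2 * ∑ p ∈ D, ((Hp p).card : ℝ) / p)) + η / 4) :=
    mul_le_mul_of_nonneg_left hm1' hxR
  have k4 : x / q * T2 - x / q ≤ x / q * (η / 4) := by
    have h1 : (x:ℝ) / q * T2 - x / q = x / q * (T2 - 1) := by ring
    rw [h1]
    exact mul_le_mul_of_nonneg_left hm2' hxR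
  have k5 := abs_sub_abs_le_abs_sub (∑ n ∈ Icc 1 x, I n * uP Hp D n)
    (∑ n ∈ Icc 1 x, I n * ∏ j ∈ range J, tr (R + (J - 1 - j)) (K j n))
  have k6 : x / q * (Real.exp (-(2 * ∑ p ∈ D, ((Hp p).card : ℝ) / p)) + η / 4) + x / q * (η / 4) +
      2 * (x:ℝ) ^ ((3:ℝ) / 4) + 2 * (x:ℝ) ^ ((3:ℝ) / 4) ≤
      x / q * (Real.exp (-(2 * ∑ p ∈ D, ((Hp p).card : ℝ) / p)) + η) := by
    have h1 : (x:ℝ) * (η / (2 * q) / 4) = x / q * (η / 8) := by
      field_simp
      ring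
    rw [h1] at hsmall
    have h2 : 0 ≤ (x:ℝ) / q * η := by positivity
    nlinarith
  linarith

end Pool.Agent.Lib.P4a7640E
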