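import Mathlib
import Pool.Agent.Lib.P4a7640E.LogSieveP
import Pool.Agent.Lib.P4a7640E.DiffF

/-!
# Correlations of a family of functions close to characters at the top primes, in residue classes
-/

open Finset Filter Topology
open Pool.Agent.Lib.P4a7640 Pool.Agent.Lib.P4a7640D Pool.Agent.Lib.P4a7640T

namespace Pool.Agent.Lib.P4a7640E

/-- `LA_diff_fam` with a bounded weight -/
theorem LA_diff_famW {w : ℕ → ℝ} (hw : ∀ n, |w n| ≤ 1) {F G : ℕ → ℕ → ℤˣ} {q : ℕ}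
    (χ : ℕ → DirichletCharacter ℂ q) (y m : ℕ)
    (H : Finset ℕ) (hh : ∀ j ∈ H, MultS fun n => F j n * G j n) {N : ℕ} (hN : 2 ≤ N) :
    |LA (fun n => w n * ∏ j ∈ H, sg (F j (n + j))) N -
      LA (fun n => w n * (∏ j ∈ H, PP (fun n => F j n * G j n) (χ j) y m (n + j)) *
        ∏ j ∈ H, sg (G j (n + j))) N| ≤
      ∑ j ∈ H, 2 * ((1 + 3 / Real.log N) *
        EB (fun p => sgC (F j p * G j p) ≠ χ j (p : ZMod q)) y m N + 3 * j / Real.log N) := by
  set h : ℕ → ℕ → ℤˣ := fun j n => F j n * G j n with hhd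
  have h1 : LA (fun n => w n * ∏ j ∈ H, sg (F j (n + j))) N -
      LA (fun n => w n * (∏ j ∈ H, PP (h j) (χ j) y m (n + j)) * ∏ j ∈ H, sg (G j (n + j))) N =
      LA (fun n => w n * (∏ j ∈ H, sg (F j (n + j)) - (∏ j ∈ H, PP (h j) (χ j) y m (n + j)) *
        ∏ j ∈ H, sg (G j (n + j)))) N := by
    have := LA_add (fun n => w n * (∏ j ∈ H, sg (F j (n + j)) -
      (∏ j ∈ H, PP (h j) (χ j) y m (n + j)) * ∏ j ∈ H, sg (G j (n + j))))
      (fun n => w n * (∏ j ∈ H, PP (h j) (χ j) y m (n + j)) * ∏ j ∈ H, sg (G j (n + j))) N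
    have e : (fun n => w n * (∏ j ∈ H, sg (F j (n + j)) -
      (∏ j ∈ H, PP (h j) (χ j) y m (n + j)) * ∏ j ∈ H, sg (G j (n + j))) +
      w n * (∏ j ∈ H, PP (h j) (χ j) y m (n + j)) * ∏ j ∈ H, sg (G j (n + j))) =
      fun n => w n * ∏ j ∈ H, sg (F j (n + j)) := by
      funext n
      ring
    rw [e] at this
    linarith
  have h0 : LA (fun n => w n * (∏ j ∈ H, PP (fun n => F j n * G j n) (χ j) y m (n + j)) *
        ∏ j ∈ H, sg (G j (n + j))) N =
      LA (fun n => w n * (∏ j ∈ H, PP (h j) (χ j) y m (n + j)) * ∏ j ∈ H, sg (G j (n + j))) N := rfl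
  rw [h0, h1]
  refine (abs_LA_le _ N).trans ?_
  have h2 : ∀ n, |w n * (∏ j ∈ H, sg (F j (n + j)) - (∏ j ∈ H, PP (h j) (χ j) y m (n + j)) *
      ∏ j ∈ H, sg (G j (n + j)))| ≤
      ∑ j ∈ H, 2 * BI (fun p => sgC (h j p) ≠ χ j (p : ZMod q)) y m (n + j) := by
    intro n
    have h3 : ∏ j ∈ H, sg (F j (n + j)) =
        (∏ j ∈ H, sg (h j (n + j))) * ∏ j ∈ H, sg (G j (n + j)) := by
      rw [← Finset.prod_mul_distrib]
      refine Finset.prod_congr rfl fun j _ => ?_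
      show sg (F j (n + j)) = sg (F j (n + j) * G j (n + j)) * sg (G j (n + j))
      rw [sg_mul, mul_assoc, sg_mul_self, mul_one]
    have h4 : |∏ j ∈ H, sg (G j (n + j))| = 1 := by
      rw [Finset.abs_prod]
      exact Finset.prod_eq_one fun j _ => abs_sg _
    rw [abs_mul, h3, ← sub_mul, abs_mul, h4, mul_one]
    calc _ ≤ 1 * |∏ j ∈ H, sg (h j (n + j)) - ∏ j ∈ H, PP (h j) (χ j) y m (n + j)| :=
          mul_le_mul_of_nonneg_right (hw n) (abs_nonneg _)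
      _ ≤ _ := by rw [one_mul]; exact prod_PP_fam_close χ y m H hh n
  refine (LA_mono h2 N).trans ?_
  rw [LA_sum]
  refine Finset.sum_le_sum fun j _ => ?_
  set B : ℕ → Prop := fun p => sgC (h j p) ≠ χ j (p : ZMod q) with hB
  have h4 : LA (fun n => 2 * BI B y m (n + j)) N = 2 * LA (fun n => BI B y m (n + j)) N :=
    LA_const_mul _ _ _
  rw [h4]
  apply mul_le_mul_of_nonneg_left _ (by norm_num)
  have h5 := LA_shift (u := BI B y m) (fun n => by
    rw [abs_of_nonneg (BI_nonneg _ _ _ _)]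
    exact BI_le_one _ _ _ _) j N
  have h6 := (abs_le.mp h5).2
  have h7 := LA_BI_le B y m hN
  have h8 : EB (fun p => sgC (F j p * G j p) ≠ χ j (p : ZMod q)) y m N = EB B y m N := rfl
  rw [h8]
  linarith

private lemma sum_small {H : Finset ℕ} {N : ℕ} {e ε : ℝ} (he0 : 0 < e)
    (he : (H.card : ℝ) * (14 * e) ≤ ε / 2) (h2 : 3 / Real.log N ≤ 1)
    (h3 : 3 * ((H.sup id : ℕ) : ℝ) / Real.log N ≤ e) {E : ℕ → ℝ}
    (hE : ∀ j ∈ H, E j ≤ e + e + e) :
    ∑ j ∈ H, 2 * ((1 + 3 / Real.log N) * E j + 3 * (j:ℝ) / Real.log N) ≤ ε / 2 := by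
  have hlogpos : 0 ≤ Real.log N := Real.log_natCast_nonneg N
  have k1 : ∀ j ∈ H, 2 * ((1 + 3 / Real.log N) * E j + 3 * (j:ℝ) / Real.log N) ≤ 14 * e := by
    intro j hj
    have k2 : 3 * (j:ℝ) / Real.log N ≤ e := by
      refine le_trans ?_ h3
      apply div_le_div_of_nonneg_right _ hlogpos
      have : (j:ℝ) ≤ ((H.sup id : ℕ) : ℝ) := by
        exact_mod_cast Finset.le_sup (f := id) hj
      linarith
    have k3 : (1 + 3 / Real.log N) * E j ≤ 2 * (e + e + e) := by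
      have k4 : 0 ≤ 3 / Real.log N := by positivity
      have k5 := mul_le_mul_of_nonneg_left (hE j hj) (show 0 ≤ 1 + 3 / Real.log N by linarith)
      have k6 : (1 + 3 / Real.log N) * (e + e + e) ≤ 2 * (e + e + e) :=
        mul_le_mul_of_nonneg_right (by linarith) (by positivity)
      exact k5.trans k6
    linarith
  refine (Finset.sum_le_sum k1).trans ?_
  rw [Finset.sum_const, nsmul_eq_mul]
  exact he

open Classical in
theorem fam_coreQ (H : Finset ℕ) (hne : H.Nonempty) {q : ℕ} (hq : 0 < q)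
    (χ : ℕ → DirichletCharacter ℂ q) (g : ℕ → ℕ → ℤˣ)
    (hg : ∀ j ∈ H, ∀ p : ℕ, p.Prime → ¬ p ∣ q → sgC (g j p) = χ j (p : ZMod q))
    {Q : ℕ} (hQ : 0 < Q) (ε : ℝ) (hε : 0 < ε) :
    ∃ (c₀ : ℕ) (A ρ : ℝ), 0 < ρ ∧ ∀ c ≥ c₀, ∃ N₀ : ℕ, ∀ N ≥ N₀, ∀ F : ℕ → ℕ → ℤˣ,
      (∀ j ∈ H, MultS (F j)) →
      (∀ j ∈ H, ∑ p ∈ (Icc 1 N).filter (fun p => p.Prime ∧ N < p ^ (2 ^ c) ∧ F j p ≠ g j p),
        (1:ℝ) / p ≤ ρ) →
      (∃ j ∈ H, A ≤ ∑ p ∈ (Icc 1 N).filter (fun p => p.Prime ∧ p ^ (2 ^ c) ≤ N ∧ F j p ≠ g j p),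
        (1:ℝ) / p) → ∀ a : ℕ,
      |LA (fun n => (if n ≡ a [MOD Q] then (1:ℝ) else 0) * ∏ j ∈ H, sg (F j (n + j))) N| < ε := by
  obtain ⟨z₀, A, hA, hsieve⟩ := log_sieveP H (ε / 4) (by positivity)
  have hK : (1:ℝ) ≤ H.card := by exact_mod_cast hne.card_pos
  have hK0 : (0:ℝ) < H.card := by linarith
  obtain ⟨e, he0, hecard⟩ : ∃ e : ℝ, 0 < e ∧ (H.card : ℝ) * (14 * e) ≤ ε / 2 := by
    refine ⟨ε / (64 * H.card), by positivity, ?_⟩
    have : (H.card : ℝ) * (14 * (ε / (64 * H.card))) = 14 / 64 * ε := by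
      field_simp
    rw [this]
    linarith
  obtain ⟨z, hz1, hz2, hz3, hz4, hz5⟩ : ∃ z : ℕ, z₀ ≤ z ∧ q ≤ z ∧ H.sup id + 1 ≤ z ∧
      ⌈1 / e⌉₊ + 1 ≤ z ∧ Q ≤ z := by
    refine ⟨z₀ + q + (H.sup id + 1) + (⌈1 / e⌉₊ + 1) + Q, ?_, ?_, ?_, ?_, ?_⟩ <;> omega
  have hz0 : 0 < z := by omega
  have hzR : (0:ℝ) < z := by exact_mod_cast hz0
  have hze : 1 / (z:ℝ) ≤ e := by
    rw [div_le_iff₀ hzR]
    have h1 : 1 / e ≤ z := by
      refine (Nat.le_ceil _).trans ?_
      exact_mod_cast (by omega : ⌈1 / e⌉₊ ≤ z)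
    rw [div_le_iff₀ he0] at h1
    linarith
  obtain ⟨m, hm⟩ : ∃ m : ℕ, (z:ℝ) * (1 / 2) ^ (m + 1) ≤ e := by
    obtain ⟨m, hm⟩ := exists_pow_lt_of_lt_one (show 0 < e / z by positivity)
      (show (1/2:ℝ) < 1 by norm_num)
    refine ⟨m, ?_⟩
    rw [lt_div_iff₀ hzR] at hm
    have h1 : ((1:ℝ) / 2) ^ (m + 1) ≤ (1 / 2) ^ m :=
      pow_le_pow_of_le_one (by norm_num) (by norm_num) (Nat.le_succ m)
    nlinarith
  set R : ℕ := Q * (q * QQ z m) with hR
  have hR0 : 0 < R := Nat.mul_pos hQ (Nat.mul_pos hq (QQ_pos z m))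
  obtain ⟨c₀, N₁, hc⟩ := hsieve R hR0
  have hlog : ∀ᶠ N : ℕ in atTop, 3 / Real.log N ≤ 1 := by
    have h1 : Tendsto (fun N : ℕ => 3 / Real.log N) atTop (𝓝 0) := tendsto_logN.const_div_atTop _
    exact h1.eventually_le_const one_pos
  have hlog2 : ∀ᶠ N : ℕ in atTop, 3 * ((H.sup id : ℕ) : ℝ) / Real.log N ≤ e := by
    have h1 : Tendsto (fun N : ℕ => 3 * ((H.sup id : ℕ) : ℝ) / Real.log N) atTop (𝓝 0) :=
      tendsto_logN.const_div_atTop _
    exact h1.eventually_le_const he0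
  obtain ⟨N₀, hN₀⟩ := eventually_atTop.1 ((hlog.and hlog2).and
    ((eventually_ge_atTop N₁).and ((eventually_ge_atTop z).and (eventually_ge_atTop 3))))
  refine ⟨c₀, A + z, e, he0, fun c hcc => ⟨N₀, fun N hN F hF htop hlow b => ?_⟩⟩
  obtain ⟨⟨h2, h3⟩, h4, h5, h6⟩ := hN₀ N hN
  set Dj : ℕ → Finset ℕ := fun j => (Icc 1 N).filter
    (fun p => p.Prime ∧ z < p ∧ p ^ (2 ^ c) ≤ N ∧ F j p ≠ g j p) with hDj
  set D : Finset ℕ := H.biUnion Dj with hD
  have hDjp : ∀ j, ∀ p ∈ Dj j, p.Prime ∧ z < p ∧ p ^ (2 ^ c) ≤ N ∧ F j p ≠ g j p :=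
    fun j p hp => (mem_filter.1 hp).2
  have hDp : ∀ p ∈ D, p.Prime ∧ z < p ∧ p ^ (2 ^ c) ≤ N := by
    intro p hp
    rw [hD, mem_biUnion] at hp
    obtain ⟨j, _, hj⟩ := hp
    obtain ⟨a1, a2, a3, _⟩ := hDjp j p hj
    exact ⟨a1, a2, a3⟩
  have hprime : ∀ j, ∀ p ∈ Dj j, p.Prime := fun j p hp => (hDjp j p hp).1
  have hmass : A ≤ ∑ p ∈ D, (1:ℝ) / p := by
    obtain ⟨j, hj, h1⟩ := hlow
    have hsub : (Icc 1 N).filter (fun p => p.Prime ∧ p ^ (2 ^ c) ≤ N ∧ F j p ≠ g j p) ⊆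
        Dj j ∪ Icc 1 z := by
      intro p hp
      rw [mem_filter, mem_Icc] at hp
      rw [mem_union, hDj, mem_filter, mem_Icc, mem_Icc]
      by_cases hpz : p ≤ z
      · exact Or.inr ⟨hp.1.1, hpz⟩
      · exact Or.inl ⟨hp.1, hp.2.1, not_le.1 hpz, hp.2.2.1, hp.2.2.2⟩
    have k1 := (h1.trans (sum_le_sum_of_subset_of_nonneg hsub (fun p _ _ => by positivity)))
    have k2 := Finset.sum_union_inter (s₁ := Dj j) (s₂ := Icc 1 z) (f := fun p : ℕ => (1:ℝ) / p)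
    have k3 : 0 ≤ ∑ p ∈ Dj j ∩ Icc 1 z, (1:ℝ) / p := Finset.sum_nonneg fun p _ => by positivity
    have k4 : ∑ p ∈ Icc 1 z, (1:ℝ) / p ≤ z := by
      calc ∑ p ∈ Icc 1 z, (1:ℝ) / p ≤ ∑ p ∈ Icc 1 z, (1:ℝ) := by
            refine Finset.sum_le_sum fun p hp => ?_
            rw [Finset.mem_Icc] at hp
            have : (1:ℝ) ≤ p := by exact_mod_cast hp.1
            rw [div_le_one (by linarith)]
            exact this
        _ = z := by simp
    have k5 : ∑ p ∈ Dj j, (1:ℝ) / p ≤ ∑ p ∈ D, (1:ℝ) / p :=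
      Finset.sum_le_sum_of_subset_of_nonneg (Finset.subset_biUnion_of_mem Dj hj)
        (fun p _ _ => by positivity)
    linarith
  have hHp : ∀ p ∈ D, ∀ h ∈ H, h < p := by
    intro p hp h hh
    have k1 := (hDp p hp).2.1
    have k2 : h ≤ H.sup id := Finset.le_sup (f := id) hh
    omega
  have hcop : ∀ p ∈ D, Nat.Coprime R p := by
    intro p hp
    have k1 := hDp p hp
    rw [Nat.coprime_comm, Nat.Prime.coprime_iff_not_dvd k1.1, hR]
    intro hdiv
    rcases (Nat.Prime.dvd_mul k1.1).1 hdiv with k2 | k2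
    · have := Nat.le_of_dvd hQ k2
      omega
    rcases (Nat.Prime.dvd_mul k1.1).1 k2 with k2 | k2
    · have := Nat.le_of_dvd hq k2
      omega
    · have k3 : p ∣ z.factorial := k1.1.dvd_of_dvd_pow k2
      have := (Nat.Prime.dvd_factorial k1.1).1 k3
      omega
  have hsv := hc N h4 (fun p => H.filter fun j => p ∈ Dj j) D (fun p hp => by
    refine ⟨(hDp p hp).1, hz1.trans (hDp p hp).2.1.le, ?_, hcop p hp, Finset.filter_subset _ _, ?_⟩
    · refine le_trans ?_ (hDp p hp).2.2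
      exact Nat.pow_le_pow_right (hDp p hp).1.pos (Nat.pow_le_pow_right (by norm_num) hcc)
    · rw [hD, mem_biUnion] at hp
      obtain ⟨j, hj, hpj⟩ := hp
      exact ⟨j, mem_filter.2 ⟨hj, hpj⟩⟩) hmass
  have hh : ∀ j ∈ H, MultS fun n => F j n * dsg (Dj j) n := by
    intro j hj a b ha hb hab
    show F j (a * b) * dsg (Dj j) (a * b) = F j a * dsg (Dj j) a * (F j b * dsg (Dj j) b)
    rw [hF j hj a b ha hb hab, dsg_mult (hprime j) a b ha hb hab]
    exact mul_mul_mul_comm _ _ _ _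
  have hw1 : ∀ n : ℕ, |(if n ≡ b [MOD Q] then (1:ℝ) else 0)| ≤ 1 := by
    intro n
    split_ifs <;> simp
  have hdiff := LA_diff_famW hw1 (F := F) (G := fun j => dsg (Dj j)) χ z m H hh (N := N) (by omega)
  set P : ℕ → ℝ := fun n => (if n ≡ b [MOD Q] then (1:ℝ) else 0) *
    ∏ j ∈ H, PP (fun n => F j n * dsg (Dj j) n) (χ j) z m (n + j) with hP
  have hmain : |LA (fun n => P n * ∏ j ∈ H, sg (dsg (Dj j) (n + j))) N| ≤ ε / 4 := by
    refine LA_periodic hR0 ?_ ?_ _ N (ε / 4) ?_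
    · intro n
      show (if n + R ≡ b [MOD Q] then (1:ℝ) else 0) * _ = (if n ≡ b [MOD Q] then (1:ℝ) else 0) * _
      have e1 : (n + R ≡ b [MOD Q]) ↔ (n ≡ b [MOD Q]) := by
        unfold Nat.ModEq
        rw [hR, Nat.add_mul_mod_self_left]
      have e2 : ∏ j ∈ H, PP (fun n => F j n * dsg (Dj j) n) (χ j) z m (n + R + j) =
          ∏ j ∈ H, PP (fun n => F j n * dsg (Dj j) n) (χ j) z m (n + j) := by
        have e3 : ∀ k : ℕ, ∏ j ∈ H, PP (fun n => F j n * dsg (Dj j) n) (χ j) z m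
            (n + k * (q * QQ z m) + j) =
            ∏ j ∈ H, PP (fun n => F j n * dsg (Dj j) n) (χ j) z m (n + j) := by
          intro k
          induction k with
          | zero => simp
          | succ k ih =>
            rw [← ih, ← prod_PP_fam_periodic (fun j n => F j n * dsg (Dj j) n) χ z m H
              (n + k * (q * QQ z m))]
            refine Finset.prod_congr rfl fun j _ => ?_
            congr 1
            ring
        exact e3 Q
      simp only [e1, e2]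
    · intro n
      rw [hP, abs_mul]
      exact mul_le_one₀ (hw1 n) (abs_nonneg _)
        (abs_prod_PP_fam (fun j n => F j n * dsg (Dj j) n) χ z m H n)
    · intro a
      have k1 := hsv a
      have k2 : (fun n => (if n ≡ a [MOD R] then (1:ℝ) else 0) *
          ∏ j ∈ H, sg (dsg (Dj j) (n + j))) =
          fun n => (if n ≡ a [MOD R] then (1:ℝ) else 0) *
            uP (fun p => H.filter fun j => p ∈ Dj j) D n := by
        funext n
        rw [prod_dsg_fam H Dj D (fun j hj => Finset.subset_biUnion_of_mem Dj hj) hHp n]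
      rw [k2]
      exact k1
  have hEB : ∀ j ∈ H, EB (fun p => sgC (F j p * dsg (Dj j) p) ≠ χ j (p : ZMod q)) z m N ≤
      e + e + e := by
    intro j hj
    have k1 : PS (fun p => sgC (F j p * dsg (Dj j) p) ≠ χ j (p : ZMod q)) z N ≤ e := by
      refine le_trans ?_ (htop j hj)
      apply PS_le_sum
      intro p hpz hpN hp hB
      have hpq : ¬ p ∣ q := by
        intro k
        have := Nat.le_of_dvd hq k
        omega
      have k2 := hg j hj p hp hpq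
      rw [dsg_prime (hprime j) hp] at hB
      by_cases k3 : F j p = g j p
      · exfalso
        apply hB
        have k4 : p ∉ Dj j := fun k => (hDjp j p k).2.2.2 k3
        rw [if_neg k4, mul_one, k3, k2]
      · rw [mem_filter, mem_Icc]
        refine ⟨⟨hp.one_le, hpN⟩, hp, ?_, k3⟩
        by_contra k4
        rw [not_lt] at k4
        apply hB
        have k5 : p ∈ Dj j := by
          rw [hDj, mem_filter, mem_Icc]
          exact ⟨⟨hp.one_le, hpN⟩, hp, hpz, k4, k3⟩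
        rw [if_pos k5, ← k2]
        congr 1
        rcases Int.units_eq_one_or (F j p) with k6 | k6 <;>
          rcases Int.units_eq_one_or (g j p) with k7 | k7 <;> rw [k6, k7] at k3 ⊢
        · exact absurd rfl k3
        · simp
        · simp
        · exact absurd rfl k3
    have k2 := EB_le' (fun p => sgC (F j p * dsg (Dj j) p) ≠ χ j (p : ZMod q)) (z := z) (m := m)
      (N := N) hz0 h5 k1
    linarith
  have hsum := sum_small he0 hecard h2 h3 (H := H) (E := fun j =>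
    EB (fun p => sgC (F j p * dsg (Dj j) p) ≠ χ j (p : ZMod q)) z m N) hEB
  have k1 := abs_sub_abs_le_abs_sub
    (LA (fun n => (if n ≡ b [MOD Q] then (1:ℝ) else 0) * ∏ j ∈ H, sg (F j (n + j))) N)
    (LA (fun n => P n * ∏ j ∈ H, sg (dsg (Dj j) (n + j))) N)
  have k2 : |LA (fun n => (if n ≡ b [MOD Q] then (1:ℝ) else 0) * ∏ j ∈ H, sg (F j (n + j))) N -
      LA (fun n => P n * ∏ j ∈ H, sg (dsg (Dj j) (n + j))) N| ≤ ε / 2 :=
    hdiff.trans hsum
  linarith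

end Pool.Agent.Lib.P4a7640E
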