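import Mathlib
import Pool.Agent.Lib.P4a7640E.FamCoreQ
import Pool.Agent.Lib.P4a7640E.Corr0

/-!
# Mixed correlations in residue classes

Module P4a7640E.CorrQ (0.7 h). Imports are black boxes.

Adapt the proof of `corr_small` (file CorrU.lean, landed; its private lemmas are public in
Corr0.lean, and `exists_prod_char` there gives the character of a product): `fam_coreQ` instead of
`fam_core` (the same statement with the weight `if n ≡ a [MOD Q] then 1 else 0`), and only sets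
`S ⊆ B ×ˢ range L` are considered, so that all `A j ⊆ B`.
-/

open Finset Filter Topology
open Pool.Agent.Lib.P4a7640 Pool.Agent.Lib.P4a7640D Pool.Agent.Lib.P4a7640T

namespace Pool.Agent.Lib.P4a7640E

namespace CorrQAux

open Corr0

/-- one subset -/
theorem corr_one {m : ℕ} {u g : Fin m → ℕ → ℤˣ} (hu : ∀ i, MultS (u i)) {q : Fin m → ℕ}
    (hq : ∀ i, 0 < q i) (χ : ∀ i, DirichletCharacter ℂ (q i))
    (hg : ∀ i, ∀ p : ℕ, p.Prime → ¬ p ∣ q i → sgC (g i p) = χ i (p : ZMod (q i)))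
    (B : Finset (Fin m)) (hfar : ∀ A ⊆ B, A.Nonempty → ¬ KK0 u g A)
    {Q : ℕ} (hQ : 0 < Q) (ε : ℝ) (hε : 0 < ε) (S : Finset (Fin m × ℕ)) (hS : S.Nonempty)
    (hSB : ∀ s ∈ S, s.1 ∈ B) :
    ∃ c₀ : ℕ, ∀ c ≥ c₀, ∀ᶠ N : ℕ in atTop, ∀ a : ℕ,
      |LA (fun n => (if n ≡ a [MOD Q] then (1:ℝ) else 0) *
        ∏ s ∈ S, sg (vv c (u s.1) (g s.1) N (n + s.2))) N| < ε := by
  classical
  set H : Finset ℕ := S.image Prod.snd with hH
  have hHne : H.Nonempty := hS.image _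
  set Af : ℕ → Finset (Fin m) := fun j => univ.filter fun i => (i, j) ∈ S with hAf
  have hAfB : ∀ j, Af j ⊆ B := by
    intro j i hi
    rw [hAf, mem_filter] at hi
    exact hSB _ hi.2
  have hAfne : ∀ j ∈ H, (Af j).Nonempty := by
    intro j hj
    rw [hH, mem_image] at hj
    obtain ⟨s, hs, hsj⟩ := hj
    refine ⟨s.1, ?_⟩
    rw [hAf, mem_filter]
    refine ⟨mem_univ _, ?_⟩
    rw [← hsj]
    exact hs
  have hQ0 : 0 < ∏ i, q i := Finset.prod_pos fun i _ => hq i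
  choose X hX using fun j => exists_prod_char χ hg (Af j)
  set g' : ℕ → ℕ → ℤˣ := fun j p => ∏ i ∈ Af j, g i p with hg'
  obtain ⟨c₀, A, ρ, hρ, hcore⟩ := fam_coreQ H hHne hQ0 X g' (fun j _ => hX j) hQ ε hε
  refine ⟨c₀, fun c hc => ?_⟩
  obtain ⟨N₀, hN₀⟩ := hcore c hc
  have hHne' := hHne
  obtain ⟨j₀, hj₀⟩ := hHne'
  have hlow := eventually_low (not_not.1 (hfar (Af j₀) (hAfB j₀) (hAfne j₀ hj₀))) (2 ^ c) A
  filter_upwards [hlow, eventually_ge_atTop N₀] with N h1 h2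
  intro a
  have hmain := hN₀ N h2 (fun j n => ∏ i ∈ Af j, vv c (u i) (g i) N n)
    (fun j _ => multS_prod _ _ fun i _ => vv_mult (hu i)) ?_ ?_ a
  · have heq : ∀ n, (∏ s ∈ S, sg (vv c (u s.1) (g s.1) N (n + s.2))) =
        ∏ j ∈ H, sg (∏ i ∈ Af j, vv c (u i) (g i) N (n + j)) := by
      intro n
      rw [← Finset.prod_fiberwise_of_maps_to (t := H) (g := Prod.snd)
        (fun s hs => Finset.mem_image_of_mem _ hs)]
      refine Finset.prod_congr rfl fun j _ => ?_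
      rw [sg_prod]
      refine Finset.prod_nbij' (i := Prod.fst) (j := fun i => (i, j)) ?_ ?_ ?_ ?_ ?_
      · rintro ⟨i, k⟩ hs
        rw [mem_filter] at hs
        have : k = j := hs.2
        rw [hAf, mem_filter]
        refine ⟨mem_univ _, ?_⟩
        rw [← this]
        exact hs.1
      · intro i hi
        rw [hAf, mem_filter] at hi
        rw [mem_filter]
        exact ⟨hi.2, rfl⟩
      · rintro ⟨i, k⟩ hs
        rw [mem_filter] at hs
        have : k = j := hs.2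
        rw [this]
      · intro i _
        rfl
      · rintro ⟨i, k⟩ hs
        rw [mem_filter] at hs
        have : k = j := hs.2
        rw [this]
    simp_rw [heq]
    exact hmain
  · intro j _
    refine le_trans (le_of_eq ?_) hρ.le
    apply Finset.sum_eq_zero
    intro p hp
    exfalso
    rw [mem_filter, mem_Icc] at hp
    obtain ⟨⟨_, hpN⟩, hpp, hlt, hne⟩ := hp
    apply hne
    show ∏ i ∈ Af j, vv c (u i) (g i) N p = ∏ i ∈ Af j, g i p
    exact Finset.prod_congr rfl fun i _ => vv_top hpp hpN hlt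
  · refine ⟨j₀, hj₀, h1.trans (le_of_eq ?_)⟩
    refine Finset.sum_congr ?_ fun _ _ => rfl
    ext p
    rw [mem_filter, mem_filter]
    refine and_congr_right fun _ => and_congr_right fun hpp => and_congr_right fun hle => ?_
    have h3 : ∏ i ∈ Af j₀, vv c (u i) (g i) N p = ∏ i ∈ Af j₀, u i p :=
      Finset.prod_congr rfl fun i _ => vv_low hpp hle
    show (∏ i ∈ Af j₀, u i p ≠ ∏ i ∈ Af j₀, g i p) ↔
      (∏ i ∈ Af j₀, vv c (u i) (g i) N p ≠ g' j₀ p)
    rw [h3]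

end CorrQAux

theorem corr_smallQ {m : ℕ} {u g : Fin m → ℕ → ℤˣ} (hu : ∀ i, MultS (u i)) {q : Fin m → ℕ}
    (hq : ∀ i, 0 < q i) (χ : ∀ i, DirichletCharacter ℂ (q i))
    (hg : ∀ i, ∀ p : ℕ, p.Prime → ¬ p ∣ q i → sgC (g i p) = χ i (p : ZMod (q i)))
    (B : Finset (Fin m)) (hfar : ∀ A ⊆ B, A.Nonempty → ¬ KK0 u g A)
    {Q : ℕ} (hQ : 0 < Q) (L : ℕ) (ε : ℝ) (hε : 0 < ε) :
    ∃ c N₀ : ℕ, ∀ N ≥ N₀, ∀ S : Finset (Fin m × ℕ), S.Nonempty →
      S ⊆ B ×ˢ range L → ∀ a : ℕ,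
      |LA (fun n => (if n ≡ a [MOD Q] then (1:ℝ) else 0) *
        ∏ s ∈ S, sg (vv c (u s.1) (g s.1) N (n + s.2))) N| < ε := by
  classical
  have h1 : ∀ S : Finset (Fin m × ℕ), ∃ c₀ : ℕ, S.Nonempty → (∀ s ∈ S, s.1 ∈ B) →
      ∀ c ≥ c₀, ∀ᶠ N : ℕ in atTop, ∀ a : ℕ,
      |LA (fun n => (if n ≡ a [MOD Q] then (1:ℝ) else 0) *
        ∏ s ∈ S, sg (vv c (u s.1) (g s.1) N (n + s.2))) N| < ε := by
    intro S
    by_cases hS : S.Nonempty
    · by_cases hSB : ∀ s ∈ S, s.1 ∈ B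
      · obtain ⟨c₀, hc₀⟩ := CorrQAux.corr_one hu hq χ hg B hfar hQ ε hε S hS hSB
        exact ⟨c₀, fun _ _ => hc₀⟩
      · exact ⟨0, fun _ h => absurd h hSB⟩
    · exact ⟨0, fun h => absurd h hS⟩
  choose c₀ hc₀ using h1
  set PW : Finset (Finset (Fin m × ℕ)) := (B ×ˢ range L).powerset with hPW
  have h2 : ∀ᶠ N : ℕ in atTop, ∀ S ∈ PW, S.Nonempty → ∀ a : ℕ,
      |LA (fun n => (if n ≡ a [MOD Q] then (1:ℝ) else 0) *
        ∏ s ∈ S, sg (vv (PW.sup c₀) (u s.1) (g s.1) N (n + s.2))) N| < ε := by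
    rw [eventually_all_finset]
    intro S hS
    have hSB : ∀ s ∈ S, s.1 ∈ B := by
      intro s hs
      rw [hPW, mem_powerset] at hS
      exact (mem_product.1 (hS hs)).1
    by_cases hne : S.Nonempty
    · filter_upwards [hc₀ S hne hSB (PW.sup c₀) (Finset.le_sup hS)] with N hN _
      exact hN
    · exact Eventually.of_forall fun N h => absurd h hne
  obtain ⟨N₀, hN₀⟩ := eventually_atTop.1 h2
  refine ⟨PW.sup c₀, N₀, fun N hN S hne hsub => hN₀ N hN S ?_ hne⟩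
  rw [hPW, mem_powerset]
  exact hsub

end Pool.Agent.Lib.P4a7640E
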