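import Mathlib
import Pool.Agent.Lib.P4a7640E.Base

/-!
# Entropy calculus, part A

Module P4a7640E.EntA (1.5 h). Self-contained.

`pr` lemmas: `pr N P = (∑ n ∈ Icc 1 N, if P n then 1/n else 0) / S`, `S = ∑ n ∈ Icc 1 N, 1/n`
(`S = 0` iff `N = 0`, then all `pr` are `0`). `pr_fiber`: split the sum according to the value of `Y`.
`Ent_pair` (subadditivity). `N = 0`: all terms are `negMulLog 0 = 0`. `N ≥ 1`: put
`r a b = pr (X = a ∧ Y = b)`, `p a = ∑ b, r a b = pr (X = a)`, `q b = ∑ a, r a b = pr (Y = b)`,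
`∑ p = ∑ q = 1`. Then
`Ent X + Ent Y - Ent (X,Y) = ∑ a, b, (r a b * log (r a b) - r a b * log (p a) - r a b * log (q b))`,
and each summand is `≥ r a b - p a * q b`: if `r a b = 0` this is `0 ≥ - p a * q b`; otherwise
`p a, q b > 0` and `r log (p q / r) ≤ r (p q / r - 1) = p q - r` (`Real.log_le_sub_one_of_pos`).
Sum: `≥ 1 - 1 = 0`.
`Ent_comp`: for each `c`, `negMulLog (∑ a ∈ φ⁻¹ c, p a) ≤ ∑ a ∈ φ⁻¹ c, negMulLog (p a)` for
`p a ∈ [0,1]` (`-s log s = ∑ -p a log s ≤ ∑ - p a log (p a)` as `p a ≤ s`; terms with `p a = 0`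
vanish), `pr (φ (X n) = c) = ∑ a with φ a = c, pr (X n = a)`.
`Ent_fin`: induction on `k`; `Fin (k+1) → α` is the image of a pair under `Fin.cons`:
`Ent (fun n i => X i n) = Ent (fun n => Fin.cons (X 0 n) (fun i => X i.succ n)) ≤ Ent (pair)`
by `Ent_comp`, then `Ent_pair`. `k = 0`: one value, its probability is `0` or `1`.
`Ent_pi`: the same for a general `Fintype ι` from `Ent_fin` with `Fintype.equivFin` and `Ent_comp`.
-/

open Finset Filter Topology
open Pool.Agent.Lib.P4a7640

namespace Pool.Agent.Lib.P4a7640E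

namespace EntAAux

open Classical in
/-- indicator -/
noncomputable def ind (P : Prop) : ℝ := if P then 1 else 0

theorem ind_true {P : Prop} (h : P) : ind P = 1 := by unfold ind; exact if_pos h

theorem ind_false {P : Prop} (h : ¬ P) : ind P = 0 := by unfold ind; exact if_neg h

theorem ind_nonneg (P : Prop) : 0 ≤ ind P := by
  by_cases h : P
  · rw [ind_true h]; norm_num
  · rw [ind_false h]

theorem ind_mono {P Q : Prop} (h : P → Q) : ind P ≤ ind Q := by
  by_cases hP : P
  · rw [ind_true hP, ind_true (h hP)]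
  · rw [ind_false hP]; exact ind_nonneg Q

theorem pr_eq (N : ℕ) (P : ℕ → Prop) :
    pr N P = (∑ n ∈ Icc 1 N, ind (P n) * ((1 : ℝ) / n)) / ∑ n ∈ Icc 1 N, (1 : ℝ) / n := by
  unfold pr
  rw [sum_filter]
  congr 1
  refine sum_congr rfl (fun n _ => ?_)
  by_cases h : P n
  · rw [if_pos h, ind_true h, one_mul]
  · rw [if_neg h, ind_false h, zero_mul]

theorem S_nonneg (N : ℕ) : 0 ≤ ∑ n ∈ Icc 1 N, (1 : ℝ) / n :=
  sum_nonneg (fun n _ => by positivity)

theorem S_pos {N : ℕ} (hN : 1 ≤ N) : 0 < ∑ n ∈ Icc 1 N, (1 : ℝ) / n := by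
  refine sum_pos (fun n hn => ?_) ⟨1, mem_Icc.2 ⟨le_refl _, hN⟩⟩
  have : 1 ≤ n := (mem_Icc.1 hn).1
  positivity

theorem pr_zero (P : ℕ → Prop) : pr 0 P = 0 := by
  unfold pr; simp

theorem Ent_zero {α : Type} [Fintype α] (X : ℕ → α) : Ent 0 X = 0 := by
  unfold Ent
  simp [pr_zero]

theorem term (r p q : ℝ) (hr : 0 ≤ r) (hp : r ≤ p) (hq : r ≤ q) :
    Real.negMulLog r ≤ -(r * Real.log p) - r * Real.log q + (p * q - r) := by
  rcases hr.eq_or_lt with h0 | h0
  · subst h0
    simp only [Real.negMulLog_zero, zero_mul, neg_zero, sub_zero, zero_add]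
    positivity
  · have hp0 : 0 < p := h0.trans_le hp
    have hq0 : 0 < q := h0.trans_le hq
    have h1 : Real.log (p * q / r) ≤ p * q / r - 1 := Real.log_le_sub_one_of_pos (by positivity)
    rw [Real.log_div (by positivity) h0.ne', Real.log_mul hp0.ne' hq0.ne'] at h1
    have h2 := mul_le_mul_of_nonneg_left h1 h0.le
    have h3 : r * (p * q / r - 1) = p * q - r := by field_simp
    rw [h3] at h2
    unfold Real.negMulLog
    linarith

end EntAAux

open EntAAux

theorem pr_nonneg (N : ℕ) (P : ℕ → Prop) : 0 ≤ pr N P := by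
  rw [pr_eq]
  exact div_nonneg (sum_nonneg (fun n _ => mul_nonneg (ind_nonneg _) (by positivity))) (S_nonneg N)

theorem pr_mono {N : ℕ} {P Q : ℕ → Prop} (h : ∀ n, P n → Q n) : pr N P ≤ pr N Q := by
  rw [pr_eq, pr_eq]
  exact div_le_div_of_nonneg_right
    (sum_le_sum (fun n _ => mul_le_mul_of_nonneg_right (ind_mono (h n)) (by positivity)))
    (S_nonneg N)

theorem pr_congr {N : ℕ} {P Q : ℕ → Prop} (h : ∀ n, 1 ≤ n → n ≤ N → (P n ↔ Q n)) :
    pr N P = pr N Q := by
  rw [pr_eq, pr_eq]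
  congr 1
  refine sum_congr rfl (fun n hn => ?_)
  have hn' := mem_Icc.1 hn
  rw [propext (h n hn'.1 hn'.2)]

theorem pr_true {N : ℕ} (hN : 1 ≤ N) : pr N (fun _ => True) = 1 := by
  rw [pr_eq]
  have : ∑ n ∈ Icc 1 N, ind True * ((1 : ℝ) / n) = ∑ n ∈ Icc 1 N, (1 : ℝ) / n :=
    sum_congr rfl (fun n _ => by rw [ind_true trivial, one_mul])
  rw [this]
  exact div_self (S_pos hN).ne'

theorem pr_le_one (N : ℕ) (P : ℕ → Prop) : pr N P ≤ 1 := by
  rcases Nat.eq_zero_or_pos N with h | h
  · subst h; rw [pr_zero]; norm_num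
  · rw [← pr_true h]
    exact pr_mono (fun _ _ => trivial)

theorem pr_not {N : ℕ} (hN : 1 ≤ N) (P : ℕ → Prop) : pr N (fun n => ¬ P n) = 1 - pr N P := by
  rw [eq_sub_iff_add_eq, pr_eq, pr_eq, ← add_div, ← sum_add_distrib]
  have : ∑ n ∈ Icc 1 N, (ind (¬ P n) * ((1 : ℝ) / n) + ind (P n) * ((1 : ℝ) / n)) =
      ∑ n ∈ Icc 1 N, (1 : ℝ) / n := by
    refine sum_congr rfl (fun n _ => ?_)
    by_cases h : P n
    · rw [ind_true h, ind_false (not_not.2 h)]; ring
    · rw [ind_false h, ind_true h]; ring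
  rw [this]
  exact div_self (S_pos hN).ne'

theorem pr_fiber {β : Type} [Fintype β] (N : ℕ) (P : ℕ → Prop) (Y : ℕ → β) :
    pr N P = ∑ b, pr N (fun n => P n ∧ Y n = b) := by
  simp only [pr_eq]
  rw [← sum_div, sum_comm]
  congr 1
  refine sum_congr rfl (fun n _ => ?_)
  rw [← sum_mul]
  congr 1
  rw [sum_eq_single (Y n)]
  · by_cases h : P n
    · rw [ind_true h, ind_true ⟨h, rfl⟩]
    · rw [ind_false h, ind_false (fun h' => h h'.1)]
  · intro b _ hb
    exact ind_false (fun h' => hb h'.2.symm)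
  · intro h
    exact absurd (mem_univ _) h

theorem pr_sum {α : Type} [Fintype α] {N : ℕ} (hN : 1 ≤ N) (X : ℕ → α) :
    ∑ a, pr N (fun n => X n = a) = 1 := by
  rw [← pr_true hN, pr_fiber N (fun _ => True) X]
  refine sum_congr rfl (fun a _ => pr_congr (fun n _ _ => ?_))
  exact ⟨fun h => ⟨trivial, h⟩, fun h => h.2⟩

theorem Ent_nonneg {α : Type} [Fintype α] (N : ℕ) (X : ℕ → α) : 0 ≤ Ent N X :=
  sum_nonneg (fun _ _ => Real.negMulLog_nonneg (pr_nonneg _ _) (pr_le_one _ _))

theorem Ent_pair {α β : Type} [Fintype α] [Fintype β] (N : ℕ) (X : ℕ → α) (Y : ℕ → β) :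
    Ent N (fun n => (X n, Y n)) ≤ Ent N X + Ent N Y := by
  rcases Nat.eq_zero_or_pos N with h0 | hN
  · subst h0; rw [Ent_zero, Ent_zero, Ent_zero]; norm_num
  set r : α → β → ℝ := fun a b => pr N (fun n => X n = a ∧ Y n = b) with hr
  set p : α → ℝ := fun a => pr N (fun n => X n = a) with hp
  set q : β → ℝ := fun b => pr N (fun n => Y n = b) with hq
  have hrp : ∀ a, ∑ b, r a b = p a := fun a => (pr_fiber N (fun n => X n = a) Y).symm
  have hrq : ∀ b, ∑ a, r a b = q b := by
    intro b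
    rw [hq]
    simp only
    rw [pr_fiber N (fun n => Y n = b) X]
    exact sum_congr rfl (fun a _ => pr_congr (fun n _ _ => and_comm))
  have hE : Ent N (fun n => (X n, Y n)) = ∑ a, ∑ b, Real.negMulLog (r a b) := by
    unfold Ent
    rw [Fintype.sum_prod_type]
    refine sum_congr rfl (fun a _ => sum_congr rfl (fun b _ => ?_))
    congr 1
    exact pr_congr (fun n _ _ => Prod.mk.injEq _ _ _ _ ▸ Iff.rfl)
  have hterm : ∀ a b, Real.negMulLog (r a b) ≤
      -(r a b * Real.log (p a)) - r a b * Real.log (q b) + (p a * q b - r a b) := fun a b =>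
    term _ _ _ (pr_nonneg _ _) (pr_mono (fun n h => h.1)) (pr_mono (fun n h => h.2))
  have s1 : ∑ a, ∑ b, -(r a b * Real.log (p a)) = ∑ a, Real.negMulLog (p a) := by
    refine sum_congr rfl (fun a _ => ?_)
    rw [sum_neg_distrib, ← sum_mul, hrp]
    unfold Real.negMulLog; ring
  have s2 : ∑ a, ∑ b, r a b * Real.log (q b) = -∑ b, Real.negMulLog (q b) := by
    rw [sum_comm, ← sum_neg_distrib]
    refine sum_congr rfl (fun b _ => ?_)
    rw [← sum_mul, hrq]
    unfold Real.negMulLog; ring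
  have s3 : ∑ a, ∑ b, p a * q b = 1 := by
    have hp1 : ∑ a, p a = 1 := pr_sum hN X
    have hq1 : ∑ b, q b = 1 := pr_sum hN Y
    rw [← sum_mul_sum, hp1, hq1, one_mul]
  have s4 : ∑ a, ∑ b, r a b = 1 := by
    rw [sum_congr rfl (fun a _ => hrp a)]
    exact pr_sum hN X
  rw [hE]
  calc ∑ a, ∑ b, Real.negMulLog (r a b)
      ≤ ∑ a, ∑ b, (-(r a b * Real.log (p a)) - r a b * Real.log (q b) + (p a * q b - r a b)) :=
        sum_le_sum (fun a _ => sum_le_sum (fun b _ => hterm a b))
    _ = ∑ a, ∑ b, -(r a b * Real.log (p a)) - ∑ a, ∑ b, r a b * Real.log (q b) +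
          (∑ a, ∑ b, p a * q b - ∑ a, ∑ b, r a b) := by
        simp only [sum_add_distrib, sum_sub_distrib]
    _ = ∑ a, Real.negMulLog (p a) + ∑ b, Real.negMulLog (q b) := by
        rw [s1, s2, s3, s4]; ring
    _ = Ent N X + Ent N Y := rfl

theorem Ent_comp {α β : Type} [Fintype α] [Fintype β] (N : ℕ) (X : ℕ → α) (φ : α → β) :
    Ent N (fun n => φ (X n)) ≤ Ent N X := by
  set p : α → ℝ := fun a => pr N (fun n => X n = a) with hp
  have hp0 : ∀ a, 0 ≤ p a := fun a => pr_nonneg _ _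
  have hs : ∀ c, pr N (fun n => φ (X n) = c) = ∑ a, ind (φ a = c) * p a := by
    intro c
    rw [pr_fiber N (fun n => φ (X n) = c) X]
    refine sum_congr rfl (fun a _ => ?_)
    by_cases h : φ a = c
    · rw [ind_true h, one_mul]
      refine pr_congr (fun n _ _ => ⟨fun h' => h'.2, fun h' => ⟨by rw [h']; exact h, h'⟩⟩)
    · rw [ind_false h, zero_mul]
      have : pr N (fun n => φ (X n) = c ∧ X n = a) = pr N (fun _ => False) :=
        pr_congr (fun n _ _ => ⟨fun h' => h (by rw [← h'.2]; exact h'.1), fun h' => h'.elim⟩)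
      rw [this, pr_eq]
      simp [ind_false not_false]
  have hc : ∀ c, Real.negMulLog (pr N (fun n => φ (X n) = c)) ≤
      ∑ a, ind (φ a = c) * Real.negMulLog (p a) := by
    intro c
    set S := pr N (fun n => φ (X n) = c) with hS
    have h1 : Real.negMulLog S = ∑ a, ind (φ a = c) * (-(p a) * Real.log S) := by
      have hsS : S = ∑ a, ind (φ a = c) * p a := hs c
      have h1' : -S * Real.log S = -(∑ a, ind (φ a = c) * p a) * Real.log S := by rw [← hsS]
      unfold Real.negMulLog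
      rw [h1', ← sum_neg_distrib, sum_mul]
      exact sum_congr rfl (fun a _ => by ring)
    rw [h1]
    refine sum_le_sum (fun a _ => ?_)
    by_cases h : φ a = c
    · rw [ind_true h, one_mul, one_mul]
      rcases (hp0 a).eq_or_lt with h0 | h0
      · rw [← h0]; simp
      · have h2 : p a ≤ S := pr_mono (fun n hn => by
          have hn' : X n = a := hn
          rw [hn']; exact h)
        have h3 : Real.log (p a) ≤ Real.log S := Real.log_le_log h0 h2
        unfold Real.negMulLog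
        nlinarith
    · rw [ind_false h, zero_mul, zero_mul]
  calc Ent N (fun n => φ (X n)) ≤ ∑ c, ∑ a, ind (φ a = c) * Real.negMulLog (p a) :=
        sum_le_sum (fun c _ => hc c)
    _ = ∑ a, (∑ c, ind (φ a = c)) * Real.negMulLog (p a) := by
        rw [sum_comm]
        exact sum_congr rfl (fun a _ => by rw [sum_mul])
    _ = ∑ a, Real.negMulLog (p a) := by
        refine sum_congr rfl (fun a _ => ?_)
        rw [sum_eq_single (φ a), ind_true rfl, one_mul]
        · intro c _ hc'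
          exact ind_false (fun h => hc' h.symm)
        · intro h; exact absurd (mem_univ _) h
    _ = Ent N X := rfl

theorem EntAAux.Ent_fin {α : Type} [Fintype α] (N : ℕ) : ∀ (k : ℕ) (X : Fin k → ℕ → α),
    Ent N (fun n (i : Fin k) => X i n) ≤ ∑ i, Ent N (X i) := by
  intro k
  induction k with
  | zero =>
    intro X
    rcases Nat.eq_zero_or_pos N with h0 | hN
    · subst h0; rw [Ent_zero]; simp
    · have : Ent N (fun n (i : Fin 0) => X i n) = 0 := by
        unfold Ent
        refine sum_eq_zero (fun a _ => ?_)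
        have h1 : pr N (fun n => (fun (i : Fin 0) => X i n) = a) = pr N (fun _ => True) :=
          pr_congr (fun n _ _ => ⟨fun _ => trivial, fun _ => Subsingleton.elim _ _⟩)
        rw [h1, pr_true hN, Real.negMulLog_one]
      rw [this]; simp
  | succ k ih =>
    intro X
    have h1 : (fun n (i : Fin (k + 1)) => X i n) =
        (fun n => (fun z : α × (Fin k → α) => (Fin.cons z.1 z.2 : Fin (k + 1) → α))
          (X 0 n, fun i => X i.succ n)) := by
      funext n i
      refine Fin.cases ?_ (fun j => ?_) i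
      · simp
      · simp
    have h3 : Ent N (fun n => (fun z : α × (Fin k → α) => (Fin.cons z.1 z.2 : Fin (k + 1) → α))
          (X 0 n, fun i => X i.succ n)) ≤ Ent N (fun n => (X 0 n, fun i : Fin k => X i.succ n)) :=
      Ent_comp N (fun n => (X 0 n, fun i : Fin k => X i.succ n))
        (fun z : α × (Fin k → α) => (Fin.cons z.1 z.2 : Fin (k + 1) → α))
    have h4 : Ent N (fun n => (X 0 n, fun i : Fin k => X i.succ n)) ≤
        Ent N (X 0) + Ent N (fun n (i : Fin k) => X i.succ n) :=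
      Ent_pair N (X 0) (fun n (i : Fin k) => X i.succ n)
    have h2 : Ent N (fun n (i : Fin k) => X i.succ n) ≤ ∑ i : Fin k, Ent N (X i.succ) :=
      ih (fun i => X i.succ)
    rw [h1, Fin.sum_univ_succ]
    linarith

theorem Ent_pi {ι α : Type} [Fintype ι] [DecidableEq ι] [Fintype α] (N : ℕ) (X : ι → ℕ → α) :
    Ent N (fun n (i : ι) => X i n) ≤ ∑ i, Ent N (X i) := by
  set e := Fintype.equivFin ι with he
  have h1 : (fun n (i : ι) => X i n) =
      (fun n => (fun g : Fin (Fintype.card ι) → α => (fun i => g (e i)))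
        (fun j => X (e.symm j) n)) := by
    funext n i
    simp
  rw [h1]
  refine (Ent_comp N (fun n (j : Fin (Fintype.card ι)) => X (e.symm j) n)
    (fun g : Fin (Fintype.card ι) → α => (fun i => g (e i)))).trans ?_
  refine (EntAAux.Ent_fin N _ (fun j => X (e.symm j))).trans (le_of_eq ?_)
  exact Equiv.sum_comp e.symm (fun i => Ent N (X i))

end Pool.Agent.Lib.P4a7640E
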