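import Mathlib

/-!
# Choosing a basis

Module P4a7640E.Basis (0.7 h). Only Mathlib.

`K` is a subgroup of the group of finite sets under the symmetric difference. Let `B` be a finite
set of maximal cardinality with `∀ A ⊆ B, A.Nonempty → ¬ K A` (`∅` has this property;
`Finset.exists_max_image` on `univ.powerset.filter ..`, or strong induction). For `i ∈ B` put
`r i = {i}`: `symmDiff {i} {i} = ∅`. For `i ∉ B`: `insert i B` does not have the property, so there is a
nonempty `A ⊆ insert i B` with `K A`, and `i ∈ A` (otherwise `A ⊆ B`); `r i = A.erase i ⊆ B`,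
`symmDiff {i} (A.erase i) = A`. `r i` is nonempty since otherwise `K {i}`. If `r i = r j`, `i ≠ j`,
then `symmDiff (symmDiff {i} (r i)) (symmDiff {j} (r j)) = symmDiff {i} {j} = {i, j}` is in `K`,
contradiction.
-/

open Finset

namespace Pool.Agent.Lib.P4a7640E

theorem exists_basis {ι : Type} [Fintype ι] [DecidableEq ι] (K : Finset ι → Prop) (h0 : K ∅)
    (hadd : ∀ A B, K A → K B → K (symmDiff A B)) (h1 : ∀ i, ¬ K {i})
    (h2 : ∀ i j, i ≠ j → ¬ K {i, j}) :
    ∃ (B : Finset ι) (r : ι → Finset ι), (∀ A ⊆ B, A.Nonempty → ¬ K A) ∧ (∀ i, r i ⊆ B) ∧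
      (∀ i, (r i).Nonempty) ∧ Function.Injective r ∧ ∀ i, K (symmDiff {i} (r i)) := by
  classical
  have hne : (univ.powerset.filter
      (fun B : Finset ι => ∀ A ⊆ B, A.Nonempty → ¬ K A)).Nonempty := by
    refine ⟨∅, ?_⟩
    rw [mem_filter]
    refine ⟨by simp, ?_⟩
    intro A hA hAn
    have := subset_empty.mp hA
    rw [this] at hAn
    exact absurd hAn (by simp)
  obtain ⟨B, hB, hmax⟩ := exists_max_image _ Finset.card hne
  have hBp : ∀ A ⊆ B, A.Nonempty → ¬ K A := (mem_filter.mp hB).2
  have key : ∀ i, ∃ s : Finset ι, s ⊆ B ∧ s.Nonempty ∧ K (symmDiff {i} s) := by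
    intro i
    by_cases hi : i ∈ B
    · refine ⟨{i}, by simpa using hi, by simp, ?_⟩
      rw [symmDiff_self]
      exact h0
    · have hnot : ¬ (∀ A ⊆ insert i B, A.Nonempty → ¬ K A) := by
        intro hcon
        have hmem : insert i B ∈ univ.powerset.filter
            (fun B : Finset ι => ∀ A ⊆ B, A.Nonempty → ¬ K A) := by
          rw [mem_filter]
          exact ⟨by simp, hcon⟩
        have := hmax _ hmem
        rw [card_insert_of_notMem hi] at this
        omega
      push Not at hnot
      obtain ⟨A, hA, hAn, hKA⟩ := hnot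
      have hiA : i ∈ A := by
        by_contra hiA
        refine hBp A ?_ hAn hKA
        intro x hx
        rcases mem_insert.mp (hA hx) with h | h
        · exact absurd (h ▸ hx) hiA
        · exact h
      have hsd : symmDiff {i} (A.erase i) = A := by
        ext x
        simp only [mem_symmDiff, mem_singleton, mem_erase]
        by_cases hx : x = i
        · subst hx
          simp [hiA]
        · simp [hx]
      refine ⟨A.erase i, ?_, ?_, ?_⟩
      · intro x hx
        rcases mem_insert.mp (hA (mem_of_mem_erase hx)) with h | h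
        · exact absurd h (ne_of_mem_erase hx)
        · exact h
      · rw [nonempty_iff_ne_empty]
        intro hemp
        have hAi : A = {i} := by
          rw [← hsd, hemp]
          ext x
          simp [mem_symmDiff]
        exact h1 i (hAi ▸ hKA)
      · rw [hsd]
        exact hKA
  choose r hr1 hr2 hr3 using key
  refine ⟨B, r, hBp, hr1, hr2, ?_, hr3⟩
  intro i j hij
  by_contra hne'
  have h := hadd _ _ (hr3 i) (hr3 j)
  rw [hij] at h
  have he : symmDiff (symmDiff {i} (r j)) (symmDiff {j} (r j)) = ({i, j} : Finset ι) := by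
    ext x
    simp only [mem_symmDiff, mem_singleton, mem_insert]
    by_cases hxi : x = i
    · have hxj : x ≠ j := fun h => hne' (hxi.symm.trans h)
      simp only [hxi]
      have : i ≠ j := hne'
      by_cases hxr : i ∈ r j <;> simp [hxr, this]
    · by_cases hxj : x = j
      · simp only [hxj]
        have : j ≠ i := fun h => hne' h.symm
        by_cases hxr : j ∈ r j <;> simp [hxr, this]
      · by_cases hxr : x ∈ r j <;> simp [hxr, hxi, hxj]
  rw [he] at h
  exact h2 i j hne' h

end Pool.Agent.Lib.P4a7640E
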