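import Mathlib
import Pool.Agent.Lib.P4a7640E.EntA

/-!
# Entropy calculus, part B

Module P4a7640E.EntB (1.3 h). Imports are black boxes.

`Ent_le_log`: `N = 0`: `Ent = 0`. `N ≥ 1`: `∑ a ∈ S, p a log (1/(|S| p a)) ≤ ∑ a ∈ S, (1/|S| - p a) = 0`
for the set `S` (`log x ≤ x - 1`; terms with `p a = 0` are `0 ≤ 1/|S|`), where `p a = pr (X = a) = 0`
for `a ∉ S`, so `Ent X = ∑ a ∈ S, negMulLog (p a) ≤ log |S|`.
General form `sum_negMulLog_le`: for `p a ≥ 0` on `S`, `∑ a ∈ S, p a ≤ 1`, `S ≠ ∅`: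
`∑ a ∈ S, negMulLog (p a) ≤ log |S| + 1/|S| * |S| - ...`; precisely with `s = ∑ p a ≤ 1`:
`∑ negMulLog (p a) = ∑ p a log (1/(|S| p a)) + s log |S| ≤ (1 - s) + s log |S| ≤ log |S| + (1 - s)`.
`Ent_sign`: the two values of `t n`, `pr (t = 1) = 1 - pr (t = -1)`, and
`Real.binEntropy_eq_negMulLog_add_negMulLog_one_sub`.
`Ent_unif`: continuity of `negMulLog` at `1/card α`: choose `δ` with
`negMulLog p ≥ negMulLog (1/K) - ε/K` for `|p - 1/K| ≤ δ`, `K = card α`; sum over `a`: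
`K * negMulLog (1/K) = log K`.
`bin_cont`: `F(s) = binEntropy (min s 2⁻¹)` is continuous; choose `δ` with `F(θ+δ) ≤ F(θ) + ε`,
`F θ = binEntropy θ`. For `0 ≤ p ≤ θ + δ`, `p ≤ 1`: if `p ≤ 1/2` then `p ≤ min (θ+δ) 2⁻¹` and
`Real.binEntropy_strictMonoOn` gives `binEntropy p ≤ F(θ+δ)`; if `p > 1/2` then `θ + δ > 1/2`,
`binEntropy p ≤ log 2 = binEntropy 2⁻¹ = F(θ+δ)` (`Real.binEntropy_le_log_two`).
-/

open Finset Filter Topology
open Pool.Agent.Lib.P4a7640

namespace Pool.Agent.Lib.P4a7640E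

theorem sum_negMulLog_le {α : Type} (S : Finset α) (hS : S.Nonempty) (p : α → ℝ)
    (h0 : ∀ a ∈ S, 0 ≤ p a) (h1 : ∑ a ∈ S, p a ≤ 1) :
    ∑ a ∈ S, Real.negMulLog (p a) ≤ Real.log S.card + (1 - ∑ a ∈ S, p a) := by
  have hK : (0 : ℝ) < S.card := by exact_mod_cast hS.card_pos
  have hK1 : (1 : ℝ) ≤ S.card := by exact_mod_cast hS.card_pos
  have hlog : 0 ≤ Real.log S.card := Real.log_nonneg hK1
  have hterm : ∀ a ∈ S, Real.negMulLog (p a) ≤ 1 / S.card - p a + p a * Real.log S.card := by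
    intro a ha
    rcases (h0 a ha).eq_or_lt with h | h
    · rw [← h]; simp
    · have h2 : Real.log (1 / (S.card * p a)) ≤ 1 / (S.card * p a) - 1 :=
        Real.log_le_sub_one_of_pos (by positivity)
      rw [one_div, Real.log_inv, Real.log_mul hK.ne' h.ne'] at h2
      have h3 := mul_le_mul_of_nonneg_left h2 h.le
      have h4 : p a * ((S.card * p a)⁻¹ - 1) = 1 / S.card - p a := by field_simp
      rw [h4] at h3
      unfold Real.negMulLog
      linarith
  have hsum0 : 0 ≤ ∑ a ∈ S, p a := sum_nonneg h0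
  calc ∑ a ∈ S, Real.negMulLog (p a) ≤ ∑ a ∈ S, (1 / (S.card : ℝ) - p a + p a * Real.log S.card) :=
        sum_le_sum hterm
    _ = (1 - ∑ a ∈ S, p a) + (∑ a ∈ S, p a) * Real.log S.card := by
        rw [sum_add_distrib, sum_sub_distrib, sum_const, nsmul_eq_mul, ← sum_mul]
        congr 2
        field_simp
    _ ≤ Real.log S.card + (1 - ∑ a ∈ S, p a) := by nlinarith

theorem Ent_le_log {α : Type} [Fintype α] [Nonempty α] (N : ℕ) (X : ℕ → α) :
    Ent N X ≤ Real.log (Fintype.card α) := by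
  rcases Nat.eq_zero_or_pos N with h0 | hN
  · subst h0
    rw [EntAAux.Ent_zero]
    exact Real.log_nonneg (by exact_mod_cast Fintype.card_pos)
  · have h := sum_negMulLog_le (univ : Finset α) univ_nonempty
      (fun a => pr N (fun n => X n = a)) (fun a _ => pr_nonneg _ _) (le_of_eq (pr_sum hN X))
    rw [pr_sum hN X, sub_self, add_zero, card_univ] at h
    exact h

theorem Ent_sign {N : ℕ} (hN : 1 ≤ N) (t : ℕ → ℤˣ) :
    Ent N t = Real.binEntropy (pr N fun n => t n = -1) := by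
  have h1 : pr N (fun n => t n = 1) = 1 - pr N (fun n => t n = -1) := by
    rw [← pr_not hN]
    refine pr_congr (fun n _ _ => ?_)
    rcases Int.units_eq_one_or (t n) with h | h
    · rw [h]; decide
    · rw [h]; decide
  unfold Ent
  rw [Real.binEntropy_eq_negMulLog_add_negMulLog_one_sub, ← h1, UnitsInt.univ,
    sum_pair (by decide), add_comm]

theorem Ent_unif {α : Type} [Fintype α] [Nonempty α] {ε : ℝ} (hε : 0 < ε) :
    ∃ δ : ℝ, 0 < δ ∧ ∀ (N : ℕ) (X : ℕ → α),
      (∀ a, |pr N (fun n => X n = a) - 1 / (Fintype.card α : ℝ)| ≤ δ) →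
      Real.log (Fintype.card α) - ε ≤ Ent N X := by
  set K : ℝ := (Fintype.card α : ℝ) with hK
  have hK0 : 0 < K := by rw [hK]; exact_mod_cast Fintype.card_pos
  have hc : ContinuousAt Real.negMulLog (1 / K) := Real.continuous_negMulLog.continuousAt
  obtain ⟨δ, hδ, hδ2⟩ := Metric.continuousAt_iff.1 hc (ε / K) (by positivity)
  refine ⟨δ / 2, by positivity, fun N X hX => ?_⟩
  have hterm : ∀ a : α, Real.negMulLog (1 / K) - ε / K ≤
      Real.negMulLog (pr N fun n => X n = a) := by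
    intro a
    have h1 : dist (pr N fun n => X n = a) (1 / K) < δ := by
      rw [Real.dist_eq]
      have := hX a
      linarith
    have h2 := hδ2 h1
    rw [Real.dist_eq] at h2
    have := (abs_lt.1 h2).1
    linarith
  have h3 : ∑ _a : α, (Real.negMulLog (1 / K) - ε / K) = Real.log K - ε := by
    rw [sum_const, card_univ, nsmul_eq_mul, ← hK]
    unfold Real.negMulLog
    rw [one_div, Real.log_inv]
    field_simp
  rw [← h3]
  exact sum_le_sum (fun a _ => hterm a)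

theorem bin_cont {θ : ℝ} (h0 : 0 ≤ θ) (h1 : θ ≤ 2⁻¹) {ε : ℝ} (hε : 0 < ε) :
    ∃ δ : ℝ, 0 < δ ∧ ∀ p : ℝ, 0 ≤ p → p ≤ 1 → p ≤ θ + δ →
      Real.binEntropy p ≤ Real.binEntropy θ + ε := by
  have hc : ContinuousAt (fun s => Real.binEntropy (min s 2⁻¹)) θ :=
    (Real.binEntropy_continuous.comp (continuous_id.min continuous_const)).continuousAt
  obtain ⟨δ, hδ, hδ2⟩ := Metric.continuousAt_iff.1 hc ε hε
  refine ⟨δ / 2, by positivity, fun p hp0 hp1 hp => ?_⟩
  have hd : dist (θ + δ / 2) θ < δ := by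
    rw [Real.dist_eq, add_sub_cancel_left, abs_of_pos (by positivity)]
    linarith
  have h2 := hδ2 hd
  rw [Real.dist_eq, min_eq_left h1] at h2
  have h3 := (abs_lt.1 h2).2
  have h4 : Real.binEntropy p ≤ Real.binEntropy (min (θ + δ / 2) 2⁻¹) := by
    rcases le_or_gt p 2⁻¹ with h | h
    · have hmin : p ≤ min (θ + δ / 2) 2⁻¹ := le_min hp h
      exact Real.binEntropy_strictMonoOn.monotoneOn ⟨hp0, h⟩
        ⟨hp0.trans hmin, min_le_right _ _⟩ hmin
    · have hmin : min (θ + δ / 2) 2⁻¹ = 2⁻¹ := min_eq_right (by linarith)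
      rw [hmin, Real.binEntropy_two_inv]
      exact Real.binEntropy_le_log_two
  linarith

end Pool.Agent.Lib.P4a7640E
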