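import Mathlib
import Pool.Agent.Lib.P4a7640E.EntB

/-!
# Submodularity of entropy

Module P4a7640E.SubMod (1 h). Imports are black boxes.

`N = 0`: all entropies are `0` (`EntAAux.Ent_zero`). `N ≥ 1`: put `r a b w = pr (X = a ∧ Y = b ∧ W = w)`,
`p a w = ∑ b, r a b w = pr (X = a ∧ W = w)`, `q b w = ∑ a, r a b w = pr (Y = b ∧ W = w)`,
`s w = ∑ a, b, r a b w = pr (W = w)` (`pr_fiber`). As in the proof of `Ent_pair` (file EntA.lean):
`Ent (X,W) + Ent (Y,W) - Ent ((X,Y),W) - Ent W = ∑ r (log r + log s - log p - log q)`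
`≥ ∑ a, b, w, (r a b w - p a w * q b w / s w)` (for `r = 0` the summand on the left is `0`; for
`r > 0` all of `p, q, s` are `> 0` and `log (p q / (s r)) ≤ p q / (s r) - 1`; `x / 0 = 0`), and
`∑ a, b, p a w * q b w / s w = s w * s w / s w = s w`, so the sum is `∑ w, (s w - s w) = 0`.
-/

open Finset Filter Topology
open Pool.Agent.Lib.P4a7640

namespace Pool.Agent.Lib.P4a7640E

namespace SubModAux

theorem term (r p q s : ℝ) (hr : 0 ≤ r) (hp : r ≤ p) (hq : r ≤ q) (hs : r ≤ s) :
    Real.negMulLog r + -(r * Real.log s) ≤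
      -(r * Real.log p) + -(r * Real.log q) + (p * q / s - r) := by
  rcases hr.eq_or_lt with h0 | h0
  · subst h0
    simp only [Real.negMulLog_zero, zero_mul, neg_zero, sub_zero, zero_add]
    positivity
  · have hp0 : 0 < p := h0.trans_le hp
    have hq0 : 0 < q := h0.trans_le hq
    have hs0 : 0 < s := h0.trans_le hs
    have h1 : Real.log (p * q / (s * r)) ≤ p * q / (s * r) - 1 :=
      Real.log_le_sub_one_of_pos (by positivity)
    rw [Real.log_div (by positivity) (by positivity), Real.log_mul hp0.ne' hq0.ne',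
      Real.log_mul hs0.ne' h0.ne'] at h1
    have h2 := mul_le_mul_of_nonneg_left h1 h0.le
    have h3 : r * (p * q / (s * r) - 1) = p * q / s - r := by field_simp
    rw [h3] at h2
    unfold Real.negMulLog
    linarith

end SubModAux

open SubModAux

theorem Ent_submod {α β γ : Type} [Fintype α] [Fintype β] [Fintype γ] (N : ℕ)
    (X : ℕ → α) (Y : ℕ → β) (W : ℕ → γ) :
    Ent N (fun n => ((X n, Y n), W n)) + Ent N W ≤
      Ent N (fun n => (X n, W n)) + Ent N (fun n => (Y n, W n)) := by
  rcases Nat.eq_zero_or_pos N with h0 | hN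
  · subst h0
    rw [EntAAux.Ent_zero, EntAAux.Ent_zero, EntAAux.Ent_zero, EntAAux.Ent_zero]
  set r : γ → α → β → ℝ := fun w a b => pr N (fun n => X n = a ∧ Y n = b ∧ W n = w) with hr
  set p : γ → α → ℝ := fun w a => pr N (fun n => X n = a ∧ W n = w) with hp
  set q : γ → β → ℝ := fun w b => pr N (fun n => Y n = b ∧ W n = w) with hq
  set s : γ → ℝ := fun w => pr N (fun n => W n = w) with hs
  have hrp : ∀ w a, ∑ b, r w a b = p w a := by
    intro w a
    rw [hp]
    simp only
    rw [pr_fiber N (fun n => X n = a ∧ W n = w) Y]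
    refine sum_congr rfl (fun b _ => pr_congr (fun n _ _ => ?_))
    constructor
    · rintro ⟨h1, h2, h3⟩
      exact ⟨⟨h1, h3⟩, h2⟩
    · rintro ⟨⟨h1, h3⟩, h2⟩
      exact ⟨h1, h2, h3⟩
  have hrq : ∀ w b, ∑ a, r w a b = q w b := by
    intro w b
    rw [hq]
    simp only
    rw [pr_fiber N (fun n => Y n = b ∧ W n = w) X]
    refine sum_congr rfl (fun a _ => pr_congr (fun n _ _ => ?_))
    constructor
    · rintro ⟨h1, h2, h3⟩
      exact ⟨⟨h2, h3⟩, h1⟩
    · rintro ⟨⟨h2, h3⟩, h1⟩
      exact ⟨h1, h2, h3⟩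
  have hps : ∀ w, ∑ a, p w a = s w := by
    intro w
    rw [hs]
    simp only
    rw [pr_fiber N (fun n => W n = w) X]
    exact sum_congr rfl (fun a _ => pr_congr (fun n _ _ => and_comm))
  have hqs : ∀ w, ∑ b, q w b = s w := by
    intro w
    rw [hs]
    simp only
    rw [pr_fiber N (fun n => W n = w) Y]
    exact sum_congr rfl (fun a _ => pr_congr (fun n _ _ => and_comm))
  have hE1 : Ent N (fun n => ((X n, Y n), W n)) = ∑ w, ∑ a, ∑ b, Real.negMulLog (r w a b) := by
    unfold Ent
    rw [Fintype.sum_prod_type, sum_comm]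
    refine sum_congr rfl (fun w _ => ?_)
    rw [Fintype.sum_prod_type]
    refine sum_congr rfl (fun a _ => sum_congr rfl (fun b _ => ?_))
    congr 1
    refine pr_congr (fun n _ _ => ?_)
    simp only [Prod.mk.injEq]
    exact and_assoc
  have hE2 : Ent N (fun n => (X n, W n)) = ∑ w, ∑ a, Real.negMulLog (p w a) := by
    unfold Ent
    rw [Fintype.sum_prod_type, sum_comm]
    refine sum_congr rfl (fun w _ => sum_congr rfl (fun a _ => ?_))
    congr 1
    refine pr_congr (fun n _ _ => ?_)
    simp only [Prod.mk.injEq]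
  have hE3 : Ent N (fun n => (Y n, W n)) = ∑ w, ∑ b, Real.negMulLog (q w b) := by
    unfold Ent
    rw [Fintype.sum_prod_type, sum_comm]
    refine sum_congr rfl (fun w _ => sum_congr rfl (fun a _ => ?_))
    congr 1
    refine pr_congr (fun n _ _ => ?_)
    simp only [Prod.mk.injEq]
  have hE4 : Ent N W = ∑ w, Real.negMulLog (s w) := rfl
  rw [hE1, hE2, hE3, hE4, ← sum_add_distrib, ← sum_add_distrib]
  refine sum_le_sum (fun w _ => ?_)
  have hterm : ∀ a b, Real.negMulLog (r w a b) + -(r w a b * Real.log (s w)) ≤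
      -(r w a b * Real.log (p w a)) + -(r w a b * Real.log (q w b)) +
      (p w a * q w b / s w - r w a b) := fun a b =>
    term _ _ _ _ (pr_nonneg _ _) (pr_mono (fun n h => ⟨h.1, h.2.2⟩)) (pr_mono (fun n h => h.2))
      (pr_mono (fun n h => h.2.2))
  have hsr : ∑ a, ∑ b, r w a b = s w := by
    rw [sum_congr rfl (fun a _ => hrp w a), hps]
  have s0 : ∑ a, ∑ b, -(r w a b * Real.log (s w)) = Real.negMulLog (s w) := by
    simp only [sum_neg_distrib, ← sum_mul]
    rw [hsr]
    unfold Real.negMulLog; ring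
  have s1 : ∑ a, ∑ b, -(r w a b * Real.log (p w a)) = ∑ a, Real.negMulLog (p w a) := by
    refine sum_congr rfl (fun a _ => ?_)
    rw [sum_neg_distrib, ← sum_mul, hrp]
    unfold Real.negMulLog; ring
  have s2 : ∑ a, ∑ b, -(r w a b * Real.log (q w b)) = ∑ b, Real.negMulLog (q w b) := by
    rw [sum_comm]
    refine sum_congr rfl (fun b _ => ?_)
    rw [sum_neg_distrib, ← sum_mul, hrq]
    unfold Real.negMulLog; ring
  have s3 : ∑ a, ∑ b, p w a * q w b / s w = s w := by
    simp only [← sum_div]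
    rw [← sum_mul_sum, hps, hqs]
    exact mul_self_div_self _
  have key := sum_le_sum (s := univ) (fun a _ => sum_le_sum (s := univ) (fun b _ => hterm a b))
  simp only [sum_add_distrib, sum_sub_distrib] at key
  rw [s0, s1, s2, s3, hsr] at key
  linarith

end Pool.Agent.Lib.P4a7640E
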