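import Mathlib
import Pool.Agent.Lib.P4a7640E.SubMod

/-!
# The Bessel inequality for entropies

Module P4a7640E.Bess (1.5 h). Imports are black boxes.

`ent_powerset`: induction on `S` (`Finset.induction_on`, all `β`, `W`, `w`). `S = ∅`: the claim is
`w ≤ Ent (X, W)`; the hypothesis for `T = ∅` is `w ≤ Ent (const, W) ≤ Ent (X, W)` (`Ent_comp`).
Step `insert a S`, `a ∉ S`: `Finset.sum_powerset_insert`, and for `A ⊆ S`, `a ∉ A`, with
`Y = X * ∏ i ∈ A, U i`: `X * ∏ i ∈ insert a A, U i = Y * U a`;
`Ent (Y, W) + Ent (Y * U a, W) ≥ Ent ((Y, Y * U a), W) + Ent W ≥ Ent (Y, (U a, W)) + Ent W`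
(`Ent_submod`, and `(Y, (U a, W))` is a function of `((Y, Y * U a), W)`: `U a = Y⁻¹ * (Y * U a)`;
`Ent_comp`), `Ent W ≥ w` (hypothesis for `T = ∅` and `Ent_comp`). Sum over `A ⊆ S` and use the
induction hypothesis for `W' = (U a, W)`, `w' = w + ℓ` (for `T ⊆ S`, `a ∉ T`: `Ent (U_T, (U a, W)) ≥
Ent (U_{insert a T}, W) ≥ (|T| + 1) ℓ + w`, `Ent_comp`):
`≥ 2^|S| w + (2^|S| - 1) ℓ + 2^|S| (w + ℓ) = (2^(|S|+1) - 1) ℓ + 2^(|S|+1) w`.
`ent_bessel`: `ε₁ = ε / 2^(card ι)`; `δ` from `Ent_unif` for `α = (ι → Fin L → ℤˣ) × β` and `ε₁`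
(`card α = 2^(card ι * L) * card β`). So `Ent (U, W) ≥ card ι * L * log 2 + log (card β) - ε₁`.
For `T ⊆ univ`: `(U, W)` is a function of `((U_T, W), (U_i)_i∉T)`, `Ent_pair`, `Ent_pi` and
`Ent (U i) ≤ log 2^L` (`Ent_le_log`): `Ent (U_T, W) ≥ |T| L log 2 + log (card β) - ε₁` (for the second
component take `fun i => if i ∈ T then 1 else U i n`, whose entropies for `i ∈ T` are `0`).
`ent_powerset` with `S = univ`, `ℓ = L log 2`, `w = log (card β) - ε₁` gives the claim for
`𝒜 = univ.powerset`; for `A ∉ 𝒜` use `Ent (X * .., W) ≤ L log 2 + log (card β)` (`Ent_le_log`).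
-/

open Finset Filter Topology
open Pool.Agent.Lib.P4a7640

namespace Pool.Agent.Lib.P4a7640E

theorem ent_powerset {ι : Type} [Fintype ι] [DecidableEq ι] {L : ℕ} (N : ℕ)
    (X : ℕ → Fin L → ℤˣ) (U : ι → ℕ → Fin L → ℤˣ) (ℓ : ℝ) (S : Finset ι) :
    ∀ {β : Type} [Fintype β] (W : ℕ → β) (w : ℝ),
      (∀ T ⊆ S, (T.card : ℝ) * ℓ + w ≤
        Ent N (fun n => ((fun i => if i ∈ T then U i n else 1), W n))) →
      ((2:ℝ) ^ S.card - 1) * ℓ + 2 ^ S.card * w ≤
        ∑ A ∈ S.powerset, Ent N (fun n => (X n * ∏ i ∈ A, U i n, W n)) := by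
  classical
  induction S using Finset.induction_on with
  | empty =>
    intro β _ W w h
    have h1 := h ∅ (Finset.Subset.refl _)
    simp only [Finset.card_empty, Nat.cast_zero, zero_mul, zero_add, Finset.notMem_empty,
      if_false] at h1
    simp only [Finset.card_empty, pow_zero, sub_self, zero_mul, zero_add, one_mul,
      Finset.powerset_empty, Finset.sum_singleton, Finset.prod_empty, mul_one]
    refine h1.trans ?_
    exact Ent_comp N (fun n => (X n, W n)) (fun p => ((fun _ => 1 : ι → Fin L → ℤˣ), p.2))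
  | insert a S ha ih =>
    intro β _ W w h
    have hW : w ≤ Ent N W := by
      have h1 := h ∅ (Finset.empty_subset _)
      simp only [Finset.card_empty, Nat.cast_zero, zero_mul, zero_add, Finset.notMem_empty,
        if_false] at h1
      exact h1.trans (Ent_comp N W (fun b => ((fun _ => 1 : ι → Fin L → ℤˣ), b)))
    have h2 := ih (fun n => (U a n, W n)) (w + ℓ) (by
      intro T hT
      have haT : a ∉ T := fun h => ha (hT h)
      have h1 := h (insert a T) (Finset.insert_subset_insert _ hT)
      rw [Finset.card_insert_of_notMem haT] at h1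
      push_cast at h1
      have h3 : Ent N (fun n => ((fun i => if i ∈ insert a T then U i n else 1), W n)) ≤
          Ent N (fun n => ((fun i => if i ∈ T then U i n else 1), (U a n, W n))) := by
        have h4 := Ent_comp N (fun n => ((fun i => if i ∈ T then U i n else 1), (U a n, W n)))
          (fun p : (ι → Fin L → ℤˣ) × ((Fin L → ℤˣ) × β) =>
            ((fun i => if i = a then p.2.1 else p.1 i), p.2.2))
        refine le_trans (le_of_eq ?_) h4
        congr 1
        funext n
        refine Prod.ext ?_ rfl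
        funext i
        simp only [Finset.mem_insert]
        by_cases hi : i = a
        · subst hi
          simp
        · simp [hi]
      linarith)
    rw [Finset.sum_powerset_insert ha, ← Finset.sum_add_distrib, Finset.card_insert_of_notMem ha]
    have h3 : ∀ A ∈ S.powerset, Ent N (fun n => (X n * ∏ i ∈ A, U i n, (U a n, W n))) + w ≤
        Ent N (fun n => (X n * ∏ i ∈ A, U i n, W n)) +
          Ent N (fun n => (X n * ∏ i ∈ insert a A, U i n, W n)) := by
      intro A hA
      have haA : a ∉ A := fun h => ha (Finset.mem_powerset.1 hA h)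
      have h4 := Ent_submod N (fun n => X n * ∏ i ∈ A, U i n)
        (fun n => X n * ∏ i ∈ insert a A, U i n) W
      have h5 : Ent N (fun n => (X n * ∏ i ∈ A, U i n, (U a n, W n))) ≤
          Ent N (fun n => ((X n * ∏ i ∈ A, U i n, X n * ∏ i ∈ insert a A, U i n), W n)) := by
        have h6 := Ent_comp N
          (fun n => ((X n * ∏ i ∈ A, U i n, X n * ∏ i ∈ insert a A, U i n), W n))
          (fun p : ((Fin L → ℤˣ) × (Fin L → ℤˣ)) × β => (p.1.1, (p.1.1⁻¹ * p.1.2, p.2)))
        refine le_trans (le_of_eq ?_) h6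
        congr 1
        funext n
        refine Prod.ext rfl (Prod.ext ?_ rfl)
        simp only
        rw [Finset.prod_insert haA, mul_left_comm (X n), mul_comm (U a n), inv_mul_cancel_left]
      linarith
    have h4 := Finset.sum_le_sum h3
    refine le_trans ?_ h4
    rw [Finset.sum_add_distrib, Finset.sum_const, Finset.card_powerset, nsmul_eq_mul]
    push_cast
    rw [pow_succ]
    linarith

namespace BessAux

theorem Ent_const {α : Type} [Fintype α] (N : ℕ) (c : α) : Ent N (fun _ => c) ≤ 0 := by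
  have h1 := Ent_comp N (fun _ => ()) (fun _ : Unit => c)
  have h2 := Ent_le_log N (fun _ => ())
  simp only [Fintype.card_unit, Nat.cast_one, Real.log_one] at h2
  exact h1.trans h2

theorem card_block (L : ℕ) : (Fintype.card (Fin L → ℤˣ) : ℝ) = 2 ^ L := by
  rw [Fintype.card_fun, Fintype.card_fin, Fintype.card_units_int]
  push_cast
  rfl

end BessAux

open BessAux

theorem ent_bessel {ι β : Type} [Fintype ι] [DecidableEq ι] [Fintype β] [Nonempty β] (L : ℕ)
    {ε : ℝ} (hε : 0 < ε) :
    ∃ δ : ℝ, 0 < δ ∧ ∀ (N : ℕ) (X : ℕ → Fin L → ℤˣ) (U : ι → ℕ → Fin L → ℤˣ) (W : ℕ → β),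
      (∀ (x : ι → Fin L → ℤˣ) (b : β), |pr N (fun n => (∀ i, U i n = x i) ∧ W n = b) -
        (1 / 2) ^ (Fintype.card ι * L) / (Fintype.card β : ℝ)| ≤ δ) →
      ∀ 𝒜 : Finset (Finset ι),
        ((𝒜.card : ℝ) - 1) * (L * Real.log 2) + 𝒜.card * Real.log (Fintype.card β) - ε ≤
          ∑ A ∈ 𝒜, Ent N (fun n => (X n * ∏ i ∈ A, U i n, W n)) := by
  have hβ : (0:ℝ) < Fintype.card β := by exact_mod_cast Fintype.card_pos
  set m := Fintype.card ι with hm
  have hcard : (Fintype.card ((ι → Fin L → ℤˣ) × β) : ℝ) = 2 ^ (m * L) * Fintype.card β := by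
    rw [Fintype.card_prod, Nat.cast_mul, Fintype.card_fun, Nat.cast_pow, card_block, ← pow_mul,
      mul_comm L]
  obtain ⟨δ, hδ, hun⟩ := Ent_unif (α := (ι → Fin L → ℤˣ) × β) (ε := ε / 2 ^ m) (by positivity)
  refine ⟨δ, hδ, ?_⟩
  intro N X U W hU 𝒜
  have hall : Real.log (Fintype.card ((ι → Fin L → ℤˣ) × β)) - ε / 2 ^ m ≤
      Ent N (fun n => ((fun i => U i n), W n)) := by
    refine hun N _ fun ⟨x, b⟩ => ?_
    have h1 := hU x b
    have e1 : (fun n => ((fun i => U i n), W n) = (x, b)) =
        (fun n => (∀ i, U i n = x i) ∧ W n = b) := by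
      funext n
      rw [Prod.mk.injEq, funext_iff]
    have e2 : (1:ℝ) / (Fintype.card ((ι → Fin L → ℤˣ) × β) : ℝ) =
        (1 / 2) ^ (m * L) / (Fintype.card β : ℝ) := by
      rw [hcard, one_div_pow]
      field_simp
    rw [e1, e2]
    exact h1
  have hlog : Real.log (Fintype.card ((ι → Fin L → ℤˣ) × β)) =
      m * (L * Real.log 2) + Real.log (Fintype.card β) := by
    rw [hcard, Real.log_mul (by positivity) hβ.ne', Real.log_pow]
    push_cast
    ring
  rw [hlog] at hall
  have hblock : ∀ Y : ℕ → Fin L → ℤˣ, Ent N Y ≤ L * Real.log 2 := by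
    intro Y
    have h1 := Ent_le_log N Y
    rw [card_block, Real.log_pow] at h1
    exact h1
  have hT : ∀ T ⊆ (Finset.univ : Finset ι), (T.card : ℝ) * (L * Real.log 2) +
      (Real.log (Fintype.card β) - ε / 2 ^ m) ≤
        Ent N (fun n => ((fun i => if i ∈ T then U i n else 1), W n)) := by
    intro T _
    set V : ι → ℕ → Fin L → ℤˣ := fun i n => if i ∈ T then 1 else U i n with hV
    have h1 : Ent N (fun n => ((fun i => U i n), W n)) ≤
        Ent N (fun n => (((fun i => if i ∈ T then U i n else 1), W n), fun i => V i n)) := by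
      have h2 := Ent_comp N
        (fun n => (((fun i => if i ∈ T then U i n else 1), W n), fun i => V i n))
        (fun p : ((ι → Fin L → ℤˣ) × β) × (ι → Fin L → ℤˣ) => ((fun i => p.1.1 i * p.2 i), p.1.2))
      refine le_trans (le_of_eq ?_) h2
      congr 1
      funext n
      refine Prod.ext ?_ rfl
      funext i
      simp only [hV]
      by_cases hi : i ∈ T
      · simp [hi]
      · simp [hi]
    have h2 := Ent_pair N (fun n => ((fun i => if i ∈ T then U i n else 1), W n))
      (fun n i => V i n)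
    have h3 : Ent N (fun n i => V i n) ≤ ∑ i, Ent N (V i) := Ent_pi N V
    have h4 : ∑ i, Ent N (V i) ≤ ((m:ℝ) - T.card) * (L * Real.log 2) := by
      calc ∑ i, Ent N (V i) ≤ ∑ i, (if i ∈ T then 0 else L * Real.log 2) := by
            refine Finset.sum_le_sum fun i _ => ?_
            by_cases hi : i ∈ T
            · rw [if_pos hi]
              have e : V i = fun _ => 1 := by
                funext n
                simp only [hV, if_pos hi]
              rw [e]
              exact Ent_const N _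
            · rw [if_neg hi]
              exact hblock _
        _ = ((m:ℝ) - T.card) * (L * Real.log 2) := by
            rw [Finset.sum_ite, Finset.sum_const_zero, zero_add, Finset.sum_const, nsmul_eq_mul]
            congr 1
            have h5 := Finset.card_filter_add_card_filter_not (s := (Finset.univ : Finset ι))
              (fun i => i ∈ T)
            rw [Finset.card_univ, ← hm, Finset.filter_univ_mem] at h5
            rw [← h5]
            push_cast
            ring
    linarith
  have hpow := ent_powerset N X U (L * Real.log 2) Finset.univ W _ hT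
  rw [Finset.card_univ, ← hm] at hpow
  have hub : ∀ A : Finset ι, Ent N (fun n => (X n * ∏ i ∈ A, U i n, W n)) ≤
      L * Real.log 2 + Real.log (Fintype.card β) := by
    intro A
    have h1 := Ent_pair N (fun n => X n * ∏ i ∈ A, U i n) W
    have h2 := hblock (fun n => X n * ∏ i ∈ A, U i n)
    have h3 := Ent_le_log N W
    linarith
  have hsub : 𝒜 ⊆ (Finset.univ : Finset ι).powerset := fun A _ => by simp
  have hsplit := Finset.sum_sdiff hsub (f := fun A : Finset ι =>
    Ent N (fun n => (X n * ∏ i ∈ A, U i n, W n)))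
  have hcs : ((((Finset.univ : Finset ι).powerset \ 𝒜).card : ℕ) : ℝ) = 2 ^ m - 𝒜.card := by
    have h1 := Finset.card_sdiff_add_card_eq_card hsub
    rw [Finset.card_powerset, Finset.card_univ, ← hm] at h1
    have h2 : ((((Finset.univ : Finset ι).powerset \ 𝒜).card : ℕ) : ℝ) + 𝒜.card = 2 ^ m := by
      exact_mod_cast h1
    linarith
  have hrest : ∑ A ∈ (Finset.univ : Finset ι).powerset \ 𝒜,
      Ent N (fun n => (X n * ∏ i ∈ A, U i n, W n)) ≤
      (2 ^ m - 𝒜.card) * (L * Real.log 2 + Real.log (Fintype.card β)) := by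
    refine (Finset.sum_le_card_nsmul _ _ _ fun A _ => hub A).trans (le_of_eq ?_)
    rw [nsmul_eq_mul, hcs]
  have hε2 : (2:ℝ) ^ m * (ε / 2 ^ m) = ε := by field_simp
  have e3 : (2:ℝ) ^ m * (Real.log (Fintype.card β) - ε / 2 ^ m) =
      2 ^ m * Real.log (Fintype.card β) - ε := by
    rw [mul_sub, hε2]
  rw [e3] at hpow
  linarith

end Pool.Agent.Lib.P4a7640E
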