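import Mathlib
import Pool.Agent.Lib.P4a7640.Twist
import Pool.Agent.Lib.P4a7640E.EntA

/-!
# Integers divisible by a prime of a thin set

Module P4a7640E.Thin (1.5 h). Imports are black boxes.

`pr_free`: induction on `T`. Let `G T = ∑ n ≤ N with ∀ p ∈ T, ¬ p ∣ n, 1/n`. For a prime `p ∉ T`:
`G T - G (insert p T) = ∑ n ≤ N, p ∣ n, n free of T, 1/n = (1/p) ∑ k ≤ N/p, k free of T, 1/k ≤ (1/p) G T`
(`n = p k`; `r ∣ p k` iff `r ∣ k` for primes `r ≠ p`), so `G (insert p T) ≥ (1 - 1/p) G T`.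
`prod_ge`: `1 - 1/p ≥ exp (-1/(p-1))` (as `(1-1/p)⁻¹ = 1 + 1/(p-1) ≤ exp (1/(p-1))`), and
`1/(p-1) ≤ (1/p) (1 + 2/y)` for `p ≥ y ≥ 2`.
`pr_shift`: `pr N P = LA (1_P) N / LA 1 N` and `LA 1 N ≥ 1` (`one_le_LA_one`); `LA_shift` for
`u n = if P n then 1 else 0` gives `|LA (u (· + j)) N - LA u N| ≤ 3 j / log N`.
`thin`: `N < p^c` means that `p > N^(1/c)`; given `y` all `p ∈ T` are `≥ y` as soon as `N ≥ y^c`
(`p < y` would give `p^c < y^c ≤ N`). With `M = ∑ p ∈ T, 1/p ≤ η + δ`: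
`pr (∃ p ∈ T, p ∣ n + j) ≤ pr (∃ p ∈ T, p ∣ n) + 3 j / log N ≤ 1 - exp (-(η+δ)(1+2/y)) + 3 j / log N`;
choose first `δ = ε/4`, then `y` with `(η+δ) 2/y ≤ ε/4` and then `N₀` with `3 L / log N ≤ ε/4`
(`exp (-(η + a)) ≥ exp (-η) (1 - a) ≥ exp(-η) - a` for `a ≥ 0`, `η ≥ 0`).
`c = 0`: `N < 1` is impossible for `N ≥ 1`, so `T` is empty; this case needs no special treatment
if `y^c ≤ N` is used as above.
-/

open Finset Filter Topology
open Pool.Agent.Lib.P4a7640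

namespace Pool.Agent.Lib.P4a7640E

namespace ThinAux

theorem pr_eq {N : ℕ} (hN : 2 ≤ N) (P : ℕ → Prop) [DecidablePred P] :
    pr N P = LA (fun n => if P n then 1 else 0) N / LA (fun _ => 1) N := by
  have hl : 0 < Real.log N := Real.log_pos (by exact_mod_cast hN)
  unfold pr LA
  have e : (∑ n ∈ (Icc 1 N).filter (fun n => P n), (1:ℝ) / n) =
      ∑ n ∈ Icc 1 N, (if P n then (1:ℝ) else 0) / n := by
    rw [Finset.sum_filter]
    refine Finset.sum_congr rfl fun n _ => ?_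
    by_cases h : P n
    · rw [if_pos h, if_pos h]
    · rw [if_neg h, if_neg h, zero_div]
  have e' : (∑ n ∈ @Finset.filter ℕ (fun n => P n) (fun n => Classical.propDecidable (P n)) (Icc 1 N),
      (1:ℝ) / n) = ∑ n ∈ (Icc 1 N).filter (fun n => P n), (1:ℝ) / n := by
    refine Finset.sum_congr ?_ (fun _ _ => rfl)
    ext n
    simp only [mem_filter]
  rw [e', e]
  rw [div_div_div_cancel_right₀ hl.ne']

open Classical in
/-- the sum over the integers free of `T` -/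
noncomputable def G (T : Finset ℕ) (N : ℕ) : ℝ :=
  ∑ n ∈ (Icc 1 N).filter (fun n => ∀ p ∈ T, ¬ p ∣ n), (1:ℝ) / n

theorem G_insert {T : Finset ℕ} {p : ℕ} (hp : p.Prime) (N : ℕ) :
    (1 - 1 / (p:ℝ)) * G T N ≤ G (insert p T) N := by
  classical
  have hp0 : (0:ℝ) < p := by exact_mod_cast hp.pos
  set A : Finset ℕ := (Icc 1 N).filter (fun n => (∀ r ∈ T, ¬ r ∣ n) ∧ p ∣ n) with hA
  have h1 : G T N = G (insert p T) N + ∑ n ∈ A, (1:ℝ) / n := by
    unfold G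
    rw [← Finset.sum_filter_add_sum_filter_not ((Icc 1 N).filter (fun n => ∀ p ∈ T, ¬ p ∣ n))
      (fun n => ¬ p ∣ n)]
    congr 1
    · refine Finset.sum_congr ?_ (fun _ _ => rfl)
      ext n
      simp only [mem_filter, mem_insert, forall_eq_or_imp]
      tauto
    · refine Finset.sum_congr ?_ (fun _ _ => rfl)
      ext n
      simp only [hA, mem_filter, not_not]
      tauto
  have h2 : ∑ n ∈ A, (1:ℝ) / n ≤ (1 / (p:ℝ)) * G T N := by
    have hinj : Set.InjOn (fun n => n / p) (A : Set ℕ) := by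
      intro a ha b hb hab
      have ha' : p ∣ a := (mem_filter.1 ha).2.2
      have hb' : p ∣ b := (mem_filter.1 hb).2.2
      simp only at hab
      rw [← Nat.mul_div_cancel' ha', hab, Nat.mul_div_cancel' hb']
    have h3 : ∑ n ∈ A, (1:ℝ) / n = (1 / (p:ℝ)) * ∑ k ∈ A.image (fun n => n / p), (1:ℝ) / k := by
      rw [Finset.sum_image (fun a ha b hb hab => hinj ha hb hab), Finset.mul_sum]
      refine Finset.sum_congr rfl fun n hn => ?_
      have hn' : p ∣ n := (mem_filter.1 hn).2.2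
      obtain ⟨k, rfl⟩ := hn'
      rw [Nat.mul_div_cancel_left k hp.pos]
      push_cast
      rw [one_div_mul_one_div]
    rw [h3]
    refine mul_le_mul_of_nonneg_left ?_ (by positivity)
    unfold G
    refine Finset.sum_le_sum_of_subset_of_nonneg ?_ (fun _ _ _ => by positivity)
    intro k hk
    rw [mem_image] at hk
    obtain ⟨n, hn, rfl⟩ := hk
    rw [hA, mem_filter, Finset.mem_Icc] at hn
    obtain ⟨⟨hn1, hn2⟩, hfree, hd⟩ := hn
    obtain ⟨k, rfl⟩ := hd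
    rw [mem_filter, Finset.mem_Icc, Nat.mul_div_cancel_left k hp.pos]
    have hk0 : 1 ≤ k := by
      rcases Nat.eq_zero_or_pos k with h0 | h0
      · rw [h0, mul_zero] at hn1; omega
      · exact h0
    refine ⟨⟨hk0, ?_⟩, fun r hr hrk => hfree r hr (hrk.trans (dvd_mul_left _ _))⟩
    calc k = 1 * k := (one_mul k).symm
      _ ≤ p * k := Nat.mul_le_mul_right k hp.one_le
      _ ≤ N := hn2
  have h4 : (1 - 1 / (p:ℝ)) * G T N = G T N - 1 / (p:ℝ) * G T N := by ring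
  rw [h4]
  linarith

theorem G_ge {N : ℕ} (T : Finset ℕ) (hT : ∀ p ∈ T, p.Prime) :
    (∏ p ∈ T, (1 - 1 / (p:ℝ))) * ∑ n ∈ Icc 1 N, (1:ℝ) / n ≤ G T N := by
  classical
  induction T using Finset.induction_on with
  | empty =>
    rw [Finset.prod_empty, one_mul]
    unfold G
    refine le_of_eq (Finset.sum_congr ?_ (fun _ _ => rfl))
    ext n
    simp
  | insert p T hpT ih =>
    have hp : p.Prime := hT p (mem_insert_self p T)
    have h1 := ih (fun r hr => hT r (mem_insert_of_mem hr))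
    have hp1 : (1:ℝ) ≤ p := by exact_mod_cast hp.one_le
    have h2 : 0 ≤ 1 - 1 / (p:ℝ) := by
      rw [sub_nonneg, div_le_one (by linarith)]
      exact hp1
    rw [Finset.prod_insert hpT, mul_assoc]
    exact (mul_le_mul_of_nonneg_left h1 h2).trans (G_insert hp N)

end ThinAux

open ThinAux

theorem pr_free {T : Finset ℕ} (hT : ∀ p ∈ T, p.Prime) {N : ℕ} (hN : 1 ≤ N) :
    ∏ p ∈ T, (1 - 1 / (p:ℝ)) ≤ pr N (fun n => ∀ p ∈ T, ¬ p ∣ n) := by
  have hS : 0 < ∑ n ∈ Icc 1 N, (1:ℝ) / n := by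
    refine Finset.sum_pos (fun n hn => ?_) ⟨1, Finset.mem_Icc.2 ⟨le_rfl, hN⟩⟩
    have : 0 < n := (Finset.mem_Icc.1 hn).1
    positivity
  unfold pr
  rw [le_div_iff₀ hS]
  refine (G_ge T hT).trans (le_of_eq ?_)
  unfold G
  refine Finset.sum_congr ?_ (fun _ _ => rfl)
  ext n
  simp only [mem_filter]

theorem prod_ge {T : Finset ℕ} {y : ℕ} (hy : 2 ≤ y) (hT : ∀ p ∈ T, y ≤ p) :
    Real.exp (-((1 + 2 / (y:ℝ)) * ∑ p ∈ T, (1:ℝ) / p)) ≤ ∏ p ∈ T, (1 - 1 / (p:ℝ)) := by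
  have hy2 : (2:ℝ) ≤ y := by exact_mod_cast hy
  have e : -((1 + 2 / (y:ℝ)) * ∑ p ∈ T, (1:ℝ) / p) = ∑ p ∈ T, (-((1 + 2 / (y:ℝ)) * (1 / p))) := by
    rw [Finset.mul_sum, Finset.sum_neg_distrib]
  rw [e, Real.exp_sum]
  refine Finset.prod_le_prod (fun p _ => (Real.exp_pos _).le) fun p hp => ?_
  have hpy : (y:ℝ) ≤ p := by exact_mod_cast hT p hp
  have hp2 : (2:ℝ) ≤ p := hy2.trans hpy
  have hp0 : (0:ℝ) < p := by linarith
  have hp1 : (0:ℝ) < p - 1 := by linarith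
  have h1 : Real.exp (-(1 / ((p:ℝ) - 1))) ≤ 1 - 1 / (p:ℝ) := by
    have h2 : 1 + 1 / ((p:ℝ) - 1) ≤ Real.exp (1 / ((p:ℝ) - 1)) := by
      have := Real.add_one_le_exp (1 / ((p:ℝ) - 1))
      linarith
    rw [Real.exp_neg]
    have h3 : (Real.exp (1 / ((p:ℝ) - 1)))⁻¹ ≤ (1 + 1 / ((p:ℝ) - 1))⁻¹ :=
      inv_anti₀ (by positivity) h2
    refine h3.trans (le_of_eq ?_)
    field_simp
    ring
  refine le_trans (Real.exp_le_exp.2 ?_) h1
  rw [neg_le_neg_iff]
  have hy0 : (0:ℝ) < y := by linarith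
  have h4 : (1 + 2 / (y:ℝ)) * (1 / p) - 1 / ((p:ℝ) - 1) =
      (2 * (p - 1) - y) / (y * p * (p - 1)) := by
    field_simp
    ring
  have h5 : 0 ≤ (2 * ((p:ℝ) - 1) - y) / (y * p * (p - 1)) := by
    refine div_nonneg (by linarith) (by positivity)
  linarith

theorem pr_shift (P : ℕ → Prop) (j : ℕ) {N : ℕ} (hN : 2 ≤ N) :
    |pr N (fun n => P (n + j)) - pr N P| ≤ 3 * j / Real.log N := by
  classical
  have hl : 0 < Real.log N := Real.log_pos (by exact_mod_cast hN)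
  rw [pr_eq hN, pr_eq hN, ← sub_div, abs_div]
  have hM := one_le_LA_one hN
  rw [abs_of_pos (lt_of_lt_of_le one_pos hM)]
  have h1 := LA_shift (u := fun n => if P n then (1:ℝ) else 0) (fun n => by
    by_cases h : P n
    · rw [if_pos h]; norm_num
    · rw [if_neg h]; norm_num) j N
  refine (div_le_self (abs_nonneg _) hM).trans h1

theorem thin {η : ℝ} (hη : 0 ≤ η) (c L : ℕ) {ε : ℝ} (hε : 0 < ε) :
    ∃ (δ : ℝ) (N₀ : ℕ), 0 < δ ∧ ∀ N ≥ N₀, ∀ T : Finset ℕ, (∀ p ∈ T, p.Prime ∧ N < p ^ c) →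
      ∑ p ∈ T, (1:ℝ) / p ≤ η + δ → ∀ j < L,
      pr N (fun n => ∃ p ∈ T, p ∣ n + j) ≤ 1 - Real.exp (-η) + ε := by
  set δ : ℝ := ε / 4 with hδ
  have hδ0 : 0 < δ := by positivity
  set y : ℕ := max 2 ⌈8 * (η + δ) / ε⌉₊ with hy
  have hy2 : 2 ≤ y := le_max_left _ _
  have hy0 : (0:ℝ) < y := by exact_mod_cast (by omega : 0 < y)
  have hyε : 8 * (η + δ) / ε ≤ y := (Nat.le_ceil _).trans (by exact_mod_cast le_max_right _ _)
  set N₀ : ℕ := max 2 (max (y ^ c) ⌈Real.exp (12 * L / ε)⌉₊) with hN₀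
  refine ⟨δ, N₀, hδ0, ?_⟩
  intro N hN T hT hsum j hj
  have hN2 : 2 ≤ N := (le_max_left _ _).trans hN
  have hNy : y ^ c ≤ N := ((le_max_left _ _).trans (le_max_right _ _)).trans hN
  have hNe : ⌈Real.exp (12 * L / ε)⌉₊ ≤ N := ((le_max_right _ _).trans (le_max_right _ _)).trans hN
  have hl : 0 < Real.log N := Real.log_pos (by exact_mod_cast hN2)
  have hTy : ∀ p ∈ T, y ≤ p := by
    intro p hp
    by_contra hcon
    have h1 : p ^ c ≤ y ^ c := Nat.pow_le_pow_left (not_le.1 hcon).le c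
    have h2 := (hT p hp).2
    omega
  have hfree := pr_free (T := T) (fun p hp => (hT p hp).1) (N := N) (by omega)
  have hprod := prod_ge hy2 hTy
  set M : ℝ := ∑ p ∈ T, (1:ℝ) / p with hM
  have hM0 : 0 ≤ M := Finset.sum_nonneg fun p _ => by positivity
  -- the exponent
  have hexp : (1 + 2 / (y:ℝ)) * M ≤ η + ε / 2 := by
    have h1 : (1 + 2 / (y:ℝ)) * M ≤ (1 + 2 / (y:ℝ)) * (η + δ) :=
      mul_le_mul_of_nonneg_left hsum (by positivity)
    have h2 : 2 / (y:ℝ) * (η + δ) ≤ ε / 4 := by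
      rw [div_mul_eq_mul_div, div_le_iff₀ hy0]
      rw [div_le_iff₀ hε] at hyε
      linarith
    have h3 : (1 + 2 / (y:ℝ)) * (η + δ) = η + δ + 2 / (y:ℝ) * (η + δ) := by ring
    rw [h3] at h1
    rw [hδ] at h1 h2
    linarith
  have hlow : Real.exp (-η) - ε / 2 ≤ Real.exp (-((1 + 2 / (y:ℝ)) * M)) := by
    have h1 : Real.exp (-(η + ε / 2)) ≤ Real.exp (-((1 + 2 / (y:ℝ)) * M)) :=
      Real.exp_le_exp.2 (by linarith)
    refine le_trans ?_ h1
    rw [neg_add, Real.exp_add]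
    have h2 : 1 - ε / 2 ≤ Real.exp (-(ε / 2)) := by
      have := Real.add_one_le_exp (-(ε / 2))
      linarith
    have h3 : Real.exp (-η) ≤ 1 := Real.exp_le_one_iff.2 (by linarith)
    have h4 : 0 < Real.exp (-η) := Real.exp_pos _
    calc Real.exp (-η) - ε / 2 ≤ Real.exp (-η) * (1 - ε / 2) := by nlinarith
      _ ≤ Real.exp (-η) * Real.exp (-(ε / 2)) := mul_le_mul_of_nonneg_left h2 h4.le
  have hex : pr N (fun n => ∃ p ∈ T, p ∣ n) ≤ 1 - Real.exp (-η) + ε / 2 := by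
    have h1 := pr_not (N := N) (by omega) (fun n => ∀ p ∈ T, ¬ p ∣ n)
    have h2 : pr N (fun n => ∃ p ∈ T, p ∣ n) = pr N (fun n => ¬ ∀ p ∈ T, ¬ p ∣ n) := by
      refine pr_congr fun n _ _ => ?_
      constructor
      · rintro ⟨p, hp, hd⟩ hall
        exact hall p hp hd
      · intro hn
        by_contra hcon
        exact hn fun p hp hd => hcon ⟨p, hp, hd⟩
    rw [h2, h1]
    linarith
  have hsh := pr_shift (fun n => ∃ p ∈ T, p ∣ n) j hN2
  have hsh2 := (abs_le.1 hsh).2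
  have hj' : (j:ℝ) ≤ L := by exact_mod_cast hj.le
  have hlast : 3 * (j:ℝ) / Real.log N ≤ ε / 4 := by
    have h1 : Real.exp (12 * L / ε) ≤ N := (Nat.le_ceil _).trans (by exact_mod_cast hNe)
    have h2 : 12 * L / ε ≤ Real.log N := by
      rw [Real.le_log_iff_exp_le (by exact_mod_cast (by omega : 0 < N))]
      exact h1
    rw [div_le_iff₀ hl]
    rw [div_le_iff₀ hε] at h2
    linarith
  linarith

end Pool.Agent.Lib.P4a7640E
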