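import Mathlib
import Pool.Agent.Lib.P4a7640E.EntB
import Pool.Agent.Lib.P4a7640E.Thin

/-!
# Continuity of entropy, residue classes

Module P4a7640E.Close (0.8 h). Imports are black boxes.

`Ent_close`: for each `a`, `|pr (X = a) - pr (Y = a)| ≤ pr (X ≠ Y)` (`pr (X = a) ≤ pr (Y = a ∨ X ≠ Y)`,
subadditivity of `pr`; e.g. `pr_fiber` over the two `Prop`-valued cases, or `pr_eq` of `EntAAux`).
`negMulLog` is uniformly continuous on `[0,1]` (`isCompact_Icc.uniformContinuousOn_of_continuous`,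
`Real.continuous_negMulLog`): choose `δ` for `ε / (card α + 1)` and sum over `a`.
`pr_modEq`: let `P n = (n ≡ 0 [MOD Q])`. For `a` put `j = Q - a % Q`; `n ≡ a [MOD Q]` iff `P (n + j)`, so by
`pr_shift` `|pr (n ≡ a) - pr (P)| ≤ 3 Q / log N`. The sum of `pr (n ≡ a)` over `a < Q` is `1`
(`pr_sum` for `X n = (⟨n % Q, _⟩ : Fin Q)`, `N ≥ 1`), so `|Q * pr P - 1| ≤ 3 Q^2 / log N` and
`|pr (n ≡ a) - 1/Q| ≤ 6 Q / log N`.
-/

open Finset Filter Topology
open Pool.Agent.Lib.P4a7640

namespace Pool.Agent.Lib.P4a7640E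

namespace CloseAux

open EntAAux in
theorem pr_ne {α : Type} (N : ℕ) (X Y : ℕ → α) (a : α) :
    pr N (fun n => X n = a) ≤ pr N (fun n => Y n = a) + pr N (fun n => X n ≠ Y n) := by
  rw [pr_eq, pr_eq, pr_eq, ← add_div, ← sum_add_distrib]
  refine div_le_div_of_nonneg_right (sum_le_sum (fun n _ => ?_)) (S_nonneg N)
  rw [← add_mul]
  refine mul_le_mul_of_nonneg_right ?_ (by positivity)
  by_cases h1 : X n = Y n
  · have h2 : ind (X n ≠ Y n) = 0 := ind_false (fun h => h h1)
    rw [h2, add_zero, h1]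
  · have h2 : ind (X n ≠ Y n) = 1 := ind_true h1
    rw [h2]
    have h3 := ind_nonneg (Y n = a)
    have h4 : ind (X n = a) ≤ 1 := by
      rw [← ind_true trivial]
      exact ind_mono (fun _ => trivial)
    linarith

theorem pr_abs {α : Type} (N : ℕ) (X Y : ℕ → α) (a : α) :
    |pr N (fun n => X n = a) - pr N (fun n => Y n = a)| ≤ pr N (fun n => X n ≠ Y n) := by
  have h1 := pr_ne N X Y a
  have h2 := pr_ne N Y X a
  have h3 : pr N (fun n => Y n ≠ X n) = pr N (fun n => X n ≠ Y n) :=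
    pr_congr (fun n _ _ => ⟨Ne.symm, Ne.symm⟩)
  rw [h3] at h2
  rw [abs_le]
  constructor <;> linarith

end CloseAux

theorem Ent_close {α : Type} [Fintype α] {ε : ℝ} (hε : 0 < ε) :
    ∃ δ : ℝ, 0 < δ ∧ ∀ (N : ℕ) (X Y : ℕ → α), pr N (fun n => X n ≠ Y n) ≤ δ →
      Ent N X ≤ Ent N Y + ε := by
  have hc : UniformContinuousOn Real.negMulLog (Set.Icc 0 1) :=
    isCompact_Icc.uniformContinuousOn_of_continuous Real.continuous_negMulLog.continuousOn
  rw [Metric.uniformContinuousOn_iff] at hc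
  have hK : (0 : ℝ) < (Fintype.card α : ℝ) + 1 := by positivity
  obtain ⟨δ, hδ, hδ2⟩ := hc (ε / ((Fintype.card α : ℝ) + 1)) (by positivity)
  refine ⟨δ / 2, by positivity, fun N X Y hXY => ?_⟩
  have hterm : ∀ a : α, Real.negMulLog (pr N fun n => X n = a) ≤
      Real.negMulLog (pr N fun n => Y n = a) + ε / ((Fintype.card α : ℝ) + 1) := by
    intro a
    have h1 := CloseAux.pr_abs N X Y a
    have h2 := hδ2 _ ⟨pr_nonneg N (fun n => X n = a), pr_le_one N (fun n => X n = a)⟩ _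
      ⟨pr_nonneg N (fun n => Y n = a), pr_le_one N (fun n => Y n = a)⟩
      (by rw [Real.dist_eq]; linarith)
    rw [Real.dist_eq] at h2
    have := (abs_lt.1 h2).2
    linarith
  calc Ent N X ≤ ∑ a : α, (Real.negMulLog (pr N fun n => Y n = a) +
        ε / ((Fintype.card α : ℝ) + 1)) := sum_le_sum (fun a _ => hterm a)
    _ = Ent N Y + (Fintype.card α : ℝ) * (ε / ((Fintype.card α : ℝ) + 1)) := by
        rw [sum_add_distrib, sum_const, card_univ, nsmul_eq_mul]
        rfl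
    _ ≤ Ent N Y + ε := by
        have h3 : (Fintype.card α : ℝ) * (ε / ((Fintype.card α : ℝ) + 1)) ≤
            ((Fintype.card α : ℝ) + 1) * (ε / ((Fintype.card α : ℝ) + 1)) := by
          refine mul_le_mul_of_nonneg_right (by linarith) (by positivity)
        rw [mul_div_cancel₀ _ hK.ne'] at h3
        linarith

theorem pr_modEq {Q : ℕ} (hQ : 0 < Q) {ε : ℝ} (hε : 0 < ε) :
    ∀ᶠ N : ℕ in atTop, ∀ a : ℕ, |pr N (fun n => n ≡ a [MOD Q]) - 1 / (Q:ℝ)| ≤ ε := by
  have hQR : (0 : ℝ) < Q := by exact_mod_cast hQ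
  have hlog : ∀ᶠ N : ℕ in atTop, 6 * (Q : ℝ) / ε ≤ Real.log N :=
    (Real.tendsto_log_atTop.comp tendsto_natCast_atTop_atTop).eventually_ge_atTop _
  filter_upwards [hlog, eventually_ge_atTop 2] with N hN hN2 a
  have hL : 0 < Real.log N := Real.log_pos (by exact_mod_cast hN2)
  set P : ℕ → Prop := fun n => n ≡ 0 [MOD Q] with hP
  have key : ∀ a : ℕ, |pr N (fun n => n ≡ a [MOD Q]) - pr N P| ≤ 3 * Q / Real.log N := by
    intro a
    have hmod : a % Q < Q := Nat.mod_lt _ hQ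
    have h1 := pr_shift P (Q - a % Q) hN2
    have h2 : pr N (fun n => P (n + (Q - a % Q))) = pr N (fun n => n ≡ a [MOD Q]) := by
      refine pr_congr (fun n _ _ => ?_)
      have e1 : Q - a % Q + a ≡ 0 [MOD Q] := by
        have e2 : Q - a % Q + a = Q + Q * (a / Q) := by
          have := Nat.mod_add_div a Q
          omega
        rw [e2, Nat.modEq_zero_iff_dvd]
        exact Dvd.intro _ (by ring : Q * (1 + a / Q) = Q + Q * (a / Q))
      constructor
      · intro h
        have h3 : n + (Q - a % Q) ≡ Q - a % Q + a [MOD Q] := Nat.ModEq.trans h e1.symm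
        rw [add_comm n] at h3
        exact Nat.ModEq.add_left_cancel' _ h3
      · intro h
        have h3 : Q - a % Q + n ≡ Q - a % Q + a [MOD Q] := Nat.ModEq.add_left _ h
        change n + (Q - a % Q) ≡ 0 [MOD Q]
        rw [add_comm n]
        exact h3.trans e1
    rw [h2] at h1
    refine h1.trans (div_le_div_of_nonneg_right ?_ hL.le)
    have h4 : ((Q - a % Q : ℕ) : ℝ) ≤ Q := by exact_mod_cast Nat.sub_le _ _
    linarith
  have hsum : ∑ b : Fin Q, pr N (fun n => n ≡ (b : ℕ) [MOD Q]) = 1 := by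
    rw [← pr_sum (by omega : 1 ≤ N) (fun n => (⟨n % Q, Nat.mod_lt _ hQ⟩ : Fin Q))]
    refine sum_congr rfl (fun b _ => pr_congr (fun n _ _ => ?_))
    constructor
    · intro h
      apply Fin.ext
      have h5 : n % Q = (b : ℕ) % Q := h
      rw [Nat.mod_eq_of_lt b.2] at h5
      exact h5
    · intro h
      have h5 : n % Q = (b : ℕ) := congrArg Fin.val h
      change n % Q = (b : ℕ) % Q
      rw [Nat.mod_eq_of_lt b.2, h5]
  have hP1 : |1 - Q * pr N P| ≤ Q * (3 * Q / Real.log N) := by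
    have h6 : 1 - Q * pr N P = ∑ b : Fin Q, (pr N (fun n => n ≡ (b : ℕ) [MOD Q]) - pr N P) := by
      rw [sum_sub_distrib, hsum, sum_const, card_univ, Fintype.card_fin, nsmul_eq_mul]
    rw [h6]
    refine (abs_sum_le_sum_abs _ _).trans ?_
    have h12 : ∑ b : Fin Q, |pr N (fun n => n ≡ (b : ℕ) [MOD Q]) - pr N P| ≤
        ∑ _b : Fin Q, 3 * (Q : ℝ) / Real.log N := sum_le_sum (fun b _ => key b)
    rw [sum_const, card_univ, Fintype.card_fin, nsmul_eq_mul] at h12
    exact h12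
  have hP2 : |pr N P - 1 / Q| ≤ 3 * Q / Real.log N := by
    have h7 : 1 - Q * pr N P = Q * (1 / Q - pr N P) := by
      rw [mul_sub, mul_one_div_cancel hQR.ne']
    rw [h7, abs_mul, abs_of_pos hQR] at hP1
    have h8 := le_of_mul_le_mul_left hP1 hQR
    rwa [abs_sub_comm] at h8
  have h9 : 6 * (Q : ℝ) / Real.log N ≤ ε := by
    rw [div_le_iff₀ hL]
    rw [div_le_iff₀ hε] at hN
    linarith
  have h10 := abs_sub_le (pr N (fun n => n ≡ a [MOD Q])) (pr N P) (1 / (Q : ℝ))
  have h11 : 3 * (Q : ℝ) / Real.log N + 3 * Q / Real.log N = 6 * Q / Real.log N := by ring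
  linarith [key a]

end Pool.Agent.Lib.P4a7640E
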