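import Mathlib
import Pool.Agent.Lib.P4a7640E.FamCore

/-!
# All mixed correlations of the corrected functions are small

Module P4a7640E.CorrU (1.5 h). Imports are black boxes.

For a nonempty `S ⊆ univ ×ˢ range L` put `H = S.image Prod.snd`, `A j = {i : (i,j) ∈ S}` (nonempty for
`j ∈ H`), `Q = ∏ i, q i`, `χ' j = ∏ i ∈ A j, changeLevel (χ i)` (`DirichletCharacter.changeLevel`,
level `Q`, `Finset.dvd_prod_of_mem`), `g' j p = ∏ i ∈ A j, g i p`, `F j n = ∏ i ∈ A j, vv c (u i) (g i) N n`.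
For a prime `p ∤ Q`: `p ∤ q i`, `changeLevel (χ i) p = χ i p = sgC (g i p)`
(`DirichletCharacter.changeLevel_eq_cast_of_dvd`, `p` is a unit mod `Q`), so `sgC (g' j p) = χ' j p`.
`∏ s ∈ S, sg (vv .. (n + s.2)) = ∏ j ∈ H, sg (F j (n + j))` (`Finset.prod_fiberwise`-like regrouping
of `S`, `sg_prod`). `F j` is multiplicative (`MultS.mul`, `dsg_mult`).
At a prime `p ≤ N`: `vv c (u i) (g i) N p = g i p` if `N < p^(2^c)` (if `u i p ≠ g i p` then
`p ∈ TT`, `dsg_prime`, and `-u i p = g i p`; otherwise `p ∉ TT`) and `= u i p` if `p^(2^c) ≤ N`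
(`p ∉ TT`). So the top mass in `fam_core` is an empty sum `0 ≤ ρ`, and the low mass for any `j ∈ H` is
`∑ over p^(2^c) ≤ N with ∏ i ∈ A j, u i p ≠ ∏ i ∈ A j, g i p`, which tends to infinity with `N` by
`hfar (A j)` and `eventually_low` (file P4a7640T/Main.lean, used in the same way in `near_char_core`).
There are finitely many `S`: take the maximum of the `c₀ S` and then of the `N₀`
(`Finset.powerset`, `eventually_all_finset` or `Finset.exists_le`/`sup`).
-/

open Finset Filter Topology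
open Pool.Agent.Lib.P4a7640 Pool.Agent.Lib.P4a7640D Pool.Agent.Lib.P4a7640T

namespace Pool.Agent.Lib.P4a7640E

private lemma sgC_prod {ι : Type*} (s : Finset ι) (f : ι → ℤˣ) :
    sgC (∏ i ∈ s, f i) = ∏ i ∈ s, sgC (f i) := by
  classical
  induction s using Finset.induction_on with
  | empty => simp [sgC]
  | insert a s ha ih => rw [Finset.prod_insert ha, Finset.prod_insert ha, sgC_mul, ih]

private lemma prod_char {ι : Type*} {Q : ℕ} (s : Finset ι) (ψ : ι → DirichletCharacter ℂ Q)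
    {a : ZMod Q} (ha : IsUnit a) : (∏ i ∈ s, ψ i) a = ∏ i ∈ s, ψ i a := by
  classical
  induction s using Finset.induction_on with
  | empty =>
    rw [Finset.prod_empty, Finset.prod_empty]
    exact MulChar.one_apply ha
  | insert b s hb ih =>
    rw [Finset.prod_insert hb, Finset.prod_insert hb, MulChar.mul_apply, ih]

private lemma multS_prod {ι : Type*} (s : Finset ι) (f : ι → ℕ → ℤˣ) (hf : ∀ i ∈ s, MultS (f i)) :
    MultS fun n => ∏ i ∈ s, f i n := by
  intro a b ha hb hab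
  show ∏ i ∈ s, f i (a * b) = (∏ i ∈ s, f i a) * ∏ i ∈ s, f i b
  rw [← Finset.prod_mul_distrib]
  exact Finset.prod_congr rfl fun i hi => hf i hi a b ha hb hab

private lemma TT_prime {c : ℕ} {u g : ℕ → ℤˣ} {N : ℕ} : ∀ p ∈ TT c u g N, p.Prime := by
  intro p hp
  unfold TT at hp
  rw [mem_filter] at hp
  exact hp.2.1

private lemma vv_mult {c : ℕ} {u g : ℕ → ℤˣ} {N : ℕ} (hu : MultS u) : MultS (vv c u g N) := by
  intro a b ha hb hab
  unfold vv
  rw [hu a b ha hb hab, dsg_mult TT_prime a b ha hb hab]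
  exact mul_mul_mul_comm _ _ _ _

private lemma vv_top {c : ℕ} {u g : ℕ → ℤˣ} {N p : ℕ} (hp : p.Prime) (hpN : p ≤ N)
    (hlt : N < p ^ (2 ^ c)) : vv c u g N p = g p := by
  classical
  unfold vv
  rw [dsg_prime TT_prime hp]
  by_cases k3 : u p = g p
  · have k4 : p ∉ TT c u g N := by
      intro k
      unfold TT at k
      rw [mem_filter] at k
      exact k.2.2.2 k3
    rw [if_neg k4, mul_one, k3]
  · have k4 : p ∈ TT c u g N := by
      unfold TT
      rw [mem_filter, mem_Icc]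
      exact ⟨⟨hp.one_le, hpN⟩, hp, hlt, k3⟩
    rw [if_pos k4]
    rcases Int.units_eq_one_or (u p) with k6 | k6 <;>
      rcases Int.units_eq_one_or (g p) with k7 | k7 <;> rw [k6, k7] at k3 ⊢
    · exact absurd rfl k3
    · simp
    · simp
    · exact absurd rfl k3

private lemma vv_low {c : ℕ} {u g : ℕ → ℤˣ} {N p : ℕ} (hp : p.Prime)
    (hle : p ^ (2 ^ c) ≤ N) : vv c u g N p = u p := by
  classical
  unfold vv
  rw [dsg_prime TT_prime hp]
  have k4 : p ∉ TT c u g N := by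
    intro k
    unfold TT at k
    rw [mem_filter] at k
    exact absurd k.2.2.1 (not_lt.2 hle)
  rw [if_neg k4, mul_one]

/-- one subset -/
private theorem corr_one {m : ℕ} {u g : Fin m → ℕ → ℤˣ} (hu : ∀ i, MultS (u i)) {q : Fin m → ℕ}
    (hq : ∀ i, 0 < q i) (χ : ∀ i, DirichletCharacter ℂ (q i))
    (hg : ∀ i, ∀ p : ℕ, p.Prime → ¬ p ∣ q i → sgC (g i p) = χ i (p : ZMod (q i)))
    (hfar : ∀ A : Finset (Fin m), A.Nonempty →
      Tendsto (fun N => PS (fun p => ∏ i ∈ A, u i p ≠ ∏ i ∈ A, g i p) 0 N) atTop atTop)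
    (ε : ℝ) (hε : 0 < ε) (S : Finset (Fin m × ℕ)) (hS : S.Nonempty) :
    ∃ c₀ : ℕ, ∀ c ≥ c₀, ∀ᶠ N : ℕ in atTop,
      |LA (fun n => ∏ s ∈ S, sg (vv c (u s.1) (g s.1) N (n + s.2))) N| < ε := by
  classical
  set H : Finset ℕ := S.image Prod.snd with hH
  have hHne : H.Nonempty := hS.image _
  set Af : ℕ → Finset (Fin m) := fun j => univ.filter fun i => (i, j) ∈ S with hAf
  have hAfne : ∀ j ∈ H, (Af j).Nonempty := by
    intro j hj
    rw [hH, mem_image] at hj
    obtain ⟨s, hs, hsj⟩ := hj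
    refine ⟨s.1, ?_⟩
    rw [hAf, mem_filter]
    refine ⟨mem_univ _, ?_⟩
    rw [← hsj]
    exact hs
  set Q : ℕ := ∏ i, q i with hQ
  have hQ0 : 0 < Q := Finset.prod_pos fun i _ => hq i
  have hdvd : ∀ i, q i ∣ Q := fun i => Finset.dvd_prod_of_mem q (mem_univ i)
  set X : ℕ → DirichletCharacter ℂ Q := fun j =>
    ∏ i ∈ Af j, DirichletCharacter.changeLevel (hdvd i) (χ i) with hX
  set g' : ℕ → ℕ → ℤˣ := fun j p => ∏ i ∈ Af j, g i p with hg'
  have hg'X : ∀ j ∈ H, ∀ p : ℕ, p.Prime → ¬ p ∣ Q → sgC (g' j p) = X j (p : ZMod Q) := by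
    intro j _ p hp hpQ
    rw [hg', hX]
    show sgC (∏ i ∈ Af j, g i p) = (∏ i ∈ Af j, DirichletCharacter.changeLevel (hdvd i) (χ i)) _
    have hu1 : IsUnit ((p : ℕ) : ZMod Q) :=
      (ZMod.isUnit_iff_coprime p Q).2 ((Nat.Prime.coprime_iff_not_dvd hp).2 hpQ)
    rw [sgC_prod, prod_char _ _ hu1]
    refine Finset.prod_congr rfl fun i _ => ?_
    have h1 : ¬ p ∣ q i := fun h => hpQ (h.trans (hdvd i))
    rw [hg i p hp h1]
    have h2 : IsCoprime (p : ℤ) (Q : ℤ) :=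
      Nat.isCoprime_iff_coprime.mpr ((Nat.Prime.coprime_iff_not_dvd hp).2 hpQ)
    have h3 := DirichletCharacter.changeLevel_eq_cast_of_dvd' (χ i) (hdvd i) h2
    simp only [Int.cast_natCast] at h3
    exact h3.symm
  obtain ⟨c₀, A, ρ, hρ, hcore⟩ := fam_core H hHne hQ0 X g' hg'X ε hε
  refine ⟨c₀, fun c hc => ?_⟩
  obtain ⟨N₀, hN₀⟩ := hcore c hc
  have hHne' := hHne
  obtain ⟨j₀, hj₀⟩ := hHne'
  have hlow := eventually_low (hfar (Af j₀) (hAfne j₀ hj₀)) (2 ^ c) A
  filter_upwards [hlow, eventually_ge_atTop N₀] with N h1 h2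
  have hmain := hN₀ N h2 (fun j n => ∏ i ∈ Af j, vv c (u i) (g i) N n)
    (fun j _ => multS_prod _ _ fun i _ => vv_mult (hu i)) ?_ ?_
  · have heq : (fun n => ∏ s ∈ S, sg (vv c (u s.1) (g s.1) N (n + s.2))) =
        fun n => ∏ j ∈ H, sg (∏ i ∈ Af j, vv c (u i) (g i) N (n + j)) := by
      funext n
      rw [← Finset.prod_fiberwise_of_maps_to (t := H) (g := Prod.snd)
        (fun s hs => Finset.mem_image_of_mem _ hs)]
      refine Finset.prod_congr rfl fun j _ => ?_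
      rw [sg_prod]
      refine Finset.prod_nbij' (i := Prod.fst) (j := fun i => (i, j)) ?_ ?_ ?_ ?_ ?_
      · rintro ⟨i, k⟩ hs
        rw [mem_filter] at hs
        have : k = j := hs.2
        rw [hAf, mem_filter]
        refine ⟨mem_univ _, ?_⟩
        rw [← this]
        exact hs.1
      · intro i hi
        rw [hAf, mem_filter] at hi
        rw [mem_filter]
        exact ⟨hi.2, rfl⟩
      · rintro ⟨i, k⟩ hs
        rw [mem_filter] at hs
        have : k = j := hs.2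
        rw [this]
      · intro i _
        rfl
      · rintro ⟨i, k⟩ hs
        rw [mem_filter] at hs
        have : k = j := hs.2
        rw [this]
    rw [heq]
    exact hmain
  · intro j _
    refine le_trans (le_of_eq ?_) hρ.le
    apply Finset.sum_eq_zero
    intro p hp
    exfalso
    rw [mem_filter, mem_Icc] at hp
    obtain ⟨⟨_, hpN⟩, hpp, hlt, hne⟩ := hp
    apply hne
    show ∏ i ∈ Af j, vv c (u i) (g i) N p = ∏ i ∈ Af j, g i p
    exact Finset.prod_congr rfl fun i _ => vv_top hpp hpN hlt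
  · refine ⟨j₀, hj₀, h1.trans (le_of_eq ?_)⟩
    refine Finset.sum_congr ?_ fun _ _ => rfl
    ext p
    rw [mem_filter, mem_filter]
    refine and_congr_right fun _ => and_congr_right fun hpp => and_congr_right fun hle => ?_
    have h3 : ∏ i ∈ Af j₀, vv c (u i) (g i) N p = ∏ i ∈ Af j₀, u i p :=
      Finset.prod_congr rfl fun i _ => vv_low hpp hle
    show (∏ i ∈ Af j₀, u i p ≠ ∏ i ∈ Af j₀, g i p) ↔
      (∏ i ∈ Af j₀, vv c (u i) (g i) N p ≠ g' j₀ p)
    rw [h3]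

theorem corr_small {m : ℕ} {u g : Fin m → ℕ → ℤˣ} (hu : ∀ i, MultS (u i)) {q : Fin m → ℕ}
    (hq : ∀ i, 0 < q i) (χ : ∀ i, DirichletCharacter ℂ (q i))
    (hg : ∀ i, ∀ p : ℕ, p.Prime → ¬ p ∣ q i → sgC (g i p) = χ i (p : ZMod (q i)))
    (hfar : ∀ A : Finset (Fin m), A.Nonempty →
      Tendsto (fun N => PS (fun p => ∏ i ∈ A, u i p ≠ ∏ i ∈ A, g i p) 0 N) atTop atTop)
    (L : ℕ) (ε : ℝ) (hε : 0 < ε) :
    ∃ c N₀ : ℕ, ∀ N ≥ N₀, ∀ S : Finset (Fin m × ℕ), S.Nonempty →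
      S ⊆ univ ×ˢ range L →
      |LA (fun n => ∏ s ∈ S, sg (vv c (u s.1) (g s.1) N (n + s.2))) N| < ε := by
  classical
  have h1 : ∀ S : Finset (Fin m × ℕ), ∃ c₀ : ℕ, S.Nonempty → ∀ c ≥ c₀, ∀ᶠ N : ℕ in atTop,
      |LA (fun n => ∏ s ∈ S, sg (vv c (u s.1) (g s.1) N (n + s.2))) N| < ε := by
    intro S
    by_cases hS : S.Nonempty
    · obtain ⟨c₀, hc₀⟩ := corr_one hu hq χ hg hfar ε hε S hS
      exact ⟨c₀, fun _ => hc₀⟩
    · exact ⟨0, fun h => absurd h hS⟩
  choose c₀ hc₀ using h1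
  set PW : Finset (Finset (Fin m × ℕ)) := (univ ×ˢ range L).powerset with hPW
  have h2 : ∀ᶠ N : ℕ in atTop, ∀ S ∈ PW, S.Nonempty →
      |LA (fun n => ∏ s ∈ S, sg (vv (PW.sup c₀) (u s.1) (g s.1) N (n + s.2))) N| < ε := by
    rw [eventually_all_finset]
    intro S hS
    by_cases hne : S.Nonempty
    · filter_upwards [hc₀ S hne (PW.sup c₀) (Finset.le_sup hS)] with N hN _
      exact hN
    · exact Eventually.of_forall fun N h => absurd h hne
  obtain ⟨N₀, hN₀⟩ := eventually_atTop.1 h2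
  refine ⟨PW.sup c₀, N₀, fun N hN S hne hsub => hN₀ N hN S ?_ hne⟩
  rw [hPW, mem_powerset]
  exact hsub

end Pool.Agent.Lib.P4a7640E
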