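import Mathlib
import Pool.Agent.Lib.P4a7640E.EntA

/-!
# Averages over the scales `N / m`
-/

open Finset Filter Topology
open Pool.Agent.Lib.P4a7640

namespace Pool.Agent.Lib.P4a7640E

/-- the harmonic sum -/
noncomputable def hs (N : ℕ) : ℝ := ∑ n ∈ Icc 1 N, (1:ℝ) / n

/-- the sum of `hs (N / m) / m` over `m ≤ N`, i.e. the sum of `d(n) / n` over `n ≤ N` -/
noncomputable def WW (N : ℕ) : ℝ := ∑ m ∈ Icc 1 N, hs (N / m) / m

/-- the average of `φ` over the scales `N / m`, `m ≤ N`, with the weights `hs (N / m) / m` -/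
noncomputable def mix (N : ℕ) (φ : ℕ → ℝ) : ℝ :=
  (∑ m ∈ Icc 1 N, hs (N / m) / m * φ (N / m)) / WW N

theorem hs_nonneg (N : ℕ) : 0 ≤ hs N := sum_nonneg fun n _ => by positivity

theorem hs_pos {N : ℕ} (hN : 1 ≤ N) : 0 < hs N := by
  refine sum_pos (fun n hn => ?_) ⟨1, mem_Icc.2 ⟨le_refl _, hN⟩⟩
  have : 1 ≤ n := (mem_Icc.1 hn).1
  positivity

theorem hs_mono {M N : ℕ} (h : M ≤ N) : hs M ≤ hs N :=
  Finset.sum_le_sum_of_subset_of_nonneg (Finset.Icc_subset_Icc_right h) fun n _ _ => by positivity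

theorem WW_pos {N : ℕ} (hN : 1 ≤ N) : 0 < WW N := by
  refine sum_pos (fun m hm => ?_) ⟨1, mem_Icc.2 ⟨le_refl _, hN⟩⟩
  obtain ⟨h1, h2⟩ := mem_Icc.1 hm
  have h3 : 1 ≤ N / m := (Nat.one_le_div_iff (by omega)).2 h2
  have h4 := hs_pos h3
  positivity

theorem WW_nonneg (N : ℕ) : 0 ≤ WW N :=
  sum_nonneg fun m _ => div_nonneg (hs_nonneg _) (Nat.cast_nonneg m)

theorem mix_mono {N : ℕ} {φ ψ : ℕ → ℝ} (h : ∀ M, 1 ≤ M → M ≤ N → φ M ≤ ψ M) :
    mix N φ ≤ mix N ψ := by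
  unfold mix
  refine div_le_div_of_nonneg_right (sum_le_sum fun m hm => ?_) (WW_nonneg N)
  obtain ⟨h1, h2⟩ := mem_Icc.1 hm
  refine mul_le_mul_of_nonneg_left (h _ ?_ (Nat.div_le_self N m))
    (div_nonneg (hs_nonneg _) (Nat.cast_nonneg m))
  exact (Nat.one_le_div_iff (by omega)).2 h2

theorem mix_const {N : ℕ} (hN : 1 ≤ N) (a : ℝ) : mix N (fun _ => a) = a := by
  unfold mix
  rw [← sum_mul]
  show WW N * a / WW N = a
  rw [mul_div_assoc, mul_comm, div_mul_cancel₀ _ (WW_pos hN).ne']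

theorem mix_nonneg {N : ℕ} {φ : ℕ → ℝ} (h : ∀ M, 0 ≤ φ M) : 0 ≤ mix N φ := by
  unfold mix
  exact div_nonneg (sum_nonneg fun m _ => mul_nonneg
    (div_nonneg (hs_nonneg _) (Nat.cast_nonneg m)) (h _)) (WW_nonneg N)

theorem mix_add (N : ℕ) (φ ψ : ℕ → ℝ) :
    mix N (fun M => φ M + ψ M) = mix N φ + mix N ψ := by
  unfold mix
  rw [← add_div, ← sum_add_distrib]
  congr 1
  exact sum_congr rfl fun m _ => mul_add _ _ _

theorem mix_const_mul (N : ℕ) (a : ℝ) (φ : ℕ → ℝ) :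
    mix N (fun M => a * φ M) = a * mix N φ := by
  unfold mix
  rw [mul_div_assoc', mul_sum]
  congr 1
  exact sum_congr rfl fun m _ => by ring

theorem mix_sum {ι : Type*} (N : ℕ) (s : Finset ι) (φ : ι → ℕ → ℝ) :
    mix N (fun M => ∑ i ∈ s, φ i M) = ∑ i ∈ s, mix N (φ i) := by
  unfold mix
  rw [← sum_div, sum_comm]
  congr 1
  exact sum_congr rfl fun m _ => mul_sum _ _ _

/-- Jensen's inequality -/
theorem mix_jensen {N : ℕ} (hN : 1 ≤ N) {s : Set ℝ} {f : ℝ → ℝ} (hf : ConcaveOn ℝ s f)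
    {φ : ℕ → ℝ} (h : ∀ M, φ M ∈ s) : mix N (fun M => f (φ M)) ≤ f (mix N φ) := by
  have hW := WW_pos hN
  have h1 := hf.le_map_sum (t := Icc 1 N) (w := fun m => hs (N / m) / m / WW N)
    (p := fun m => φ (N / m))
    (fun m _ => div_nonneg (div_nonneg (hs_nonneg _) (Nat.cast_nonneg m)) hW.le)
    (by rw [← sum_div]; exact div_self hW.ne') (fun m _ => h _)
  have e : ∀ ψ : ℕ → ℝ, ∑ m ∈ Icc 1 N, (hs (N / m) / m / WW N) • ψ (N / m) = mix N ψ := by
    intro ψ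
    unfold mix
    rw [sum_div]
    refine sum_congr rfl fun m _ => ?_
    rw [smul_eq_mul]
    ring
  rw [e φ] at h1
  have h2 := e (fun M => f (φ M))
  rw [h2] at h1
  exact h1

open Classical in
/-- the mixture of the probabilities -/
theorem mix_pr (N : ℕ) (P : ℕ → Prop) :
    mix N (fun M => pr M P) = (∑ n ∈ (Icc 1 N).filter (fun n => P n), hs (N / n) / n) / WW N := by
  unfold mix
  congr 1
  have h1 : ∀ m ∈ Icc 1 N, hs (N / m) / m * pr (N / m) P =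
      ∑ n ∈ (Icc 1 N).filter (fun n => m * n ≤ N ∧ P n), (1:ℝ) / m * (1 / n) := by
    intro m hm
    obtain ⟨k1, k2⟩ := mem_Icc.1 hm
    have k3 : 1 ≤ N / m := (Nat.one_le_div_iff (by omega)).2 k2
    have k4 : (∑ n ∈ Icc 1 (N / m), (1:ℝ) / n) ≠ 0 := (hs_pos k3).ne'
    unfold pr
    show (∑ n ∈ Icc 1 (N / m), (1:ℝ) / n) / m * _ = _
    rw [div_mul_div_comm, mul_comm, mul_div_mul_right _ _ k4, ← mul_sum]
    rw [div_eq_mul_one_div, mul_comm]
    congr 1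
    refine sum_congr ?_ fun _ _ => rfl
    ext n
    simp only [mem_filter, mem_Icc]
    constructor
    · rintro ⟨⟨h1, h2⟩, h3⟩
      have h4 : m * n ≤ N := by
        rw [mul_comm]
        exact (Nat.le_div_iff_mul_le (by omega)).1 h2
      have h5 : n ≤ m * n := Nat.le_mul_of_pos_left n (by omega)
      exact ⟨⟨h1, h5.trans h4⟩, h4, h3⟩
    · rintro ⟨⟨h1, _⟩, h3, h4⟩
      refine ⟨⟨h1, (Nat.le_div_iff_mul_le (by omega)).2 ?_⟩, h4⟩
      rw [mul_comm]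
      exact h3
  rw [sum_congr rfl h1]
  have h2 : ∀ n ∈ (Icc 1 N).filter (fun n => P n), hs (N / n) / n =
      ∑ m ∈ (Icc 1 N).filter (fun m => m * n ≤ N), (1:ℝ) / m * (1 / n) := by
    intro n hn
    obtain ⟨k1, k2⟩ := mem_Icc.1 (mem_filter.1 hn).1
    unfold hs
    rw [← sum_mul, div_eq_mul_one_div]
    congr 1
    refine sum_congr ?_ fun _ _ => rfl
    ext m
    simp only [mem_filter, mem_Icc]
    constructor
    · rintro ⟨h1, h2⟩
      have h4 : m * n ≤ N := (Nat.le_div_iff_mul_le (by omega)).1 h2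
      have h5 : m ≤ m * n := Nat.le_mul_of_pos_right m (by omega)
      exact ⟨⟨h1, h5.trans h4⟩, h4⟩
    · rintro ⟨⟨h1, _⟩, h3⟩
      exact ⟨h1, (Nat.le_div_iff_mul_le (by omega)).2 h3⟩
  rw [sum_congr rfl h2]
  apply sum_comm'
  intro m n
  simp only [mem_filter]
  tauto

end Pool.Agent.Lib.P4a7640E
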