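import Mathlib
import Pool.Agent.Lib.P4a7640E.MixD
import Pool.Agent.Lib.P4a7640E.Thin
import Pool.Agent.Lib.P4a7640E.Defs

/-!
# Double logarithmic averages of signs

Module P4a7640E.DLog (1.5 h). Imports are black boxes.

Let `csg n = ∏ p ∈ T, (-1)^(n.factorization p)` (completely multiplicative) and `r n = ∑ d ∈ n.divisors, csg d`
for `n ≥ 1`. (a) `r n ≥ 0`: `r` is multiplicative (`ArithmeticFunction`: `ζ * csg`,
`IsMultiplicative.multiplicative_factorization`) and `r (p^k) = ∑ i ≤ k, (±1)^i ≥ 0`. (b) if no `p ∈ T`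
divides `n` then `csg d = 1` for all `d ∣ n` and `r n` is the number of divisors of `n`.
With `w n = hs (N/n)/n = ∑ m ≤ N/n, 1/(m n)`: `∑ n ≤ N, w n * csg n = ∑ k ≤ N, (r k)/k` (put `k = m n`)
`≥ ∑ k ≤ N, k free of T, d(k)/k = ∑ m n ≤ N, m, n free of T, 1/(m n) = ∑ m ≤ N, m free, (1/m) G T (N/m)`
`≥ Π * ∑ m ≤ N, m free, hs (N/m)/m` with `Π = ∏ p ∈ T, (1 - 1/p)` (`ThinAux.G_ge`), and
`∑ m ≤ N, m free, hs (N/m)/m = ∑ n ≤ N, (1/n) G T (N/n) ≥ Π * ∑ n ≤ N, hs (N/n)/n = Π * WW N`.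
So `∑ w n * csg n ≥ Π^2 WW N`, and as `csg = 1 - 2 * 1_{csg = -1}`:
`∑ n, csg n = -1, w n ≤ (1 - Π^2)/2 * WW N`. (c) If `dsg T n ≠ csg n` then some `p ∈ T` has `p^2 ∣ n`; and
`∑ n ≤ N, d ∣ n, w n = ∑ k ≤ N/d, hs (N/(d k))/(d k) = WW (N/d)/d ≤ WW N / d`. The claim follows from
`mix_pr`. (`dsg T n = (-1)^(T.filter (· ∣ n)).card`, file P4a7640T/NearChar.lean.)
-/

open Finset Filter Topology
open Pool.Agent.Lib.P4a7640 Pool.Agent.Lib.P4a7640D Pool.Agent.Lib.P4a7640T

namespace Pool.Agent.Lib.P4a7640E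

namespace DLogAux

/-- the completely multiplicative function with the value `-1` at the primes of `T` -/
noncomputable def csg (T : Finset ℕ) (n : ℕ) : ℝ := ∏ p ∈ T, (-1 : ℝ) ^ n.factorization p

theorem csg_mul (T : Finset ℕ) {m n : ℕ} (hm : m ≠ 0) (hn : n ≠ 0) :
    csg T (m * n) = csg T m * csg T n := by
  unfold csg
  rw [← Finset.prod_mul_distrib]
  refine Finset.prod_congr rfl fun p _ => ?_
  rw [Nat.factorization_mul hm hn, Finsupp.add_apply, pow_add]

theorem csg_one (T : Finset ℕ) : csg T 1 = 1 := by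
  unfold csg
  refine Finset.prod_eq_one fun p _ => ?_
  rw [Nat.factorization_one, Finsupp.zero_apply, pow_zero]

theorem csg_sq (T : Finset ℕ) (n : ℕ) : csg T n * csg T n = 1 := by
  unfold csg
  rw [← Finset.prod_mul_distrib]
  refine Finset.prod_eq_one fun p _ => ?_
  rw [← mul_pow]
  norm_num

theorem csg_eq (T : Finset ℕ) (n : ℕ) : csg T n = 1 ∨ csg T n = -1 :=
  mul_self_eq_one_iff.1 (csg_sq T n)

/-- `csg` as an arithmetic function -/
noncomputable def ca (T : Finset ℕ) : ArithmeticFunction ℝ :=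
  ⟨fun n => if n = 0 then 0 else csg T n, by rw [if_pos rfl]⟩

theorem ca_apply (T : Finset ℕ) {n : ℕ} (hn : n ≠ 0) : ca T n = csg T n := by
  change (if n = 0 then (0:ℝ) else csg T n) = csg T n
  rw [if_neg hn]

theorem ca_mult (T : Finset ℕ) : (ca T).IsMultiplicative := by
  rw [ArithmeticFunction.IsMultiplicative.iff_ne_zero]
  refine ⟨by rw [ca_apply T one_ne_zero, csg_one], fun {m n} hm hn _ => ?_⟩
  rw [ca_apply T hm, ca_apply T hn, ca_apply T (mul_ne_zero hm hn), csg_mul T hm hn]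

/-- the divisor sum of `csg` -/
noncomputable def rr (T : Finset ℕ) (n : ℕ) : ℝ := ∑ d ∈ n.divisors, csg T d

theorem rr_eq (T : Finset ℕ) (n : ℕ) :
    ((ArithmeticFunction.zeta : ArithmeticFunction ℝ) * ca T) n = rr T n := by
  rw [ArithmeticFunction.coe_zeta_mul_apply]
  unfold rr
  refine Finset.sum_congr rfl fun d hd => ?_
  exact ca_apply T (Nat.pos_of_mem_divisors hd).ne'

theorem csg_pow (T : Finset ℕ) {p : ℕ} (hp : p ≠ 0) (k : ℕ) : csg T (p ^ k) = csg T p ^ k := by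
  induction k with
  | zero => rw [pow_zero, pow_zero, csg_one]
  | succ k ih => rw [pow_succ, csg_mul T (pow_ne_zero k hp) hp, ih, pow_succ]

theorem geom_nonneg {c : ℝ} (hc : c = 1 ∨ c = -1) (k : ℕ) : 0 ≤ ∑ i ∈ Finset.range k, c ^ i := by
  rcases hc with rfl | rfl
  · exact Finset.sum_nonneg fun i _ => by positivity
  · induction k using Nat.strong_induction_on with
    | _ k ih =>
      rcases k with _ | _ | k
      · simp
      · simp
      · rw [Finset.sum_range_succ, Finset.sum_range_succ, add_assoc]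
        have h1 : (-1:ℝ) ^ k + (-1) ^ (k + 1) = 0 := by
          rw [pow_succ]
          ring
        rw [h1, add_zero]
        exact ih k (by omega)

theorem rr_nonneg (T : Finset ℕ) {n : ℕ} (hn : n ≠ 0) : 0 ≤ rr T n := by
  have hm : ((ArithmeticFunction.zeta : ArithmeticFunction ℝ) * ca T).IsMultiplicative :=
    (ArithmeticFunction.isMultiplicative_zeta.natCast).mul (ca_mult T)
  rw [← rr_eq, hm.multiplicative_factorization _ hn]
  unfold Finsupp.prod
  refine Finset.prod_nonneg fun p hp => ?_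
  have hp' : p.Prime := by
    rw [Nat.support_factorization] at hp
    exact Nat.prime_of_mem_primeFactors hp
  beta_reduce
  rw [rr_eq]
  unfold rr
  rw [Nat.sum_divisors_prime_pow hp', Finset.sum_congr rfl fun i _ => csg_pow T hp'.ne_zero i]
  exact geom_nonneg (csg_eq T p) _

open Classical in
/-- the indicator function of the integers free of `T` -/
noncomputable def fr (T : Finset ℕ) (n : ℕ) : ℝ := if ∀ p ∈ T, ¬ p ∣ n then 1 else 0

theorem fr_nonneg (T : Finset ℕ) (n : ℕ) : 0 ≤ fr T n := by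
  classical
  unfold fr
  split_ifs
  · exact zero_le_one
  · exact le_refl _

/-- pointwise comparison -/
theorem rr_ge {T : Finset ℕ} (hT : ∀ p ∈ T, p.Prime) {k : ℕ} (hk : k ≠ 0) :
    ∑ x ∈ k.divisorsAntidiagonal, fr T x.1 * fr T x.2 ≤
      ∑ x ∈ k.divisorsAntidiagonal, csg T x.1 := by
  classical
  have h1 : ∑ x ∈ k.divisorsAntidiagonal, csg T x.1 = rr T k :=
    Nat.sum_divisorsAntidiagonal (fun a _ => csg T a)
  by_cases hf : ∀ p ∈ T, ¬ p ∣ k
  · refine Finset.sum_le_sum fun x hx => ?_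
    obtain ⟨h2, h3⟩ := Nat.mem_divisorsAntidiagonal.1 hx
    have hd : x.1 ∣ k := ⟨x.2, h2.symm⟩
    have h4 : csg T x.1 = 1 := by
      unfold csg
      refine Finset.prod_eq_one fun p hp => ?_
      have h5 : x.1.factorization p = 0 := by
        rw [Nat.factorization_eq_zero_iff]
        exact Or.inr (Or.inl fun h => hf p hp (h.trans hd))
      rw [h5, pow_zero]
    rw [h4]
    have h5 : ∀ n, fr T n ≤ 1 := by
      intro n
      unfold fr
      split_ifs
      · exact le_refl _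
      · exact zero_le_one
    exact mul_le_one₀ (h5 _) (fr_nonneg T _) (h5 _)
  · push Not at hf
    obtain ⟨p, hp, hpk⟩ := hf
    have h2 : ∑ x ∈ k.divisorsAntidiagonal, fr T x.1 * fr T x.2 = 0 := by
      refine Finset.sum_eq_zero fun x hx => ?_
      obtain ⟨h3, h4⟩ := Nat.mem_divisorsAntidiagonal.1 hx
      rw [← h3] at hpk
      rcases (hT p hp).dvd_mul.1 hpk with h5 | h5
      · have h6 : fr T x.1 = 0 := by
          unfold fr
          rw [if_neg]
          intro h7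
          exact h7 p hp h5
        rw [h6, zero_mul]
      · have h6 : fr T x.2 = 0 := by
          unfold fr
          rw [if_neg]
          intro h7
          exact h7 p hp h5
        rw [h6, mul_zero]
    rw [h2, h1]
    exact rr_nonneg T hk

/-- sum over the pairs with product at most `N` -/
noncomputable def cv (N : ℕ) (F : ℕ → ℕ → ℝ) : ℝ :=
  ∑ m ∈ Icc 1 N, ∑ n ∈ Icc 1 (N / m), F m n

theorem cv_fiber (N : ℕ) (F : ℕ → ℕ → ℝ) :
    cv N F = ∑ k ∈ Icc 1 N, ∑ x ∈ k.divisorsAntidiagonal, F x.1 x.2 := by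
  classical
  have h1 : cv N F = ∑ x ∈ ((Icc 1 N) ×ˢ (Icc 1 N)).filter (fun x => x.1 * x.2 ≤ N),
      F x.1 x.2 := by
    unfold cv
    rw [Finset.sum_filter, Finset.sum_product]
    refine Finset.sum_congr rfl fun m hm => ?_
    obtain ⟨k1, k2⟩ := mem_Icc.1 hm
    rw [← Finset.sum_filter]
    refine Finset.sum_congr ?_ fun _ _ => rfl
    ext n
    simp only [mem_filter, mem_Icc]
    constructor
    · rintro ⟨h1, h2⟩
      have h4 : m * n ≤ N := by
        rw [mul_comm]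
        exact (Nat.le_div_iff_mul_le (by omega)).1 h2
      have h5 : n ≤ m * n := Nat.le_mul_of_pos_left n (by omega)
      exact ⟨⟨h1, h5.trans h4⟩, h4⟩
    · rintro ⟨⟨h1, _⟩, h3⟩
      refine ⟨h1, (Nat.le_div_iff_mul_le (by omega)).2 ?_⟩
      rw [mul_comm]
      exact h3
  rw [h1, ← Finset.sum_fiberwise_of_maps_to (t := Icc 1 N) (g := fun x : ℕ × ℕ => x.1 * x.2)]
  · refine Finset.sum_congr rfl fun k hk => ?_
    obtain ⟨k1, k2⟩ := mem_Icc.1 hk
    refine Finset.sum_congr ?_ fun _ _ => rfl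
    ext x
    rw [mem_filter, mem_filter, Finset.mem_product, mem_Icc, mem_Icc,
      Nat.mem_divisorsAntidiagonal]
    constructor
    · rintro ⟨_, h⟩
      exact ⟨h, by omega⟩
    · rintro ⟨h, hk0⟩
      have h2 : x.1 ≠ 0 := by
        intro h3
        rw [h3, zero_mul] at h
        exact hk0 h.symm
      have h3 : x.2 ≠ 0 := by
        intro h3
        rw [h3, mul_zero] at h
        exact hk0 h.symm
      have h4 : x.1 ≤ x.1 * x.2 := Nat.le_mul_of_pos_right _ (Nat.pos_of_ne_zero h3)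
      have h5 : x.2 ≤ x.1 * x.2 := Nat.le_mul_of_pos_left _ (Nat.pos_of_ne_zero h2)
      refine ⟨⟨⟨⟨by omega, by omega⟩, by omega, by omega⟩, by omega⟩, h⟩
  · intro x hx
    obtain ⟨h2, h3⟩ := mem_filter.1 hx
    obtain ⟨h4, h5⟩ := Finset.mem_product.1 h2
    have h6 := (mem_Icc.1 h4).1
    have h7 := (mem_Icc.1 h5).1
    exact mem_Icc.2 ⟨Nat.mul_pos h6 h7, h3⟩

theorem cv_comm (N : ℕ) (F : ℕ → ℕ → ℝ) : cv N F = cv N (fun m n => F n m) := by
  rw [cv_fiber, cv_fiber]
  refine Finset.sum_congr rfl fun k _ => ?_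
  rw [Nat.sum_divisorsAntidiagonal F, Nat.sum_divisorsAntidiagonal' (fun m n => F n m)]

theorem cv_right (N : ℕ) (a b : ℕ → ℝ) :
    cv N (fun m n => a m / m * (b n / n)) =
      ∑ m ∈ Icc 1 N, a m / m * ∑ n ∈ Icc 1 (N / m), b n / n := by
  unfold cv
  exact Finset.sum_congr rfl fun m _ => (Finset.mul_sum _ _ _).symm

theorem sum_fr (T : Finset ℕ) (N : ℕ) : ∑ n ∈ Icc 1 N, fr T n / n = ThinAux.G T N := by
  classical
  unfold ThinAux.G
  rw [Finset.sum_filter]
  refine Finset.sum_congr rfl fun n _ => ?_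
  unfold fr
  by_cases h : ∀ p ∈ T, ¬ p ∣ n
  · rw [if_pos h, if_pos h]
  · rw [if_neg h, if_neg h, zero_div]

theorem main_lower {T : Finset ℕ} (hT : ∀ p ∈ T, p.Prime) (N : ℕ) :
    (∏ p ∈ T, (1 - 1 / (p:ℝ))) ^ 2 * WW N ≤ ∑ n ∈ Icc 1 N, hs (N / n) / n * csg T n := by
  classical
  set P : ℝ := ∏ p ∈ T, (1 - 1 / (p:ℝ)) with hP
  have hP0 : 0 ≤ P := Finset.prod_nonneg fun p hp => by
    have h1 : (1:ℝ) ≤ p := by exact_mod_cast (hT p hp).one_le
    rw [sub_nonneg, div_le_one (by linarith)]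
    exact h1
  have e1 : ∑ n ∈ Icc 1 N, hs (N / n) / n * csg T n =
      cv N (fun m n => csg T m / m * ((1:ℝ) / n)) := by
    rw [cv_right N (csg T) (fun _ => 1)]
    refine Finset.sum_congr rfl fun m _ => ?_
    unfold hs
    ring
  have e2 : WW N = cv N (fun m n => (1:ℝ) / m * ((1:ℝ) / n)) := by
    rw [cv_right N (fun _ => 1) (fun _ => 1)]
    unfold WW hs
    refine Finset.sum_congr rfl fun m _ => ?_
    ring
  have h1 : cv N (fun m n => fr T m / m * (fr T n / n)) ≤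
      cv N (fun m n => csg T m / m * ((1:ℝ) / n)) := by
    rw [cv_fiber, cv_fiber]
    refine Finset.sum_le_sum fun k hk => ?_
    obtain ⟨k1, k2⟩ := mem_Icc.1 hk
    have hk0 : k ≠ 0 := by omega
    have f1 : ∑ x ∈ k.divisorsAntidiagonal, fr T x.1 / x.1 * (fr T x.2 / x.2) =
        (1 / (k:ℝ)) * ∑ x ∈ k.divisorsAntidiagonal, fr T x.1 * fr T x.2 := by
      rw [Finset.mul_sum]
      refine Finset.sum_congr rfl fun x hx => ?_
      obtain ⟨h2, h3⟩ := Nat.mem_divisorsAntidiagonal.1 hx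
      rw [← h2, Nat.cast_mul, div_mul_div_comm, div_eq_mul_one_div, mul_comm]
    have f2 : ∑ x ∈ k.divisorsAntidiagonal, csg T x.1 / x.1 * ((1:ℝ) / x.2) =
        (1 / (k:ℝ)) * ∑ x ∈ k.divisorsAntidiagonal, csg T x.1 := by
      rw [Finset.mul_sum]
      refine Finset.sum_congr rfl fun x hx => ?_
      obtain ⟨h2, h3⟩ := Nat.mem_divisorsAntidiagonal.1 hx
      rw [← h2, Nat.cast_mul, div_mul_div_comm, mul_one, div_eq_mul_one_div, mul_comm]
    rw [f1, f2]
    exact mul_le_mul_of_nonneg_left (rr_ge hT hk0) (by positivity)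
  have h2 : ∀ a : ℕ → ℝ, (∀ n, 0 ≤ a n) →
      P * cv N (fun m n => a m / m * ((1:ℝ) / n)) ≤ cv N (fun m n => a m / m * (fr T n / n)) := by
    intro a ha
    rw [cv_right N a (fun _ => 1), cv_right N a (fr T), Finset.mul_sum]
    refine Finset.sum_le_sum fun m _ => ?_
    rw [sum_fr]
    have h3 := ThinAux.G_ge (N := N / m) T hT
    have h4 : 0 ≤ a m / m := div_nonneg (ha m) (Nat.cast_nonneg m)
    calc P * (a m / m * ∑ n ∈ Icc 1 (N / m), (1:ℝ) / n)
        = a m / m * (P * ∑ n ∈ Icc 1 (N / m), (1:ℝ) / n) := by ring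
      _ ≤ a m / m * ThinAux.G T (N / m) := mul_le_mul_of_nonneg_left h3 h4
  have h3 := h2 (fr T) (fr_nonneg T)
  have h4 := h2 (fun _ => 1) (fun _ => zero_le_one)
  have h5 : cv N (fun m n => fr T m / m * ((1:ℝ) / n)) =
      cv N (fun m n => (1:ℝ) / m * (fr T n / n)) := by
    rw [cv_comm]
    unfold cv
    refine Finset.sum_congr rfl fun m _ => Finset.sum_congr rfl fun n _ => ?_
    exact mul_comm _ _
  rw [e1, e2]
  calc P ^ 2 * cv N (fun m n => (1:ℝ) / m * ((1:ℝ) / n))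
      = P * (P * cv N (fun m n => (1:ℝ) / m * ((1:ℝ) / n))) := by ring
    _ ≤ P * cv N (fun m n => (1:ℝ) / m * (fr T n / n)) := mul_le_mul_of_nonneg_left h4 hP0
    _ = P * cv N (fun m n => fr T m / m * ((1:ℝ) / n)) := by rw [h5]
    _ ≤ cv N (fun m n => fr T m / m * (fr T n / n)) := h3
    _ ≤ _ := h1

theorem w_nonneg (N n : ℕ) : 0 ≤ hs (N / n) / n := div_nonneg (hs_nonneg _) (Nat.cast_nonneg n)

/-- the weight of the integers with `csg n = -1` -/
theorem neg_le {T : Finset ℕ} (hT : ∀ p ∈ T, p.Prime) (N : ℕ) [DecidablePred fun n => csg T n = -1] :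
    ∑ n ∈ (Icc 1 N).filter (fun n => csg T n = -1), hs (N / n) / n ≤
      (1 - (∏ p ∈ T, (1 - 1 / (p:ℝ))) ^ 2) / 2 * WW N := by
  have h1 := main_lower hT N
  have h2 : ∑ n ∈ Icc 1 N, hs (N / n) / n * csg T n =
      WW N - 2 * ∑ n ∈ (Icc 1 N).filter (fun n => csg T n = -1), hs (N / n) / n := by
    unfold WW
    rw [Finset.sum_filter, Finset.mul_sum, ← Finset.sum_sub_distrib]
    refine Finset.sum_congr rfl fun n _ => ?_
    by_cases h : csg T n = -1
    · rw [if_pos h, h]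
      ring
    · rw [if_neg h, (csg_eq T n).resolve_right h]
      ring
  rw [h2] at h1
  linarith

/-- the weight of the multiples of `d` -/
theorem mult_le {d : ℕ} (hd : 1 ≤ d) (N : ℕ) :
    ∑ n ∈ (Icc 1 N).filter (fun n => d ∣ n), hs (N / n) / n ≤ WW N / d := by
  classical
  have hinj : Set.InjOn (fun n => n / d) ((Icc 1 N).filter (fun n => d ∣ n) : Finset ℕ) := by
    intro a ha b hb hab
    have ha' : d ∣ a := (mem_filter.1 ha).2
    have hb' : d ∣ b := (mem_filter.1 hb).2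
    simp only at hab
    rw [← Nat.mul_div_cancel' ha', hab, Nat.mul_div_cancel' hb']
  have h1 : ∑ n ∈ (Icc 1 N).filter (fun n => d ∣ n), hs (N / n) / n ≤
      ∑ k ∈ ((Icc 1 N).filter (fun n => d ∣ n)).image (fun n => n / d), hs (N / k) / k / d := by
    rw [Finset.sum_image (fun a ha b hb hab => hinj ha hb hab)]
    refine Finset.sum_le_sum fun n hn => ?_
    obtain ⟨k, rfl⟩ := (mem_filter.1 hn).2
    rw [Nat.mul_div_cancel_left k hd]
    have h2 : hs (N / (d * k)) ≤ hs (N / k) := by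
      refine hs_mono ?_
      rw [mul_comm, ← Nat.div_div_eq_div_mul]
      exact Nat.div_le_self _ _
    rw [div_div, Nat.cast_mul, mul_comm (d:ℝ)]
    exact div_le_div_of_nonneg_right h2 (by positivity)
  refine h1.trans ?_
  unfold WW
  rw [Finset.sum_div]
  refine Finset.sum_le_sum_of_subset_of_nonneg ?_ fun k _ _ =>
    div_nonneg (w_nonneg N k) (Nat.cast_nonneg d)
  intro k hk
  rw [mem_image] at hk
  obtain ⟨n, hn, rfl⟩ := hk
  rw [mem_filter, Finset.mem_Icc] at hn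
  obtain ⟨⟨hn1, hn2⟩, k, rfl⟩ := hn
  rw [Nat.mul_div_cancel_left k hd, Finset.mem_Icc]
  have hk0 : 1 ≤ k := by
    rcases Nat.eq_zero_or_pos k with h0 | h0
    · rw [h0, mul_zero] at hn1; omega
    · exact h0
  exact ⟨hk0, (Nat.le_mul_of_pos_left k hd).trans hn2⟩

theorem csg_of_squarefree {T : Finset ℕ} (hT : ∀ p ∈ T, p.Prime) {n : ℕ} (hn : n ≠ 0)
    (h : ∀ p ∈ T, ¬ p ^ 2 ∣ n) (hd : dsg T n = -1) : csg T n = -1 := by
  classical
  have h1 : ∀ p ∈ T, (-1:ℝ) ^ n.factorization p = if p ∣ n then -1 else 1 := by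
    intro p hp
    have h2 : ¬ 2 ≤ n.factorization p := fun h3 =>
      h p hp (((hT p hp).pow_dvd_iff_le_factorization hn).2 h3)
    by_cases h3 : p ∣ n
    · have h4 := (hT p hp).factorization_pos_of_dvd hn h3
      have h5 : n.factorization p = 1 := by omega
      rw [if_pos h3, h5, pow_one]
    · have h5 : n.factorization p = 0 := by
        rw [Nat.factorization_eq_zero_iff]
        exact Or.inr (Or.inl h3)
      rw [if_neg h3, h5, pow_zero]
  unfold csg
  rw [Finset.prod_congr rfl h1, Finset.prod_ite, Finset.prod_const, Finset.prod_const_one, mul_one]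
  unfold dsg at hd
  have h2 := congrArg (fun u : ℤˣ => ((u : ℤ) : ℝ)) hd
  simp only [Units.val_pow_eq_pow_val, Units.val_neg, Units.val_one, Int.cast_pow, Int.cast_neg,
    Int.cast_one] at h2
  exact h2

end DLogAux

open DLogAux in
theorem dlog_mean {T : Finset ℕ} (hT : ∀ p ∈ T, p.Prime) {N : ℕ} (hN : 1 ≤ N) :
    mix N (fun M => pr M fun n => dsg T n = -1) ≤
      (1 - ∏ p ∈ T, (1 - 1 / (p:ℝ)) ^ 2) / 2 + ∑ p ∈ T, 1 / (p:ℝ) ^ 2 := by
  classical
  have hW := WW_pos hN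
  rw [mix_pr, div_le_iff₀ hW, Finset.prod_pow]
  have h1 := neg_le hT N
  have h2 : ∑ n ∈ (Icc 1 N).filter (fun n => dsg T n = -1), hs (N / n) / n ≤
      ∑ n ∈ (Icc 1 N).filter (fun n => csg T n = -1), hs (N / n) / n +
      ∑ p ∈ T, ∑ n ∈ (Icc 1 N).filter (fun n => p ^ 2 ∣ n), hs (N / n) / n := by
    have h3 : (Icc 1 N).filter (fun n => dsg T n = -1) ⊆
        (Icc 1 N).filter (fun n => csg T n = -1) ∪
          T.biUnion (fun p => (Icc 1 N).filter (fun n => p ^ 2 ∣ n)) := by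
      intro n hn
      obtain ⟨hn1, hn2⟩ := mem_filter.1 hn
      have hn0 : n ≠ 0 := by
        have := (mem_Icc.1 hn1).1
        omega
      by_cases h : ∀ p ∈ T, ¬ p ^ 2 ∣ n
      · exact Finset.mem_union_left _ (mem_filter.2 ⟨hn1, csg_of_squarefree hT hn0 h hn2⟩)
      · push Not at h
        obtain ⟨p, hp, hpn⟩ := h
        exact Finset.mem_union_right _ (Finset.mem_biUnion.2 ⟨p, hp, mem_filter.2 ⟨hn1, hpn⟩⟩)
    refine (Finset.sum_le_sum_of_subset_of_nonneg h3 fun n _ _ => w_nonneg N n).trans ?_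
    have h4 : ∀ A B : Finset ℕ, ∑ n ∈ A ∪ B, hs (N / n) / n ≤
        ∑ n ∈ A, hs (N / n) / n + ∑ n ∈ B, hs (N / n) / n := by
      intro A B
      rw [← Finset.sum_union_inter]
      have : 0 ≤ ∑ n ∈ A ∩ B, hs (N / n) / n := Finset.sum_nonneg fun n _ => w_nonneg N n
      linarith
    refine (h4 _ _).trans (add_le_add_right ?_ _)
    have h5 : ∀ U : Finset ℕ, ∑ n ∈ U.biUnion (fun p => (Icc 1 N).filter (fun n => p ^ 2 ∣ n)),
        hs (N / n) / n ≤ ∑ p ∈ U, ∑ n ∈ (Icc 1 N).filter (fun n => p ^ 2 ∣ n), hs (N / n) / n := by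
      intro U
      induction U using Finset.induction_on with
      | empty => rw [Finset.biUnion_empty, Finset.sum_empty, Finset.sum_empty]
      | insert q U hq ih =>
        rw [Finset.biUnion_insert, Finset.sum_insert hq]
        exact (h4 _ _).trans (add_le_add_right ih _)
    exact h5 T
  have h3 : ∑ p ∈ T, ∑ n ∈ (Icc 1 N).filter (fun n => p ^ 2 ∣ n), hs (N / n) / n ≤
      (∑ p ∈ T, 1 / (p:ℝ) ^ 2) * WW N := by
    rw [Finset.sum_mul]
    refine Finset.sum_le_sum fun p hp => ?_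
    refine (mult_le (Nat.pos_of_ne_zero (pow_ne_zero 2 (hT p hp).ne_zero)) N).trans (le_of_eq ?_)
    rw [Nat.cast_pow]
    ring
  rw [add_mul]
  calc _ = ∑ n ∈ (Icc 1 N).filter (fun n => dsg T n = -1), hs (N / n) / n := by
        refine Finset.sum_congr ?_ fun _ _ => rfl
        ext n
        simp only [mem_filter]
    _ ≤ _ := h2
    _ ≤ _ := add_le_add h1 h3

end Pool.Agent.Lib.P4a7640E
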