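import Mathlib
import Pool.Agent.Lib.P4a7640E.MixD

/-!
# The total weight, small scales

Module P4a7640E.MixS (1 h). Imports are black boxes.

`log x ≤ log (⌊x⌋ + 1) ≤ hs ⌊x⌋` and `hs N ≤ 1 + log N` (`harmonic`: `log_add_one_le_harmonic`,
`harmonic_le_one_add_log`; `hs N = (harmonic N : ℝ)`). So
`WW N ≥ ∑ m ≤ N, log (N / m) / m = log N * hs N - ∑ m ≤ N, (log m) / m` and
`∑ m ≤ N, (log m) / m ≤ (log N)^2 / 2 + 3` (compare with `((log m)^2 - (log (m-1))^2) / 2`, `m ≥ 2`:
`x y ≤ ..`; or: `(log m)/m ≤ ((log (m+1))^2 - (log m)^2)/2 + (log m)/m^2`, or by an integral;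
the constant is irrelevant). Hence `WW N ≥ (log N)^2 / 2 - 3 - ..`.
`half_le`: `(hs N)^2 ≤ (1 + log N)^2` and `(1/2 - ε) (1 + log N)^2 ≤ (log N)^2 / 2 - C` eventually.
`mix_small`: the `m` with `(N / m)^(2^b) < N` have `hs (N / m) ≤ 1 + log N / 2^b`, so the numerator is at
most `(1 + log N / 2^b) * (1 + log N)`, and `WW N ≥ (log N)^2 / 2 - C`; the ratio tends to `2 / 2^b`.
-/

open Finset Filter Topology
open Pool.Agent.Lib.P4a7640

namespace Pool.Agent.Lib.P4a7640E

namespace MixSAux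

theorem hs_eq (N : ℕ) : hs N = ((harmonic N : ℚ) : ℝ) := by
  unfold hs
  rw [harmonic_eq_sum_Icc]
  push_cast
  exact sum_congr rfl fun n _ => one_div _

theorem log_le_hs (N : ℕ) : Real.log ((N : ℝ) + 1) ≤ hs N := by
  rw [hs_eq]
  have := log_add_one_le_harmonic N
  push_cast at this
  exact this

theorem hs_le (N : ℕ) : hs N ≤ 1 + Real.log N := by
  rw [hs_eq]
  exact harmonic_le_one_add_log N

theorem sumlog : ∀ N : ℕ, 1 ≤ N → ∑ m ∈ Icc 1 N, Real.log m / m ≤
    Real.log N ^ 2 / 2 + (1 - 1 / (N : ℝ)) / 2 := by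
  intro N hN
  induction N, hN using Nat.le_induction with
  | base => simp
  | succ N hN ih =>
    rw [Finset.sum_Icc_succ_top (by omega)]
    have hN0 : (0 : ℝ) < N := by exact_mod_cast hN
    have hN1 : (0 : ℝ) < (N : ℝ) + 1 := by positivity
    push_cast
    set a := Real.log N with ha
    set c := Real.log ((N : ℝ) + 1) with hc
    have ha0 : 0 ≤ a := Real.log_nonneg (by exact_mod_cast hN)
    have hac : a ≤ c := Real.log_le_log hN0 (by linarith)
    have h1 : 1 / ((N : ℝ) + 1) ≤ c - a := by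
      have h2 : Real.log ((N : ℝ) / (N + 1)) ≤ (N : ℝ) / (N + 1) - 1 :=
        Real.log_le_sub_one_of_pos (by positivity)
      rw [Real.log_div hN0.ne' hN1.ne'] at h2
      have h3 : (N : ℝ) / (N + 1) - 1 = -(1 / ((N : ℝ) + 1)) := by field_simp; ring
      rw [h3] at h2
      linarith
    have h2 : c - a ≤ 1 / N := by
      have h2 : Real.log (((N : ℝ) + 1) / N) ≤ ((N : ℝ) + 1) / N - 1 :=
        Real.log_le_sub_one_of_pos (by positivity)
      rw [Real.log_div hN1.ne' hN0.ne'] at h2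
      have h3 : ((N : ℝ) + 1) / N - 1 = 1 / N := by field_simp; ring
      rw [h3] at h2
      exact h2
    -- (log m)/m
    have h4 : (1 / ((N : ℝ) + 1)) * (c + a) ≤ c ^ 2 - a ^ 2 := by
      have : c ^ 2 - a ^ 2 = (c - a) * (c + a) := by ring
      rw [this]
      exact mul_le_mul_of_nonneg_right h1 (by linarith)
    have h5 : (1 / ((N : ℝ) + 1)) * (2 * c - 1 / N) ≤ (1 / ((N : ℝ) + 1)) * (c + a) :=
      mul_le_mul_of_nonneg_left (by linarith) (by positivity)
    have h6 : (1 / ((N : ℝ) + 1)) * (1 / N) = 1 / (N : ℝ) - 1 / (N + 1) := by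
      field_simp
      ring
    have h7 : c / ((N : ℝ) + 1) = (1 / ((N : ℝ) + 1)) * c := by ring
    have h8 : (1 / ((N : ℝ) + 1)) * (2 * c - 1 / N) =
        2 * ((1 / ((N : ℝ) + 1)) * c) - (1 / (N : ℝ) - 1 / (N + 1)) := by
      rw [← h6]; ring
    rw [h7]
    linarith

theorem WW_lower {N : ℕ} (hN : 1 ≤ N) : Real.log N ^ 2 / 2 - 1 / 2 ≤ WW N := by
  have hN0 : (0 : ℝ) < N := by exact_mod_cast hN
  have hL0 : 0 ≤ Real.log N := Real.log_nonneg (by exact_mod_cast hN)
  have h1 : ∑ m ∈ Icc 1 N, (Real.log N - Real.log m) / m ≤ WW N := by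
    refine sum_le_sum fun m hm => ?_
    obtain ⟨k1, k2⟩ := mem_Icc.1 hm
    have hm0 : (0 : ℝ) < m := by exact_mod_cast k1
    refine div_le_div_of_nonneg_right ?_ hm0.le
    rw [← Real.log_div hN0.ne' hm0.ne']
    refine le_trans (Real.log_le_log (by positivity) ?_) (log_le_hs (N / m))
    have h2 : N < m * (N / m + 1) := Nat.lt_mul_div_succ N (by omega)
    have h3 : (N : ℝ) < m * (((N / m : ℕ) : ℝ) + 1) := by exact_mod_cast h2
    rw [div_le_iff₀ hm0]
    linarith
  have h2 : ∑ m ∈ Icc 1 N, (Real.log N - Real.log m) / m =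
      Real.log N * hs N - ∑ m ∈ Icc 1 N, Real.log m / m := by
    unfold hs
    rw [mul_sum, ← sum_sub_distrib]
    exact sum_congr rfl fun m _ => by ring
  have h3 := sumlog N hN
  have h4 : Real.log N ≤ hs N :=
    (Real.log_le_log hN0 (by linarith)).trans (log_le_hs N)
  have h5 : Real.log N * Real.log N ≤ Real.log N * hs N := mul_le_mul_of_nonneg_left h4 hL0
  have h6 : (0 : ℝ) ≤ 1 / N := by positivity
  rw [h2] at h1
  nlinarith

theorem ev_log (A : ℝ) : ∀ᶠ N : ℕ in atTop, 1 ≤ N ∧ A ≤ Real.log N := by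
  have h := Real.tendsto_log_atTop.comp (tendsto_natCast_atTop_atTop (R := ℝ))
  exact (eventually_ge_atTop 1).and (h.eventually_ge_atTop A)

end MixSAux

open MixSAux

theorem half_le {ε : ℝ} (hε : 0 < ε) : ∀ᶠ N : ℕ in atTop, (1 / 2 - ε) * hs N ^ 2 ≤ WW N := by
  filter_upwards [ev_log (max 1 (2 / ε))] with N hN
  obtain ⟨hN1, hL⟩ := hN
  have hL1 : 1 ≤ Real.log N := (le_max_left _ _).trans hL
  have hL2 : 2 / ε ≤ Real.log N := (le_max_right _ _).trans hL
  rcases le_or_gt (1 / 2 - ε) 0 with h | h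
  · exact (mul_nonpos_of_nonpos_of_nonneg h (sq_nonneg _)).trans (WW_nonneg N)
  · have h1 : hs N ^ 2 ≤ (1 + Real.log N) ^ 2 := pow_le_pow_left₀ (hs_nonneg N) (hs_le N) 2
    have h2 := WW_lower hN1
    have h3 : 2 ≤ ε * Real.log N := by
      rw [div_le_iff₀ hε] at hL2; linarith
    have h4 : 2 * Real.log N ≤ ε * Real.log N * Real.log N :=
      mul_le_mul_of_nonneg_right h3 (by linarith)
    have h5 : (1 / 2 - ε) * hs N ^ 2 ≤ (1 / 2 - ε) * (1 + Real.log N) ^ 2 :=
      mul_le_mul_of_nonneg_left h1 h.le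
    have h6 : 0 ≤ ε * Real.log N := by linarith
    nlinarith

open Classical in
theorem mix_small (b : ℕ) : ∀ᶠ N : ℕ in atTop,
    mix N (fun M => if N ≤ M ^ (2 ^ b) then 0 else 1) ≤ 4 * (1 / 2) ^ b := by
  set β : ℝ := (1 / 2) ^ b with hβ
  have hβ0 : 0 < β := by positivity
  have hβ1 : β ≤ 1 := pow_le_one₀ (by norm_num) (by norm_num)
  have hβ2 : β * 2 ^ b = 1 := by
    rw [hβ, ← mul_pow]; norm_num
  filter_upwards [ev_log (max 1 (8 / β))] with N hN
  obtain ⟨hN1, hL⟩ := hN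
  set L := Real.log N with hLdef
  have hL1 : 1 ≤ L := (le_max_left _ _).trans hL
  have hL2 : 8 / β ≤ L := (le_max_right _ _).trans hL
  have hWL := WW_lower hN1
  rw [← hLdef] at hWL
  have hW0 := WW_pos hN1
  have hnum : ∑ m ∈ Icc 1 N, hs (N / m) / m *
      (if N ≤ (N / m) ^ (2 ^ b) then (0 : ℝ) else 1) ≤ (1 + β * L) * hs N := by
    unfold hs
    rw [mul_sum]
    refine sum_le_sum fun m hm => ?_
    obtain ⟨k1, k2⟩ := mem_Icc.1 hm
    have hm0 : (0 : ℝ) < m := by exact_mod_cast k1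
    split_ifs with hc
    · rw [mul_zero]; positivity
    · rw [mul_one, mul_one_div]
      refine div_le_div_of_nonneg_right ?_ hm0.le
      have k3 : 1 ≤ N / m := (Nat.one_le_div_iff (by omega)).2 k2
      have k3' : (0 : ℝ) < ((N / m : ℕ) : ℝ) := by exact_mod_cast k3
      have h1 : ((N / m : ℕ) : ℝ) ^ (2 ^ b) ≤ N := by exact_mod_cast (not_le.1 hc).le
      have h2 := Real.log_le_log (by positivity) h1
      rw [Real.log_pow] at h2
      push_cast at h2
      have h3 : Real.log ((N / m : ℕ) : ℝ) ≤ β * L := by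
        have h4 := mul_le_mul_of_nonneg_left h2 hβ0.le
        rw [← mul_assoc, hβ2, one_mul] at h4
        exact h4
      have h5 := hs_le (N / m)
      unfold hs at h5
      linarith
  have h7 : (8 : ℝ) ≤ β * L := by
    rw [div_le_iff₀ hβ0] at hL2; linarith
  have h8 : 8 * L ≤ β * L * L := mul_le_mul_of_nonneg_right h7 (by linarith)
  unfold mix
  rw [div_le_iff₀ hW0]
  refine hnum.trans ?_
  have h9 : (1 + β * L) * hs N ≤ (1 + β * L) * (1 + L) :=
    mul_le_mul_of_nonneg_left (hs_le N) (by linarith)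
  have h10 : 4 * β * (L ^ 2 / 2 - 1 / 2) ≤ 4 * β * WW N :=
    mul_le_mul_of_nonneg_left hWL (by positivity)
  nlinarith

end Pool.Agent.Lib.P4a7640E
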