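import Mathlib
import Pool.Agent.Lib.P4a7640E.MixS

/-!
# The entropy at the scale `N` and at the scales `N / m`

Module P4a7640E.EntM (1.2 h). Imports are black boxes.

Let `θ = 1/2 - ε` (if `θ ≤ 0` the claim follows from `Ent_nonneg`, `mix_nonneg`), `N ≥ 1` with
`θ * hs N ^ 2 ≤ WW N` (`half_le`). For `a : α` put `p a = pr N (X = a)`, `w a = mix N (pr · (X = a))`. By
`mix_pr`, `WW N * w a = ∑ n, X n = a, hs (N/n)/n ≤ hs N * ∑ n, X n = a, 1/n = hs N ^ 2 * p a`, so
`θ * w a ≤ p a` (`w a ≥ 0`). `∑ p a = 1` (`pr_sum`) and `∑ w a = mix N 1 = 1` (`mix_sum`, `pr_sum` for the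
scales `M ≥ 1`: `mix_mono` in both directions, `mix_const`). `q a = (p a - θ w a)/(1 - θ) ≥ 0`,
`∑ q a = 1`, so `q a ≤ 1`. Concavity of `negMulLog` on `[0, ∞)` (`Real.concaveOn_negMulLog`):
`negMulLog (p a) ≥ θ negMulLog (w a) + (1 - θ) negMulLog (q a) ≥ θ negMulLog (w a)`, and
`negMulLog (w a) ≥ mix N (negMulLog (pr · (X = a)))` (`mix_jensen`). Sum over `a` (`mix_sum`).
-/

open Finset Filter Topology
open Pool.Agent.Lib.P4a7640

namespace Pool.Agent.Lib.P4a7640E

theorem ent_mix {α : Type} [Fintype α] {ε : ℝ} (hε : 0 < ε) :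
    ∀ᶠ N : ℕ in atTop, ∀ X : ℕ → α, (1 / 2 - ε) * mix N (fun M => Ent M X) ≤ Ent N X := by
  classical
  filter_upwards [half_le hε, eventually_ge_atTop 1] with N hN hN1 X
  set θ : ℝ := 1 / 2 - ε with hθ
  have hmixE : 0 ≤ mix N (fun M => Ent M X) := mix_nonneg fun M => Ent_nonneg M X
  rcases le_or_gt θ 0 with h0 | h0
  · exact (mul_nonpos_of_nonpos_of_nonneg h0 hmixE).trans (Ent_nonneg N X)
  have hθ1 : θ < 1 := by rw [hθ]; linarith
  have hW := WW_pos hN1
  have hh := hs_pos hN1
  set p : α → ℝ := fun a => pr N (fun n => X n = a) with hp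
  set w : α → ℝ := fun a => mix N (fun M => pr M (fun n => X n = a)) with hw
  have hp0 : ∀ a, 0 ≤ p a := fun a => pr_nonneg _ _
  have hw0 : ∀ a, 0 ≤ w a := fun a => mix_nonneg fun M => pr_nonneg _ _
  have hwp : ∀ a, θ * w a ≤ p a := by
    intro a
    have h1 : w a = (∑ n ∈ (Icc 1 N).filter (fun n => X n = a), hs (N / n) / n) / WW N := by
      have := mix_pr N (fun n => X n = a)
      convert this
    have h3 : p a = (∑ n ∈ (Icc 1 N).filter (fun n => X n = a), (1:ℝ) / n) / hs N := by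
      simp only [hp, pr, hs]
    have h2 : ∑ n ∈ (Icc 1 N).filter (fun n => X n = a), hs (N / n) / n ≤
        hs N * ∑ n ∈ (Icc 1 N).filter (fun n => X n = a), (1:ℝ) / n := by
      rw [mul_sum]
      refine sum_le_sum fun n hn => ?_
      rw [mul_one_div]
      exact div_le_div_of_nonneg_right (hs_mono (Nat.div_le_self N n)) (Nat.cast_nonneg n)
    rw [h1, h3, le_div_iff₀ hh]
    set S := ∑ n ∈ (Icc 1 N).filter (fun n => X n = a), hs (N / n) / n with hS
    set T := ∑ n ∈ (Icc 1 N).filter (fun n => X n = a), (1:ℝ) / n with hT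
    have hT0 : 0 ≤ T := sum_nonneg fun n _ => by positivity
    have e1 : θ * (S / WW N) * hs N = θ * hs N * S / WW N := by ring
    rw [e1, div_le_iff₀ hW]
    have e2 : θ * hs N * S ≤ θ * hs N * (hs N * T) :=
      mul_le_mul_of_nonneg_left h2 (by positivity)
    have e3 : θ * hs N * (hs N * T) = (θ * hs N ^ 2) * T := by ring
    have e4 : (θ * hs N ^ 2) * T ≤ WW N * T := mul_le_mul_of_nonneg_right hN hT0
    linarith
  have hps : ∑ a, p a = 1 := pr_sum hN1 X
  have hws : ∑ a, w a = 1 := by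
    have h1 : ∑ a, w a = mix N (fun M => ∑ a, pr M (fun n => X n = a)) :=
      (mix_sum N univ (fun a M => pr M (fun n => X n = a))).symm
    rw [h1]
    refine le_antisymm ?_ ?_
    · rw [← mix_const hN1 1]
      exact mix_mono fun M hM _ => (pr_sum hM X).le
    · rw [← mix_const hN1 1]
      exact mix_mono fun M hM _ => (pr_sum hM X).ge
  set q : α → ℝ := fun a => (p a - θ * w a) / (1 - θ) with hq
  have hq0 : ∀ a, 0 ≤ q a := fun a => div_nonneg (by linarith [hwp a]) (by linarith)
  have hqs : ∑ a, q a = 1 := by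
    rw [hq, ← sum_div, sum_sub_distrib, ← mul_sum, hps, hws, mul_one]
    exact div_self (by linarith)
  have hq1 : ∀ a, q a ≤ 1 := by
    intro a
    rw [← hqs]
    exact single_le_sum (fun b _ => hq0 b) (mem_univ a)
  have hmain : ∀ a, θ * mix N (fun M => Real.negMulLog (pr M (fun n => X n = a))) ≤
      Real.negMulLog (p a) := by
    intro a
    have hb : 0 ≤ 1 - θ := by linarith
    have h1 := Real.concaveOn_negMulLog.2 (Set.mem_Ici.2 (hw0 a)) (Set.mem_Ici.2 (hq0 a))
      h0.le hb (by ring)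
    have h2 : θ • w a + (1 - θ) • q a = p a := by
      rw [smul_eq_mul, smul_eq_mul, hq]
      have : (1 - θ) ≠ 0 := by linarith
      field_simp
      ring
    rw [h2, smul_eq_mul, smul_eq_mul] at h1
    have h3 : 0 ≤ Real.negMulLog (q a) := Real.negMulLog_nonneg (hq0 a) (hq1 a)
    have h4 : mix N (fun M => Real.negMulLog (pr M (fun n => X n = a))) ≤ Real.negMulLog (w a) :=
      mix_jensen hN1 Real.concaveOn_negMulLog (φ := fun M => pr M (fun n => X n = a))
        (fun M => pr_nonneg _ _)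
    have h5 : θ * mix N (fun M => Real.negMulLog (pr M (fun n => X n = a))) ≤
        θ * Real.negMulLog (w a) := mul_le_mul_of_nonneg_left h4 h0.le
    have h6 : 0 ≤ (1 - θ) * Real.negMulLog (q a) := mul_nonneg (by linarith) h3
    linarith
  have hfin : mix N (fun M => Ent M X) =
      ∑ a, mix N (fun M => Real.negMulLog (pr M (fun n => X n = a))) :=
    mix_sum N univ (fun a M => Real.negMulLog (pr M (fun n => X n = a)))
  rw [hfin, mul_sum]
  exact sum_le_sum fun a _ => hmain a

end Pool.Agent.Lib.P4a7640E
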