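import Mathlib
import Pool.Agent.Lib.P4a7640E.Defs

/-!
# Real characters and aperiodic products

Module P4a7640E.Far (1.3 h).

`gch χ p` is the sign of the real character `χ` (`1` where `χ` vanishes); `cch χ` is `χ` as a complex
character. `sgC_gch`: for a prime `p ∤ q`, `p` is a unit mod `q`, so `χ p` is a unit of `ℤ`
(`IsUnit.map`, `Int.isUnit_iff`), `± 1`.
`topMass_le`: for `N` large (`N ≥ q^(2^c)`, and `q ≥ 1`) every `p ∈ TT c u (gch χ) N` does not divide `q`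
(`p ≤ q` would give `p^(2^c) ≤ q^(2^c) ≤ N`), so `χ p = gch χ p ≠ u p`.
`far`: let `Q = ∏ i ∈ A, q i` and `ψ = ∏ i ∈ A, changeLevel (cch (χ i))` (level `Q`,
`DirichletCharacter.changeLevel`). By `hap`, `DD (∏ u i) ψ 0 N → ∞`. For a prime `p ∤ Q`:
`ψ p = ∏ i ∈ A, sgC (gch (χ i) p)` is the sign `∏ gch`, so the summand
`(1 - Re (∏ u i p * conj (ψ p)))/p` is `0` if `∏ u i p = ∏ gch (χ i) p` and `2/p` otherwise; for
`p ∣ Q` it is `≤ 2/p ≤ 2` and `p ≤ Q`. So `DD ≤ 2 * PS (..) 0 N + 2 * Q`, and `PS → ∞`.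
-/

open Finset Filter Topology
open Pool.Agent.Lib.P4a7640 Pool.Agent.Lib.P4a7640D Pool.Agent.Lib.P4a7640T

namespace Pool.Agent.Lib.P4a7640E

/-- the sign of a real character -/
def gch {q : ℕ} (χ : DirichletCharacter ℤ q) (n : ℕ) : ℤˣ := if χ (n : ZMod q) = -1 then -1 else 1

/-- a real character as a complex character -/
noncomputable def cch {q : ℕ} (χ : DirichletCharacter ℤ q) : DirichletCharacter ℂ q :=
  χ.ringHomComp (Int.castRingHom ℂ)

namespace FarAux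

theorem gch_int {q : ℕ} (χ : DirichletCharacter ℤ q) {p : ℕ} (hp : p.Prime) (hpq : ¬ p ∣ q) :
    ((gch χ p : ℤˣ) : ℤ) = χ (p : ZMod q) := by
  have hu : IsUnit ((p : ℕ) : ZMod q) := ZMod.isUnit_prime_of_not_dvd hp hpq
  have hu2 : IsUnit (χ (p : ZMod q)) := hu.map χ
  rcases Int.isUnit_iff.1 hu2 with h | h
  · unfold gch
    rw [h, if_neg (by norm_num)]
    rfl
  · unfold gch
    rw [h, if_pos rfl]
    rfl

end FarAux

open FarAux

theorem sgC_gch {q : ℕ} (χ : DirichletCharacter ℤ q) {p : ℕ} (hp : p.Prime) (hpq : ¬ p ∣ q) :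
    sgC (gch χ p) = cch χ (p : ZMod q) := by
  unfold sgC cch
  rw [gch_int χ hp hpq]
  rfl

theorem topMass_le {q : ℕ} (hq : 0 < q) (χ : DirichletCharacter ℤ q) (u : ℕ → ℤˣ) (c : ℕ) :
    ∀ᶠ N : ℕ in atTop, ∑ p ∈ TT c u (gch χ) N, (1:ℝ) / p ≤ topMass (2 ^ c) u χ N := by
  classical
  filter_upwards [eventually_ge_atTop (q ^ (2 ^ c))] with N hN
  unfold topMass
  refine Finset.sum_le_sum_of_subset_of_nonneg ?_ (fun _ _ _ => by positivity)
  intro p hp
  unfold TT at hp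
  rw [mem_filter] at hp ⊢
  obtain ⟨h1, h2, h3, h4⟩ := hp
  refine ⟨h1, h2, h3, ?_⟩
  have hqp : q < p := by
    by_contra hcon
    have h5 : p ^ (2 ^ c) ≤ q ^ (2 ^ c) := Nat.pow_le_pow_left (not_lt.1 hcon) _
    omega
  have hpq : ¬ p ∣ q := fun hd => absurd (Nat.le_of_dvd hq hd) (not_le.2 hqp)
  rw [← gch_int χ h2 hpq]
  intro h6
  exact h4 (Units.ext h6)

namespace FarAux

theorem changeLevel_prime {q Q : ℕ} (h : q ∣ Q) (χ : DirichletCharacter ℂ q) {p : ℕ}
    (hp : p.Prime) (hpQ : ¬ p ∣ Q) :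
    DirichletCharacter.changeLevel h χ (p : ZMod Q) = χ (p : ZMod q) := by
  have hu : IsUnit ((p : ℕ) : ZMod Q) := ZMod.isUnit_prime_of_not_dvd hp hpQ
  obtain ⟨a, ha⟩ := hu
  rw [← ha, DirichletCharacter.changeLevel_eq_cast_of_dvd, ha]
  congr 1
  exact ZMod.cast_natCast h p

theorem exists_psi {m : ℕ} {q : Fin m → ℕ} (hq : ∀ i, 0 < q i)
    (χ : ∀ i, DirichletCharacter ℤ (q i)) (A : Finset (Fin m)) :
    ∃ Q : ℕ, 0 < Q ∧ ∃ ψ : DirichletCharacter ℂ Q, ∀ p : ℕ, p.Prime → ¬ p ∣ Q →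
      ψ (p : ZMod Q) = sgC (∏ i ∈ A, gch (χ i) p) := by
  classical
  induction A using Finset.induction_on with
  | empty =>
    refine ⟨1, one_pos, 1, fun p hp hpQ => ?_⟩
    have hu : IsUnit ((p : ℕ) : ZMod 1) := ZMod.isUnit_prime_of_not_dvd hp hpQ
    rw [MulChar.one_apply hu, Finset.prod_empty]
    simp [sgC]
  | insert a s ha ih =>
    obtain ⟨Q, hQ, ψ, hψ⟩ := ih
    have h1 : q a ∣ q a * Q := dvd_mul_right _ _
    have h2 : Q ∣ q a * Q := dvd_mul_left _ _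
    refine ⟨q a * Q, Nat.mul_pos (hq a) hQ,
      DirichletCharacter.changeLevel h1 (cch (χ a)) * DirichletCharacter.changeLevel h2 ψ,
      fun p hp hpQ => ?_⟩
    have hpa : ¬ p ∣ q a := fun h => hpQ (h.trans h1)
    have hpQ' : ¬ p ∣ Q := fun h => hpQ (h.trans h2)
    rw [MulChar.mul_apply, changeLevel_prime h1 _ hp hpQ, changeLevel_prime h2 _ hp hpQ,
      hψ p hp hpQ', ← sgC_gch (χ a) hp hpa, Finset.prod_insert ha, sgC_mul]

theorem term_le {Q : ℕ} (hQ : 0 < Q) (ψ : DirichletCharacter ℂ Q) (a g : ℤˣ) {p : ℕ} (hp : p.Prime)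
    (hψ : ¬ p ∣ Q → ψ (p : ZMod Q) = sgC g) [Decidable (a ≠ g)] [Decidable (p ∣ Q)] :
    (1 - (((a : ℤ) : ℂ) * (starRingEnd ℂ) (ψ (p : ZMod Q))).re) / (p : ℝ) ≤
      2 * (if a ≠ g then 1 / (p : ℝ) else 0) + (if p ∣ Q then 2 else 0) := by
  have hp0 : (0 : ℝ) < p := by exact_mod_cast hp.pos
  have hp1 : (1 : ℝ) ≤ p := by exact_mod_cast hp.one_le
  by_cases hd : p ∣ Q
  · rw [if_pos hd]
    have h1 : (1 - (((a : ℤ) : ℂ) * (starRingEnd ℂ) (ψ (p : ZMod Q))).re) ≤ 2 := by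
      have h2 : |(((a : ℤ) : ℂ) * (starRingEnd ℂ) (ψ (p : ZMod Q))).re| ≤ 1 := by
        refine (Complex.abs_re_le_norm _).trans ?_
        rw [norm_mul, RCLike.norm_conj]
        have h3 : ‖((a : ℤ) : ℂ)‖ = 1 := by
          rcases Int.units_eq_one_or a with rfl | rfl <;> simp
        rw [h3, one_mul]
        exact DirichletCharacter.norm_le_one ψ _
      have := (abs_le.1 h2).1
      linarith
    have h4 : (1 - (((a : ℤ) : ℂ) * (starRingEnd ℂ) (ψ (p : ZMod Q))).re) / (p : ℝ) ≤ 2 := by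
      rw [div_le_iff₀ hp0]
      nlinarith
    have h5 : 0 ≤ 2 * (if a ≠ g then 1 / (p : ℝ) else 0) := by
      split_ifs <;> positivity
    linarith
  · rw [if_neg hd, hψ hd]
    have h1 : ((a : ℤ) : ℂ) * (starRingEnd ℂ) (sgC g) = sgC (a * g) := by
      rw [sgC_mul]
      unfold sgC
      rw [map_intCast]
    rw [h1]
    by_cases hag : a ≠ g
    · rw [if_pos hag]
      have h2 : sgC (a * g) = -1 := by
        rcases Int.units_eq_one_or a with rfl | rfl <;>
          rcases Int.units_eq_one_or g with rfl | rfl <;> simp_all [sgC]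
      rw [h2, Complex.neg_re, Complex.one_re, add_zero]
      refine le_of_eq ?_
      ring
    · rw [if_neg hag]
      have h2 : sgC (a * g) = 1 := by
        rw [not_not] at hag
        rw [hag, Int.units_mul_self]
        simp [sgC]
      rw [h2]
      simp

end FarAux

theorem far {m : ℕ} {u : Fin m → ℕ → ℤˣ} {q : Fin m → ℕ} (hq : ∀ i, 0 < q i)
    (χ : ∀ i, DirichletCharacter ℤ (q i)) (A : Finset (Fin m))
    (hap : Aperiodic fun n => ∏ i ∈ A, u i n) :
    Tendsto (fun N => PS (fun p => ∏ i ∈ A, u i p ≠ ∏ i ∈ A, gch (χ i) p) 0 N) atTop atTop := by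
  classical
  obtain ⟨Q, hQ, ψ, hψ⟩ := exists_psi hq χ A
  have hD := hap Q hQ ψ
  have hle : ∀ N : ℕ, DD (fun n => ∏ i ∈ A, u i n) ψ 0 N ≤
      2 * PS (fun p => ∏ i ∈ A, u i p ≠ ∏ i ∈ A, gch (χ i) p) 0 N + 2 * Q := by
    intro N
    unfold DD PS
    have h1 : ∀ p ∈ (Finset.Ioc 0 N).filter Nat.Prime,
        (1 - ((((∏ i ∈ A, u i p : ℤˣ) : ℤ) : ℂ) * (starRingEnd ℂ) (ψ (p : ZMod Q))).re) / (p : ℝ) ≤
        2 * (if (∏ i ∈ A, u i p ≠ ∏ i ∈ A, gch (χ i) p) then 1 / (p : ℝ) else 0) +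
          (if p ∣ Q then 2 else 0) := by
      intro p hp
      have hpp : p.Prime := (mem_filter.1 hp).2
      exact term_le hQ ψ _ _ hpp (hψ p hpp)
    refine (Finset.sum_le_sum h1).trans ?_
    rw [Finset.sum_add_distrib, ← Finset.mul_sum]
    refine add_le_add (le_of_eq ?_) ?_
    · congr 1
      rw [← Finset.sum_filter, Finset.filter_filter]
      refine Finset.sum_congr ?_ (fun _ _ => rfl)
      ext p
      simp only [mem_filter]
    · rw [← Finset.sum_filter, Finset.sum_const, nsmul_eq_mul]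
      have h2 : (((Finset.Ioc 0 N).filter Nat.Prime).filter (fun p => p ∣ Q)).card ≤ Q := by
        have hsub : ((Finset.Ioc 0 N).filter Nat.Prime).filter (fun p => p ∣ Q) ⊆ Finset.Ioc 0 Q := by
          intro p hp
          rw [mem_filter, mem_filter, Finset.mem_Ioc] at hp
          rw [Finset.mem_Ioc]
          exact ⟨hp.1.1.1, Nat.le_of_dvd hQ hp.2⟩
        have := Finset.card_le_card hsub
        rwa [Nat.card_Ioc, Nat.sub_zero] at this
      have h3 : ((((Finset.Ioc 0 N).filter Nat.Prime).filter (fun p => p ∣ Q)).card : ℝ) ≤ Q := by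
        exact_mod_cast h2
      linarith
  have h4 : Tendsto (fun N => (DD (fun n => ∏ i ∈ A, u i n) ψ 0 N - 2 * Q) / 2) atTop atTop := by
    refine Tendsto.atTop_div_const (by norm_num) ?_
    exact tendsto_atTop_add_const_right _ _ hD
  refine tendsto_atTop_mono (fun N => ?_) h4
  have := hle N
  linarith

end Pool.Agent.Lib.P4a7640E
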