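import Mathlib
import Pool.Agent.Lib.P4a7640.Twist
import Pool.Agent.Lib.P4a7640E.EntA

/-!
# The law of a block in a residue class from the correlations

Module P4a7640E.LawQ (0.7 h). Imports are black boxes.

Adapt the proof of `law_of_corr` (file Law.lean, landed): the index type `Fin m` is replaced by `ι`
and the indicator is multiplied by `if n ≡ a [MOD Q] then 1 else 0`:
`2^(card ι * L) * 1_{∀ i j, v i (n+j) = x i j} 1_{n ≡ a} = ∑ S ⊆ univ ×ˢ range L, (∏ s ∈ S, sg (x' s)) *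
(1_{n ≡ a} * ∏ s ∈ S, sg (v s.1 (n + s.2)))`. The term `S = ∅` is `2^(-card ι * L) * pr (n ≡ a)`, which is
within `2^(-card ι * L) * ε` of `2^(-card ι * L) / Q` by `h0`; each of the other `2^(card ι * L) - 1`
terms is at most `2^(-card ι * L) * ε` (`|LA| ≤ ε` and `LA 1 N ≥ 1`).
-/

open Finset Filter Topology
open Pool.Agent.Lib.P4a7640

namespace Pool.Agent.Lib.P4a7640E

namespace LawQAux

theorem one_add_sg (a b : ℤˣ) : 1 + sg a * sg b = if b = a then (2 : ℝ) else 0 := by
  rcases Int.units_eq_one_or a with rfl | rfl <;> rcases Int.units_eq_one_or b with rfl | rfl <;>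
    norm_num [sg]

theorem pr_eq {N : ℕ} (hN : 2 ≤ N) (P : ℕ → Prop) [DecidablePred P] :
    pr N P = LA (fun n => if P n then 1 else 0) N / LA (fun _ => 1) N := by
  have hl : 0 < Real.log N := Real.log_pos (by exact_mod_cast hN)
  unfold pr LA
  have e : (∑ n ∈ (Icc 1 N).filter (fun n => P n), (1:ℝ) / n) =
      ∑ n ∈ Icc 1 N, (if P n then (1:ℝ) else 0) / n := by
    rw [Finset.sum_filter]
    refine Finset.sum_congr rfl fun n _ => ?_
    by_cases h : P n
    · rw [if_pos h, if_pos h]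
    · rw [if_neg h, if_neg h, zero_div]
  have e' : (∑ n ∈ @Finset.filter ℕ (fun n => P n) (fun n => Classical.propDecidable (P n)) (Icc 1 N),
      (1:ℝ) / n) = ∑ n ∈ (Icc 1 N).filter (fun n => P n), (1:ℝ) / n := by
    refine Finset.sum_congr ?_ (fun _ _ => rfl)
    ext n
    simp only [mem_filter]
  rw [e', e]
  rw [div_div_div_cancel_right₀ hl.ne']

end LawQAux

open LawQAux

theorem lawQ {ι : Type} [Fintype ι] [DecidableEq ι] {L Q : ℕ} (v : ι → ℕ → ℤˣ) {N : ℕ}
    (hN : 2 ≤ N) {ε : ℝ} (hε : 0 ≤ ε) (a : ℕ)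
    (h : ∀ S : Finset (ι × ℕ), S.Nonempty → S ⊆ univ ×ˢ range L →
      |LA (fun n => (if n ≡ a [MOD Q] then (1:ℝ) else 0) * ∏ s ∈ S, sg (v s.1 (n + s.2))) N| ≤ ε)
    (h0 : |pr N (fun n => n ≡ a [MOD Q]) - 1 / (Q:ℝ)| ≤ ε) (x : ι → Fin L → ℤˣ) :
    |pr N (fun n => (∀ (i : ι) (j : Fin L), v i (n + j) = x i j) ∧ n ≡ a [MOD Q]) -
      (1 / 2) ^ (Fintype.card ι * L) / (Q:ℝ)| ≤ ε := by
  classical
  set K : ℕ := Fintype.card ι * L with hK
  set D : ℕ → ℝ := fun n => if n ≡ a [MOD Q] then (1:ℝ) else 0 with hD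
  set T : Finset (ι × ℕ) := univ ×ˢ range L with hT
  set x' : ι × ℕ → ℤˣ := fun s => if h : s.2 < L then x s.1 ⟨s.2, h⟩ else 1 with hx'
  have hTcard : T.card = K := by
    rw [hT, card_product, card_univ, card_range]
  -- the indicator function
  have hind : ∀ n : ℕ, (2:ℝ) ^ K *
      (if (∀ (i : ι) (j : Fin L), v i (n + j) = x i j) ∧ n ≡ a [MOD Q] then 1 else 0) =
      ∑ S ∈ T.powerset, (∏ s ∈ S, sg (x' s)) * (D n * ∏ s ∈ S, sg (v s.1 (n + s.2))) := by
    intro n
    have h1 : ∑ S ∈ T.powerset, (∏ s ∈ S, sg (x' s)) * (D n * ∏ s ∈ S, sg (v s.1 (n + s.2))) =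
        D n * ∏ s ∈ T, (1 + sg (x' s) * sg (v s.1 (n + s.2))) := by
      rw [Finset.prod_one_add, Finset.mul_sum]
      refine Finset.sum_congr rfl fun S _ => ?_
      rw [Finset.prod_mul_distrib]
      ring
    rw [h1]
    by_cases hQ : n ≡ a [MOD Q]
    · have hD1 : D n = 1 := if_pos hQ
      rw [hD1, one_mul]
      by_cases hP : ∀ (i : ι) (j : Fin L), v i (n + j) = x i j
      · rw [if_pos ⟨hP, hQ⟩, mul_one, ← hTcard, ← Finset.prod_const]
        refine Finset.prod_congr rfl fun s hs => ?_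
        rw [hT, mem_product, mem_range] at hs
        rw [one_add_sg, if_pos]
        rw [hx']
        simp only
        rw [dif_pos hs.2]
        exact hP s.1 ⟨s.2, hs.2⟩
      · rw [if_neg fun h => hP h.1, mul_zero]
        obtain ⟨i, hi⟩ := not_forall.1 hP
        obtain ⟨j, hj⟩ := not_forall.1 hi
        symm
        refine Finset.prod_eq_zero (i := (i, (j : ℕ))) ?_ ?_
        · rw [hT, mem_product, mem_range]
          exact ⟨mem_univ _, j.2⟩
        · rw [one_add_sg, if_neg]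
          rw [hx']
          simp only
          rw [dif_pos j.2]
          exact hj
    · have hD0 : D n = 0 := if_neg hQ
      rw [hD0, zero_mul, if_neg fun h => hQ h.2, mul_zero]
  have hLA : (2:ℝ) ^ K *
      LA (fun n => if (∀ (i : ι) (j : Fin L), v i (n + j) = x i j) ∧ n ≡ a [MOD Q] then 1 else 0) N =
      ∑ S ∈ T.powerset, (∏ s ∈ S, sg (x' s)) *
        LA (fun n => D n * ∏ s ∈ S, sg (v s.1 (n + s.2))) N := by
    rw [← LA_const_mul]
    simp only [hind]
    rw [LA_sum]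
    refine Finset.sum_congr rfl fun S _ => ?_
    rw [LA_const_mul]
  set M : ℝ := LA (fun _ => 1) N with hM
  have hM1 : 1 ≤ M := one_le_LA_one hN
  have hM0 : 0 < M := by linarith
  set A : ℝ := LA D N with hA
  have h2 : (0:ℝ) < 2 ^ K := by positivity
  have hdiff : |(2:ℝ) ^ K *
      LA (fun n => if (∀ (i : ι) (j : Fin L), v i (n + j) = x i j) ∧ n ≡ a [MOD Q] then 1 else 0) N -
      A| ≤ (2 ^ K - 1) * ε := by
    rw [hLA]
    have hem : (∅ : Finset (ι × ℕ)) ∈ T.powerset := Finset.empty_mem_powerset T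
    rw [← Finset.add_sum_erase _ _ hem]
    simp only [Finset.prod_empty, one_mul, mul_one]
    have hA' : LA (fun n => D n) N = A := rfl
    rw [hA', add_sub_cancel_left]
    refine (Finset.abs_sum_le_sum_abs _ _).trans ?_
    have hb : ∀ S ∈ T.powerset.erase ∅,
        |(∏ s ∈ S, sg (x' s)) * LA (fun n => D n * ∏ s ∈ S, sg (v s.1 (n + s.2))) N| ≤ ε := by
      intro S hS
      rw [mem_erase, mem_powerset] at hS
      rw [abs_mul, Finset.abs_prod, Finset.prod_congr rfl fun s _ => abs_sg (x' s),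
        Finset.prod_const_one, one_mul]
      exact h S (Finset.nonempty_iff_ne_empty.2 hS.1) hS.2
    refine (Finset.sum_le_sum hb).trans ?_
    rw [Finset.sum_const, nsmul_eq_mul]
    refine mul_le_mul_of_nonneg_right ?_ hε
    rw [Finset.card_erase_of_mem hem, card_powerset, hTcard,
      Nat.cast_sub (Nat.one_le_pow K 2 (by norm_num))]
    push_cast
    exact le_rfl
  have hp0 : pr N (fun n => n ≡ a [MOD Q]) = A / M := pr_eq hN _
  rw [hp0] at h0
  rw [pr_eq hN]
  set I : ℝ := LA (fun n => if (∀ (i : ι) (j : Fin L), v i (n + j) = x i j) ∧ n ≡ a [MOD Q]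
    then 1 else 0) N with hI
  rw [← hM]
  have e1 : I / M - (1 / 2) ^ K / (Q:ℝ) =
      ((2 ^ K * I - A) / M + (A / M - 1 / Q)) / 2 ^ K := by
    rw [one_div, inv_pow]
    field_simp
    ring
  have h3 : |(2 ^ K * I - A) / M| ≤ (2 ^ K - 1) * ε := by
    rw [abs_div, abs_of_pos hM0]
    exact (div_le_self (abs_nonneg _) hM1).trans hdiff
  rw [e1, abs_div, abs_of_pos h2, div_le_iff₀ h2]
  refine (abs_add_le _ _).trans ?_
  linarith

end Pool.Agent.Lib.P4a7640E
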