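import Mathlib
import Pool.Agent.Lib.P4a7640E.Corr0
import Pool.Agent.Lib.P4a7640E.Thin

/-!
# Products that are close to a character are almost periodic

Module P4a7640E.PerW (1.5 h). Imports are black boxes.

`KK0_symmDiff`: the product over `symmDiff A B` is the product of the products (signs), so
`{prod over A ∆ B differ} ⊆ {prod over A differ} ∪ {prod over B differ}`, `PS` is monotone in `N`
(`PS` of a set that does not tend to infinity is bounded: `tendsto_atTop_atTop_of_monotone` /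
`Monotone.tendsto_atTop_atTop`), subadditive and bounded for both. `KK0_empty`: `PS` is `0`.
`per_approx`: let `B0 p = (∏ i ∈ A, u i p ≠ ∏ i ∈ A, g i p)`; `PS B0 0 N` is bounded and monotone in `N`,
so with `s = ⨆ N, PS B0 0 N` there is `y₁` with `PS B0 y N ≤ δ'` for all `N ≥ y ≥ y₁`
(`PS B0 0 N = PS B0 0 y + PS B0 y N`). Let `h n = ∏ i ∈ A, vv c (u i) (g i) N n`, multiplicative
(`Corr0.multS_prod`, `Corr0.vv_mult`), `ψ` from `Corr0.exists_prod_char`, `q' = ∏ i, q i`. For a prime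
`y < p ≤ N`, `y ≥ q'`: `p ∤ q'`, `ψ p = sgC (∏ g i p)`, and `h p = ∏ g i p` if `N < p^(2^c)`
(`Corr0.vv_top`), `h p = ∏ u i p` otherwise (`Corr0.vv_low`). So `sgC (h p) ≠ ψ p` implies `B0 p`, and
`PS (sgC (h p) ≠ ψ p) y N ≤ δ'`. `EB_le` (file P4a7640/Stable.lean): `EB .. y y N ≤ y (1/2)^y + 1/y + δ'`,
`LA_BI_le`: `LA (BI .. y y) N ≤ (1 + 3/log N) EB`. Put `ω n j = -1` if `PP h ψ y y (n + j) = -1` and `1`
otherwise; it has the period `q' * QQ y y` (`PP_periodic`, `mod_eq_of_periodic`). If `n + j` is not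
`Bad` then `PP h ψ y y (n+j) = sg (h (n+j))` (`PP_eq_of_not_bad`), so `ω n j = h (n + j)`. The exceptional
probability is at most `∑ j < L, pr (Bad (n + j)) ≤ L (pr Bad + 3 L / log N)` (`pr_shift`) and
`pr Bad ≤ LA (BI) N` (as `∑ 1/n ≥ log N`, `log_le_sum_inv`). Choose `δ' = δ/(8 L + 8)`, `y₀` with
`y (1/2)^y + 1/y ≤ δ'` for `y ≥ y₀`, and `N` large.
-/

open Finset Filter Topology
open Pool.Agent.Lib.P4a7640 Pool.Agent.Lib.P4a7640D Pool.Agent.Lib.P4a7640T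

namespace Pool.Agent.Lib.P4a7640E

namespace PerWAux

lemma PS_mono {B B' : ℕ → Prop} {y N : ℕ}
    (h : ∀ p : ℕ, p.Prime → y < p → p ≤ N → B p → B' p) : PS B y N ≤ PS B' y N := by
  classical
  unfold PS
  refine Finset.sum_le_sum_of_subset_of_nonneg ?_ (fun p _ _ => by positivity)
  intro p hp
  simp only [mem_filter, mem_Ioc] at hp ⊢
  exact ⟨hp.1, hp.2.1, h p hp.2.1 hp.1.1 hp.1.2 hp.2.2⟩

lemma PS_add {B B1 B2 : ℕ → Prop} {N : ℕ} (h : ∀ p : ℕ, B p → B1 p ∨ B2 p) :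
    PS B 0 N ≤ PS B1 0 N + PS B2 0 N := by
  classical
  unfold PS
  rw [← Finset.sum_union_inter]
  have h0 : (0:ℝ) ≤ ∑ p ∈ (Ioc 0 N).filter (fun p => p.Prime ∧ B1 p) ∩
      (Ioc 0 N).filter (fun p => p.Prime ∧ B2 p), 1 / (p:ℝ) :=
    Finset.sum_nonneg fun p _ => by positivity
  refine le_trans ?_ (le_add_of_nonneg_right h0)
  refine Finset.sum_le_sum_of_subset_of_nonneg ?_ (fun p _ _ => by positivity)
  intro p hp
  simp only [mem_union, mem_filter, mem_Ioc] at hp ⊢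
  rcases h p hp.2.2 with h1 | h1
  · exact Or.inl ⟨hp.1, hp.2.1, h1⟩
  · exact Or.inr ⟨hp.1, hp.2.1, h1⟩

lemma PS_split (B : ℕ → Prop) {y N : ℕ} (h : y ≤ N) : PS B 0 N = PS B 0 y + PS B y N := by
  classical
  unfold PS
  rw [Finset.sum_filter, Finset.sum_filter, Finset.sum_filter]
  exact (Finset.sum_Ioc_consecutive _ (Nat.zero_le y) h).symm

lemma PS_monotone (B : ℕ → Prop) : Monotone fun N => PS B 0 N := by
  intro a b hab
  show PS B 0 a ≤ PS B 0 b
  rw [PS_split B hab]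
  have : 0 ≤ PS B a b := PS_nonneg B a b
  linarith

lemma not_tendsto_iff (B : ℕ → Prop) :
    ¬ Tendsto (fun N => PS B 0 N) atTop atTop ↔ ∃ b : ℝ, ∀ N, PS B 0 N ≤ b := by
  constructor
  · intro h
    by_contra hcon
    push Not at hcon
    exact h (tendsto_atTop_atTop_of_monotone (PS_monotone B) fun b => by
      obtain ⟨N, hN⟩ := hcon b
      exact ⟨N, hN.le⟩)
  · rintro ⟨b, hb⟩ h
    obtain ⟨N, hN⟩ := (h.eventually_ge_atTop (b + 1)).exists
    have := hb N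
    linarith

lemma KK0_iff {m : ℕ} (u g : Fin m → ℕ → ℤˣ) (A : Finset (Fin m)) :
    KK0 u g A ↔ ∃ b : ℝ, ∀ N, PS (fun p => ∏ i ∈ A, u i p ≠ ∏ i ∈ A, g i p) 0 N ≤ b :=
  not_tendsto_iff _

lemma prod_symmDiff {m : ℕ} (f : Fin m → ℤˣ) (A B : Finset (Fin m)) :
    ∏ i ∈ symmDiff A B, f i = (∏ i ∈ A, f i) * ∏ i ∈ B, f i := by
  have h1 : symmDiff A B = (A \ B) ∪ (B \ A) := rfl
  have h2 : Disjoint (A \ B) (B \ A) := disjoint_sdiff_sdiff
  rw [h1, Finset.prod_union h2]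
  have h3 : (∏ i ∈ A ∩ B, f i) * (∏ i ∈ A \ B, f i) = ∏ i ∈ A, f i :=
    Finset.prod_inter_mul_prod_sdiff A B f
  have h4 : (∏ i ∈ B ∩ A, f i) * (∏ i ∈ B \ A, f i) = ∏ i ∈ B, f i :=
    Finset.prod_inter_mul_prod_sdiff B A f
  rw [← h3, ← h4, Finset.inter_comm B A]
  have h5 : (∏ i ∈ A ∩ B, f i) * (∏ i ∈ A ∩ B, f i) = 1 := Int.units_mul_self _
  calc (∏ i ∈ A \ B, f i) * ∏ i ∈ B \ A, f i
      = (∏ i ∈ A \ B, f i) * (∏ i ∈ B \ A, f i) *
        ((∏ i ∈ A ∩ B, f i) * (∏ i ∈ A ∩ B, f i)) := by rw [h5, mul_one]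
    _ = _ := by ac_rfl

lemma pr_exists_le {ι : Type} [Fintype ι] (N : ℕ) (P : ι → ℕ → Prop) :
    pr N (fun n => ∃ i, P i n) ≤ ∑ i, pr N (P i) := by
  simp only [EntAAux.pr_eq]
  rw [← sum_div, sum_comm]
  refine div_le_div_of_nonneg_right (sum_le_sum fun n _ => ?_) (EntAAux.S_nonneg N)
  rw [← sum_mul]
  refine mul_le_mul_of_nonneg_right ?_ (by positivity)
  by_cases h : ∃ i, P i n
  · obtain ⟨i, hi⟩ := h
    rw [EntAAux.ind_true ⟨i, hi⟩]
    calc (1 : ℝ) = EntAAux.ind (P i n) := (EntAAux.ind_true hi).symm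
      _ ≤ ∑ i, EntAAux.ind (P i n) :=
        Finset.single_le_sum (f := fun i => EntAAux.ind (P i n))
          (fun i _ => EntAAux.ind_nonneg _) (mem_univ i)
  · rw [EntAAux.ind_false h]
    exact sum_nonneg fun i _ => EntAAux.ind_nonneg _

lemma pr_bad_le (B : ℕ → Prop) (y m : ℕ) {N : ℕ} (hN : 2 ≤ N) :
    pr N (Bad B y m) ≤ LA (BI B y m) N := by
  classical
  have h1 := ThinAux.pr_eq hN (Bad B y m)
  have h2 : LA (fun n => if Bad B y m n then (1:ℝ) else 0) N = LA (BI B y m) N := by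
    congr 1
  rw [h1, h2]
  refine div_le_self ?_ (one_le_LA_one hN)
  unfold LA
  exact div_nonneg (sum_nonneg fun n _ => div_nonneg (BI_nonneg _ _ _ _) (Nat.cast_nonneg n))
    (Real.log_natCast_nonneg N)

lemma tail_small {B : ℕ → Prop} (hB : ∃ b : ℝ, ∀ N, PS B 0 N ≤ b) {δ : ℝ} (hδ : 0 < δ) :
    ∃ y₁ : ℕ, ∀ y ≥ y₁, ∀ N ≥ y, PS B y N ≤ δ := by
  obtain ⟨b, hb⟩ := hB
  have hbdd : BddAbove (Set.range fun N => PS B 0 N) := ⟨b, by
    rintro _ ⟨N, rfl⟩
    exact hb N⟩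
  obtain ⟨y₁, hy₁⟩ := exists_lt_of_lt_ciSup
    (show (⨆ N, PS B 0 N) - δ < ⨆ N, PS B 0 N by linarith)
  refine ⟨y₁, fun y hy N hN => ?_⟩
  have h1 : PS B 0 y₁ ≤ PS B 0 y := PS_monotone B hy
  have h2 : PS B 0 N ≤ ⨆ N, PS B 0 N := le_ciSup hbdd N
  have h3 := PS_split B hN
  linarith

end PerWAux

open PerWAux

theorem KK0_empty {m : ℕ} (u g : Fin m → ℕ → ℤˣ) : KK0 u g ∅ := by
  rw [KK0_iff]
  refine ⟨0, fun N => ?_⟩
  refine le_trans (PS_le (φ := fun _ => 0) (fun p _ h => absurd rfl h) (fun _ => le_rfl)) ?_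
  rw [Finset.sum_const_zero]

theorem KK0_symmDiff {m : ℕ} (u g : Fin m → ℕ → ℤˣ) (A B : Finset (Fin m)) (hA : KK0 u g A)
    (hB : KK0 u g B) : KK0 u g (symmDiff A B) := by
  rw [KK0_iff] at hA hB ⊢
  obtain ⟨a, ha⟩ := hA
  obtain ⟨b, hb⟩ := hB
  refine ⟨a + b, fun N => le_trans (PS_add ?_) (add_le_add (ha N) (hb N))⟩
  intro p hp
  by_contra hcon
  push Not at hcon
  apply hp
  rw [prod_symmDiff, prod_symmDiff, hcon.1, hcon.2]

theorem per_approx {m : ℕ} {u g : Fin m → ℕ → ℤˣ} (hu : ∀ i, MultS (u i)) {q : Fin m → ℕ}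
    (hq : ∀ i, 0 < q i) (χ : ∀ i, DirichletCharacter ℂ (q i))
    (hg : ∀ i, ∀ p : ℕ, p.Prime → ¬ p ∣ q i → sgC (g i p) = χ i (p : ZMod (q i)))
    (A : Finset (Fin m)) (hK : KK0 u g A) (L : ℕ) {δ : ℝ} (hδ : 0 < δ) :
    ∃ y₀ : ℕ, ∀ y ≥ y₀, ∀ c : ℕ, ∀ᶠ N : ℕ in atTop, ∃ ω : ℕ → Fin L → ℤˣ,
      (∀ n, ω (n % ((∏ i, q i) * QQ y y)) = ω n) ∧
      pr N (fun n => ∃ j : Fin L, ∏ i ∈ A, vv c (u i) (g i) N (n + j) ≠ ω n j) ≤ δ := by
  classical
  rw [KK0_iff] at hK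
  set δ' : ℝ := δ / (8 * (L + 1)) with hδ'
  have hL1 : (0:ℝ) < L + 1 := by positivity
  have hδ'0 : 0 < δ' := by positivity
  obtain ⟨ψ, hψ⟩ := Corr0.exists_prod_char χ hg A
  have hQ0 : 0 < ∏ i, q i := Finset.prod_pos fun i _ => hq i
  revert hQ0 hψ
  revert ψ
  generalize (∏ i, q i) = Q
  intro ψ hψ hQ0
  obtain ⟨y₁, hy₁⟩ := tail_small hK hδ'0
  have hlim : Tendsto (fun y : ℕ => (y:ℝ) * (1 / 2) ^ y + 1 / (y:ℝ)) atTop (𝓝 0) := by
    have l2 : Tendsto (fun y : ℕ => (y : ℝ) * (1 / 2) ^ y) atTop (𝓝 0) :=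
      tendsto_self_mul_const_pow_of_lt_one (r := 1 / 2) (by norm_num) (by norm_num)
    have l3 : Tendsto (fun y : ℕ => 1 / (y : ℝ)) atTop (𝓝 0) :=
      tendsto_natCast_atTop_atTop.const_div_atTop 1
    simpa using l2.add l3
  obtain ⟨y₂, hy₂⟩ := eventually_atTop.1 (hlim.eventually (eventually_le_nhds hδ'0))
  refine ⟨max (max y₁ y₂) Q, fun y hy c => ?_⟩
  have hyy₁ : y₁ ≤ y := ((le_max_left _ _).trans (le_max_left _ _)).trans hy
  have hyy₂ : y₂ ≤ y := ((le_max_right _ _).trans (le_max_left _ _)).trans hy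
  have hyQ : Q ≤ y := (le_max_right _ _).trans hy
  have hy0 : 0 < y := hQ0.trans_le hyQ
  have hlog : Tendsto (fun N : ℕ => 3 * ((L:ℝ) + 1) / Real.log N) atTop (𝓝 0) :=
    tendsto_logN.const_div_atTop _
  have hlog2 : Tendsto (fun N : ℕ => 3 / Real.log N) atTop (𝓝 0) :=
    tendsto_logN.const_div_atTop _
  filter_upwards [eventually_ge_atTop (max 2 y), hlog.eventually (eventually_le_nhds hδ'0),
    hlog2.eventually (eventually_le_nhds one_pos)] with N hN hN2 hN3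
  have hN2' : 2 ≤ N := (le_max_left _ _).trans hN
  have hyN : y ≤ N := (le_max_right _ _).trans hN
  have hl : 0 < Real.log N := Real.log_pos (by exact_mod_cast hN2')
  set h : ℕ → ℤˣ := fun n => ∏ i ∈ A, vv c (u i) (g i) N n with hh
  have hmul : MultS h := Corr0.multS_prod A _ fun i _ => Corr0.vv_mult (hu i)
  set B : ℕ → Prop := fun p => sgC (h p) ≠ ψ (p : ZMod Q) with hB
  -- bound of the density of the bad integers
  have hPS : PS B y N ≤ δ' := by
    refine le_trans (PS_mono ?_) (hy₁ y hyy₁ N hyN)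
    intro p hp hyp hpN hBp hcon
    apply hBp
    have hpQ : ¬ p ∣ Q := fun hd => by
      have := Nat.le_of_dvd hQ0 hd
      omega
    rw [← hψ p hp hpQ]
    by_cases hlt : N < p ^ (2 ^ c)
    · congr 1
      exact Finset.prod_congr rfl fun i _ => Corr0.vv_top hp hpN hlt
    · rw [← hcon]
      congr 1
      exact Finset.prod_congr rfl fun i _ => Corr0.vv_low hp (not_lt.1 hlt)
  have hEB : EB B y y N ≤ 2 * δ' := by
    have h1 := EB_le B hy0 hyN
    have h2 := hy₂ y hyy₂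
    linarith
  have hEB0 : 0 ≤ EB B y y N := by
    unfold EB
    refine add_nonneg (sum_nonneg fun p _ => by positivity) (add_nonneg
      (sum_nonneg fun p _ => by positivity) (sum_nonneg fun p _ => by positivity))
  have hbad : pr N (Bad B y y) ≤ 4 * δ' := by
    refine (pr_bad_le B y y hN2').trans ((LA_BI_le B y y hN2').trans ?_)
    nlinarith
  have hbadj : ∀ j : Fin L, pr N (fun n => Bad B y y (n + j)) ≤ 5 * δ' := by
    intro j
    have h1 := (abs_le.1 (pr_shift (Bad B y y) j hN2')).2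
    have h2 : 3 * ((j:ℕ):ℝ) / Real.log N ≤ 3 * ((L:ℝ) + 1) / Real.log N := by
      have : ((j:ℕ):ℝ) ≤ L := by exact_mod_cast j.2.le
      gcongr
      linarith
    linarith
  have hPPper : ∀ n, PP h ψ y y (n + Q * QQ y y) = PP h ψ y y n := PP_periodic h ψ y y
  refine ⟨fun n j => if PP h ψ y y (n + j) = -1 then -1 else 1, ?_, ?_⟩
  · intro n
    funext j
    have h1 := mod_eq_of_periodic (P := fun n => PP h ψ y y (n + j)) (R := Q * QQ y y)
      (fun n => by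
        show PP h ψ y y (n + Q * QQ y y + j) = PP h ψ y y (n + j)
        rw [show n + Q * QQ y y + (j:ℕ) = n + j + Q * QQ y y by ring]
        exact hPPper _) n
    show (if PP h ψ y y (n % (Q * QQ y y) + j) = -1 then (-1 : ℤˣ) else 1) =
      if PP h ψ y y (n + j) = -1 then (-1 : ℤˣ) else 1
    have h1' : PP h ψ y y (n % (Q * QQ y y) + j) = PP h ψ y y (n + j) := h1
    rw [h1']
  · have hsub : ∀ n, (∃ j : Fin L, ∏ i ∈ A, vv c (u i) (g i) N (n + j) ≠
        (fun n j => if PP h ψ y y (n + j) = -1 then (-1 : ℤˣ) else 1 : ℕ → Fin L → ℤˣ) n j) →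
        ∃ j : Fin L, Bad B y y (n + j) := by
      rintro n ⟨j, hj⟩
      refine ⟨j, ?_⟩
      by_contra hnb
      apply hj
      have hpos : 0 < n + (j:ℕ) := by
        rcases Nat.eq_zero_or_pos (n + (j:ℕ)) with h0 | h0
        · exact absurd (h0 ▸ bad_zero B y y) hnb
        · exact h0
      have hPP := PP_eq_of_not_bad hmul ψ hpos hnb
      show h (n + j) = if PP h ψ y y (n + j) = -1 then (-1 : ℤˣ) else 1
      rw [hPP]
      rcases Int.units_eq_one_or (h (n + j)) with h1 | h1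
      · rw [h1, sg_one, if_neg (by norm_num)]
      · rw [h1, sg_neg_one, if_pos rfl]
    refine (pr_mono hsub).trans ((pr_exists_le N fun (j : Fin L) n => Bad B y y (n + j)).trans ?_)
    calc ∑ j : Fin L, pr N (fun n => Bad B y y (n + j)) ≤ ∑ _j : Fin L, 5 * δ' :=
          sum_le_sum fun j _ => hbadj j
      _ = L * (5 * δ') := by rw [sum_const, card_univ, Fintype.card_fin, nsmul_eq_mul]
      _ ≤ (L + 1) * (8 * δ') := by
          have : (0:ℝ) ≤ L := Nat.cast_nonneg L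
          nlinarith
      _ = δ := by
          rw [hδ']
          field_simp

end Pool.Agent.Lib.P4a7640E
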