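import Mathlib
import Pool.Agent.Lib.P4a7640E.PerW

/-!
# Almost periodicity at all the scales `N^(1/2^b) ≤ M ≤ N`

Module P4a7640E.PerM (0.8 h). Imports are black boxes.

Adapt the proof of `per_approx` (file PerW.lean): the functions `vv c (u i) (g i) N`, `h`, `ψ` and `ω` are
the same, only the probability is `pr M` with `M ≤ N ≤ M^(2^b)`. For the primes `y < p ≤ M` one has
`p ≤ N`, so `h p = ∏ g i p` or `h p = ∏ u i p` as before and `PS (sgC (h p) ≠ ψ p) y M ≤ PS B0 y M ≤ δ'`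
(`B0 p = (∏ i ∈ A, u i p ≠ ∏ i ∈ A, g i p)`). `M` is large as `M^(2^b) ≥ N` (`M ≥ M₀` once `N > M₀^(2^b)`).
-/

open Finset Filter Topology
open Pool.Agent.Lib.P4a7640 Pool.Agent.Lib.P4a7640D Pool.Agent.Lib.P4a7640T

namespace Pool.Agent.Lib.P4a7640E

open PerWAux

theorem per_approxM {m : ℕ} {u g : Fin m → ℕ → ℤˣ} (hu : ∀ i, MultS (u i)) {q : Fin m → ℕ}
    (hq : ∀ i, 0 < q i) (χ : ∀ i, DirichletCharacter ℂ (q i))
    (hg : ∀ i, ∀ p : ℕ, p.Prime → ¬ p ∣ q i → sgC (g i p) = χ i (p : ZMod (q i)))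
    (A : Finset (Fin m)) (hK : KK0 u g A) (L : ℕ) {δ : ℝ} (hδ : 0 < δ) :
    ∃ y₀ : ℕ, ∀ y ≥ y₀, ∀ c b : ℕ, ∀ᶠ N : ℕ in atTop, ∀ M ≤ N, N ≤ M ^ (2 ^ b) →
      ∃ ω : ℕ → Fin L → ℤˣ, (∀ n, ω (n % ((∏ i, q i) * QQ y y)) = ω n) ∧
        pr M (fun n => ∃ j : Fin L, ∏ i ∈ A, vv c (u i) (g i) N (n + j) ≠ ω n j) ≤ δ := by
  classical
  rw [KK0_iff] at hK
  set δ' : ℝ := δ / (8 * (L + 1)) with hδ'
  have hL1 : (0:ℝ) < L + 1 := by positivity
  have hδ'0 : 0 < δ' := by positivity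
  obtain ⟨ψ, hψ⟩ := Corr0.exists_prod_char χ hg A
  have hQ0 : 0 < ∏ i, q i := Finset.prod_pos fun i _ => hq i
  revert hQ0 hψ
  revert ψ
  generalize (∏ i, q i) = Q
  intro ψ hψ hQ0
  obtain ⟨y₁, hy₁⟩ := tail_small hK hδ'0
  have hlim : Tendsto (fun y : ℕ => (y:ℝ) * (1 / 2) ^ y + 1 / (y:ℝ)) atTop (𝓝 0) := by
    have l2 : Tendsto (fun y : ℕ => (y : ℝ) * (1 / 2) ^ y) atTop (𝓝 0) :=
      tendsto_self_mul_const_pow_of_lt_one (r := 1 / 2) (by norm_num) (by norm_num)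
    have l3 : Tendsto (fun y : ℕ => 1 / (y : ℝ)) atTop (𝓝 0) :=
      tendsto_natCast_atTop_atTop.const_div_atTop 1
    simpa using l2.add l3
  obtain ⟨y₂, hy₂⟩ := eventually_atTop.1 (hlim.eventually (eventually_le_nhds hδ'0))
  refine ⟨max (max y₁ y₂) Q, fun y hy c b => ?_⟩
  have hyy₁ : y₁ ≤ y := ((le_max_left _ _).trans (le_max_left _ _)).trans hy
  have hyy₂ : y₂ ≤ y := ((le_max_right _ _).trans (le_max_left _ _)).trans hy
  have hyQ : Q ≤ y := (le_max_right _ _).trans hy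
  have hy0 : 0 < y := hQ0.trans_le hyQ
  have hlog : Tendsto (fun N : ℕ => 3 * ((L:ℝ) + 1) / Real.log N) atTop (𝓝 0) :=
    tendsto_logN.const_div_atTop _
  have hlog2 : Tendsto (fun N : ℕ => 3 / Real.log N) atTop (𝓝 0) :=
    tendsto_logN.const_div_atTop _
  obtain ⟨M₀, hM₀⟩ := eventually_atTop.1 ((eventually_ge_atTop (max 2 y)).and
    ((hlog.eventually (eventually_le_nhds hδ'0)).and (hlog2.eventually (eventually_le_nhds one_pos))))
  filter_upwards [eventually_gt_atTop (M₀ ^ (2 ^ b))] with N hNM M hMN hNMb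
  have hM : M₀ ≤ M := by
    by_contra hlt
    have h1 : M ^ (2 ^ b) ≤ M₀ ^ (2 ^ b) := Nat.pow_le_pow_left (not_le.1 hlt).le _
    omega
  obtain ⟨hM1, hM2, hM3⟩ := hM₀ M hM
  have hM2' : 2 ≤ M := (le_max_left _ _).trans hM1
  have hyM : y ≤ M := (le_max_right _ _).trans hM1
  have hl : 0 < Real.log M := Real.log_pos (by exact_mod_cast hM2')
  set h : ℕ → ℤˣ := fun n => ∏ i ∈ A, vv c (u i) (g i) N n with hh
  have hmul : MultS h := Corr0.multS_prod A _ fun i _ => Corr0.vv_mult (hu i)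
  set B : ℕ → Prop := fun p => sgC (h p) ≠ ψ (p : ZMod Q) with hB
  -- bound of the density of the bad integers
  have hPS : PS B y M ≤ δ' := by
    refine le_trans (PS_mono ?_) (hy₁ y hyy₁ M hyM)
    intro p hp hyp hpM hBp hcon
    have hpN : p ≤ N := hpM.trans hMN
    apply hBp
    have hpQ : ¬ p ∣ Q := fun hd => by
      have := Nat.le_of_dvd hQ0 hd
      omega
    rw [← hψ p hp hpQ]
    by_cases hlt : N < p ^ (2 ^ c)
    · congr 1
      exact Finset.prod_congr rfl fun i _ => Corr0.vv_top hp hpN hlt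
    · rw [← hcon]
      congr 1
      exact Finset.prod_congr rfl fun i _ => Corr0.vv_low hp (not_lt.1 hlt)
  have hEB : EB B y y M ≤ 2 * δ' := by
    have h1 := EB_le B hy0 hyM
    have h2 := hy₂ y hyy₂
    linarith
  have hEB0 : 0 ≤ EB B y y M := by
    unfold EB
    refine add_nonneg (sum_nonneg fun p _ => by positivity) (add_nonneg
      (sum_nonneg fun p _ => by positivity) (sum_nonneg fun p _ => by positivity))
  have hbad : pr M (Bad B y y) ≤ 4 * δ' := by
    refine (pr_bad_le B y y hM2').trans ((LA_BI_le B y y hM2').trans ?_)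
    nlinarith
  have hbadj : ∀ j : Fin L, pr M (fun n => Bad B y y (n + j)) ≤ 5 * δ' := by
    intro j
    have h1 := (abs_le.1 (pr_shift (Bad B y y) j hM2')).2
    have h2 : 3 * ((j:ℕ):ℝ) / Real.log M ≤ 3 * ((L:ℝ) + 1) / Real.log M := by
      have : ((j:ℕ):ℝ) ≤ L := by exact_mod_cast j.2.le
      gcongr
      linarith
    linarith
  have hPPper : ∀ n, PP h ψ y y (n + Q * QQ y y) = PP h ψ y y n := PP_periodic h ψ y y
  refine ⟨fun n j => if PP h ψ y y (n + j) = -1 then -1 else 1, ?_, ?_⟩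
  · intro n
    funext j
    have h1 := mod_eq_of_periodic (P := fun n => PP h ψ y y (n + j)) (R := Q * QQ y y)
      (fun n => by
        show PP h ψ y y (n + Q * QQ y y + j) = PP h ψ y y (n + j)
        rw [show n + Q * QQ y y + (j:ℕ) = n + j + Q * QQ y y by ring]
        exact hPPper _) n
    show (if PP h ψ y y (n % (Q * QQ y y) + j) = -1 then (-1 : ℤˣ) else 1) =
      if PP h ψ y y (n + j) = -1 then (-1 : ℤˣ) else 1
    have h1' : PP h ψ y y (n % (Q * QQ y y) + j) = PP h ψ y y (n + j) := h1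
    rw [h1']
  · have hsub : ∀ n, (∃ j : Fin L, ∏ i ∈ A, vv c (u i) (g i) N (n + j) ≠
        (fun n j => if PP h ψ y y (n + j) = -1 then (-1 : ℤˣ) else 1 : ℕ → Fin L → ℤˣ) n j) →
        ∃ j : Fin L, Bad B y y (n + j) := by
      rintro n ⟨j, hj⟩
      refine ⟨j, ?_⟩
      by_contra hnb
      apply hj
      have hpos : 0 < n + (j:ℕ) := by
        rcases Nat.eq_zero_or_pos (n + (j:ℕ)) with h0 | h0
        · exact absurd (h0 ▸ bad_zero B y y) hnb
        · exact h0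
      have hPP := PP_eq_of_not_bad hmul ψ hpos hnb
      show h (n + j) = if PP h ψ y y (n + j) = -1 then (-1 : ℤˣ) else 1
      rw [hPP]
      rcases Int.units_eq_one_or (h (n + j)) with h1 | h1
      · rw [h1, sg_one, if_neg (by norm_num)]
      · rw [h1, sg_neg_one, if_pos rfl]
    refine (pr_mono hsub).trans ((pr_exists_le M fun (j : Fin L) n => Bad B y y (n + j)).trans ?_)
    calc ∑ j : Fin L, pr M (fun n => Bad B y y (n + j)) ≤ ∑ _j : Fin L, 5 * δ' :=
          sum_le_sum fun j _ => hbadj j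
      _ = L * (5 * δ') := by rw [sum_const, card_univ, Fintype.card_fin, nsmul_eq_mul]
      _ ≤ (L + 1) * (8 * δ') := by
          have : (0:ℝ) ≤ L := Nat.cast_nonneg L
          nlinarith
      _ = δ := by
          rw [hδ']
          field_simp

end Pool.Agent.Lib.P4a7640E
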