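import Mathlib
import Pool.Agent.Lib.P4a7640E.Bess
import Pool.Agent.Lib.P4a7640E.Close
import Pool.Agent.Lib.P4a7640E.LawQ
import Pool.Agent.Lib.P4a7640E.CorrM
import Pool.Agent.Lib.P4a7640E.PerM
import Pool.Agent.Lib.P4a7640E.Basis
import Pool.Agent.Lib.P4a7640E.Far
import Pool.Agent.Lib.P4a7640E.Thin

/-!
# The entropy inequality for pairwise independent functions at all scales
-/

open Finset Filter Topology
open Pool.Agent.Lib.P4a7640 Pool.Agent.Lib.P4a7640D Pool.Agent.Lib.P4a7640T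

namespace Pool.Agent.Lib.P4a7640E

/-- the Bessel inequality for the products over the sets `r i` -/
theorem bessel_sum {m L : ℕ} {Q : ℕ} {B : Finset (Fin m)} {r : Fin m → Finset (Fin m)}
    (hrB : ∀ i, r i ⊆ B) (hne : ∀ i, (r i).Nonempty) (hinj : Function.Injective r) {N : ℕ} {ε : ℝ}
    (X : ℕ → Fin L → ℤˣ) (V : Fin m → ℕ → Fin L → ℤˣ) (W : ℕ → Fin Q)
    (h : ∀ 𝒜 : Finset (Finset ↥B),
        ((𝒜.card : ℝ) - 1) * (L * Real.log 2) + 𝒜.card * Real.log (Fintype.card (Fin Q)) - ε ≤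
          ∑ A ∈ 𝒜, Ent N (fun n => (X n * ∏ i ∈ A, V i n, W n))) :
    (m : ℝ) * (L * Real.log 2) + (m + 1) * Real.log Q - ε ≤
      Ent N (fun n => (X n, W n)) + ∑ i, Ent N (fun n => (X n * ∏ b ∈ r i, V b n, W n)) := by
  classical
  set R : Fin m → Finset ↥B := fun i => (r i).subtype (· ∈ B) with hR
  have hRmap : ∀ i, (R i).map (Function.Embedding.subtype _) = r i := fun i =>
    Finset.subtype_map_of_mem fun x hx => hrB i hx
  have hRinj : Function.Injective R := by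
    intro i j hij
    apply hinj
    rw [← hRmap i, ← hRmap j, hij]
  have hRne : ∀ i, R i ≠ ∅ := by
    intro i h0
    have h1 := hRmap i
    rw [h0, Finset.map_empty] at h1
    exact (hne i).ne_empty h1.symm
  have hnot : (∅ : Finset ↥B) ∉ univ.image R := by
    intro h0
    obtain ⟨i, _, hi⟩ := Finset.mem_image.1 h0
    exact hRne i hi
  have h1 := h (insert ∅ (univ.image R))
  rw [Finset.card_insert_of_notMem hnot, Finset.card_image_of_injective _ hRinj, Finset.card_univ,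
    Fintype.card_fin, Fintype.card_fin, Finset.sum_insert hnot,
    Finset.sum_image (fun i _ j _ hij => hRinj hij)] at h1
  have e1 : (fun n => (X n * ∏ i ∈ (∅ : Finset ↥B), V i n, W n)) = fun n => (X n, W n) := by
    funext n
    rw [Finset.prod_empty, mul_one]
  have e2 : ∀ i, (fun n => (X n * ∏ b ∈ R i, V b n, W n)) =
      fun n => (X n * ∏ b ∈ r i, V b n, W n) := by
    intro i
    funext n
    have : ∏ b ∈ R i, V b n = ∏ b ∈ r i, V b n :=
      Finset.prod_subtype_of_mem (fun b => V b n) fun x hx => hrB i hx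
    rw [this]
  rw [e1] at h1
  simp only [e2] at h1
  push_cast at h1
  linarith

/-- the joint law in residue classes -/
theorem lawB {m L Q : ℕ} (hQ : 0 < Q) {B : Finset (Fin m)} (v : Fin m → ℕ → ℤˣ) {N : ℕ}
    (hN : 2 ≤ N) {δ : ℝ} (hδ : 0 ≤ δ)
    (h : ∀ S : Finset (Fin m × ℕ), S.Nonempty → S ⊆ B ×ˢ range L → ∀ a : ℕ,
      |LA (fun n => (if n ≡ a [MOD Q] then (1:ℝ) else 0) *
        ∏ s ∈ S, sg (v s.1 (n + s.2))) N| ≤ δ)
    (h0 : ∀ a : ℕ, |pr N (fun n => n ≡ a [MOD Q]) - 1 / (Q:ℝ)| ≤ δ)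
    (x : ↥B → Fin L → ℤˣ) (b : Fin Q) :
    |pr N (fun n => (∀ i : ↥B, blk (v i) L n = x i) ∧ (⟨n % Q, Nat.mod_lt n hQ⟩ : Fin Q) = b) -
        (1 / 2) ^ (Fintype.card ↥B * L) / (Fintype.card (Fin Q) : ℝ)| ≤ δ := by
  classical
  have e1 : pr N (fun n => (∀ i : ↥B, blk (v i) L n = x i) ∧
      (⟨n % Q, Nat.mod_lt n hQ⟩ : Fin Q) = b) =
      pr N (fun n => (∀ (i : ↥B) (j : Fin L), v i (n + j) = x i j) ∧ n ≡ (b : ℕ) [MOD Q]) := by
    apply pr_congr
    intro n _ _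
    refine and_congr ?_ ?_
    · refine forall_congr' fun i => ?_
      exact funext_iff
    · rw [Fin.ext_iff]
      show n % Q = b ↔ n % Q = b % Q
      rw [Nat.mod_eq_of_lt b.2]
  rw [e1, Fintype.card_fin]
  refine lawQ (fun i : ↥B => v i) hN hδ b (fun S hS hSL => ?_) (h0 b) x
  set e : ↥B × ℕ ↪ Fin m × ℕ :=
    (Function.Embedding.subtype (· ∈ B)).prodMap (Function.Embedding.refl ℕ) with he
  have h1 := h (S.map e) (hS.map) (fun s hs => ?_) b
  · have e2 : (fun n => (if n ≡ (b:ℕ) [MOD Q] then (1:ℝ) else 0) *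
        ∏ s ∈ S.map e, sg (v s.1 (n + s.2))) =
        fun n => (if n ≡ (b:ℕ) [MOD Q] then (1:ℝ) else 0) *
        ∏ s ∈ S, sg (v s.1 (n + s.2)) := by
      funext n
      rw [Finset.prod_map]
      rfl
    rw [e2] at h1
    exact h1
  · obtain ⟨t, ht, rfl⟩ := Finset.mem_map.1 hs
    have h2 := Finset.mem_product.1 (hSL ht)
    exact Finset.mem_product.2 ⟨t.1.2, h2.2⟩

/-- the product over a symmetric difference of signs -/
theorem prod_symmDiff_sign {ι : Type} [DecidableEq ι] (w : ι → ℤˣ) (A B : Finset ι) :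
    ∏ i ∈ symmDiff A B, w i = (∏ i ∈ A, w i) * ∏ i ∈ B, w i := by
  have h1 : symmDiff A B = (A \ B) ∪ (B \ A) := rfl
  have hd : Disjoint (A \ B) (B \ A) := disjoint_sdiff_sdiff
  rw [h1, Finset.prod_union hd, ← Finset.prod_inter_mul_prod_sdiff A B w,
    ← Finset.prod_inter_mul_prod_sdiff B A w, Finset.inter_comm B A]
  have h2 : (∏ i ∈ A ∩ B, w i) * ∏ i ∈ A ∩ B, w i = 1 := Int.units_mul_self _
  calc (∏ i ∈ A \ B, w i) * ∏ i ∈ B \ A, w i
      = ((∏ i ∈ A ∩ B, w i) * ∏ i ∈ A ∩ B, w i) *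
        ((∏ i ∈ A \ B, w i) * ∏ i ∈ B \ A, w i) := by rw [h2, one_mul]
    _ = _ := mul_mul_mul_comm _ _ _ _

/-- one term: the entropy of a product that is close to `X * ∏ V * ω(W)` -/
theorem ent_term {m L Q : ℕ} (hQ : 0 < Q) {N : ℕ} (X : ℕ → Fin L → ℤˣ)
    (V : Fin m → ℕ → Fin L → ℤˣ) (s : Finset (Fin m)) (ω : ℕ → Fin L → ℤˣ)
    (hω : ∀ n, ω (n % Q) = ω n) (Y : ℕ → Fin L → ℤˣ) {ε : ℝ}
    (hY : Ent N (fun n => X n * (∏ b ∈ s, V b n) * ω n) ≤ Ent N Y + ε) :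
    Ent N (fun n => (X n * ∏ b ∈ s, V b n, (⟨n % Q, Nat.mod_lt n hQ⟩ : Fin Q))) ≤
      Ent N Y + ε + Real.log Q := by
  set W : ℕ → Fin Q := fun n => ⟨n % Q, Nat.mod_lt n hQ⟩ with hW
  set Z : ℕ → Fin L → ℤˣ := fun n => X n * (∏ b ∈ s, V b n) * ω n with hZ
  have hne : Nonempty (Fin Q) := ⟨⟨0, hQ⟩⟩
  set φ : (Fin L → ℤˣ) × Fin Q → (Fin L → ℤˣ) × Fin Q :=
    fun z => (z.1 * (ω (z.2 : ℕ))⁻¹, z.2) with hφ
  have e1 : (fun n => (X n * ∏ b ∈ s, V b n, W n)) = fun n => φ (Z n, W n) := by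
    funext n
    have h1 : ω (W n : ℕ) = ω n := hω n
    have h2 : φ (Z n, W n) = (Z n * (ω (W n : ℕ))⁻¹, W n) := rfl
    rw [h2, h1]
    simp only [hZ]
    rw [mul_inv_cancel_right]
  have h1 : Ent N (fun n => (X n * ∏ b ∈ s, V b n, W n)) ≤ Ent N (fun n => (Z n, W n)) := by
    rw [e1]
    exact Ent_comp N (fun n => (Z n, W n)) φ
  have h2 := Ent_pair N Z W
  have h3 := Ent_le_log N W
  rw [Fintype.card_fin] at h3
  linarith

/-- **The entropy inequality** for pairwise independent functions at the scales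
`N^(1/2^b) ≤ M ≤ N`. -/
theorem ineq_scale {m : ℕ} {f : Fin (m + 1) → ℕ → ℤˣ}
    (hf : ∀ i : Fin m, MultS fun n => f 0 n * f i.succ n)
    {q : Fin m → ℕ} (hq : ∀ i, 0 < q i) (χ : ∀ i, DirichletCharacter ℤ (q i))
    (hap : ∀ i j : Fin (m + 1), i < j → Aperiodic fun n => f i n * f j n)
    (L b : ℕ) {ε : ℝ} (hε : 0 < ε) :
    ∃ c : ℕ, ∀ᶠ N : ℕ in atTop, ∀ M ≤ N, N ≤ M ^ (2 ^ b) →
      L * (m * Real.log 2) - ε ≤ ∑ i, Ent M (blk (f i) L) +
        ∑ i, ∑ j : Fin L, Real.binEntropy (pr M fun n =>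
          dsg (TT c (fun n => f 0 n * f i.succ n) (gch (χ i)) N) (n + j) = -1) := by
  classical
  -- the functions u and g
  set u : Fin m → ℕ → ℤˣ := fun i n => f 0 n * f i.succ n with hu
  set g : Fin m → ℕ → ℤˣ := fun i => gch (χ i) with hg
  have hgp : ∀ i, ∀ p : ℕ, p.Prime → ¬ p ∣ q i → sgC (g i p) = cch (χ i) (p : ZMod (q i)) :=
    fun i p hp hpq => sgC_gch (χ i) hp hpq
  have hfar1 : ∀ A : Finset (Fin m), (Aperiodic fun n => ∏ i ∈ A, u i n) → ¬ KK0 u g A :=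
    fun A hA h => h (far hq χ A hA)
  have hK1 : ∀ i, ¬ KK0 u g {i} := by
    intro i
    apply hfar1
    have e1 : (fun n => ∏ a ∈ ({i} : Finset (Fin m)), u a n) = fun n => f 0 n * f i.succ n := by
      funext n
      rw [Finset.prod_singleton]
    rw [e1]
    exact hap 0 i.succ (Fin.succ_pos i)
  have hK2 : ∀ i j, i ≠ j → ¬ KK0 u g {i, j} := by
    intro i j hij
    apply hfar1
    have e1 : (fun n => ∏ a ∈ ({i, j} : Finset (Fin m)), u a n) =
        fun n => f i.succ n * f j.succ n := by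
      funext n
      rw [Finset.prod_pair hij]
      simp only [hu]
      rw [mul_mul_mul_comm, Int.units_mul_self, one_mul]
    rw [e1]
    rcases lt_or_gt_of_ne hij with h | h
    · exact hap i.succ j.succ (Fin.succ_lt_succ_iff.2 h)
    · have e2 : (fun n => f i.succ n * f j.succ n) = fun n => f j.succ n * f i.succ n := by
        funext n
        exact mul_comm _ _
      rw [e2]
      exact hap j.succ i.succ (Fin.succ_lt_succ_iff.2 h)
  obtain ⟨B, r, hB, hrB, hrne, hrinj, hrK⟩ := exists_basis (KK0 u g) (KK0_empty u g)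
    (KK0_symmDiff u g) hK1 hK2
  -- constants
  set ε₂ : ℝ := ε / (2 * (m + 1)) with hε₂
  have hε₂0 : 0 < ε₂ := by positivity
  have hε₃0 : 0 < ε / 2 := by positivity
  obtain ⟨δ₂, hδ₂, hclose⟩ := Ent_close (α := Fin L → ℤˣ) hε₂0
  choose y₀ hy₀ using fun i => per_approxM (u := u) (g := g) hf hq (fun i => cch (χ i)) hgp
    (symmDiff {i} (r i)) (hrK i) L hδ₂
  set y : ℕ := univ.sup y₀ with hy
  have hyi : ∀ i, y₀ i ≤ y := fun i => Finset.le_sup (f := y₀) (mem_univ i)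
  set Q : ℕ := (∏ i, q i) * QQ y y with hQd
  have hQ : 0 < Q := Nat.mul_pos (Finset.prod_pos fun i _ => hq i) (QQ_pos y y)
  have hneQ : Nonempty (Fin Q) := ⟨⟨0, hQ⟩⟩
  obtain ⟨δ₃, hδ₃, hbes⟩ := ent_bessel (ι := ↥B) (β := Fin Q) L hε₃0
  obtain ⟨c, N₁, hcorr⟩ := corr_smallM (u := u) (g := g) hf hq (fun i => cch (χ i)) hgp B
    (fun A hA hne => hB A hA hne) hQ L δ₃ hδ₃ b
  refine ⟨c, ?_⟩
  have e4 : ∀ᶠ N : ℕ in atTop, N₁ ≤ N := eventually_ge_atTop N₁
  have e5 : ∀ᶠ N : ℕ in atTop, ∀ M, N ≤ M ^ (2 ^ b) → 2 ≤ M :=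
    eventually_scale (eventually_ge_atTop 2) b
  have e6 : ∀ᶠ N : ℕ in atTop, ∀ M, N ≤ M ^ (2 ^ b) → ∀ a : ℕ,
      |pr M (fun n => n ≡ a [MOD Q]) - 1 / (Q:ℝ)| ≤ δ₃ :=
    eventually_scale (pr_modEq hQ hδ₃) b
  have e7 : ∀ᶠ N : ℕ in atTop, ∀ i, ∀ M ≤ N, N ≤ M ^ (2 ^ b) →
      ∃ ω : ℕ → Fin L → ℤˣ, (∀ n, ω (n % Q) = ω n) ∧
      pr M (fun n => ∃ j : Fin L, ∏ a ∈ symmDiff {i} (r i), vv c (u a) (g a) N (n + j) ≠ ω n j) ≤
        δ₂ :=
    eventually_all.2 fun i => hy₀ i y (hyi i) c b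
  filter_upwards [e4, e5, e6, e7] with N k4 k5' k6' k7'
  intro M hMN hNM
  have k5 := k5' M hNM
  have k6 := k6' M hNM
  choose ω hωp hωc using fun i => k7' i M hMN hNM
  set v : Fin m → ℕ → ℤˣ := fun i => vv c (u i) (g i) N with hv
  set t : Fin m → ℕ → ℤˣ := fun i => dsg (TT c (u i) (gch (χ i)) N) with ht
  set X : ℕ → Fin L → ℤˣ := blk (f 0) L with hX
  set V : Fin m → ℕ → Fin L → ℤˣ := fun i => blk (v i) L with hV
  set W : ℕ → Fin Q := fun n => ⟨n % Q, Nat.mod_lt n hQ⟩ with hW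
  have hM1 : 1 ≤ M := by omega
  -- the Bessel inequality
  have b1 := bessel_sum hrB hrne hrinj X V W (hbes M X (fun i : ↥B => V i) W fun x b' =>
    lawB hQ v k5 hδ₃.le (fun S hS hSL a => (hcorr N k4 M hMN hNM S hS hSL a).le) k6 x b')
  -- the functions f 0 * v i
  set Y : Fin m → ℕ → Fin L → ℤˣ := fun i n => X n * V i n with hY
  have b2 : ∀ i, Ent M (fun n => (X n * ∏ b ∈ r i, V b n, W n)) ≤
      Ent M (Y i) + ε₂ + Real.log Q := by
    intro i
    refine ent_term hQ X V (r i) (ω i) (hωp i) (Y i) ?_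
    apply hclose
    refine le_trans (pr_mono fun n hn => ?_) (hωc i)
    by_contra hcon
    push Not at hcon
    apply hn
    funext j
    have h2 := hcon j
    rw [prod_symmDiff_sign, Finset.prod_singleton] at h2
    have h3 : (∏ b ∈ r i, V b n) j = ∏ b ∈ r i, v b (n + j) := Finset.prod_apply _ _ _
    show X n j * (∏ b ∈ r i, V b n) j * ω i n j = X n j * V i n j
    rw [h3, ← h2]
    have h4 : V i n j = v i (n + j) := rfl
    rw [h4]
    have h5 : (∏ b ∈ r i, v b (n + j)) * ∏ b ∈ r i, v b (n + j) = 1 := Int.units_mul_self _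
    calc X n j * (∏ b ∈ r i, v b (n + j)) * (v i (n + j) * ∏ b ∈ r i, v b (n + j))
        = X n j * v i (n + j) * ((∏ b ∈ r i, v b (n + j)) * ∏ b ∈ r i, v b (n + j)) := by
          rw [mul_assoc (X n j), mul_assoc (X n j)]
          congr 1
          rw [mul_comm (∏ b ∈ r i, v b (n + j)), mul_assoc]
      _ = _ := by rw [h5, mul_one]
  have b0 : Ent M (fun n => (X n, W n)) ≤ Ent M X + Real.log Q := by
    have h2 := Ent_pair M X W
    have h3 := Ent_le_log M W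
    rw [Fintype.card_fin] at h3
    linarith
  -- f 0 * v i = f i * t i
  have b3 : ∀ i, Ent M (Y i) ≤ Ent M (blk (f i.succ) L) + Ent M (blk (t i) L) := by
    intro i
    set φ : (Fin L → ℤˣ) × (Fin L → ℤˣ) → Fin L → ℤˣ := fun z => z.1 * z.2 with hφ
    have e1 : Y i = fun n => φ (blk (f i.succ) L n, blk (t i) L n) := by
      funext n j
      show f 0 (n + j) * (f 0 (n + j) * f i.succ (n + j) * t i (n + j)) =
        f i.succ (n + j) * t i (n + j)
      rw [← mul_assoc, ← mul_assoc, Int.units_mul_self, one_mul]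
    rw [e1]
    exact (Ent_comp M (fun n => (blk (f i.succ) L n, blk (t i) L n)) φ).trans
      (Ent_pair M (blk (f i.succ) L) (blk (t i) L))
  -- the entropy of t i
  have b4 : ∀ i, Ent M (blk (t i) L) ≤
      ∑ j : Fin L, Real.binEntropy (pr M fun n => t i (n + j) = -1) := by
    intro i
    have e1 : Ent M (blk (t i) L) ≤ ∑ j : Fin L, Ent M (fun n => t i (n + j)) :=
      Ent_pi M (fun (j : Fin L) n => t i (n + j))
    refine e1.trans (Finset.sum_le_sum fun j _ => ?_)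
    rw [Ent_sign hM1]
  -- sum up
  have s1 : ∑ i, Ent M (fun n => (X n * ∏ b ∈ r i, V b n, W n)) ≤
      ∑ i, (Ent M (blk (f i.succ) L) +
        ∑ j : Fin L, Real.binEntropy (pr M fun n => t i (n + j) = -1) + ε₂ + Real.log Q) :=
    Finset.sum_le_sum fun i _ => by
      have h1 := b2 i
      have h2 := b3 i
      have h3 := b4 i
      linarith
  have s2 : ∑ i : Fin m, (Ent M (blk (f i.succ) L) +
      ∑ j : Fin L, Real.binEntropy (pr M fun n => t i (n + j) = -1) + ε₂ + Real.log Q) =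
      ∑ i : Fin m, Ent M (blk (f i.succ) L) +
      ∑ i, ∑ j : Fin L, Real.binEntropy (pr M fun n => t i (n + j) = -1) +
        m * ε₂ + m * Real.log Q := by
    rw [Finset.sum_add_distrib, Finset.sum_add_distrib, Finset.sum_add_distrib,
      Finset.sum_const, Finset.sum_const,
      Finset.card_univ, Fintype.card_fin, nsmul_eq_mul, nsmul_eq_mul]
  have s3 : ∑ i, Ent M (blk (f i) L) = Ent M X + ∑ i : Fin m, Ent M (blk (f i.succ) L) :=
    Fin.sum_univ_succ _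
  have k9 : (m:ℝ) * ε₂ ≤ ε / 2 := by
    have h2 : (m:ℝ) * ε₂ = (m / (m + 1)) * (ε / 2) := by
      rw [hε₂]
      field_simp
    have h3 : (m:ℝ) / (m + 1) ≤ 1 := by
      rw [div_le_one (by positivity)]
      linarith
    rw [h2]
    nlinarith
  rw [s3]
  have s4 : (L:ℝ) * (m * Real.log 2) = m * (L * Real.log 2) := by ring
  rw [s4]
  linarith

end Pool.Agent.Lib.P4a7640E
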