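import Mathlib
import Pool.Agent.Lib.P4a7640E.MixS
import Pool.Agent.Lib.P4a7640E.DLog

/-!
# Thin sets in double logarithmic averages

Module P4a7640E.ThinW (1 h). Imports are black boxes.

As in the proof of `thin` (Thin.lean): `δ = ε/16`, a fixed `y ≥ 2` with `y ≥ 64 (η + δ)/ε`, and `N ≥ y^c`, so
all `p ∈ T` are `≥ y`. `prod_ge` gives `∏ (1 - 1/p) ≥ exp (-(1 + 2/y) ∑ 1/p) ≥ exp (-(η + ε/4))`-like, so the
product of the squares is `≥ exp (-2 η) - ε`-like (`exp (-2 η) exp (-s) ≥ exp (-2 η) - s` for `s ≥ 0`), and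
`∑ p ∈ T, 1/p^2 ≤ (1/y) ∑ 1/p ≤ (η + δ)/y`. `dlog_mean` gives the claim for `j = 0` with `ε/2`.
Shift: for `2 ≤ M` with `N ≤ M^(2^b)`: `pr M (P (n+j)) ≤ pr M P + 3 j/log M` (`pr_shift`), `log M ≥ log N / 2^b`;
for the other `M`: `pr ≤ 1`. So (`mix_mono`, `mix_add`, `mix_const`, `mix_small`) the shift costs at most
`3 L 2^b / log N + 4 (1/2)^b ≤ ε/2` for a fixed large `b` and `N` large.
-/

open Finset Filter Topology
open Pool.Agent.Lib.P4a7640 Pool.Agent.Lib.P4a7640D Pool.Agent.Lib.P4a7640T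

namespace Pool.Agent.Lib.P4a7640E

namespace ThinWAux

/-- the step without a shift -/
theorem noshift {η : ℝ} (hη : 0 ≤ η) {ε : ℝ} (hε : 0 < ε) {δ : ℝ} (hδ0 : 0 < δ) (hδ : δ ≤ ε / 16)
    {y : ℕ} (hy2 : 2 ≤ y) (hyε : 64 * (η + δ) / ε ≤ y) {N : ℕ} (hN : 1 ≤ N) {T : Finset ℕ}
    (hT : ∀ p ∈ T, p.Prime) (hTy : ∀ p ∈ T, y ≤ p) (hsum : ∑ p ∈ T, (1:ℝ) / p ≤ η + δ) :
    mix N (fun M => pr M fun n => dsg T n = -1) ≤ (1 - Real.exp (-(2 * η))) / 2 + ε / 4 := by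
  have hy0 : (0:ℝ) < y := by exact_mod_cast (by omega : 0 < y)
  have h1 := dlog_mean hT hN
  have hprod := prod_ge hy2 hTy
  set M : ℝ := ∑ p ∈ T, (1:ℝ) / p with hM
  have hM0 : 0 ≤ M := Finset.sum_nonneg fun p _ => by positivity
  have h2y : (η + δ) / y ≤ ε / 64 := by
    rw [div_le_iff₀ hy0]
    rw [div_le_iff₀ hε] at hyε
    linarith
  have hexp : (1 + 2 / (y:ℝ)) * M ≤ η + 3 * ε / 32 := by
    have h1 : (1 + 2 / (y:ℝ)) * M ≤ (1 + 2 / (y:ℝ)) * (η + δ) :=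
      mul_le_mul_of_nonneg_left hsum (by positivity)
    have h3 : (1 + 2 / (y:ℝ)) * (η + δ) = η + δ + 2 * ((η + δ) / y) := by ring
    rw [h3] at h1
    linarith
  have hlow : Real.exp (-(2 * η)) - 3 * ε / 16 ≤ ∏ p ∈ T, (1 - 1 / (p:ℝ)) ^ 2 := by
    rw [Finset.prod_pow]
    have hp0 : (0:ℝ) ≤ Real.exp (-((1 + 2 / (y:ℝ)) * M)) := (Real.exp_pos _).le
    have h3 : Real.exp (-((1 + 2 / (y:ℝ)) * M)) ^ 2 ≤ (∏ p ∈ T, (1 - 1 / (p:ℝ))) ^ 2 :=
      pow_le_pow_left₀ hp0 hprod 2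
    refine le_trans ?_ h3
    rw [← Real.exp_nat_mul]
    push_cast
    have h4 : Real.exp (-(2 * η) + -(3 * ε / 16)) ≤
        Real.exp (2 * -((1 + 2 / (y:ℝ)) * M)) := Real.exp_le_exp.2 (by linarith)
    refine le_trans ?_ h4
    rw [Real.exp_add]
    have h5 : 1 - 3 * ε / 16 ≤ Real.exp (-(3 * ε / 16)) := by
      have := Real.add_one_le_exp (-(3 * ε / 16))
      linarith
    have h6 : Real.exp (-(2 * η)) ≤ 1 := Real.exp_le_one_iff.2 (by linarith)
    have h7 : 0 < Real.exp (-(2 * η)) := Real.exp_pos _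
    calc Real.exp (-(2 * η)) - 3 * ε / 16 ≤ Real.exp (-(2 * η)) * (1 - 3 * ε / 16) := by nlinarith
      _ ≤ Real.exp (-(2 * η)) * Real.exp (-(3 * ε / 16)) := mul_le_mul_of_nonneg_left h5 h7.le
  have hsq : ∑ p ∈ T, 1 / (p:ℝ) ^ 2 ≤ ε / 64 := by
    refine le_trans ?_ h2y
    calc ∑ p ∈ T, 1 / (p:ℝ) ^ 2 ≤ ∑ p ∈ T, (1 / (y:ℝ)) * (1 / p) := by
          refine Finset.sum_le_sum fun p hp => ?_
          have hpy : (y:ℝ) ≤ p := by exact_mod_cast hTy p hp
          have hp0 : (0:ℝ) < p := by linarith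
          rw [sq, ← one_div_mul_one_div]
          exact mul_le_mul_of_nonneg_right (one_div_le_one_div_of_le hy0 hpy) (by positivity)
      _ = (1 / (y:ℝ)) * M := by rw [hM, Finset.mul_sum]
      _ ≤ (1 / (y:ℝ)) * (η + δ) := mul_le_mul_of_nonneg_left hsum (by positivity)
      _ = (η + δ) / y := by ring
  linarith

/-- the shift at one scale -/
theorem shift_scale (P : ℕ → Prop) {j L b N M : ℕ} (hj : j ≤ L) (hN : 2 ≤ N) (hM : 1 ≤ M)
    (g : ℝ) (hg0 : 0 ≤ g) (hg : ¬ N ≤ M ^ (2 ^ b) → g = 1) :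
    pr M (fun n => P (n + j)) ≤ pr M P + (3 * L * 2 ^ b / Real.log N + g) := by
  have hl : 0 < Real.log N := Real.log_pos (by exact_mod_cast hN)
  by_cases h : N ≤ M ^ (2 ^ b)
  · have hM2 : 2 ≤ M := by
      by_contra hcon
      have hM1 : M = 1 := by omega
      rw [hM1, one_pow] at h
      omega
    have h1 := (abs_le.1 (pr_shift P j hM2)).2
    have hlM : 0 < Real.log M := Real.log_pos (by exact_mod_cast hM2)
    have h2 : Real.log N ≤ 2 ^ b * Real.log M := by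
      have h3 : Real.log (N:ℝ) ≤ Real.log ((M:ℝ) ^ (2 ^ b)) :=
        Real.log_le_log (by exact_mod_cast (by omega : 0 < N)) (by exact_mod_cast h)
      rw [Real.log_pow] at h3
      push_cast at h3
      exact h3
    have hjL : (j:ℝ) ≤ L := by exact_mod_cast hj
    have h4 : 3 * (j:ℝ) / Real.log M ≤ 3 * L * 2 ^ b / Real.log N := by
      rw [div_le_div_iff₀ hlM hl]
      have hL0 : (0:ℝ) ≤ L := Nat.cast_nonneg L
      calc 3 * (j:ℝ) * Real.log N ≤ 3 * L * Real.log N := by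
            refine mul_le_mul_of_nonneg_right (by linarith) hl.le
        _ ≤ 3 * L * (2 ^ b * Real.log M) := mul_le_mul_of_nonneg_left h2 (by positivity)
        _ = 3 * L * 2 ^ b * Real.log M := by ring
    linarith
  · rw [hg h]
    have h1 := pr_le_one M (fun n => P (n + j))
    have h2 := pr_nonneg M P
    have h3 : 0 ≤ 3 * (L:ℝ) * 2 ^ b / Real.log N := by positivity
    linarith

end ThinWAux

open ThinWAux

theorem thinW {η : ℝ} (hη : 0 ≤ η) (c L : ℕ) {ε : ℝ} (hε : 0 < ε) :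
    ∃ (δ : ℝ) (N₀ : ℕ), 0 < δ ∧ ∀ N ≥ N₀, ∀ T : Finset ℕ, (∀ p ∈ T, p.Prime ∧ N < p ^ c) →
      ∑ p ∈ T, (1:ℝ) / p ≤ η + δ → ∀ j < L,
      mix N (fun M => pr M fun n => dsg T (n + j) = -1) ≤ (1 - Real.exp (-(2 * η))) / 2 + ε := by
  classical
  set δ : ℝ := ε / 16 with hδ
  have hδ0 : 0 < δ := by positivity
  set y : ℕ := max 2 ⌈64 * (η + δ) / ε⌉₊ with hy
  have hy2 : 2 ≤ y := le_max_left _ _
  have hyε : 64 * (η + δ) / ε ≤ y := (Nat.le_ceil _).trans (by exact_mod_cast le_max_right _ _)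
  -- the parameter b
  obtain ⟨b, hb⟩ : ∃ b : ℕ, (1 / 2 : ℝ) ^ b < ε / 16 :=
    exists_pow_lt_of_lt_one (by positivity) (by norm_num)
  obtain ⟨N₁, hN₁⟩ := eventually_atTop.1 (mix_small b)
  set N₀ : ℕ := max (max 2 N₁) (max (y ^ c) ⌈Real.exp (12 * L * 2 ^ b / ε)⌉₊) with hN₀
  refine ⟨δ, N₀, hδ0, ?_⟩
  intro N hN T hT hsum j hj
  have hN2 : 2 ≤ N := ((le_max_left _ _).trans (le_max_left _ _)).trans hN
  have hNN₁ : N₁ ≤ N := ((le_max_right _ _).trans (le_max_left _ _)).trans hN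
  have hNy : y ^ c ≤ N := ((le_max_left _ _).trans (le_max_right _ _)).trans hN
  have hNe : ⌈Real.exp (12 * L * 2 ^ b / ε)⌉₊ ≤ N :=
    ((le_max_right _ _).trans (le_max_right _ _)).trans hN
  have hl : 0 < Real.log N := Real.log_pos (by exact_mod_cast hN2)
  have hTy : ∀ p ∈ T, y ≤ p := by
    intro p hp
    by_contra hcon
    have h1 : p ^ c ≤ y ^ c := Nat.pow_le_pow_left (not_le.1 hcon).le c
    have h2 := (hT p hp).2
    omega
  have h0 := noshift hη hε hδ0 le_rfl hy2 hyε (N := N) (by omega) (T := T)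
    (fun p hp => (hT p hp).1) hTy hsum
  have hsm := hN₁ N hNN₁
  have hlast : 3 * (L:ℝ) * 2 ^ b / Real.log N ≤ ε / 4 := by
    have h1 : Real.exp (12 * L * 2 ^ b / ε) ≤ N := (Nat.le_ceil _).trans (by exact_mod_cast hNe)
    have h2 : 12 * L * 2 ^ b / ε ≤ Real.log N := by
      rw [Real.le_log_iff_exp_le (by exact_mod_cast (by omega : 0 < N))]
      exact h1
    rw [div_le_iff₀ hl]
    rw [div_le_iff₀ hε] at h2
    linarith
  calc mix N (fun M => pr M fun n => dsg T (n + j) = -1)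
      ≤ mix N (fun M => pr M (fun n => dsg T n = -1) +
          (3 * L * 2 ^ b / Real.log N + (if N ≤ M ^ (2 ^ b) then 0 else 1))) := by
        refine mix_mono fun M hM1 hM2 => ?_
        refine shift_scale (fun n => dsg T n = -1) hj.le hN2 hM1 _ ?_ ?_
        · by_cases h : N ≤ M ^ (2 ^ b)
          · rw [if_pos h]
          · rw [if_neg h]; norm_num
        · intro h
          rw [if_neg h]
    _ = mix N (fun M => pr M (fun n => dsg T n = -1)) + (3 * L * 2 ^ b / Real.log N +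
          mix N (fun M => if N ≤ M ^ (2 ^ b) then 0 else 1)) := by
        rw [mix_add, mix_add, mix_const (by omega)]
    _ ≤ ((1 - Real.exp (-(2 * η))) / 2 + ε / 4) + (ε / 4 + 4 * (1 / 2) ^ b) := by
        refine add_le_add h0 (add_le_add hlast ?_)
        convert hsm using 4
    _ ≤ (1 - Real.exp (-(2 * η))) / 2 + ε := by linarith

end Pool.Agent.Lib.P4a7640E
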