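import Mathlib
import Pool.Agent.Lib.P4a7640E.IneqM
import Pool.Agent.Lib.P4a7640E.EntM
import Pool.Agent.Lib.P4a7640E.ThinW

/-!
# The two entropy inequalities
-/

open Finset Filter Topology
open Pool.Agent.Lib.P4a7640 Pool.Agent.Lib.P4a7640D Pool.Agent.Lib.P4a7640T

namespace Pool.Agent.Lib.P4a7640E

/-- the inequality for `η i ≤ log 2` -/
theorem ineq_one {m : ℕ} {f : Fin (m + 1) → ℕ → ℤˣ}
    (hf : ∀ i : Fin m, MultS fun n => f 0 n * f i.succ n)
    {q : Fin m → ℕ} (hq : ∀ i, 0 < q i) (χ : ∀ i, DirichletCharacter ℤ (q i))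
    {η : Fin m → ℝ} (h0 : ∀ i, 0 ≤ η i) (h1 : ∀ i, η i ≤ Real.log 2)
    {l : Filter ℕ} (hl : l ≤ atTop)
    (htop : ∀ (i : Fin m) (c : ℕ) (δ : ℝ), 0 < δ →
      ∀ᶠ N in l, topMass c (fun n => f 0 n * f i.succ n) (χ i) N ≤ η i + δ)
    (hap : ∀ i j : Fin (m + 1), i < j → Aperiodic fun n => f i n * f j n)
    (L : ℕ) (ε : ℝ) (hε : 0 < ε) :
    ∀ᶠ N in l, L * ∑ i, (Real.log 2 - Real.binEntropy (Real.exp (-η i))) - ε ≤
      ∑ i, Ent N (blk (f i) L) := by
  classical
  set u : Fin m → ℕ → ℤˣ := fun i n => f 0 n * f i.succ n with hu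
  set θ : Fin m → ℝ := fun i => 1 - Real.exp (-η i) with hθ
  have hθ0 : ∀ i, 0 ≤ θ i := by
    intro i
    have : Real.exp (-η i) ≤ 1 := Real.exp_le_one_iff.2 (by linarith [h0 i])
    simp only [hθ]; linarith
  have hθ1 : ∀ i, θ i ≤ 2⁻¹ := by
    intro i
    have : Real.exp (-Real.log 2) ≤ Real.exp (-η i) := Real.exp_le_exp.2 (by linarith [h1 i])
    rw [Real.exp_neg, Real.exp_log (by norm_num)] at this
    simp only [hθ]; linarith
  set ε₁ : ℝ := ε / (2 * (L * m + 1)) with hε₁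
  have hε₁0 : 0 < ε₁ := by positivity
  choose δ₁ hδ₁ hbin using fun i => bin_cont (hθ0 i) (hθ1 i) hε₁0
  obtain ⟨c, hc⟩ := ineq_scale hf hq χ hap L 0 (half_pos hε)
  choose δ N₂ hδ hN₂ using fun i => thin (h0 i) (2 ^ c) L (hδ₁ i)
  have e1 : ∀ᶠ N in l, ∀ i, topMass (2 ^ c) (u i) (χ i) N ≤ η i + δ i :=
    eventually_all.2 fun i => htop i (2 ^ c) (δ i) (hδ i)
  have e2 : ∀ᶠ N in l, ∀ i, ∑ p ∈ TT c (u i) (gch (χ i)) N, (1:ℝ) / p ≤
      topMass (2 ^ c) (u i) (χ i) N :=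
    (eventually_all.2 fun i => topMass_le (hq i) (χ i) (u i) c).filter_mono hl
  have e3 : ∀ᶠ N in l, ∀ i, N₂ i ≤ N :=
    (eventually_all.2 fun i => eventually_ge_atTop (N₂ i)).filter_mono hl
  filter_upwards [e1, e2, e3, hc.filter_mono hl] with N k1 k2 k3 k4
  have k5 := k4 N le_rfl (by rw [pow_zero, pow_one])
  set t : Fin m → ℕ → ℤˣ := fun i => dsg (TT c (u i) (gch (χ i)) N) with ht
  have ht1 : ∀ i, ∀ j < L, pr N (fun n => t i (n + j) = -1) ≤ 1 - Real.exp (-η i) + δ₁ i := by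
    intro i j hj
    refine le_trans (pr_mono fun n hn => ?_) (hN₂ i N (k3 i) (TT c (u i) (gch (χ i)) N)
      (fun p hp => ?_) ((k2 i).trans (k1 i)) j hj)
    · by_contra hcon
      push Not at hcon
      have h1 : ((TT c (u i) (gch (χ i)) N).filter fun p => p ∣ n + j) = ∅ :=
        Finset.filter_eq_empty_iff.2 fun p hp => hcon p hp
      have h2 : dsg (TT c (u i) (gch (χ i)) N) (n + j) = 1 := by
        unfold dsg
        rw [h1, Finset.card_empty, pow_zero]
      have h3 : dsg (TT c (u i) (gch (χ i)) N) (n + j) = -1 := hn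
      rw [h2] at h3
      exact absurd h3 (by decide)
    · have h1 := (Finset.mem_filter.1 hp).2
      exact ⟨h1.1, h1.2.1⟩
  have b4 : ∀ i, ∑ j : Fin L, Real.binEntropy (pr N fun n => t i (n + j) = -1) ≤
      L * (Real.binEntropy (Real.exp (-η i)) + ε₁) := by
    intro i
    have e2 : ∀ j ∈ (Finset.univ : Finset (Fin L)),
        Real.binEntropy (pr N fun n => t i (n + j) = -1) ≤
        Real.binEntropy (Real.exp (-η i)) + ε₁ := by
      intro j _
      have e3 := hbin i (pr N fun n => t i (n + j) = -1) (pr_nonneg _ _) (pr_le_one _ _)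
        (ht1 i j j.2)
      have e4 : Real.binEntropy (θ i) = Real.binEntropy (Real.exp (-η i)) := by
        simp only [hθ]
        exact Real.binEntropy_one_sub _
      rwa [e4] at e3
    refine (Finset.sum_le_sum e2).trans (le_of_eq ?_)
    rw [Finset.sum_const, Finset.card_univ, Fintype.card_fin, nsmul_eq_mul]
  have k6 : ∑ i, ∑ j : Fin L, Real.binEntropy (pr N fun n => t i (n + j) = -1) ≤
      ∑ i, (L:ℝ) * (Real.binEntropy (Real.exp (-η i)) + ε₁) := Finset.sum_le_sum fun i _ => b4 i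
  have k7 : ∑ i : Fin m, (L:ℝ) * (Real.binEntropy (Real.exp (-η i)) + ε₁) =
      L * ∑ i, Real.binEntropy (Real.exp (-η i)) + L * m * ε₁ := by
    rw [← Finset.mul_sum, Finset.sum_add_distrib, Finset.sum_const, Finset.card_univ,
      Fintype.card_fin, nsmul_eq_mul]
    ring
  have k8 : (L:ℝ) * m * ε₁ ≤ ε / 2 := by
    have h2 : (L:ℝ) * m * ε₁ = (L * m / (L * m + 1)) * (ε / 2) := by
      rw [hε₁]
      field_simp
    have h3 : (L:ℝ) * m / (L * m + 1) ≤ 1 := by
      rw [div_le_one (by positivity)]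
      linarith
    rw [h2]
    nlinarith
  have k9 : (L:ℝ) * ∑ i, (Real.log 2 - Real.binEntropy (Real.exp (-η i))) =
      L * (m * Real.log 2) - L * ∑ i, Real.binEntropy (Real.exp (-η i)) := by
    rw [Finset.sum_sub_distrib, Finset.sum_const, Finset.card_univ, Fintype.card_fin,
      nsmul_eq_mul]
    ring
  rw [k9]
  linarith

/-- the inequality for all `η i` -/
theorem ineq_two {m : ℕ} {f : Fin (m + 1) → ℕ → ℤˣ}
    (hf : ∀ i : Fin m, MultS fun n => f 0 n * f i.succ n)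
    {q : Fin m → ℕ} (hq : ∀ i, 0 < q i) (χ : ∀ i, DirichletCharacter ℤ (q i))
    {η : Fin m → ℝ} (h0 : ∀ i, 0 ≤ η i)
    {l : Filter ℕ} (hl : l ≤ atTop)
    (htop : ∀ (i : Fin m) (c : ℕ) (δ : ℝ), 0 < δ →
      ∀ᶠ N in l, topMass c (fun n => f 0 n * f i.succ n) (χ i) N ≤ η i + δ)
    (hap : ∀ i j : Fin (m + 1), i < j → Aperiodic fun n => f i n * f j n)
    (L : ℕ) (ε : ℝ) (hε : 0 < ε) :
    ∀ᶠ N in l, L * ∑ i, (Real.log 2 -
        Real.binEntropy ((1 - Real.exp (-(2 * η i))) / 2)) / 2 - ε ≤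
      ∑ i, Ent N (blk (f i) L) := by
  classical
  set u : Fin m → ℕ → ℤˣ := fun i n => f 0 n * f i.succ n with hu
  set θ : Fin m → ℝ := fun i => (1 - Real.exp (-(2 * η i))) / 2 with hθ
  have hθ0 : ∀ i, 0 ≤ θ i := by
    intro i
    have : Real.exp (-(2 * η i)) ≤ 1 := Real.exp_le_one_iff.2 (by linarith [h0 i])
    simp only [hθ]; linarith
  have hθ1 : ∀ i, θ i ≤ 2⁻¹ := by
    intro i
    have : 0 < Real.exp (-(2 * η i)) := Real.exp_pos _
    simp only [hθ]
    rw [div_le_iff₀ two_pos]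
    linarith
  set K : ℝ := (L:ℝ) * (m + 1) with hK
  have hK0 : 0 ≤ K := by positivity
  have hlog : Real.log 2 ≤ 1 := by
    have := Real.log_two_lt_d9
    linarith
  have hlog0 : 0 < Real.log 2 := Real.log_pos (by norm_num)
  set e : ℝ := ε / (8 * (K + 1)) with he
  have he0 : 0 < e := by positivity
  have heK : e * (8 * (K + 1)) = ε := by
    rw [he]
    field_simp
  choose δ₁ hδ₁ hbin using fun i => bin_cont (hθ0 i) (hθ1 i) he0
  obtain ⟨b, hb⟩ : ∃ b : ℕ, 4 * (1 / 2 : ℝ) ^ b ≤ e := by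
    obtain ⟨b, hb⟩ := exists_pow_lt_of_lt_one (show 0 < e / 4 by positivity)
      (show (1 / 2 : ℝ) < 1 by norm_num)
    exact ⟨b, by linarith⟩
  obtain ⟨c, hc⟩ := ineq_scale hf hq χ hap L b he0
  choose δ N₂ hδ hN₂ using fun i => thinW (h0 i) (2 ^ c) L (hδ₁ i)
  have e1 : ∀ᶠ N in l, ∀ i, topMass (2 ^ c) (u i) (χ i) N ≤ η i + δ i :=
    eventually_all.2 fun i => htop i (2 ^ c) (δ i) (hδ i)
  have e2 : ∀ᶠ N in l, ∀ i, ∑ p ∈ TT c (u i) (gch (χ i)) N, (1:ℝ) / p ≤
      topMass (2 ^ c) (u i) (χ i) N :=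
    (eventually_all.2 fun i => topMass_le (hq i) (χ i) (u i) c).filter_mono hl
  have e3 : ∀ᶠ N in l, ∀ i, N₂ i ≤ N :=
    (eventually_all.2 fun i => eventually_ge_atTop (N₂ i)).filter_mono hl
  have e4 : ∀ᶠ N in l, 1 ≤ N := (eventually_ge_atTop 1).filter_mono hl
  have e5 : ∀ᶠ N in l, ∀ X : ℕ → Fin L → ℤˣ,
      (1 / 2 - e) * mix N (fun M => Ent M X) ≤ Ent N X := (ent_mix he0).filter_mono hl
  have e6 : ∀ᶠ N in l, mix N (fun M => if N ≤ M ^ (2 ^ b) then 0 else 1) ≤ 4 * (1 / 2) ^ b :=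
    (mix_small b).filter_mono hl
  filter_upwards [e1, e2, e3, hc.filter_mono hl, e4, e5, e6] with N k1 k2 k3 k4 hN1 k5 k6
  set t : Fin m → ℕ → ℤˣ := fun i => dsg (TT c (u i) (gch (χ i)) N) with ht
  set G : Fin m → Fin L → ℕ → ℝ := fun i j M =>
    Real.binEntropy (pr M fun n => t i (n + j) = -1) with hG
  have hG0 : ∀ i j M, 0 ≤ G i j M := fun i j M =>
    Real.binEntropy_nonneg (pr_nonneg _ _) (pr_le_one _ _)
  -- all the scales
  have s1 : ∀ M, 1 ≤ M → M ≤ N → L * (m * Real.log 2) - e ≤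
      ∑ i, Ent M (blk (f i) L) + ∑ i, ∑ j : Fin L, G i j M +
        L * (m * Real.log 2) * (if N ≤ M ^ (2 ^ b) then 0 else 1) := by
    intro M hM1 hMN
    by_cases h : N ≤ M ^ (2 ^ b)
    · have h2 := k4 M hMN h
      rw [if_pos h, mul_zero, add_zero]
      exact h2
    · rw [if_neg h, mul_one]
      have h2 : 0 ≤ ∑ i, Ent M (blk (f i) L) := Finset.sum_nonneg fun i _ => Ent_nonneg _ _
      have h3 : 0 ≤ ∑ i, ∑ j : Fin L, G i j M :=
        Finset.sum_nonneg fun i _ => Finset.sum_nonneg fun j _ => hG0 i j M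
      linarith
  have s2 := mix_mono (N := N) s1
  rw [mix_const hN1, mix_add, mix_add, mix_const_mul, mix_sum, mix_sum] at s2
  have s3 : ∀ i, mix N (fun M => ∑ j : Fin L, G i j M) ≤
      L * (Real.binEntropy (θ i) + e) := by
    intro i
    rw [mix_sum]
    have h1 : ∀ j ∈ (Finset.univ : Finset (Fin L)), mix N (fun M => G i j M) ≤
        Real.binEntropy (θ i) + e := by
      intro j _
      have h2 : mix N (fun M => G i j M) ≤
          Real.binEntropy (mix N fun M => pr M fun n => t i (n + j) = -1) :=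
        mix_jensen hN1 Real.strictConcave_binEntropy.concaveOn
          fun M => ⟨pr_nonneg _ _, pr_le_one _ _⟩
      refine h2.trans (hbin i _ (mix_nonneg fun M => pr_nonneg _ _) ?_ ?_)
      · have h3 := mix_mono (N := N) (φ := fun M => pr M fun n => t i (n + j) = -1)
          (ψ := fun _ => 1) fun M _ _ => pr_le_one _ _
        rwa [mix_const hN1] at h3
      · exact hN₂ i N (k3 i) (TT c (u i) (gch (χ i)) N) (fun p hp =>
          ⟨(Finset.mem_filter.1 hp).2.1, (Finset.mem_filter.1 hp).2.2.1⟩)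
          ((k2 i).trans (k1 i)) j j.2
    refine (Finset.sum_le_sum h1).trans (le_of_eq ?_)
    rw [Finset.sum_const, Finset.card_univ, Fintype.card_fin, nsmul_eq_mul]
  have s4 : ∑ i, mix N (fun M => ∑ j : Fin L, G i j M) ≤
      ∑ i, (L:ℝ) * (Real.binEntropy (θ i) + e) := Finset.sum_le_sum fun i _ => s3 i
  have s5 : ∑ i : Fin m, (L:ℝ) * (Real.binEntropy (θ i) + e) =
      L * ∑ i, Real.binEntropy (θ i) + L * m * e := by
    rw [← Finset.mul_sum, Finset.sum_add_distrib, Finset.sum_const, Finset.card_univ,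
      Fintype.card_fin, nsmul_eq_mul]
    ring
  -- from the scales to N
  have s6 : ∀ i, mix N (fun M => Ent M (blk (f i) L)) ≤ L * Real.log 2 := by
    intro i
    have h1 : ∀ M, 1 ≤ M → M ≤ N → Ent M (blk (f i) L) ≤ L * Real.log 2 := by
      intro M _ _
      have h2 := Ent_le_log M (blk (f i) L)
      rw [Fintype.card_fun, Fintype.card_fin, Fintype.card_units_int] at h2
      push_cast at h2
      rwa [Real.log_pow] at h2
    have h3 := mix_mono h1
    rwa [mix_const hN1] at h3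
  have s7 : ∑ i, mix N (fun M => Ent M (blk (f i) L)) ≤ (m + 1) * (L * Real.log 2) := by
    refine (Finset.sum_le_sum fun i _ => s6 i).trans (le_of_eq ?_)
    rw [Finset.sum_const, Finset.card_univ, Fintype.card_fin, nsmul_eq_mul]
    push_cast
    ring
  have s8 : (1 / 2 - e) * ∑ i, mix N (fun M => Ent M (blk (f i) L)) ≤
      ∑ i, Ent N (blk (f i) L) := by
    rw [Finset.mul_sum]
    exact Finset.sum_le_sum fun i _ => k5 (blk (f i) L)
  have s9 : (L:ℝ) * ∑ i, (Real.log 2 - Real.binEntropy (θ i)) / 2 =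
      (L * (m * Real.log 2) - L * ∑ i, Real.binEntropy (θ i)) / 2 := by
    rw [← Finset.sum_div, Finset.sum_sub_distrib, Finset.sum_const, Finset.card_univ,
      Fintype.card_fin, nsmul_eq_mul]
    ring
  have s10 : (L:ℝ) * (m * Real.log 2) ≤ K := by
    rw [hK]
    refine mul_le_mul_of_nonneg_left ?_ (Nat.cast_nonneg L)
    have : (m:ℝ) * Real.log 2 ≤ m * 1 := mul_le_mul_of_nonneg_left hlog (Nat.cast_nonneg m)
    linarith
  have s11 : L * (m * Real.log 2) * mix N (fun M => if N ≤ M ^ (2 ^ b) then 0 else 1) ≤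
      K * e := by
    have h1 : 0 ≤ mix N (fun M => if N ≤ M ^ (2 ^ b) then (0:ℝ) else 1) :=
      mix_nonneg fun M => by split_ifs <;> norm_num
    have h2 : 0 ≤ (L:ℝ) * (m * Real.log 2) := by positivity
    calc _ ≤ K * mix N (fun M => if N ≤ M ^ (2 ^ b) then (0:ℝ) else 1) :=
          mul_le_mul_of_nonneg_right s10 h1
      _ ≤ K * e := mul_le_mul_of_nonneg_left (k6.trans hb) hK0
  have s12 : (L:ℝ) * m * e ≤ K * e := by
    rw [hK]
    refine mul_le_mul_of_nonneg_right ?_ he0.le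
    refine mul_le_mul_of_nonneg_left ?_ (Nat.cast_nonneg L)
    linarith
  have s13 : e * ∑ i, mix N (fun M => Ent M (blk (f i) L)) ≤ e * K := by
    refine mul_le_mul_of_nonneg_left (s7.trans ?_) he0.le
    rw [hK]
    have h1 : ((m:ℝ) + 1) * (L * Real.log 2) ≤ (m + 1) * (L * 1) :=
      mul_le_mul_of_nonneg_left (mul_le_mul_of_nonneg_left hlog (Nat.cast_nonneg L))
        (by positivity)
    linarith
  have hgoal : (L:ℝ) * ∑ i, (Real.log 2 - Real.binEntropy (θ i)) / 2 - ε ≤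
      ∑ i, Ent N (blk (f i) L) := by
    rw [s9]
    have t1 : L * (m * Real.log 2) - L * ∑ i, Real.binEntropy (θ i) - e - 2 * (K * e) ≤
        ∑ i, mix N (fun M => Ent M (blk (f i) L)) := by linarith
    have t2 : (1 / 2 - e) * ∑ i, mix N (fun M => Ent M (blk (f i) L)) =
        1 / 2 * ∑ i, mix N (fun M => Ent M (blk (f i) L)) -
        e * ∑ i, mix N (fun M => Ent M (blk (f i) L)) := by ring
    rw [t2] at s8
    nlinarith
  exact hgoal

end Pool.Agent.Lib.P4a7640E
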