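import Mathlib
import Pool.Agent.Lib.P4a7640E.Thin

/-!
# Entropies of Furstenberg systems

Module P4a7640E.Lim (1.8 h). Imports are black boxes.

`cyl_tendsto`: for `x : Fin L → ℤˣ` let `F` be the indicator of the cylinder
`{y | ∀ j, y j = sign (x j)}`; it is continuous (clopen set, `SignType` is discrete:
`IsClopen`, finite intersection of preimages of points; `continuous_indicator` or
`IsClopen.continuous_indicator`-like, `continuous_of_discreteTopology` composed with projections).
`muInt f N F = (∑ n ≤ N, n ≥ 1, [∀ j, f (n+j) = x j] / n) / log N = pr N (..) * LA 1 N` (for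
`n ≥ 1`, `xf f (j + n) = sign (f (n + j))`, and the sign map on `ℤˣ` is injective), and `LA 1 N → 1`
(`tendsto_LA_one`). So `pr N (blk f L n = x) → ∫ F dμ = μ.real (cylinder)`
(`MeasureTheory.integral_indicator_one`, the cylinder is clopen, hence measurable).
`HM_eq`: `HM μ L` is a sum over `x : Fin L → SignType`; if some `x j = 0` then the same argument gives
`μ.real (cylinder) = lim 0 = 0`, `negMulLog 0 = 0`; the other `x` are the images of the sign
patterns. So `Ent N (blk f L) → HM μ L` (`Real.continuous_negMulLog`, finite sums).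
`HM_sub`: `blk f (L + L') n` is a function of `(blk f L n, blk f L' (n + L))`, so by `Ent_comp` and
`Ent_pair` `Ent N (blk f (L+L')) ≤ Ent N (blk f L) + Ent N (fun n => blk f L' (n + L))`, and by
`pr_shift` the last term has the same limit as `Ent N (blk f L')`.
`hKS_tendsto`: `HM μ` is subadditive and nonnegative: `Subadditive.tendsto_lim`
(`Subadditive.lim = sInf ((fun n => u n / n) '' Ici 1)`), reindex by `L + 1`.
-/

open Finset Filter Topology MeasureTheory
open Pool.Agent.Lib.P4a7640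

namespace Pool.Agent.Lib.P4a7640E

namespace LimAux

/-- the cylinder set of a pattern -/
def cyl (L : ℕ) (x : Fin L → SignType) : Set XX := {y | ∀ j : Fin L, y (j : ℕ) = x j}

/-- the sign of a unit -/
noncomputable def sg (u : ℤˣ) : SignType := SignType.sign ((u : ℤˣ) : ℤ)

theorem sg_inj : Function.Injective sg := by
  intro u v h
  unfold sg at h
  rcases Int.units_eq_one_or u with rfl | rfl <;> rcases Int.units_eq_one_or v with rfl | rfl
  · rfl
  · simp at h
  · simp at h
  · rfl

theorem sg_range (s : SignType) (hs : s ≠ 0) : ∃ u : ℤˣ, sg u = s := by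
  unfold sg
  rcases s with _ | _ | _
  · exact absurd rfl hs
  · exact ⟨-1, by simp⟩
  · exact ⟨1, by simp⟩

theorem cyl_clopen (L : ℕ) (x : Fin L → SignType) : IsClopen (cyl L x) := by
  have h : cyl L x = ⋂ j : Fin L, (fun y : XX => y ((j : ℕ) : ℤ)) ⁻¹' {x j} := by
    ext y
    simp [cyl]
  rw [h]
  exact isClopen_iInter_of_finite fun j =>
    (isClopen_discrete {x j}).preimage (continuous_apply (((j : ℕ) : ℤ)))

/-- the integral of the indicator of a cylinder -/
theorem cyl_lim {f : ℕ → ℤˣ} {l : Filter ℕ} {μ : Measure XX} (h : FurstAlong f l μ) (L : ℕ)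
    (x : Fin L → SignType) :
    Tendsto (fun N => muInt f N ((cyl L x).indicator (fun _ => (1 : ℝ)))) l
      (𝓝 (μ.real (cyl L x))) := by
  have h1 := h.2 ((cyl L x).indicator (fun _ => (1 : ℝ)))
    ((cyl_clopen L x).continuous_indicator continuous_const)
  have h2 : ∫ y, (cyl L x).indicator (fun _ => (1 : ℝ)) y ∂μ = μ.real (cyl L x) := by
    rw [integral_indicator (cyl_clopen L x).isOpen.measurableSet]
    simp
  rw [h2] at h1
  exact h1

theorem xf_shift (f : ℕ → ℤˣ) {n : ℕ} (hn : 1 ≤ n) (j : ℕ) :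
    xf f ((j : ℤ) + (n : ℤ)) = sg (f (n + j)) := by
  unfold xf sg
  have h1 : (0 : ℤ) < (j : ℤ) + (n : ℤ) := by omega
  rw [if_pos h1]
  have h2 : ((j : ℤ) + (n : ℤ)).toNat = n + j := by omega
  rw [h2]

theorem mem_cyl (f : ℕ → ℤˣ) {n : ℕ} (hn : 1 ≤ n) (L : ℕ) (x : Fin L → SignType) :
    (fun i : ℤ => xf f (i + n)) ∈ cyl L x ↔ ∀ j : Fin L, sg (f (n + j)) = x j := by
  refine forall_congr' fun j => ?_
  show xf f (((j : ℕ) : ℤ) + (n : ℤ)) = x j ↔ _
  rw [xf_shift f hn]

open Classical in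
/-- `muInt` of the indicator of the cylinder of a sign pattern -/
theorem muInt_cyl (f : ℕ → ℤˣ) (L : ℕ) (x : Fin L → ℤˣ) {N : ℕ} (hN : 2 ≤ N) :
    muInt f N ((cyl L (fun j => sg (x j))).indicator (fun _ => (1 : ℝ))) =
      pr N (fun n => blk f L n = x) * LA (fun _ => 1) N := by
  have hlog : 0 < Real.log N := Real.log_pos (by exact_mod_cast hN)
  have hS : 0 < ∑ n ∈ Icc 1 N, (1 : ℝ) / n := by
    refine Finset.sum_pos (fun n hn => ?_) ⟨1, by rw [Finset.mem_Icc]; omega⟩
    rw [Finset.mem_Icc] at hn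
    have : (0 : ℝ) < n := by exact_mod_cast hn.1
    positivity
  have h1 : ∑ n ∈ Icc 1 N, (cyl L (fun j => sg (x j))).indicator (fun _ => (1 : ℝ))
      (fun i : ℤ => xf f (i + n)) / (n : ℝ) =
      ∑ n ∈ (Icc 1 N).filter (fun n => blk f L n = x), (1 : ℝ) / n := by
    rw [Finset.sum_filter]
    refine Finset.sum_congr rfl fun n hn => ?_
    rw [Finset.mem_Icc] at hn
    have h2 : (fun i : ℤ => xf f (i + n)) ∈ cyl L (fun j => sg (x j)) ↔ blk f L n = x := by
      rw [mem_cyl f hn.1]
      constructor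
      · intro h
        funext j
        exact sg_inj (h j)
      · rintro rfl j
        rfl
    by_cases h3 : blk f L n = x
    · rw [if_pos h3, Set.indicator_of_mem (h2.2 h3)]
    · rw [if_neg h3, Set.indicator_of_notMem (fun h => h3 (h2.1 h)), zero_div]
  unfold muInt LA pr
  rw [h1]
  field_simp

theorem pr_tendsto {f : ℕ → ℤˣ} {l : Filter ℕ} (hl : l ≤ atTop) {μ : Measure XX}
    (h : FurstAlong f l μ) (L : ℕ) (x : Fin L → ℤˣ) :
    Tendsto (fun N => pr N (fun n => blk f L n = x)) l (𝓝 (μ.real (cyl L (fun j => sg (x j))))) := by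
  have h1 := cyl_lim h L (fun j => sg (x j))
  have h2 : Tendsto (LA fun _ => 1) l (𝓝 1) := tendsto_LA_one.mono_left hl
  have h3 := h1.div h2 one_ne_zero
  rw [div_one] at h3
  refine h3.congr' ?_
  have h4 : ∀ᶠ N in l, 2 ≤ N := hl (eventually_ge_atTop 2)
  filter_upwards [h4] with N hN
  simp only [Pi.div_apply]
  rw [muInt_cyl f L x hN]
  have := one_le_LA_one hN
  field_simp

theorem cyl_zero {f : ℕ → ℤˣ} {l : Filter ℕ} [l.NeBot] {μ : Measure XX}
    (h : FurstAlong f l μ) (L : ℕ) (x : Fin L → SignType) (j : Fin L) (hj : x j = 0) :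
    μ.real (cyl L x) = 0 := by
  have h1 := cyl_lim h L x
  have h2 : ∀ N, muInt f N ((cyl L x).indicator (fun _ => (1 : ℝ))) = 0 := by
    intro N
    unfold muInt
    rw [Finset.sum_eq_zero, zero_div]
    intro n hn
    rw [Finset.mem_Icc] at hn
    rw [Set.indicator_of_notMem, zero_div]
    rw [mem_cyl f hn.1]
    intro h3
    have h4 := h3 j
    rw [hj] at h4
    unfold sg at h4
    rcases Int.units_eq_one_or (f (n + j)) with h5 | h5 <;> rw [h5] at h4 <;> simp at h4
  simp only [h2] at h1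
  exact (tendsto_nhds_unique h1 tendsto_const_nhds)

theorem HM_eq {f : ℕ → ℤˣ} {l : Filter ℕ} [l.NeBot] {μ : Measure XX}
    (h : FurstAlong f l μ) (L : ℕ) :
    HM μ L = ∑ x : Fin L → ℤˣ, Real.negMulLog (μ.real (cyl L (fun j => sg (x j)))) := by
  unfold HM
  symm
  refine Fintype.sum_of_injective (fun (x : Fin L → ℤˣ) (j : Fin L) => sg (x j)) ?_ _ _ ?_ ?_
  · intro x y hxy
    funext j
    exact sg_inj (congrFun hxy j)
  · intro x hx
    have h1 : ∃ j, x j = 0 := by
      by_contra hcon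
      push Not at hcon
      apply hx
      choose u hu using fun j => sg_range (x j) (hcon j)
      exact ⟨u, funext hu⟩
    obtain ⟨j, hj⟩ := h1
    have h2 := cyl_zero h L x j hj
    have h3 : μ.real {y | ∀ j : Fin L, y (j : ℕ) = x j} = 0 := h2
    rw [h3, Real.negMulLog_zero]
  · intro x
    rfl

end LimAux

open LimAux

theorem Ent_tendsto {f : ℕ → ℤˣ} {l : Filter ℕ} (hl : l ≤ atTop) {μ : Measure XX}
    (h : FurstAlong f l μ) (L : ℕ) : Tendsto (fun N => Ent N (blk f L)) l (𝓝 (HM μ L)) := by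
  rcases l.eq_or_neBot with hbot | hne
  · rw [hbot]
    exact tendsto_bot
  · rw [HM_eq h L]
    unfold Ent
    refine tendsto_finsetSum _ fun x _ => ?_
    exact (Real.continuous_negMulLog.tendsto _).comp (pr_tendsto hl h L x)

namespace LimAux

theorem pr_shift_tendsto {l : Filter ℕ} (hl : l ≤ atTop) (P : ℕ → Prop) (j : ℕ) {c : ℝ}
    (h : Tendsto (fun N => pr N P) l (𝓝 c)) :
    Tendsto (fun N => pr N (fun n => P (n + j))) l (𝓝 c) := by
  have h1 : Tendsto (fun N : ℕ => 3 * (j : ℝ) / Real.log N) l (𝓝 0) := by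
    have h2 : Tendsto (fun N : ℕ => Real.log (N : ℝ)) l atTop :=
      (Real.tendsto_log_atTop.comp tendsto_natCast_atTop_atTop).mono_left hl
    exact h2.const_div_atTop _
  have h3 : Tendsto (fun N => pr N (fun n => P (n + j)) - pr N P) l (𝓝 0) := by
    refine squeeze_zero_norm' ?_ h1
    have h4 : ∀ᶠ N in l, 2 ≤ N := hl (eventually_ge_atTop 2)
    filter_upwards [h4] with N hN
    rw [Real.norm_eq_abs]
    exact pr_shift P j hN
  have h5 := h3.add h
  rw [zero_add] at h5
  refine h5.congr fun N => ?_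
  ring

theorem Ent_shift_tendsto {f : ℕ → ℤˣ} {l : Filter ℕ} [l.NeBot] (hl : l ≤ atTop) {μ : Measure XX}
    (h : FurstAlong f l μ) (L j : ℕ) :
    Tendsto (fun N => Ent N (fun n => blk f L (n + j))) l (𝓝 (HM μ L)) := by
  rw [HM_eq h L]
  unfold Ent
  refine tendsto_finsetSum _ fun x _ => ?_
  exact (Real.continuous_negMulLog.tendsto _).comp
    (pr_shift_tendsto hl (fun n => blk f L n = x) j (pr_tendsto hl h L x))

theorem HM_sub {f : ℕ → ℤˣ} {l : Filter ℕ} [l.NeBot] (hl : l ≤ atTop) {μ : Measure XX}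
    (h : FurstAlong f l μ) : Subadditive (HM μ) := by
  intro L L'
  have h1 := Ent_tendsto hl h (L + L')
  have h2 := (Ent_tendsto hl h L).add (Ent_shift_tendsto hl h L' L)
  refine le_of_tendsto_of_tendsto' h1 h2 fun N => ?_
  refine le_trans ?_ (Ent_pair N (blk f L) (fun n => blk f L' (n + L)))
  have h3 : blk f (L + L') = fun n => (fun q : (Fin L → ℤˣ) × (Fin L' → ℤˣ) =>
      Fin.append q.1 q.2) (blk f L n, blk f L' (n + L)) := by
    funext n j
    refine Fin.addCases (fun i => ?_) (fun i => ?_) j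
    · simp only [Fin.append_left]
      rfl
    · simp only [Fin.append_right]
      unfold blk
      rw [Fin.val_natAdd, add_assoc]
  rw [h3]
  exact Ent_comp N (fun n => (blk f L n, blk f L' (n + L)))
    (fun q : (Fin L → ℤˣ) × (Fin L' → ℤˣ) => (Fin.append q.1 q.2 : Fin (L + L') → ℤˣ))

theorem HM_nonneg {μ : Measure XX} [IsProbabilityMeasure μ] (L : ℕ) : 0 ≤ HM μ L := by
  unfold HM
  exact Finset.sum_nonneg fun x _ => Real.negMulLog_nonneg measureReal_nonneg measureReal_le_one

end LimAux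

theorem hKS_tendsto {f : ℕ → ℤˣ} {l : Filter ℕ} [l.NeBot] (hl : l ≤ atTop) {μ : Measure XX}
    (h : FurstAlong f l μ) : Tendsto (fun L : ℕ => HM μ L / L) atTop (𝓝 (hKS μ)) := by
  haveI := h.1
  have hsub := HM_sub hl h
  have hbdd : BddBelow (Set.range fun n : ℕ => HM μ n / n) := by
    refine ⟨0, ?_⟩
    rintro _ ⟨n, rfl⟩
    exact div_nonneg (HM_nonneg n) (Nat.cast_nonneg n)
  have h1 := hsub.tendsto_lim hbdd
  have h2 : hsub.lim = hKS μ := by
    unfold Subadditive.lim hKS
    rw [iInf]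
    congr 1
    ext y
    constructor
    · rintro ⟨n, hn, rfl⟩
      rw [Set.mem_Ici] at hn
      refine ⟨n - 1, ?_⟩
      obtain ⟨m, rfl⟩ : ∃ m, n = m + 1 := ⟨n - 1, by omega⟩
      simp only [Nat.add_sub_cancel]
      push_cast
      rfl
    · rintro ⟨n, rfl⟩
      refine ⟨n + 1, by rw [Set.mem_Ici]; omega, ?_⟩
      simp only
      push_cast
      rfl
  rw [← h2]
  exact h1

end Pool.Agent.Lib.P4a7640E
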