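import Mathlib
import Pool.Agent.Lib.P4a7640E.EntB

/-!
# Entropy and the number of patterns

Module P4a7640E.Pat (0.7 h). Imports are black boxes.

`Ent N (blk f L) = ∑ x ∉ pats, negMulLog (p_N x) + ∑ x ∈ pats, negMulLog (p_N x)`, `p_N x = pr N (blk f L n = x)`.
The first sum tends to `0` along `l` (for `x ∉ pats`, `p_N x → 0` and `negMulLog` is continuous,
`negMulLog 0 = 0`). The second is `≤ log |pats| + (1 - ∑ x ∈ pats, p_N x)` by `sum_negMulLog_le`, and
`1 - ∑ x ∈ pats, p_N x = ∑ x ∉ pats, p_N x → 0` by `pr_sum` (`N ≥ 1` eventually). `pats` is nonempty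
since otherwise all `p_N x → 0`, but their sum is `1` (`l` is `NeBot`).
-/

open Finset Filter Topology
open Pool.Agent.Lib.P4a7640

namespace Pool.Agent.Lib.P4a7640E

theorem pats_nonempty (f : ℕ → ℤˣ) {l : Filter ℕ} [l.NeBot] (hl : l ≤ atTop) (L : ℕ) :
    (pats f l L).Nonempty := by
  classical
  by_contra hne
  rw [Finset.not_nonempty_iff_eq_empty] at hne
  have h1 : ∀ x : Fin L → ℤˣ, Tendsto (fun N => pr N fun n => blk f L n = x) l (𝓝 0) := by
    intro x
    by_contra hx
    have : x ∈ pats f l L := by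
      unfold pats
      rw [mem_filter]
      exact ⟨mem_univ x, hx⟩
    rw [hne] at this
    exact absurd this (Finset.notMem_empty x)
  have h2 : Tendsto (fun N => ∑ x : Fin L → ℤˣ, pr N fun n => blk f L n = x) l (𝓝 0) := by
    have := tendsto_finsetSum (univ : Finset (Fin L → ℤˣ)) (fun x _ => h1 x)
    simpa using this
  have h3 : (fun N => ∑ x : Fin L → ℤˣ, pr N fun n => blk f L n = x) =ᶠ[l] fun _ => 1 := by
    have : ∀ᶠ N in l, 1 ≤ N := hl (eventually_ge_atTop 1)
    filter_upwards [this] with N hN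
    exact pr_sum hN (blk f L)
  have h4 : Tendsto (fun _ : ℕ => (1 : ℝ)) l (𝓝 0) := h2.congr' h3
  have h5 := tendsto_nhds_unique h4 tendsto_const_nhds
  norm_num at h5

theorem Ent_le_pats (f : ℕ → ℤˣ) {l : Filter ℕ} [l.NeBot] (hl : l ≤ atTop) (L : ℕ) {ε : ℝ}
    (hε : 0 < ε) : ∀ᶠ N in l, Ent N (blk f L) ≤ Real.log (pats f l L).card + ε := by
  classical
  have hne := pats_nonempty f hl L
  have h1 : ∀ x ∈ (pats f l L)ᶜ, Tendsto (fun N => pr N fun n => blk f L n = x) l (𝓝 0) := by
    intro x hx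
    by_contra hx'
    rw [mem_compl] at hx
    apply hx
    unfold pats
    rw [mem_filter]
    exact ⟨mem_univ x, hx'⟩
  have h2 : Tendsto (fun N => ∑ x ∈ (pats f l L)ᶜ, ((pr N fun n => blk f L n = x) +
      Real.negMulLog (pr N fun n => blk f L n = x))) l (𝓝 0) := by
    have h3 : ∀ x ∈ (pats f l L)ᶜ, Tendsto (fun N => (pr N fun n => blk f L n = x) +
      Real.negMulLog (pr N fun n => blk f L n = x)) l (𝓝 0) := by
      intro x hx
      have h4 := h1 x hx
      have h5 : Tendsto (fun N => Real.negMulLog (pr N fun n => blk f L n = x)) l (𝓝 0) := by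
        have := (Real.continuous_negMulLog.tendsto 0).comp h4
        rw [Real.negMulLog_zero] at this
        exact this
      simpa using h4.add h5
    have := tendsto_finsetSum ((pats f l L)ᶜ) h3
    simpa using this
  have hN1 : ∀ᶠ N in l, 1 ≤ N := hl (eventually_ge_atTop 1)
  have h6 : ∀ᶠ N in l, ∑ x ∈ (pats f l L)ᶜ, ((pr N fun n => blk f L n = x) +
      Real.negMulLog (pr N fun n => blk f L n = x)) < ε := h2.eventually_lt_const hε
  filter_upwards [hN1, h6] with N hN hlt
  have e1 : Ent N (blk f L) = ∑ x ∈ pats f l L, Real.negMulLog (pr N fun n => blk f L n = x) +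
      ∑ x ∈ (pats f l L)ᶜ, Real.negMulLog (pr N fun n => blk f L n = x) := by
    unfold Ent
    exact (Finset.sum_add_sum_compl _ _).symm
  have e2 : ∑ x ∈ pats f l L, (pr N fun n => blk f L n = x) +
      ∑ x ∈ (pats f l L)ᶜ, (pr N fun n => blk f L n = x) = 1 := by
    rw [Finset.sum_add_sum_compl]
    exact pr_sum hN (blk f L)
  have hc0 : 0 ≤ ∑ x ∈ (pats f l L)ᶜ, (pr N fun n => blk f L n = x) :=
    Finset.sum_nonneg fun x _ => pr_nonneg N _
  have e3 := sum_negMulLog_le (pats f l L) hne (fun x => pr N fun n => blk f L n = x)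
    (fun x _ => pr_nonneg N _) (by linarith)
  rw [Finset.sum_add_distrib] at hlt
  rw [e1]
  linarith

end Pool.Agent.Lib.P4a7640E
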