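import Mathlib
import Pool.Agent.Lib.P4a7640E.IneqF
import Pool.Agent.Lib.P4a7640E.Lim
import Pool.Agent.Lib.P4a7640E.Pat

/-!
# The main theorem: repulsion of entropies
-/

open Finset Filter Topology MeasureTheory
open Pool.Agent.Lib.P4a7640 Pool.Agent.Lib.P4a7640D Pool.Agent.Lib.P4a7640T

namespace Pool.Agent.Lib.P4a7640E

open Classical in
/-- the lower bound for the sum of the entropies -/
noncomputable def bd {m : ℕ} (η : Fin m → ℝ) : ℝ :=
  max ((1 / 2) * ∑ i, (Real.log 2 - Real.binEntropy ((1 - Real.exp (-2 * η i)) / 2)))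
    (if ∀ i, η i ≤ Real.log 2 then ∑ i, (Real.log 2 - Real.binEntropy (Real.exp (-η i))) else 0)

theorem bd_pos {m : ℕ} (hm : m ≠ 0) (η : Fin m → ℝ) : 0 < bd η := by
  refine lt_of_lt_of_le ?_ (le_max_left _ _)
  refine mul_pos (by norm_num) ?_
  haveI : Nonempty (Fin m) := ⟨⟨0, Nat.pos_of_ne_zero hm⟩⟩
  refine Finset.sum_pos (fun i _ => ?_) Finset.univ_nonempty
  rw [sub_pos]
  refine Real.binEntropy_lt_log_two.2 ?_
  intro h
  have h1 : 0 < Real.exp (-2 * η i) := Real.exp_pos _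
  have h2 : (1 - Real.exp (-2 * η i)) / 2 < 2⁻¹ := by
    rw [div_lt_iff₀ two_pos]
    linarith
  exact absurd h h2.ne

theorem ineq_bd {m : ℕ} {f : Fin (m + 1) → ℕ → ℤˣ}
    (hf : ∀ i : Fin m, MultS fun n => f 0 n * f i.succ n)
    {q : Fin m → ℕ} (hq : ∀ i, 0 < q i) (χ : ∀ i, DirichletCharacter ℤ (q i))
    {η : Fin m → ℝ} (h0 : ∀ i, 0 ≤ η i)
    {l : Filter ℕ} (hl : l ≤ atTop)
    (htop : ∀ (i : Fin m) (c : ℕ) (δ : ℝ), 0 < δ →
      ∀ᶠ N in l, topMass c (fun n => f 0 n * f i.succ n) (χ i) N ≤ η i + δ)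
    (hap : ∀ i j : Fin (m + 1), i < j → Aperiodic fun n => f i n * f j n)
    (L : ℕ) (ε : ℝ) (hε : 0 < ε) :
    ∀ᶠ N in l, L * bd η - ε ≤ ∑ i, Ent N (blk (f i) L) := by
  classical
  have k2 := ineq_two hf hq χ h0 hl htop hap L ε hε
  have e2 : ∑ i, (Real.log 2 - Real.binEntropy ((1 - Real.exp (-(2 * η i))) / 2)) / 2 =
      (1 / 2) * ∑ i, (Real.log 2 - Real.binEntropy ((1 - Real.exp (-2 * η i)) / 2)) := by
    rw [Finset.mul_sum]
    refine Finset.sum_congr rfl fun i _ => ?_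
    rw [neg_mul]
    ring
  rw [e2] at k2
  have k3 : ∀ᶠ N in l, L * (if ∀ i, η i ≤ Real.log 2 then
      ∑ i, (Real.log 2 - Real.binEntropy (Real.exp (-η i))) else 0) - ε ≤
      ∑ i, Ent N (blk (f i) L) := by
    by_cases h1 : ∀ i, η i ≤ Real.log 2
    · rw [if_pos h1]
      exact ineq_one hf hq χ h0 h1 hl htop hap L ε hε
    · rw [if_neg h1]
      filter_upwards with N
      have : 0 ≤ ∑ i, Ent N (blk (f i) L) := Finset.sum_nonneg fun i _ => Ent_nonneg _ _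
      linarith
  filter_upwards [k2, k3] with N h2 h3
  unfold bd
  rcases le_total ((1 / 2) * ∑ i, (Real.log 2 - Real.binEntropy ((1 - Real.exp (-2 * η i)) / 2)))
    (if ∀ i, η i ≤ Real.log 2 then ∑ i, (Real.log 2 - Real.binEntropy (Real.exp (-η i))) else 0)
    with h | h
  · rw [max_eq_right h]
    exact h3
  · rw [max_eq_left h]
    exact h2

/-- the number of patterns -/
theorem pats_of_ineq {m : ℕ} {f : Fin (m + 1) → ℕ → ℤˣ} {l : Filter ℕ} [l.NeBot]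
    (hl : l ≤ atTop) {L : ℕ} {C : ℝ}
    (h : ∀ ε : ℝ, 0 < ε → ∀ᶠ N in l, C - ε ≤ ∑ i, Ent N (blk (f i) L)) :
    C ≤ ∑ i, Real.log (pats (f i) l L).card := by
  apply le_of_forall_pos_le_add
  intro ε hε
  set e : ℝ := ε / (m + 2) with he
  have he0 : 0 < e := by positivity
  have h2 : ∀ᶠ N in l, ∀ i, Ent N (blk (f i) L) ≤ Real.log (pats (f i) l L).card + e :=
    eventually_all.2 fun i => Ent_le_pats (f i) hl L he0
  obtain ⟨N, h3, h4⟩ := ((h e he0).and h2).exists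
  have h5 : ∑ i, Ent N (blk (f i) L) ≤ ∑ i, (Real.log (pats (f i) l L).card + e) :=
    Finset.sum_le_sum fun i _ => h4 i
  rw [Finset.sum_add_distrib, Finset.sum_const, Finset.card_univ, Fintype.card_fin,
    nsmul_eq_mul] at h5
  have h6 : ((m + 1 : ℕ) : ℝ) * e + e = ε := by
    rw [he]
    push_cast
    field_simp
    ring
  linarith

/-- entropies of Furstenberg systems -/
theorem furst_of_ineq {m : ℕ} {f : Fin (m + 1) → ℕ → ℤˣ} {l : Filter ℕ} [l.NeBot]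
    (hl : l ≤ atTop) {C : ℝ}
    (h : ∀ (L : ℕ) (ε : ℝ), 0 < ε → ∀ᶠ N in l, L * C - ε ≤ ∑ i, Ent N (blk (f i) L))
    {μ : Fin (m + 1) → Measure XX} (hμ : ∀ i, FurstAlong (f i) l (μ i)) :
    C ≤ ∑ i, hKS (μ i) := by
  have h1 : ∀ L : ℕ, L * C ≤ ∑ i, HM (μ i) L := by
    intro L
    apply le_of_forall_pos_le_add
    intro ε hε
    have h2 : Tendsto (fun N => ∑ i, Ent N (blk (f i) L)) l (𝓝 (∑ i, HM (μ i) L)) :=
      tendsto_finsetSum _ fun i _ => Ent_tendsto hl (hμ i) L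
    have h3 := ge_of_tendsto h2 (h L ε hε)
    linarith
  have h2 : Tendsto (fun L : ℕ => ∑ i, HM (μ i) L / L) atTop (𝓝 (∑ i, hKS (μ i))) :=
    tendsto_finsetSum _ fun i _ => hKS_tendsto hl (hμ i)
  refine ge_of_tendsto h2 ?_
  filter_upwards [eventually_ge_atTop 1] with L hL
  have hL0 : (0:ℝ) < L := by exact_mod_cast hL
  rw [← Finset.sum_div, le_div_iff₀ hL0]
  have := h1 L
  linarith

/-- **Repulsion of entropies.** -/
theorem main {m : ℕ} {f : Fin (m + 1) → ℕ → ℤˣ}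
    (hf : ∀ i : Fin m, MultS fun n => f 0 n * f i.succ n)
    {q : Fin m → ℕ} (hq : ∀ i, 0 < q i) (χ : ∀ i, DirichletCharacter ℤ (q i))
    {η : Fin m → ℝ} (h0 : ∀ i, 0 ≤ η i)
    {l : Filter ℕ} [l.NeBot] (hl : l ≤ atTop)
    (htop : ∀ (i : Fin m) (c : ℕ) (δ : ℝ), 0 < δ →
      ∀ᶠ N in l, topMass c (fun n => f 0 n * f i.succ n) (χ i) N ≤ η i + δ)
    (hap : ∀ i j : Fin (m + 1), i < j → Aperiodic fun n => f i n * f j n) :
    (∀ (L : ℕ) (ε : ℝ), 0 < ε → ∀ᶠ N in l, L * bd η - ε ≤ ∑ i, Ent N (blk (f i) L)) ∧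
    (∀ L : ℕ, L * bd η ≤ ∑ i, Real.log (pats (f i) l L).card) ∧
    (∀ μ : Fin (m + 1) → Measure XX, (∀ i, FurstAlong (f i) l (μ i)) →
      bd η ≤ ∑ i, hKS (μ i)) ∧ (m ≠ 0 → 0 < bd η) := by
  have hin := ineq_bd hf hq χ h0 hl htop hap
  exact ⟨hin, fun L => pats_of_ineq hl (hin L), fun μ hμ => furst_of_ineq hl hin hμ,
    fun hm => bd_pos hm η⟩

end Pool.Agent.Lib.P4a7640E
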