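import Mathlib
import Pool.Agent.Lib.P4a7640.Twist
import Pool.Agent.Lib.P4a7640E.EntA

/-!
# The law of a block from its correlations

Module P4a7640E.Law (1 h). Imports are black boxes.

`1_{v i (n+j) = x i j} = (1 + sg (x i j) * sg (v i (n+j))) / 2` (for signs). Take the product over
`s ∈ univ ×ˢ range L` (write `x'(i,j) = x i j` for `j < L`) and expand (`Finset.prod_one_add` or
`Finset.prod_add`): `1_{∀ i j, v i (n+j) = x i j} = 2^(-m L) * ∑ S ⊆ univ ×ˢ range L,
(∏ s ∈ S, sg (x' s)) * ∏ s ∈ S, sg (v s.1 (n + s.2))`. Divide the weighted sum over `n ≤ N` by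
`∑ 1/n` (`= LA 1 N * log N`, `LA 1 N ≥ 1` by `one_le_LA_one`): the term `S = ∅` gives `2^(-m L)`, each
of the other at most `2^(m L)` terms is in absolute value `≤ 2^(-m L) * |LA (..) N| ≤ 2^(-m L) * ε`.
-/

open Finset Filter Topology
open Pool.Agent.Lib.P4a7640

namespace Pool.Agent.Lib.P4a7640E

namespace LawAux

theorem one_add_sg (a b : ℤˣ) : 1 + sg a * sg b = if b = a then (2 : ℝ) else 0 := by
  rcases Int.units_eq_one_or a with rfl | rfl <;> rcases Int.units_eq_one_or b with rfl | rfl <;>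
    norm_num [sg]

theorem pr_eq {N : ℕ} (hN : 2 ≤ N) (P : ℕ → Prop) [DecidablePred P] :
    pr N P = LA (fun n => if P n then 1 else 0) N / LA (fun _ => 1) N := by
  have hl : 0 < Real.log N := Real.log_pos (by exact_mod_cast hN)
  unfold pr LA
  have e : (∑ n ∈ (Icc 1 N).filter (fun n => P n), (1:ℝ) / n) =
      ∑ n ∈ Icc 1 N, (if P n then (1:ℝ) else 0) / n := by
    rw [Finset.sum_filter]
    refine Finset.sum_congr rfl fun n _ => ?_
    by_cases h : P n
    · rw [if_pos h, if_pos h]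
    · rw [if_neg h, if_neg h, zero_div]
  have e' : (∑ n ∈ @Finset.filter ℕ (fun n => P n) (fun n => Classical.propDecidable (P n)) (Icc 1 N),
      (1:ℝ) / n) = ∑ n ∈ (Icc 1 N).filter (fun n => P n), (1:ℝ) / n := by
    refine Finset.sum_congr ?_ (fun _ _ => rfl)
    ext n
    simp only [mem_filter]
  rw [e', e]
  rw [div_div_div_cancel_right₀ hl.ne']

end LawAux

open LawAux

theorem law_of_corr {m L : ℕ} (v : Fin m → ℕ → ℤˣ) {N : ℕ} (hN : 2 ≤ N) {ε : ℝ} (hε : 0 ≤ ε)
    (h : ∀ S : Finset (Fin m × ℕ), S.Nonempty → S ⊆ univ ×ˢ range L →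
      |LA (fun n => ∏ s ∈ S, sg (v s.1 (n + s.2))) N| ≤ ε) (x : Fin m → Fin L → ℤˣ) :
    |pr N (fun n => ∀ (i : Fin m) (j : Fin L), v i (n + j) = x i j) - (1 / 2) ^ (m * L)| ≤ ε := by
  classical
  set T : Finset (Fin m × ℕ) := univ ×ˢ range L with hT
  set x' : Fin m × ℕ → ℤˣ := fun s => if h : s.2 < L then x s.1 ⟨s.2, h⟩ else 1 with hx'
  have hTcard : T.card = m * L := by
    rw [hT, card_product, card_univ, Fintype.card_fin, card_range]
  -- the indicator function
  have hind : ∀ n : ℕ, (2:ℝ) ^ (m * L) *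
      (if ∀ (i : Fin m) (j : Fin L), v i (n + j) = x i j then 1 else 0) =
      ∑ S ∈ T.powerset, (∏ s ∈ S, sg (x' s)) * ∏ s ∈ S, sg (v s.1 (n + s.2)) := by
    intro n
    have h1 : ∑ S ∈ T.powerset, (∏ s ∈ S, sg (x' s)) * ∏ s ∈ S, sg (v s.1 (n + s.2)) =
        ∏ s ∈ T, (1 + sg (x' s) * sg (v s.1 (n + s.2))) := by
      rw [Finset.prod_one_add]
      refine Finset.sum_congr rfl fun S _ => ?_
      rw [Finset.prod_mul_distrib]
    rw [h1]
    by_cases hP : ∀ (i : Fin m) (j : Fin L), v i (n + j) = x i j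
    · rw [if_pos hP, mul_one, ← hTcard, ← Finset.prod_const]
      refine Finset.prod_congr rfl fun s hs => ?_
      rw [hT, mem_product, mem_range] at hs
      rw [one_add_sg, if_pos]
      rw [hx']
      simp only
      rw [dif_pos hs.2]
      exact hP s.1 ⟨s.2, hs.2⟩
    · rw [if_neg hP, mul_zero]
      obtain ⟨i, hi⟩ := not_forall.1 hP
      obtain ⟨j, hj⟩ := not_forall.1 hi
      symm
      refine Finset.prod_eq_zero (i := (i, (j : ℕ))) ?_ ?_
      · rw [hT, mem_product, mem_range]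
        exact ⟨mem_univ _, j.2⟩
      · rw [one_add_sg, if_neg]
        rw [hx']
        simp only
        rw [dif_pos j.2]
        exact hj
  have hLA : (2:ℝ) ^ (m * L) *
      LA (fun n => if ∀ (i : Fin m) (j : Fin L), v i (n + j) = x i j then 1 else 0) N =
      ∑ S ∈ T.powerset, (∏ s ∈ S, sg (x' s)) * LA (fun n => ∏ s ∈ S, sg (v s.1 (n + s.2))) N := by
    rw [← LA_const_mul]
    simp only [hind]
    rw [LA_sum]
    refine Finset.sum_congr rfl fun S _ => ?_
    rw [LA_const_mul]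
  set M : ℝ := LA (fun _ => 1) N with hM
  have hM1 : 1 ≤ M := one_le_LA_one hN
  have hM0 : 0 < M := by linarith
  have hdiff : |(2:ℝ) ^ (m * L) *
      LA (fun n => if ∀ (i : Fin m) (j : Fin L), v i (n + j) = x i j then 1 else 0) N - M| ≤
      2 ^ (m * L) * ε := by
    rw [hLA]
    have hem : (∅ : Finset (Fin m × ℕ)) ∈ T.powerset := Finset.empty_mem_powerset T
    rw [← Finset.add_sum_erase _ _ hem]
    simp only [Finset.prod_empty, one_mul]
    rw [← hM, add_sub_cancel_left]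
    refine (Finset.abs_sum_le_sum_abs _ _).trans ?_
    have hb : ∀ S ∈ T.powerset.erase ∅,
        |(∏ s ∈ S, sg (x' s)) * LA (fun n => ∏ s ∈ S, sg (v s.1 (n + s.2))) N| ≤ ε := by
      intro S hS
      rw [mem_erase, mem_powerset] at hS
      rw [abs_mul, Finset.abs_prod, Finset.prod_congr rfl fun s _ => abs_sg (x' s),
        Finset.prod_const_one, one_mul]
      exact h S (Finset.nonempty_iff_ne_empty.2 hS.1) hS.2
    refine (Finset.sum_le_sum hb).trans ?_
    rw [Finset.sum_const, nsmul_eq_mul]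
    refine mul_le_mul_of_nonneg_right ?_ hε
    have h1 : (T.powerset.erase ∅).card ≤ 2 ^ (m * L) := by
      calc (T.powerset.erase ∅).card ≤ T.powerset.card := Finset.card_erase_le
        _ = 2 ^ (m * L) := by rw [card_powerset, hTcard]
    exact_mod_cast h1
  rw [pr_eq hN]
  have h2 : (0:ℝ) < 2 ^ (m * L) := by positivity
  set I : ℝ := LA (fun n => if ∀ (i : Fin m) (j : Fin L), v i (n + j) = x i j then 1 else 0) N
    with hI
  rw [← hM]
  have e1 : I / M - (1 / 2) ^ (m * L) = (2 ^ (m * L) * I - M) / (2 ^ (m * L) * M) := by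
    rw [one_div, inv_pow]
    field_simp
  rw [e1, abs_div, abs_of_pos (mul_pos h2 hM0), div_le_iff₀ (mul_pos h2 hM0)]
  calc |2 ^ (m * L) * I - M| ≤ 2 ^ (m * L) * ε := hdiff
    _ = ε * (2 ^ (m * L) * 1) := by ring
    _ ≤ ε * (2 ^ (m * L) * M) :=
        mul_le_mul_of_nonneg_left (mul_le_mul_of_nonneg_left hM1 h2.le) hε

end Pool.Agent.Lib.P4a7640E
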