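import Mathlib
import Pool.Agent.Lib.P4a7640E.CorrU
import Pool.Agent.Lib.P4a7640E.Law
import Pool.Agent.Lib.P4a7640E.Thin
import Pool.Agent.Lib.P4a7640E.Far
import Pool.Agent.Lib.P4a7640E.EntB

/-!
# The structure theorem and the entropy inequality
-/

open Finset Filter Topology
open Pool.Agent.Lib.P4a7640 Pool.Agent.Lib.P4a7640D Pool.Agent.Lib.P4a7640T

namespace Pool.Agent.Lib.P4a7640E

/-- at every large scale the functions `u i` agree with functions whose joint blocks are almost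
uniform, except on thin sets -/
theorem structure_thm {m : ℕ} {u : Fin m → ℕ → ℤˣ} (hu : ∀ i, MultS (u i)) {q : Fin m → ℕ}
    (hq : ∀ i, 0 < q i) (χ : ∀ i, DirichletCharacter ℤ (q i)) {η : Fin m → ℝ}
    (h0 : ∀ i, 0 ≤ η i) {l : Filter ℕ} (hl : l ≤ atTop)
    (htop : ∀ (i : Fin m) (c : ℕ) (δ : ℝ), 0 < δ →
      ∀ᶠ N in l, topMass c (u i) (χ i) N ≤ η i + δ)
    (hap : ∀ A : Finset (Fin m), A.Nonempty → Aperiodic fun n => ∏ i ∈ A, u i n)
    (L : ℕ) (ε : ℝ) (hε : 0 < ε) :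
    ∀ᶠ N in l, ∃ t : Fin m → ℕ → ℤˣ,
      (∀ i, ∀ j < L, pr N (fun n => t i (n + j) = -1) ≤ 1 - Real.exp (-η i) + ε) ∧
      ∀ x : Fin m → Fin L → ℤˣ,
        |pr N (fun n => ∀ (i : Fin m) (j : Fin L), u i (n + j) * t i (n + j) = x i j) -
          (1 / 2) ^ (m * L)| ≤ ε := by
  have hg : ∀ i, ∀ p : ℕ, p.Prime → ¬ p ∣ q i →
      sgC (gch (χ i) p) = cch (χ i) (p : ZMod (q i)) := fun i p hp hpq => sgC_gch (χ i) hp hpq
  obtain ⟨c, N₁, hcorr⟩ := corr_small (u := u) (g := fun i => gch (χ i)) hu hq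
    (fun i => cch (χ i)) hg (fun A hA => far hq χ A (hap A hA)) L ε hε
  have hthin := fun i => thin (h0 i) (2 ^ c) L hε
  choose δ N₂ hδ hN₂ using hthin
  have e1 : ∀ᶠ N in l, ∀ i, topMass (2 ^ c) (u i) (χ i) N ≤ η i + δ i :=
    eventually_all.2 fun i => htop i (2 ^ c) (δ i) (hδ i)
  have e2 : ∀ᶠ N in l, ∀ i, ∑ p ∈ TT c (u i) (gch (χ i)) N, (1:ℝ) / p ≤
      topMass (2 ^ c) (u i) (χ i) N :=
    (eventually_all.2 fun i => topMass_le (hq i) (χ i) (u i) c).filter_mono hl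
  have e3 : ∀ᶠ N in l, ∀ i, N₂ i ≤ N :=
    (eventually_all.2 fun i => eventually_ge_atTop (N₂ i)).filter_mono hl
  have e4 : ∀ᶠ N in l, N₁ ≤ N := (eventually_ge_atTop N₁).filter_mono hl
  have e5 : ∀ᶠ N in l, 2 ≤ N := (eventually_ge_atTop 2).filter_mono hl
  filter_upwards [e1, e2, e3, e4, e5] with N k1 k2 k3 k4 k5
  refine ⟨fun i => dsg (TT c (u i) (gch (χ i)) N), fun i j hj => ?_, ?_⟩
  · refine le_trans (pr_mono fun n hn => ?_) (hN₂ i N (k3 i) (TT c (u i) (gch (χ i)) N)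
      (fun p hp => ?_) ((k2 i).trans (k1 i)) j hj)
    · by_contra hcon
      push Not at hcon
      have h1 : ((TT c (u i) (gch (χ i)) N).filter fun p => p ∣ n + j) = ∅ :=
        Finset.filter_eq_empty_iff.2 fun p hp => hcon p hp
      have h2 : dsg (TT c (u i) (gch (χ i)) N) (n + j) = 1 := by
        unfold dsg
        rw [h1, Finset.card_empty, pow_zero]
      have h3 : dsg (TT c (u i) (gch (χ i)) N) (n + j) = -1 := hn
      rw [h2] at h3
      exact absurd h3 (by decide)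
    · have h1 := (Finset.mem_filter.1 hp).2
      exact ⟨h1.1, h1.2.1⟩
  · intro x
    exact law_of_corr (fun i => vv c (u i) (gch (χ i)) N) k5 hε.le
      (fun S hS hSL => (hcorr N k4 S hS hSL).le) x

end Pool.Agent.Lib.P4a7640E
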