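import Mathlib
import Pool.Agent.Lib.P4a7640E.Struct
import Pool.Agent.Lib.P4a7640E.Lim
import Pool.Agent.Lib.P4a7640E.Pat

/-!
# The entropy inequality
-/

open Finset Filter Topology
open Pool.Agent.Lib.P4a7640 Pool.Agent.Lib.P4a7640D Pool.Agent.Lib.P4a7640T

namespace Pool.Agent.Lib.P4a7640E

/-- the finite form of the entropy inequality, deduced from the structure theorem -/
theorem ineq_of_structure {m : ℕ} {f : Fin (m + 1) → ℕ → ℤˣ} {η : Fin m → ℝ}
    (h0 : ∀ i, 0 ≤ η i) (h1 : ∀ i, η i ≤ Real.log 2) {l : Filter ℕ} (hl : l ≤ atTop)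
    (hst : ∀ (L : ℕ) (ε : ℝ), 0 < ε → ∀ᶠ N in l, ∃ t : Fin m → ℕ → ℤˣ,
      (∀ i, ∀ j < L, pr N (fun n => t i (n + j) = -1) ≤ 1 - Real.exp (-η i) + ε) ∧
      ∀ x : Fin m → Fin L → ℤˣ,
        |pr N (fun n => ∀ (i : Fin m) (j : Fin L),
          f 0 (n + j) * f i.succ (n + j) * t i (n + j) = x i j) - (1 / 2) ^ (m * L)| ≤ ε)
    (L : ℕ) (ε : ℝ) (hε : 0 < ε) :
    ∀ᶠ N in l, L * (m * Real.log 2 - ∑ i, Real.binEntropy (Real.exp (-η i))) - ε ≤
      ∑ i, Ent N (blk (f i) L) := by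
  classical
  -- constants
  set θ : Fin m → ℝ := fun i => 1 - Real.exp (-η i) with hθ
  have hθ0 : ∀ i, 0 ≤ θ i := by
    intro i
    have : Real.exp (-η i) ≤ 1 := Real.exp_le_one_iff.2 (by linarith [h0 i])
    simp only [hθ]; linarith
  have hθ1 : ∀ i, θ i ≤ 2⁻¹ := by
    intro i
    have : Real.exp (-Real.log 2) ≤ Real.exp (-η i) := Real.exp_le_exp.2 (by linarith [h1 i])
    rw [Real.exp_neg, Real.exp_log (by norm_num)] at this
    simp only [hθ]; linarith
  set ε₁ : ℝ := ε / (2 * (L * m + 1)) with hε₁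
  have hε₁0 : 0 < ε₁ := by positivity
  choose δ₁ hδ₁ hbin using fun i => bin_cont (hθ0 i) (hθ1 i) hε₁0
  obtain ⟨δ₂, hδ₂, hunif⟩ := Ent_unif (α := Fin m → Fin L → ℤˣ) (half_pos hε)
  obtain ⟨δ, hδ0, hδi, hδ2⟩ : ∃ δ : ℝ, 0 < δ ∧ (∀ i, δ ≤ δ₁ i) ∧ δ ≤ δ₂ := by
    have k1 : ∀ᶠ δ : ℝ in 𝓝[>] 0, ∀ i, δ ≤ δ₁ i := eventually_all.2 fun i =>
      (eventually_le_nhds (hδ₁ i)).filter_mono nhdsWithin_le_nhds
    have k2 : ∀ᶠ δ : ℝ in 𝓝[>] 0, δ ≤ δ₂ :=
      (eventually_le_nhds hδ₂).filter_mono nhdsWithin_le_nhds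
    obtain ⟨δ, ⟨h1, h2⟩, h3⟩ := ((k1.and k2).and self_mem_nhdsWithin).exists
    exact ⟨δ, h3, h1, h2⟩
  filter_upwards [hst L δ hδ0, (eventually_ge_atTop 1).filter_mono hl] with N hN hN1
  obtain ⟨t, ht1, ht2⟩ := hN
  -- the big vector
  set W : ℕ → Fin m → Fin L → ℤˣ := fun n i j => f 0 (n + j) * f i.succ (n + j) * t i (n + j)
    with hW
  have hcard : (Fintype.card (Fin m → Fin L → ℤˣ) : ℝ) = 2 ^ (m * L) := by
    rw [Fintype.card_fun, Fintype.card_fun, Fintype.card_fin, Fintype.card_fin,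
      Fintype.card_units_int, mul_comm m L, pow_mul]
    push_cast
    rfl
  have hlogcard : Real.log (Fintype.card (Fin m → Fin L → ℤˣ)) = m * L * Real.log 2 := by
    rw [hcard, Real.log_pow]
    push_cast
    ring
  have k1 : m * L * Real.log 2 - ε / 2 ≤ Ent N W := by
    rw [← hlogcard]
    apply hunif
    intro x
    have e1 : pr N (fun n => W n = x) = pr N (fun n => ∀ (i : Fin m) (j : Fin L),
        f 0 (n + j) * f i.succ (n + j) * t i (n + j) = x i j) := by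
      apply pr_congr
      intro n _ _
      simp only [hW, funext_iff]
    rw [e1, hcard, ← one_div_pow]
    exact (ht2 x).trans hδ2
  -- upper bound
  have k2 : Ent N W ≤ ∑ i, Ent N (blk (f i) L) + ∑ i, Ent N (blk (t i) L) := by
    set X : Fin (m + 1) → ℕ → Fin L → ℤˣ := fun i => blk (f i) L with hX
    set Y : Fin m → ℕ → Fin L → ℤˣ := fun i => blk (t i) L with hY
    have e1 : Ent N W ≤ Ent N (fun n => ((fun i => X i n), (fun i => Y i n))) := by
      have := Ent_comp N (fun n => ((fun i => X i n), (fun i => Y i n)))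
        (fun z : (Fin (m + 1) → Fin L → ℤˣ) × (Fin m → Fin L → ℤˣ) =>
          fun (i : Fin m) (j : Fin L) => z.1 0 j * z.1 i.succ j * z.2 i j)
      exact this
    refine e1.trans ((Ent_pair N (fun n => (fun i => X i n)) (fun n => (fun i => Y i n))).trans ?_)
    exact add_le_add (Ent_pi N X) (Ent_pi N Y)
  have k3 : ∀ i, Ent N (blk (t i) L) ≤ L * (Real.binEntropy (Real.exp (-η i)) + ε₁) := by
    intro i
    have e1 : Ent N (blk (t i) L) ≤ ∑ j : Fin L, Ent N (fun n => t i (n + j)) :=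
      Ent_pi N (fun (j : Fin L) n => t i (n + j))
    refine e1.trans ?_
    have e2 : ∀ j ∈ (Finset.univ : Finset (Fin L)), Ent N (fun n => t i (n + j)) ≤
        Real.binEntropy (Real.exp (-η i)) + ε₁ := by
      intro j _
      rw [Ent_sign hN1]
      have e3 := hbin i (pr N fun n => t i (n + j) = -1) (pr_nonneg _ _) (pr_le_one _ _)
        ((ht1 i j j.2).trans (by have := hδi i; simp only [hθ]; linarith))
      have e4 : Real.binEntropy (θ i) = Real.binEntropy (Real.exp (-η i)) := by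
        simp only [hθ]
        exact Real.binEntropy_one_sub _
      rwa [e4] at e3
    refine (Finset.sum_le_sum e2).trans (le_of_eq ?_)
    rw [Finset.sum_const, Finset.card_univ, Fintype.card_fin, nsmul_eq_mul]
  have k4 : ∑ i, Ent N (blk (t i) L) ≤
      ∑ i, (L:ℝ) * (Real.binEntropy (Real.exp (-η i)) + ε₁) := Finset.sum_le_sum fun i _ => k3 i
  have k5 : ∑ i : Fin m, (L:ℝ) * (Real.binEntropy (Real.exp (-η i)) + ε₁) =
      L * ∑ i, Real.binEntropy (Real.exp (-η i)) + L * m * ε₁ := by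
    rw [← Finset.mul_sum, Finset.sum_add_distrib, Finset.sum_const, Finset.card_univ,
      Fintype.card_fin, nsmul_eq_mul]
    ring
  have k6 : (L:ℝ) * m * ε₁ ≤ ε / 2 := by
    have h2 : (L:ℝ) * m * ε₁ = (L * m / (L * m + 1)) * (ε / 2) := by
      rw [hε₁]
      field_simp
    have h3 : (L:ℝ) * m / (L * m + 1) ≤ 1 := by
      rw [div_le_one (by positivity)]
      linarith
    rw [h2]
    nlinarith
  nlinarith

end Pool.Agent.Lib.P4a7640E
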