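import Mathlib
import Pool.Agent.Lib.P4a7640E.Final

/-!
# The case when all the functions except the first are constant
-/

open Finset Filter Topology MeasureTheory
open Pool.Agent.Lib.P4a7640 Pool.Agent.Lib.P4a7640D Pool.Agent.Lib.P4a7640T

namespace Pool.Agent.Lib.P4a7640E

theorem pr_false (N : ℕ) : pr N (fun _ => False) = 0 := by
  classical
  simp [pr]

/-- the blocks of the constant function `1` have entropy zero -/
theorem Ent_const {g : ℕ → ℤˣ} (hg : ∀ n, g n = 1) (L : ℕ) {N : ℕ} (hN : 1 ≤ N) :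
    Ent N (blk g L) = 0 := by
  classical
  unfold Ent
  refine Finset.sum_eq_zero fun a _ => ?_
  by_cases ha : a = fun _ => 1
  · have h1 : (fun n => blk g L n = a) = fun _ => True := by
      funext n
      refine eq_true ?_
      rw [ha]
      funext j
      exact hg _
    rw [h1, pr_true hN, Real.negMulLog_one]
  · have h1 : (fun n => blk g L n = a) = fun _ => False := by
      funext n
      refine eq_false fun h => ha ?_
      rw [← h]
      funext j
      exact hg _
    rw [h1, pr_false, Real.negMulLog_zero]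

/-- if all the functions `f i`, `i ≥ 1`, are constant then the bound holds for `f 0` alone -/
theorem single {m : ℕ} {f : Fin (m + 1) → ℕ → ℤˣ} {l : Filter ℕ} [l.NeBot]
    (hl : l ≤ atTop) {C : ℝ}
    (h : ∀ (L : ℕ) (ε : ℝ), 0 < ε → ∀ᶠ N in l, L * C - ε ≤ ∑ i, Ent N (blk (f i) L))
    (h1 : ∀ (i : Fin m) (n : ℕ), f i.succ n = 1) :
    (∀ μ : Measure XX, FurstAlong (f 0) l μ → C ≤ hKS μ) ∧
    (∀ L : ℕ, L * C ≤ Real.log (pats (f 0) l L).card) := by
  have h2 : ∀ (L : ℕ) (ε : ℝ), 0 < ε → ∀ᶠ N in l,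
      L * C - ε ≤ ∑ i : Fin (0 + 1), Ent N (blk ((fun _ => f 0 : Fin (0 + 1) → ℕ → ℤˣ) i) L) := by
    intro L ε hε
    filter_upwards [h L ε hε, hl (eventually_ge_atTop 1)] with N h3 h4
    rw [Fin.sum_univ_succ] at h3
    rw [Finset.sum_eq_zero fun i _ => Ent_const (h1 i) L h4, add_zero] at h3
    simpa using h3
  refine ⟨fun μ hμ => ?_, fun L => ?_⟩
  · have := furst_of_ineq (m := 0) (f := fun _ => f 0) hl h2 (μ := fun _ => μ) fun _ => hμ
    simpa using this
  · have := pats_of_ineq (m := 0) (f := fun _ => f 0) hl (h2 L)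
    simpa using this

end Pool.Agent.Lib.P4a7640E
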